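import Mathlib
import Pool.Agent.H358R5.Stubs
import Pool.Agent.H358R5.CONV1
import Pool.Agent.H358R5.CONV2
import Pool.Agent.H358R5.IDENT
import Pool.Agent.H358R5.LCD
import Pool.Agent.H358R5.LCZ
import Pool.Agent.H358R5.PD
import Pool.Agent.H358R5.GB
import Pool.Agent.H358R5.GC
import Pool.Agent.H358R5.GD
import Pool.Agent.H358R5.GE
import Pool.Agent.H358R5.GF
import Pool.Agent.H358R5.GG
import Pool.Agent.H358R5.HARM
import Pool.Agent.H358R5.CROSS
import Pool.Agent.H358R5.PSI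

/-! helper29: the lower bound `M_K ≥ log K - 29 / 50` of the starting files (`Pool.Agent.H358R5`) with a real
parameter in place of a natural number.  The proofs are those of the starting files. -/

set_option autoImplicit false

open Finset

namespace Pool.Agent.J4H29.MK

open Pool.Agent.H358R5

/-- `b = 4m (1 + 8 m e^{-4m})` -/
noncomputable def bmr (m : ℝ) : ℝ := 4 * m + 32 * m ^ 2 * Real.exp (-(4 * m))

/-- the hypotheses of the final inequality (`K, L, N` real here) -/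
structure FHr (m : ℝ) (K L N s Λ u x : ℝ) : Prop where
  m2 : 2 ≤ m
  hK : 4 * m + 29 / 50 ≤ Real.log K
  K0 : 0 < K
  hL : 100 * K ≤ L
  N1 : bmr m * (L * K) ≤ N
  N2 : N ≤ bmr m * (L * K) + 1
  s0 : 0 < s
  u0 : 0 < u
  u1 : u ≤ 1
  hΛ : Λ = u * x
  hx : N / (L * K) + 1 - s / (L * K) ≤ x
  F2 : Real.log (1 + s) - Real.log L - 289 / 500 ≤ Λ
  F3 : Λ ≤ Real.log (1 + s / L)
  F4 : L * (s / (L + 1) - Λ) ≤ u * (1 + s)
  F5 : Λ ^ 2 ≤ s * u / L
  F6 : s / (1 + s + L) ≤ Λ

/-- CASEA -/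
def S_CASEAr : Prop := ∀ (m : ℝ) (K L N s Λ u x : ℝ), FHr m K L N s Λ u x → s ≤ L * K →
  4 * m * N * u ≤ K * L * Λ ^ 2

/-- CASEB -/
def S_CASEBr : Prop := ∀ (m : ℝ) (K L N s Λ u x : ℝ), FHr m K L N s Λ u x → L * K < s →
  4 * m * N * u ≤ K * L * Λ ^ 2

/-- ASM: `φ(r) = D_n(N - r)/D_n(N)` -/
def S_ASMr : Prop := ∀ (m : ℝ) (L K0 N : ℕ), 2 ≤ m → 4 * (m : ℝ) + 29 / 50 ≤ Real.log (K0 + 1) →
  100 * (K0 + 1) ≤ L →
  bmr m * ((L : ℝ) * (K0 + 1)) ≤ N → (N : ℝ) ≤ bmr m * ((L : ℝ) * (K0 + 1)) + 1 →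
  4 * m * N * D L (K0 + 1) N ≤ (K0 + 1) * ∑ s ∈ range (N + 1), A L K0 s * B L (N - s) ^ 2



/-- the arithmetic facts on `e^{4m}` -/
theorem CASEA_exp (m : ℝ) (hm : 2 ≤ m) : (1490 : ℝ) * m ≤ Real.exp (4 * m) := by
  have h8 : (2980 : ℝ) ≤ Real.exp 8 := by
    have h1 : (2.7182818283 : ℝ) < Real.exp 1 := Real.exp_one_gt_d9
    have h2 : Real.exp 8 = Real.exp 1 ^ 8 := by
      rw [← Real.exp_nat_mul]; norm_num
    rw [h2]
    have h3 : (2.7182818283 : ℝ) ^ 8 ≤ Real.exp 1 ^ 8 :=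
      pow_le_pow_left₀ (by norm_num) h1.le 8
    refine le_trans ?_ h3
    norm_num
  have hm' : (2 : ℝ) ≤ m := hm
  have h2 : Real.exp (4 * m) = Real.exp 8 * Real.exp (4 * (m - 2)) := by
    rw [← Real.exp_add]; congr 1; ring
  have h3 : 1 + 4 * ((m : ℝ) - 2) ≤ Real.exp (4 * (m - 2)) := by
    have := Real.add_one_le_exp (4 * ((m : ℝ) - 2))
    linarith
  rw [h2]
  have h4 : (m : ℝ) / 2 ≤ Real.exp (4 * (m - 2)) := by linarith
  calc (1490 : ℝ) * m = 2980 * (m / 2) := by ring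
    _ ≤ Real.exp 8 * Real.exp (4 * (m - 2)) :=
      mul_le_mul h8 h4 (by positivity) (Real.exp_pos _).le

/-- step (ii) -/
theorem CASEA_ii {L z th b u Λ x s : ℝ} (L0 : 0 < L) (hLth : L * th = 1) (th0 : 0 < th)
    (z0 : 0 < z) (hsz : s = z * L) (b0 : 0 < b) (u0 : 0 < u) (hxb : b ≤ x) (hΛ : Λ = u * x)
    (F4 : L * (s / (L + 1) - Λ) ≤ u * (1 + s)) : b * z * (1 - th) ≤ Λ * (b + z + th) := by
  have e1 : z * (1 - th) ≤ s / (L + 1) := by
    rw [le_div_iff₀ (by positivity), hsz]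
    have : z * (1 - th) * (L + 1) = z * (L + 1 - L * th - th) := by ring
    rw [this, hLth]
    have := mul_pos z0 th0
    have e : z * (L + 1 - 1 - th) = z * L - z * th := by ring
    rw [e]; linarith
  have e2 : L * (z * (1 - th) - Λ) ≤ L * (u * (th + z)) := by
    calc L * (z * (1 - th) - Λ) ≤ L * (s / (L + 1) - Λ) :=
          mul_le_mul_of_nonneg_left (by linarith) L0.le
      _ ≤ u * (1 + s) := F4
      _ = L * (u * (th + z)) := by
          have : L * (u * (th + z)) = u * (L * th + z * L) := by ring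
          rw [this, hLth, hsz]
  have e3 : z * (1 - th) - Λ ≤ u * (th + z) := le_of_mul_le_mul_left e2 L0
  have e4' : b * u ≤ Λ := by
    rw [hΛ, mul_comm b u]; exact mul_le_mul_of_nonneg_left hxb u0.le
  have e5 : b * (u * (th + z)) ≤ Λ * (th + z) := by
    have : b * (u * (th + z)) = (b * u) * (th + z) := by ring
    rw [this]
    exact mul_le_mul_of_nonneg_right e4' (by positivity)
  have e6 : b * (z * (1 - th) - Λ) ≤ b * (u * (th + z)) :=
    mul_le_mul_of_nonneg_left e3 b0.le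
  have e7 : b * (z * (1 - th) - Λ) = b * z * (1 - th) - b * Λ := by ring
  have e8 : Λ * (b + z + th) = Λ * (th + z) + b * Λ := by ring
  rw [e7] at e6
  rw [e8]
  linarith

/-- step (iii) -/
theorem CASEA_iii {m z th b Λ E e4 : ℝ} (hm : 2 ≤ m) (z0 : 0 < z) (th0 : 0 < th) (E0 : 0 < E)
    (e40 : 0 < e4) (hEe : E * e4 = 1) (hmE : m * E ≤ 1 / 1490) (hthE : 158 * th ≤ E)
    (hbdef : b = 4 * m + 32 * m * (m * E)) (hΛ4 : Λ < 4 * m)
    (h : b * z * (1 - th) ≤ Λ * (b + z + th)) : z ≤ 0.51 * e4 := by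
  have hm0 : 0 < m := by linarith
  have hmE0 : 0 < m * E := by positivity
  have hb0 : 0 < b := by rw [hbdef]; positivity
  have hbu : b ≤ 4 * m * (1 + 8 / 1490) := by
    have := mul_le_mul_of_nonneg_left hmE (by positivity : (0 : ℝ) ≤ 32 * m)
    rw [hbdef]; linarith
  have h2 : Λ * (b + z + th) ≤ 4 * m * (b + z + th) :=
    mul_le_mul_of_nonneg_right hΛ4.le (by positivity)
  have h3 : z * (b * (1 - th) - 4 * m) ≤ 4 * m * (b + th) := by
    have e1 : z * (b * (1 - th) - 4 * m) = b * z * (1 - th) - 4 * m * z := by ring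
    have e2 : 4 * m * (b + z + th) = 4 * m * (b + th) + 4 * m * z := by ring
    rw [e2] at h2
    rw [e1]; linarith
  have hE2 : 2 * E ≤ m * E := mul_le_mul_of_nonneg_right hm E0.le
  have h5 : b * th ≤ 4 * m * (0.01 * (m * E)) := by
    have h6 : b * th ≤ (4 * m * (1 + 8 / 1490)) * th :=
      mul_le_mul_of_nonneg_right hbu th0.le
    have h7 : (1 + 8 / 1490 : ℝ) * th ≤ 0.01 * (m * E) := by
      norm_num at hthE hE2 ⊢
      linarith
    calc b * th ≤ (4 * m * (1 + 8 / 1490)) * th := h6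
      _ = 4 * m * ((1 + 8 / 1490 : ℝ) * th) := by ring
      _ ≤ 4 * m * (0.01 * (m * E)) := mul_le_mul_of_nonneg_left h7 (by positivity)
  have h4 : 4 * m * (7.99 * (m * E)) ≤ b * (1 - th) - 4 * m := by
    have h8 : b * (1 - th) - 4 * m = 4 * m * (8 * (m * E)) - b * th := by
      have e1 : b * (1 - th) = b - b * th := by ring
      have e2 : b = 4 * m + 4 * m * (8 * (m * E)) := by rw [hbdef]; ring
      rw [e1]
      linarith
    have h9 : 4 * m * (7.99 * (m * E)) = 4 * m * (8 * (m * E)) - 4 * m * (0.01 * (m * E)) := by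
      ring
    rw [h8, h9]
    linarith
  have h9 : z * (4 * m * (7.99 * (m * E))) ≤ 4 * m * (b + th) :=
    (mul_le_mul_of_nonneg_left h4 z0.le).trans h3
  have h10 : z * (7.99 * (m * E)) ≤ b + th := by
    have : (4 * m) * (z * (7.99 * (m * E))) ≤ (4 * m) * (b + th) := by
      calc (4 * m) * (z * (7.99 * (m * E))) = z * (4 * m * (7.99 * (m * E))) := by ring
        _ ≤ 4 * m * (b + th) := h9
    exact le_of_mul_le_mul_left this (by positivity)
  have h11 : b + th ≤ 4.06 * m := by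
    norm_num at hbu hthE hE2 hmE ⊢
    linarith
  have h12 : m * (7.99 * (z * E)) ≤ m * 4.06 := by
    calc m * (7.99 * (z * E)) = z * (7.99 * (m * E)) := by ring
      _ ≤ b + th := h10
      _ ≤ m * 4.06 := by linarith
  have h13 : 7.99 * (z * E) ≤ 4.06 := le_of_mul_le_mul_left h12 hm0
  have h14 : z * E ≤ 0.51 := by
    norm_num at h13 ⊢
    linarith
  have h15 : z * E * e4 ≤ 0.51 * e4 := mul_le_mul_of_nonneg_right h14 e40.le
  calc z = z * (E * e4) := by rw [hEe, mul_one]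
    _ = z * E * e4 := by ring
    _ ≤ 0.51 * e4 := h15

theorem CASEA_half : (0.6 : ℝ) ≤ Real.exp (-(1 / 2)) := by
  have h5 : Real.exp (-(1 / 2)) * Real.exp (-(1 / 2)) = Real.exp (-1) := by
    rw [← Real.exp_add]; norm_num
  have h6 : (0.36 : ℝ) ≤ Real.exp (-1) := by
    have := Real.exp_neg_one_gt_d9
    linarith
  by_contra h7
  rw [not_le] at h7
  have h8 := Real.exp_pos (-(1 / 2 : ℝ))
  have h9 : Real.exp (-(1 / 2)) * Real.exp (-(1 / 2)) < 0.6 * 0.6 :=
    mul_lt_mul h7 h7.le h8 (by norm_num)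
  rw [h5] at h9
  norm_num at h9 h6
  linarith

theorem CASEA_two : Real.exp 2 ≤ 7.9 := by
  have h2 : Real.exp 2 = Real.exp 1 ^ 2 := by
    rw [← Real.exp_nat_mul]; norm_num
  have h3 : Real.exp 1 < 2.7182818286 := Real.exp_one_lt_d9
  have h4 : Real.exp 1 ^ 2 ≤ 2.7182818286 ^ 2 := pow_le_pow_left₀ (Real.exp_pos _).le h3.le 2
  rw [h2]
  refine h4.trans ?_
  norm_num

/-- step (iv) -/
theorem CASEA_iv {z th b y E e4 : ℝ} (z0 : 0 < z) (th0 : 0 < th)
    (hEe : E * e4 = 1) (E0 : 0 < E) (hthE : 158 * th ≤ E)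
    (hz51 : z ≤ 0.51 * e4) (hb8 : 8 ≤ b) (hy2 : 2 ≤ y) (hyz : y ≤ z)
    (h16 : b * z * (1 - th) ≤ y * (b + z + th))
    (hψ : b * y ^ 2 / 24 ≤ (b - y) * z - b * y) : False := by
  have b0 : 0 < b := by linarith
  have h17 : b * y ^ 2 / 24 ≤ th * (y + b * z) := by
    have e1 : (b - y) * z - b * y = b * z * (1 - th) - y * (b + z + th) + th * (y + b * z) := by
      ring
    rw [e1] at hψ
    linarith
  have h18 : th * (y + b * z) ≤ th * (2 * (b * z)) := by
    refine mul_le_mul_of_nonneg_left ?_ th0.le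
    have : z ≤ b * z := by
      have := mul_le_mul_of_nonneg_right (show (1 : ℝ) ≤ b by linarith) z0.le
      rwa [one_mul] at this
    linarith
  have h19 : th * z ≤ 0.51 / 158 := by
    have h20 : th * z ≤ (E / 158) * (0.51 * e4) :=
      mul_le_mul (by linarith) hz51 z0.le (by positivity)
    have h21 : (E / 158) * (0.51 * e4) = 0.51 / 158 * (E * e4) := by ring
    rw [h21, hEe] at h20
    linarith
  have h22 : b * y ^ 2 / 24 ≤ 2 * b * (0.51 / 158) := by
    calc b * y ^ 2 / 24 ≤ th * (2 * (b * z)) := h17.trans h18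
      _ = 2 * b * (th * z) := by ring
      _ ≤ 2 * b * (0.51 / 158) := mul_le_mul_of_nonneg_left h19 (by linarith)
  have hyy : (4 : ℝ) ≤ y ^ 2 := by
    have := mul_le_mul hy2 hy2 (by norm_num) (by linarith : (0 : ℝ) ≤ y)
    calc (4 : ℝ) = 2 * 2 := by norm_num
      _ ≤ y * y := this
      _ = y ^ 2 := by ring
  have h23 : b * (4 : ℝ) ≤ b * y ^ 2 := mul_le_mul_of_nonneg_left hyy b0.le
  norm_num at h22
  linarith

theorem CASEA_proof (h : S_PSI) : S_CASEAr := by
  intro m K L N s Λ u x H hs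
  obtain ⟨m2, hK, K0, hL, N1, N2, s0, u0, u1, hΛ, hx, F2, F3, F4, F5, F6⟩ := H
  have hm' : (2 : ℝ) ≤ m := by exact_mod_cast m2
  have hm0 : (0 : ℝ) < m := by linarith
  set e4 : ℝ := Real.exp (4 * m) with he4
  set E : ℝ := Real.exp (-(4 * m)) with hE
  have e40 : 0 < e4 := Real.exp_pos _
  have E0 : 0 < E := Real.exp_pos _
  have hEe : E * e4 = 1 := by
    rw [hE, he4, ← Real.exp_add]; simp
  have h1490 := CASEA_exp m m2
  rw [← he4] at h1490
  have hmE : (m : ℝ) * E ≤ 1 / 1490 := by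
    have h1 : 1490 * m * E ≤ e4 * E := mul_le_mul_of_nonneg_right h1490 E0.le
    have h2 : e4 * E = 1 := by rw [mul_comm]; exact hEe
    rw [h2] at h1
    linarith
  -- `K` is large
  have hKe : 1.58 * e4 ≤ K := by
    have h1 : Real.exp (4 * m + 29 / 50) ≤ K := by
      rw [← Real.exp_log K0]; exact Real.exp_le_exp.2 hK
    rw [Real.exp_add] at h1
    have h2 : (1.58 : ℝ) ≤ Real.exp (29 / 50) := by
      have := Real.add_one_le_exp (29 / 50 : ℝ)
      norm_num at this ⊢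
      linarith
    have h3 : e4 * 1.58 ≤ e4 * Real.exp (29 / 50) := mul_le_mul_of_nonneg_left h2 e40.le
    linarith
  have hLe : 158 * e4 ≤ L := by norm_num at hKe; linarith
  have L0 : 0 < L := by linarith
  set th : ℝ := 1 / L with hth
  have th0 : 0 < th := by positivity
  have hLth : L * th = 1 := by rw [hth]; field_simp
  have hthE : 158 * th ≤ E := by
    have h1 : 158 * e4 * th ≤ L * th := mul_le_mul_of_nonneg_right hLe th0.le
    rw [hLth] at h1
    have h2 : E * (158 * e4 * th) ≤ E * 1 := mul_le_mul_of_nonneg_left h1 E0.le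
    have h3 : E * (158 * e4 * th) = (E * e4) * (158 * th) := by ring
    rw [h3, hEe] at h2
    linarith
  set z : ℝ := s / L with hz
  have z0 : 0 < z := by positivity
  have hsz : s = z * L := by rw [hz]; field_simp
  set b : ℝ := bmr m with hb
  have hbdef : b = 4 * m + 32 * m * (m * E) := by
    rw [hb, bmr, ← hE]; ring
  have hmE0 : 0 < (m : ℝ) * E := by positivity
  have hb4 : 4 * (m : ℝ) ≤ b := by
    rw [hbdef]
    have : 0 < 32 * (m : ℝ) * (m * E) := by positivity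
    linarith
  have hb8 : 8 ≤ b := by linarith
  have b0 : 0 < b := by linarith
  have LK0 : 0 < L * K := by positivity
  set b' : ℝ := N / (L * K) with hb'
  have hbb' : b ≤ b' := by
    rw [hb', le_div_iff₀ LK0]; exact N1
  have hsLK : s / (L * K) ≤ 1 := by
    rw [div_le_one LK0]; exact hs
  have hxb' : b' ≤ x := by linarith
  have hxb : b ≤ x := hbb'.trans hxb'
  have x0 : 0 < x := by linarith
  have hN : N = b' * (L * K) := by rw [hb']; field_simp
  have hΛ0 : 0 < Λ := by rw [hΛ]; positivity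
  by_contra hcon
  rw [not_le] at hcon
  -- `Λ x < 4 m b'`
  have h1 : Λ * x < 4 * m * b' := by
    have e1 : K * L * Λ ^ 2 = (L * K * u) * (Λ * x) := by rw [hΛ]; ring
    have e2 : 4 * m * N * u = (L * K * u) * (4 * m * b') := by rw [hN]; ring
    rw [e1, e2] at hcon
    exact lt_of_mul_lt_mul_left hcon (by positivity)
  have hΛ4 : Λ < 4 * m := by
    have h2 : Λ * x < 4 * m * x := lt_of_lt_of_le h1 (mul_le_mul_of_nonneg_left hxb' (by positivity))
    exact lt_of_mul_lt_mul_right h2 x0.le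
  -- (i)
  have hF6 : z ≤ Λ * (1 + z + th) := by
    rw [div_le_iff₀ (by positivity)] at F6
    have e1 : s = L * z := by rw [hsz]; ring
    have e2 : Λ * (1 + s + L) = L * (Λ * (1 + z + th)) := by
      rw [hsz]
      have : L * (Λ * (1 + z + th)) = Λ * (L + z * L + L * th) := by ring
      rw [this, hLth]; ring
    rw [e2] at F6
    have F6' : L * z ≤ L * (Λ * (1 + z + th)) := by rw [← e1]; exact F6
    exact le_of_mul_le_mul_left F6' L0
  have hF5 : Λ * x ≤ z := by
    have e1 : s * u / L = z * u := by rw [hz]; ring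
    rw [e1] at F5
    have e2 : Λ ^ 2 = (Λ * x) * u := by
      have : Λ ^ 2 = Λ * Λ := by ring
      rw [this]; nth_rewrite 2 [hΛ]; ring
    rw [e2] at F5
    exact le_of_mul_le_mul_right F5 u0
  have hth1 : th ≤ 1 / 1000 := by
    have h2E : 2 * E ≤ m * E := mul_le_mul_of_nonneg_right hm' E0.le
    linarith
  have hxz : x ≤ 1 + z + th := by
    have h2 : Λ * x ≤ Λ * (1 + z + th) := hF5.trans hF6
    exact le_of_mul_le_mul_left h2 hΛ0
  have hz69 : 6.9 ≤ z := by norm_num; linarith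
  -- (ii)
  have hF4 : b * z * (1 - th) ≤ Λ * (b + z + th) :=
    CASEA_ii L0 hLth th0 z0 hsz b0 u0 hxb hΛ F4
  -- (iii)
  have hz51 : z ≤ 0.51 * e4 :=
    CASEA_iii hm' z0 th0 E0 e40 hEe hmE hthE hbdef hΛ4 hF4
  -- (iv)
  set y : ℝ := Real.log (1 + z) with hy
  have hey : Real.exp y = 1 + z := Real.exp_log (by positivity)
  have hy2 : 2 ≤ y := by
    rw [hy, Real.le_log_iff_exp_le (by positivity)]
    refine CASEA_two.trans ?_
    norm_num at hz69 ⊢
    linarith
  have hyb : y ≤ b - 1 / 2 := by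
    have h2 : y ≤ 4 * m - 1 / 2 := by
      rw [hy, Real.log_le_iff_le_exp (by positivity)]
      have h3 : Real.exp (4 * (m : ℝ) - 1 / 2) = e4 * Real.exp (-(1 / 2)) := by
        rw [he4, ← Real.exp_add]; congr 1
      rw [h3]
      have h5 : e4 * 0.6 ≤ e4 * Real.exp (-(1 / 2)) :=
        mul_le_mul_of_nonneg_left CASEA_half e40.le
      norm_num at h5 hz51
      linarith
    linarith
  have hψ := h b y hb8 (by linarith) hyb
  have hyz : y ≤ z := by
    have := Real.log_le_sub_one_of_pos (show 0 < 1 + z by positivity)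
    rw [← hy] at this
    linarith
  have h16 : b * z * (1 - th) ≤ y * (b + z + th) :=
    hF4.trans (mul_le_mul_of_nonneg_right F3 (by positivity))
  rw [hey, add_sub_cancel_left] at hψ
  exact CASEA_iv z0 th0 hEe E0 hthE hz51 hb8 hy2 hyz h16 hψ



theorem CASEB_exp8 : (2136 : ℝ) ≤ Real.exp 8 := by
  have h1 : (2.7 : ℝ) ≤ Real.exp 1 := by
    have := Real.exp_one_gt_d9
    linarith
  have h2 : Real.exp 8 = Real.exp 1 ^ 8 := by
    rw [← Real.exp_nat_mul]
    norm_num
  rw [h2]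
  calc (2136 : ℝ) ≤ 2.7 ^ 8 := by norm_num
    _ ≤ Real.exp 1 ^ 8 := pow_le_pow_left₀ (by norm_num) h1 8

theorem CASEB_small (m : ℝ) (hm : 2 ≤ m) : 16 * m ^ 2 * Real.exp (-(4 * m)) ≤ 3 / 100 := by
  have h1 : 534 * m ^ 2 ≤ Real.exp (4 * m) := by
    have h2 : Real.exp (4 * m) = Real.exp 8 * Real.exp (4 * (m - 2)) := by
      rw [← Real.exp_add]
      congr 1
      ring
    have h3 := Real.quadratic_le_exp_of_nonneg (x := 4 * (m - 2)) (by linarith)
    have h4 : (2136 : ℝ) * (1 + 4 * (m - 2) + (4 * (m - 2)) ^ 2 / 2) ≤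
        Real.exp 8 * Real.exp (4 * (m - 2)) := by
      refine mul_le_mul CASEB_exp8 h3 ?_ (Real.exp_pos _).le
      nlinarith [sq_nonneg (4 * (m - 2))]
    rw [h2]
    refine le_trans ?_ h4
    nlinarith [sq_nonneg (m - 2)]
  rw [Real.exp_neg]
  have h5 : 0 < Real.exp (4 * m) := Real.exp_pos _
  rw [mul_inv_le_iff₀ h5]
  nlinarith [sq_nonneg m]

theorem CASEB_alg (m b l : ℝ) (hm : 2 ≤ m) (hb : 4 * m ≤ b) (hl0 : 0 < l)
    (hl1 : l ≤ 285 / 10000) : 4 * m * b ≤ (4 * m + 1 / 500 + l) * (b - l - l ^ 2) := by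
  have h1 : l ^ 2 ≤ 82 / 100000 := by
    calc l ^ 2 ≤ (285 / 10000) ^ 2 := pow_le_pow_left₀ hl0.le hl1 2
      _ ≤ 82 / 100000 := by norm_num
  have h2 : (1 / 500 + l) * (4 * m) ≤ (1 / 500 + l) * b :=
    mul_le_mul_of_nonneg_left hb (by linarith)
  have h3 : 4 * m * l ^ 2 ≤ 4 * m * (82 / 100000) := mul_le_mul_of_nonneg_left h1 (by linarith)
  have h4 : (1 / 500 + l) * (l + l ^ 2) ≤ (1 / 500 + 285 / 10000) * (285 / 10000 + 82 / 100000) :=
    mul_le_mul (by linarith) (by linarith) (by positivity) (by norm_num)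
  have h5 : (4 * m + 1 / 500 + l) * (b - l - l ^ 2) - 4 * m * b =
      (1 / 500 + l) * b - 4 * m * l - 4 * m * l ^ 2 - (1 / 500 + l) * (l + l ^ 2) := by ring
  have h6 : (1 / 500 + l) * (4 * m) = 1 / 500 * (4 * m) + 4 * m * l := by ring
  have h7 : (1 / 500 + 285 / 10000 : ℝ) * (285 / 10000 + 82 / 100000) ≤ 1 / 1000 := by norm_num
  linarith

theorem CASEB_sq (m l q b Λ x : ℝ) (hm : 2 ≤ m) (hl0 : 0 < l)
    (hb2 : b ≤ 4 * m + 2 * q + 1 / 100000000) (hΛ1 : 4 * m + 1 / 500 + l ≤ Λ) (hΛx : Λ ≤ x)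
    (hcon : Λ * x < 4 * m * b) : 1 / 500 + l < q + 1 / 100000000 := by
  have hΛ0 : 0 < Λ := by linarith
  have h0 : Λ * Λ ≤ Λ * x := mul_le_mul_of_nonneg_left hΛx hΛ0.le
  have h2 : (4 * m + 1 / 500 + l) * (4 * m + 1 / 500 + l) ≤ Λ * Λ :=
    mul_le_mul hΛ1 hΛ1 (by linarith) hΛ0.le
  have h4 : 4 * m * b ≤ 4 * m * (4 * m + 2 * q + 1 / 100000000) :=
    mul_le_mul_of_nonneg_left hb2 (by linarith)
  have h5 : (4 * m + 1 / 500 + l) * (4 * m + 1 / 500 + l) =
      16 * m ^ 2 + 8 * m * (1 / 500 + l) + (1 / 500 + l) ^ 2 := by ring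
  have h6 : 4 * m * (4 * m + 2 * q + 1 / 100000000) =
      16 * m ^ 2 + 8 * m * (q + 1 / 200000000) := by ring
  have h7 := sq_nonneg (1 / 500 + l)
  have h8 : 8 * m * (1 / 500 + l) < 8 * m * (q + 1 / 200000000) := by linarith
  have h9 : 1 / 500 + l < q + 1 / 200000000 := lt_of_mul_lt_mul_left h8 (by linarith)
  linarith

theorem CASEB_proof : S_CASEBr := by
  intro m K L N s Λ u x h hs
  obtain ⟨m2, hK, K0, hL, N1, N2, s0, u0, u1, hΛ, hx, F2, -, -, -, -⟩ := h
  have hm : (2 : ℝ) ≤ m := by exact_mod_cast m2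
  have hKbig : (2136 : ℝ) ≤ K := by
    refine CASEB_exp8.trans ?_
    rw [← Real.log_le_log_iff (Real.exp_pos 8) K0, Real.log_exp]
    linarith
  have hL0 : 0 < L := by linarith
  have hP0 : 0 < L * K := mul_pos hL0 K0
  have hP : (100000000 : ℝ) ≤ L * K := by
    calc (100000000 : ℝ) ≤ (100 * 2136) * 2136 := by norm_num
      _ ≤ L * K := mul_le_mul (by linarith) hKbig (by norm_num) hL0.le
  obtain ⟨q, hq⟩ : ∃ q : ℝ, q = 16 * (m : ℝ) ^ 2 * Real.exp (-(4 * m)) := ⟨_, rfl⟩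
  have hq1 : q ≤ 3 / 100 := by rw [hq]; exact CASEB_small m hm
  have hq0 : 0 ≤ q := by rw [hq]; positivity
  have hbm : bmr m = 4 * m + 2 * q := by
    unfold bmr
    rw [hq]
    ring
  rw [hbm] at N1 N2
  obtain ⟨b, hb⟩ : ∃ b : ℝ, b = N / (L * K) := ⟨_, rfl⟩
  have hNb : N = b * (L * K) := by rw [hb, div_mul_cancel₀ _ hP0.ne']
  have hb1 : 4 * m + 2 * q ≤ b := by
    rw [hb, le_div_iff₀ hP0]
    exact N1
  have hb2 : b ≤ 4 * m + 2 * q + 1 / 100000000 := by
    rw [hb, div_le_iff₀ hP0]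
    have h1 : 1 ≤ 1 / 100000000 * (L * K) := by linarith
    have h2 : (4 * m + 2 * q + 1 / 100000000) * (L * K) =
      (4 * m + 2 * q) * (L * K) + 1 / 100000000 * (L * K) := by ring
    linarith
  obtain ⟨e, he⟩ : ∃ e : ℝ, e = s / (L * K) := ⟨_, rfl⟩
  have hse : s = L * K * e := by rw [he, mul_div_cancel₀ _ hP0.ne']
  have he1 : 1 < e := by
    rw [he, lt_div_iff₀ hP0]
    linarith
  have he0 : 0 < e := by linarith
  obtain ⟨l, hl⟩ : ∃ l : ℝ, l = Real.log e := ⟨_, rfl⟩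
  have hl0 : 0 < l := by rw [hl]; exact Real.log_pos he1
  have hexp : Real.exp l = e := by rw [hl, Real.exp_log he0]
  have hlogs : Real.log s = Real.log L + Real.log K + l := by
    rw [hse, Real.log_mul hP0.ne' he0.ne', Real.log_mul hL0.ne' K0.ne', hl]
  have hlog1 : Real.log s ≤ Real.log (1 + s) := Real.log_le_log s0 (by linarith)
  have hΛ1 : 4 * m + 1 / 500 + l ≤ Λ := by linarith
  have hΛ0 : 0 < Λ := by linarith
  have hx0 : 0 < x := by
    by_contra hcon
    push Not at hcon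
    have := mul_nonpos_of_nonneg_of_nonpos u0.le hcon
    linarith
  have hΛx : Λ ≤ x := by
    rw [hΛ]
    calc u * x ≤ 1 * x := mul_le_mul_of_nonneg_right u1 hx0.le
      _ = x := one_mul x
  have hx1 : b + 1 - e ≤ x := by rw [hb, he]; exact hx
  have key : 4 * m * b ≤ Λ * x := by
    by_contra hcon
    push Not at hcon
    have h4 := CASEB_sq m l q b Λ x hm hl0 hb2 hΛ1 hΛx hcon
    have hl1 : l ≤ 285 / 10000 := by linarith
    have h5 := Real.abs_exp_sub_one_sub_id_le (x := l) (by rw [abs_of_pos hl0]; linarith)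
    rw [hexp] at h5
    have h6 : e ≤ 1 + l + l ^ 2 := by
      have := le_abs_self (e - 1 - l)
      linarith
    have hb4 : 4 * m ≤ b := by linarith
    have h9 := CASEB_alg m b l hm hb4 hl0 hl1
    have h10 : (4 * m + 1 / 500 + l) * (b - l - l ^ 2) ≤ (4 * m + 1 / 500 + l) * x :=
      mul_le_mul_of_nonneg_left (by linarith) (by linarith)
    have h11 : (4 * m + 1 / 500 + l) * x ≤ Λ * x := mul_le_mul_of_nonneg_right hΛ1 hx0.le
    linarith
  have hfin : 4 * m * N * u ≤ K * L * Λ ^ 2 := by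
    have h1 : 4 * m * N * u = (L * K) * u * (4 * m * b) := by rw [hNb]; ring
    have h2 : K * L * Λ ^ 2 = (L * K) * u * (Λ * x) := by
      rw [hΛ]
      ring
    rw [h1, h2]
    exact mul_le_mul_of_nonneg_left key (mul_pos hP0 u0).le
  exact hfin



theorem ASM_proof (h : S_CONV1) (h2 : S_CONV2) (h3 : S_IDENT) (h4 : S_LCD) (h5 : S_PD)
    (h6 : S_GB) (h7 : S_GC) (h8 : S_GD) (h9 : S_GE) (h10 : S_GF) (h11 : S_GG) (h12 : S_HARM)
    (h13 : S_CASEAr) (h14 : S_CASEBr) : S_ASMr := by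
  intro m L n N hm hK hL hN1 hN2
  -- sizes
  have hmR : (2 : ℝ) ≤ m := hm
  have hn0 : (0 : ℝ) ≤ n := Nat.cast_nonneg n
  have hKpos : (0 : ℝ) < (n : ℝ) + 1 := by positivity
  have hKbig : (25 : ℝ) ≤ (n : ℝ) + 1 := by
    have h1 : (8 : ℝ) ≤ Real.log ((n : ℝ) + 1) := by linarith
    have h2' : Real.exp 8 ≤ (n : ℝ) + 1 := (Real.le_log_iff_exp_le hKpos).mp h1
    have h3' : (5 : ℝ) ≤ Real.exp 4 := by
      have := Real.add_one_le_exp (4 : ℝ)
      linarith
    have h4' : Real.exp 8 = Real.exp 4 * Real.exp 4 := by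
      rw [← Real.exp_add]; norm_num
    nlinarith
  have hLR : 100 * ((n : ℝ) + 1) ≤ L := by exact_mod_cast hL
  have hL1 : 1 ≤ L := by omega
  have hLpos : (0 : ℝ) < L := by exact_mod_cast hL1
  have hL1R : (1 : ℝ) ≤ L := by exact_mod_cast hL1
  have hbm : (8 : ℝ) ≤ bmr m := by
    unfold bmr
    have : 0 ≤ 32 * (m : ℝ) ^ 2 * Real.exp (-(4 * m)) := by positivity
    linarith
  have hNn : (n : ℝ) + 2 ≤ N := by
    have h1 : (n : ℝ) + 1 ≤ (L : ℝ) * (n + 1) := by nlinarith
    have h2' : 8 * ((L : ℝ) * (n + 1)) ≤ bmr m * ((L : ℝ) * (n + 1)) := by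
      apply mul_le_mul_of_nonneg_right hbm; positivity
    linarith
  have hNn' : n + 2 ≤ N := by exact_mod_cast hNn
  obtain ⟨hA0, hD0, hDm, hDp, hDlc⟩ := h4 L n hL1
  obtain ⟨-, hE0, -, hEp, -⟩ := h4 L (n + 1) hL1
  have hDN : 0 < D L n N := hDp N (by omega)
  have hEN : 0 < D L (n + 1) N := hEp N (by omega)
  -- the tail function
  set φ : ℕ → ℝ := fun r => if r ≤ N then D L n (N - r) / D L n N else 0 with hφ
  have hφr : ∀ r ∈ range N, φ (r + 1) = D L n (N - 1 - r) / D L n N := by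
    intro r hr
    rw [mem_range] at hr
    simp only [hφ]
    rw [if_pos (by omega)]
    congr 2
    omega
  have hLCT : LCT N φ := by
    constructor
    · simp only [hφ]
      rw [if_pos (Nat.zero_le _), Nat.sub_zero, div_self hDN.ne']
    · intro r
      simp only [hφ]
      split_ifs
      · exact div_nonneg (hD0 _) hDN.le
      · exact le_rfl
    · intro r
      simp only [hφ]
      by_cases h1 : r + 1 ≤ N
      · rw [if_pos h1, if_pos (by omega)]
        apply div_le_div_of_nonneg_right _ hDN.le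
        have h2' : N - r = (N - (r + 1)) + 1 := by omega
        rw [h2']
        exact hDm _
      · rw [if_neg h1]
        split_ifs
        · exact div_nonneg (hD0 _) hDN.le
        · exact le_rfl
    · intro r hr
      simp only [hφ]
      rw [if_neg (by omega)]
    · intro a b hab
      simp only [hφ]
      by_cases h1 : b + 1 ≤ N
      · rw [if_pos h1, if_pos (by omega), if_pos (by omega), if_pos (by omega)]
        rw [div_mul_div_comm, div_mul_div_comm]
        apply div_le_div_of_nonneg_right _ (mul_pos hDN hDN).le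
        have h2' := hDlc (N - (b + 1)) (N - (a + 1)) (by omega)
        have h3' : N - (a + 1) + 1 = N - a := by omega
        have h4' : N - (b + 1) + 1 = N - b := by omega
        rw [h3', h4'] at h2'
        linarith
      · rw [if_neg h1, mul_zero]
        apply mul_nonneg
        · split_ifs
          · exact div_nonneg (hD0 _) hDN.le
          · exact le_rfl
        · split_ifs
          · exact div_nonneg (hD0 _) hDN.le
          · exact le_rfl
  -- s, Λ, p
  have hs : sφ N φ = P L n N / D L n N := by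
    unfold sφ P
    rw [sum_congr rfl hφr, ← sum_div]
    congr 1
    exact sum_range_reflect (fun y => D L n y) N
  have hΛ : Λφ L N φ = T L n N / D L n N := by
    unfold Λφ T
    rw [sum_div]
    apply sum_congr rfl
    intro r hr
    rw [hφr r hr]
    ring
  have hp : pφ L N φ = D L (n + 1) N / D L n N := by
    unfold pφ
    rw [h L n N, sum_div]
    apply sum_congr rfl
    intro r hr
    rw [hφr r hr]
    ring
  set s : ℝ := sφ N φ with hsdef
  set Λ : ℝ := Λφ L N φ with hΛdef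
  set p : ℝ := pφ L N φ with hpdef
  have hs0 : 0 < s := by
    rw [hs]
    apply div_pos _ hDN
    unfold P
    have h1 : D L n (N - 1) ≤ ∑ y ∈ range N, D L n y :=
      single_le_sum (f := fun y => D L n y) (fun i _ => hD0 i) (mem_range.mpr (by omega))
    exact lt_of_lt_of_le (hDp (N - 1) (by omega)) h1
  have hp0 : 0 < p := by rw [hp]; exact div_pos hEN hDN
  have hu1 : (L : ℝ) * p ≤ 1 := h11 L N φ hL1 hLCT
  -- the virial identity
  have hid := h3 L n N hL1
  set K : ℝ := (n : ℝ) + 1 with hKdef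
  set Sg : ℝ := P L (n + 1) N / D L (n + 1) N with hSg
  have hSgs : Sg ≤ s := by
    rw [hSg, hs, div_le_div_iff₀ hEN hDN]
    exact h5 L n N hL1
  set x : ℝ := (N - Sg) / (L * K) + 1 with hx
  have hΛx : Λ = (L * p) * x := by
    have e1 : D L (n + 1) N = p * D L n N := by rw [hp]; field_simp
    have e2 : T L n N = Λ * D L n N := by rw [hΛ]; field_simp
    have e3 : P L (n + 1) N = Sg * (p * D L n N) := by
      rw [← e1, hSg]; field_simp
    rw [e1, e2, e3] at hid
    have e4 : ((N : ℝ) * p - Sg * p) * D L n N = (K * (Λ - L * p)) * D L n N := by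
      linear_combination hid
    have e5 : (N : ℝ) * p - Sg * p = K * (Λ - L * p) := mul_right_cancel₀ hDN.ne' e4
    rw [hx]
    have hK0 : K ≠ 0 := hKpos.ne'
    field_simp
    linear_combination -e5
  have hFH : FHr m K L N s Λ (L * p) x := by
    refine ⟨hm, hK, hKpos, hLR, hN1, hN2, hs0, mul_pos hLpos hp0, hu1, hΛx, ?_, ?_, ?_, ?_, ?_, ?_⟩
    · rw [hx]
      have hLK : (0 : ℝ) < L * K := mul_pos hLpos hKpos
      have : Sg / (L * K) ≤ s / (L * K) := div_le_div_of_nonneg_right hSgs hLK.le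
      rw [sub_div]
      linarith
    · have i1 := h6 L N φ hL1 hLCT hs0
      have i2 := h12 L (by
        have : (1024 : ℝ) ≤ L := by linarith
        exact_mod_cast this)
      linarith
    · exact h7 L N φ hL1 hLCT
    · have i1 := h8 L N φ hL1 hLCT hs0
      have i2 := mul_le_mul_of_nonneg_left i1 hLpos.le
      calc (L : ℝ) * (s / (L + 1) - Λ) ≤ L * ((1 + s) * p) := i2
        _ = L * p * (1 + s) := by ring
    · have i1 := h9 L N φ hL1 hLCT
      calc Λ ^ 2 ≤ s * p := i1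
        _ = s * (L * p) / L := by field_simp
    · exact h10 L N φ hL1 hLCT hs0
  have hfin : 4 * (m : ℝ) * N * (L * p) ≤ K * L * Λ ^ 2 := by
    rcases le_or_gt s (L * K) with hc | hc
    · exact h13 m K L N s Λ (L * p) x hFH hc
    · exact h14 m K L N s Λ (L * p) x hFH hc
  -- Cauchy-Schwarz
  have hCS : T L n N ^ 2 ≤ D L n N * ∑ s ∈ range (N + 1), A L n s * B L (N - s) ^ 2 := by
    rw [← h2 L n N]
    have i1 := sum_mul_sq_le_sq_mul_sq (range (N + 1)) (fun s => Real.sqrt (A L n s))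
      (fun s => Real.sqrt (A L n s) * B L (N - s))
    have i2 : ∀ s, Real.sqrt (A L n s) * (Real.sqrt (A L n s) * B L (N - s)) =
        A L n s * B L (N - s) := by
      intro s
      rw [← mul_assoc, Real.mul_self_sqrt (hA0 s)]
    have i3 : ∀ s, Real.sqrt (A L n s) ^ 2 = A L n s := fun s => Real.sq_sqrt (hA0 s)
    have i4 : ∀ s, (Real.sqrt (A L n s) * B L (N - s)) ^ 2 = A L n s * B L (N - s) ^ 2 := by
      intro s
      rw [mul_pow, i3]
    simp only [i2, i3, i4] at i1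
    exact i1
  -- conclusion
  have e1 : D L (n + 1) N = p * D L n N := by rw [hp]; field_simp
  have e2 : T L n N = Λ * D L n N := by rw [hΛ]; field_simp
  set NUM : ℝ := ∑ s ∈ range (N + 1), A L n s * B L (N - s) ^ 2 with hNUM
  have i5 : Λ ^ 2 * D L n N ≤ NUM := by
    rw [e2] at hCS
    have : D L n N * (Λ ^ 2 * D L n N) ≤ D L n N * NUM := by
      calc D L n N * (Λ ^ 2 * D L n N) = (Λ * D L n N) ^ 2 := by ring
        _ ≤ _ := hCS
    exact le_of_mul_le_mul_left this hDN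
  have i6 : 4 * (m : ℝ) * N * p ≤ K * Λ ^ 2 := by
    have : (L : ℝ) * (4 * (m : ℝ) * N * p) ≤ L * (K * Λ ^ 2) := by
      calc (L : ℝ) * (4 * (m : ℝ) * N * p) = 4 * (m : ℝ) * N * (L * p) := by ring
        _ ≤ K * L * Λ ^ 2 := hfin
        _ = _ := by ring
    exact le_of_mul_le_mul_left this hLpos
  calc 4 * (m : ℝ) * N * D L (n + 1) N = (4 * (m : ℝ) * N * p) * D L n N := by rw [e1]; ring
    _ ≤ (K * Λ ^ 2) * D L n N := mul_le_mul_of_nonneg_right i6 hDN.le
    _ = K * (Λ ^ 2 * D L n N) := by ring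
    _ ≤ K * NUM := mul_le_mul_of_nonneg_left i5 hKpos.le


theorem LCD_full' : S_LCD := LCD_proof LCZ_proof CONV1_proof

theorem ASM_real : S_ASMr :=
  ASM_proof CONV1_proof CONV2_proof IDENT_proof LCD_full' (PD_proof LCD_full' CONV1_proof)
    (GB_proof CROSS_proof) GC_proof (GD_proof CROSS_proof) GE_proof (GF_proof CROSS_proof) GG_proof
    HARM_proof (CASEA_proof PSI_proof) CASEB_proof

end Pool.Agent.J4H29.MK
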