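import Mathlib
import Pool.Agent.H95R2.BG.DefsL
import Pool.Agent.H378R2.M7e

/-! helper29: expansion of a twisted sieve sum for a general function `v`, no main term. -/

set_option autoImplicit false

open Finset Filter
open scoped ContDiff

namespace Pool.Agent.J4H29

open Pool.Agent.H378R2

/-- the sum of a general function against products of truncated divisor sums is bounded by the sums of the
function over residue classes -/
theorem sumGen {J : ℕ} (N W P a : ℕ) (hW : 0 < W) (v : ℕ → ℝ) (F G : Fin J → ℝ → ℝ)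
    (L Cf : ℝ) (hL : 0 < L) (hCf : 0 ≤ Cf) (cF cG : Fin J → ℝ)
    (hF : ∀ j x, |F j x| ≤ Cf) (hG : ∀ j x, |G j x| ≤ Cf)
    (hF0 : ∀ j x, cF j < x → F j x = 0) (hG0 : ∀ j x, cG j < x → G j x = 0)
    (E : Fin J → Finset ℕ) (R : ℕ) (c : Fin J → ℕ) (h : Fin J → ℤ)
    (hEW : ∀ j, ∀ p : ℕ, p.Prime → p ∉ E j → ¬ p ∣ W) (hEP : ∀ j, ∀ p : ℕ, p.Prime → p ∉ E j → ¬ p ∣ P)
    (hEc : ∀ j, ∀ p : ℕ, p.Prime → p ∉ E j → ¬ p ∣ c j)
    (hres : ∀ i j, i ≠ j → ∀ p : ℕ, p.Prime → p ∉ E i → p ∉ E j → ∀ n : ℕ,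
      ¬ ((p : ℤ) ∣ c i * n + h i ∧ (p : ℤ) ∣ c j * n + h j))
    (BB : ℕ → ℝ) (hBB0 : ∀ q, 0 ≤ BB q)
    (hB : ∀ q, 1 ≤ q → Squarefree q → q.Coprime P → ∀ b' : ℕ, b' ≡ a [MOD W] →
      |∑ n ∈ Icc 1 N, (if n ≡ b' [MOD W * q] then v n else 0)| ≤ BB q) :
    |∑ n ∈ Icc 1 N, (if n ≡ a [MOD W] then v n else 0) *
        ∏ j, (VVm (E j) R L (F j) (c j * n + h j) * VVm (E j) R L (G j) (c j * n + h j))| ≤
    Cf ^ (2 * J) * ∑ q ∈ (Icc 1 ⌊Real.exp (L * (∑ j, cF j + ∑ j, cG j))⌋₊).filter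
      (fun q => Squarefree q ∧ q.Coprime P), (q.divisors.card : ℝ) ^ (2 * J) * BB q := by
  classical
  have h0 := expand_le E R L F G N (fun n => if n ≡ a [MOD W] then v n else 0)
    (fun n j => c j * n + h j) 0 (fun _ _ => 0)
  rw [zero_mul, sub_zero] at h0
  refine h0.trans ?_
  refine (support_bound E R L Cf hL hCf F G cF cG hF hG hF0 hG0 _ (fun _ _ => abs_nonneg _)).trans ?_
  apply mul_le_mul_of_nonneg_left _ (by positivity)
  refine fiber_bound (supp E R L cF) (supp E R L cG) _ PC BB hBB0 ?_ ?_ _ ?_ ?_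
  · intro q hq
    rw [Finset.mem_filter, Finset.mem_Icc] at hq
    omega
  · intro d hd e he hPC
    have hdp := supp_prod_le hd
    have hep := supp_prod_le he
    rw [mem_supp] at hd he
    have hd0 : ∀ j, d j ≠ 0 := fun j => by have := (mem_adm.1 (hd j).1).1.1; omega
    have he0 : ∀ j, e j ≠ 0 := fun j => by have := (mem_adm.1 (he j).1).1.1; omega
    have hprodpos : 0 < ∏ j, Nat.lcm (d j) (e j) :=
      Finset.prod_pos fun j _ => Nat.pos_of_ne_zero (Nat.lcm_ne_zero (hd0 j) (he0 j))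
    rw [Finset.mem_filter, Finset.mem_Icc]
    refine ⟨⟨hprodpos, Nat.le_floor ?_⟩, ?_, ?_⟩
    · have h1 : ∏ j, Nat.lcm (d j) (e j) ≤ (∏ j, d j) * ∏ j, e j := by
        rw [← Finset.prod_mul_distrib]
        exact Finset.prod_le_prod' fun j _ => lcm_le_mul' (Nat.pos_of_ne_zero (hd0 j)) (Nat.pos_of_ne_zero (he0 j))
      calc ((∏ j, Nat.lcm (d j) (e j) : ℕ) : ℝ) ≤ (((∏ j, d j) * ∏ j, e j : ℕ) : ℝ) := by exact_mod_cast h1
        _ = ((∏ j, d j : ℕ) : ℝ) * ((∏ j, e j : ℕ) : ℝ) := by push_cast; ring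
        _ ≤ Real.exp (L * ∑ j, cF j) * Real.exp (L * ∑ j, cG j) := by
            apply mul_le_mul hdp hep (Nat.cast_nonneg _) (Real.exp_pos _).le
        _ = _ := by rw [← Real.exp_add]; ring_nf
    · exact squarefree_prod _ hPC fun j => sqf_lcm (mem_adm.1 (hd j).1).2.1 (mem_adm.1 (he j).1).2.1
    · exact Nat.Coprime.prod_left fun j _ => adm_lcm_coprime (hd j).1 (he j).1 (hEP j)
  · intro d hd e he hPC
    rw [mem_supp] at hd he
    set D : Fin J → ℕ := fun j => Nat.lcm (d j) (e j) with hD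
    have hd0 : ∀ j, d j ≠ 0 := fun j => by have := (mem_adm.1 (hd j).1).1.1; omega
    have he0 : ∀ j, e j ≠ 0 := fun j => by have := (mem_adm.1 (he j).1).1.1; omega
    have hD0 : ∀ j, D j ≠ 0 := fun j => Nat.lcm_ne_zero (hd0 j) (he0 j)
    have hDW : ∀ j, (D j).Coprime W := fun j => adm_lcm_coprime (hd j).1 (he j).1 (hEW j)
    have hDc : ∀ j, (c j).Coprime (D j) := fun j => (adm_lcm_coprime (hd j).1 (he j).1 (hEc j)).symm
    have hDsq : ∀ j, Squarefree (D j) := fun j =>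
      sqf_lcm (mem_adm.1 (hd j).1).2.1 (mem_adm.1 (he j).1).2.1
    obtain ⟨b', hb'⟩ := class_exists W a hW.ne' D c h hD0 hPC hDW hDc
    have hprodpos : 0 < ∏ j, D j := Finset.prod_pos fun j _ => Nat.pos_of_ne_zero (hD0 j)
    have hself := (hb' b').2 rfl
    have hsq : Squarefree (∏ j, D j) := squarefree_prod _ hPC hDsq
    have e1 : Err N (fun n => if n ≡ a [MOD W] then v n else 0)
      (fun n j => c j * n + h j) 0 (fun _ _ => 0) d e =
        ∑ n ∈ Icc 1 N, (if n ≡ b' [MOD W * ∏ j, D j] then v n else 0) := by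
      unfold Err
      rw [zero_mul, sub_zero]
      refine Finset.sum_congr rfl fun n _ => ?_
      by_cases hn : n ≡ b' [MOD (W * ∏ j, D j)]
      · have h3 := (hb' n).2 hn
        have hDC : DC (fun j => (c j : ℤ) * n + h j) d e := h3.2
        simp only [if_pos hn, if_pos hDC, if_pos h3.1]
      · rw [if_neg hn]
        by_cases hDC : DC (fun j => (c j : ℤ) * n + h j) d e
        · rw [if_pos hDC]
          have hna : ¬ n ≡ a [MOD W] := fun hna => hn ((hb' n).1 ⟨hna, hDC⟩)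
          simp only [if_neg hna]
        · rw [if_neg hDC]
    rw [e1]
    exact hB _ hprodpos hsq (Nat.Coprime.prod_left fun j _ => adm_lcm_coprime (hd j).1 (he j).1 (hEP j)) _ hself.1
  · intro d hd e he hPC
    rw [mem_supp] at hd he
    rw [not_PC_err _ _ _ _ (fun j => (hd j).1) (fun j => (he j).1) _ hPC]
    · norm_num
    · intro i j hij p hp hpi hpj n _ _
      exact hres i j hij p hp hpi hpj n

end Pool.Agent.J4H29
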