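import Mathlib
import Pool.Agent.H378R2.Defs
import Pool.Agent.N728.QG.Def

/-! helper29: the Liouville function over residue classes with the tent weight. -/

set_option autoImplicit false

open Finset Filter

namespace Pool.Agent.J4H29

open Pool.Agent.H378R2
open Pool.Agent.N728.QG (lam S_BVL)

/-- sums of the Liouville function over a class -/
noncomputable def LamS (h M c : ℕ) : ℝ := ∑ n ∈ (Icc 1 h).filter (fun n => n ≡ c [MOD M]), lam (n : ℤ)

lemma lam_abs (n : ℤ) : |lam n| ≤ 1 := by
  unfold lam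
  split_ifs
  · simp
  · rw [abs_pow, abs_neg, abs_one, one_pow]

lemma lam_mul (a b : ℤ) : lam (a * b) = lam a * lam b := by
  unfold lam
  by_cases ha : a = 0
  · simp [ha]
  by_cases hb : b = 0
  · simp [hb]
  rw [if_neg (mul_ne_zero ha hb), if_neg ha, if_neg hb, Int.natAbs_mul,
    ArithmeticFunction.cardFactors_mul (Int.natAbs_ne_zero.2 ha) (Int.natAbs_ne_zero.2 hb), pow_add]

lemma LamS_mod (h M c : ℕ) : LamS h M (c % M) = LamS h M c := by
  unfold LamS
  have : ∀ n : ℕ, (n ≡ c % M [MOD M]) ↔ (n ≡ c [MOD M]) := by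
    intro n
    unfold Nat.ModEq
    rw [Nat.mod_mod]
  simp only [this]

/-- choice of the worst classes and heights -/
theorem exists_worst : ∃ hh cc : ℕ → ℕ → ℕ, ∀ x M, hh x M ≤ x ∧ (1 ≤ M → (cc x M).Coprime M) ∧
    ∀ h ≤ x, ∀ c : ℕ, c.Coprime M → 1 ≤ M → |LamS h M c| ≤ |LamS (hh x M) M (cc x M)| := by
  have key : ∀ x M : ℕ, ∃ p : ℕ × ℕ, p.1 ≤ x ∧ (1 ≤ M → p.2.Coprime M) ∧
      ∀ h ≤ x, ∀ c : ℕ, c.Coprime M → 1 ≤ M → |LamS h M c| ≤ |LamS p.1 M p.2| := by
    intro x M
    rcases Nat.eq_zero_or_pos M with rfl | hM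
    · exact ⟨(0, 0), Nat.zero_le _, fun h => by omega, fun _ _ _ _ h => by omega⟩
    · obtain ⟨p, hp, hmax⟩ := Finset.exists_max_image
        ((range (x + 1)) ×ˢ ((range (M + 1)).filter (fun c => c.Coprime M)))
        (fun p => |LamS p.1 M p.2|)
        ⟨(0, 1), by
          rw [Finset.mem_product, Finset.mem_filter, Finset.mem_range, Finset.mem_range]
          exact ⟨by simp, by simp only; omega, Nat.coprime_one_left _⟩⟩
      rw [Finset.mem_product, Finset.mem_filter, Finset.mem_range, Finset.mem_range] at hp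
      refine ⟨p, by omega, fun _ => hp.2.2, ?_⟩
      intro h hh c hc _
      have h1 := hmax (h, c % M) (by
        rw [Finset.mem_product, Finset.mem_filter, Finset.mem_range, Finset.mem_range]
        refine ⟨by simp only; omega, (Nat.mod_lt _ hM).trans (Nat.lt_succ_self _), ?_⟩
        have h2 : Nat.gcd (c % M) M = Nat.gcd c M := (Nat.mod_modEq c M).gcd_eq
        rw [Nat.coprime_iff_gcd_eq_one, h2]
        exact hc)
      simp only [LamS_mod] at h1
      exact h1
  choose p hp1 hp2 hp3 using key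
  exact ⟨fun x M => (p x M).1, fun x M => (p x M).2, fun x M => ⟨hp1 x M, hp2 x M, hp3 x M⟩⟩

/-- summation by parts -/
theorem abel_id (H : ℕ) (u s : ℕ → ℝ) : ∑ n ∈ Icc 1 H, u n * s n =
    u H * (∑ n ∈ Icc 1 H, s n) - ∑ n ∈ range H, (u (n + 1) - u n) * ∑ k ∈ Icc 1 n, s k := by
  induction H with
  | zero => simp
  | succ H ih =>
    rw [Finset.sum_Icc_succ_top (by omega), ih, Finset.sum_Icc_succ_top (by omega),
      Finset.sum_range_succ]
    ring

lemma Phi_max (x : ℝ) (hx : 0 ≤ x) : Phi x = Phi (max 1 x) := by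
  rcases le_total x 1 with h | h
  · rw [max_eq_left h]
    have h1 : Real.log x ≤ 0 := Real.log_nonpos hx h
    unfold Phi
    rw [Real.log_one, abs_of_nonpos (by linarith), max_eq_left (by linarith)]
    norm_num
  · rw [max_eq_right h]

/-- the tent is Lipschitz in the logarithm -/
theorem Phi_lip (x y : ℝ) (hx : 0 ≤ x) (hxy : x ≤ y) :
    |Phi y - Phi x| ≤ Real.log (max 1 y) - Real.log (max 1 x) := by
  rw [Phi_max x hx, Phi_max y (hx.trans hxy)]
  have h1 : max 1 x ≤ max 1 y := max_le_max le_rfl hxy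
  have h2 : Real.log (max 1 x) ≤ Real.log (max 1 y) :=
    Real.log_le_log (lt_of_lt_of_le one_pos (le_max_left _ _)) h1
  unfold Phi
  have h5 := abs_max_sub_max_le_abs (1 / 2 - |Real.log (max 1 y) - 1 / 2|)
    (1 / 2 - |Real.log (max 1 x) - 1 / 2|) 0
  rw [max_comm 0, max_comm 0]
  refine h5.trans ?_
  have h3 : (1 / 2 - |Real.log (max 1 y) - 1 / 2|) - (1 / 2 - |Real.log (max 1 x) - 1 / 2|) =
      |Real.log (max 1 x) - 1 / 2| - |Real.log (max 1 y) - 1 / 2| := by ring
  rw [h3]
  refine (abs_abs_sub_abs_le_abs_sub _ _).trans ?_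
  have h4 : Real.log (max 1 x) - 1 / 2 - (Real.log (max 1 y) - 1 / 2) =
    -(Real.log (max 1 y) - Real.log (max 1 x)) := by ring
  rw [h4, abs_neg, abs_of_nonneg (by linarith)]

/-- summation by parts with the tent -/
theorem abel_Phi (H : ℕ) (y : ℕ → ℝ) (hy0 : ∀ n, 0 ≤ y n) (hy : ∀ n, y n ≤ y (n + 1)) (hyH : y H ≤ 4)
    (s : ℕ → ℝ) (T : ℝ) (hT : ∀ h ≤ H, |∑ n ∈ Icc 1 h, s n| ≤ T) :
    |∑ n ∈ Icc 1 H, Phi (y n) * s n| ≤ 4 * T := by
  have hT0 : 0 ≤ T := (abs_nonneg _).trans (hT 0 (Nat.zero_le _))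
  have h1 := abel_id H (fun n => Phi (y n)) s
  simp only at h1
  rw [h1]
  have h2 : |Phi (y H) * ∑ n ∈ Icc 1 H, s n| ≤ 1 * T := by
    rw [abs_mul]
    apply mul_le_mul _ (hT H le_rfl) (abs_nonneg _) zero_le_one
    have h3 : 0 ≤ Phi (y H) := le_max_left _ _
    rw [abs_of_nonneg h3]
    unfold Phi
    apply max_le (by norm_num)
    have := abs_nonneg (Real.log (y H) - 1 / 2)
    linarith
  have h3 : |∑ n ∈ range H, (Phi (y (n + 1)) - Phi (y n)) * ∑ k ∈ Icc 1 n, s k| ≤ 3 * T := by
    calc _ ≤ ∑ n ∈ range H, |(Phi (y (n + 1)) - Phi (y n)) * ∑ k ∈ Icc 1 n, s k| :=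
          Finset.abs_sum_le_sum_abs _ _
      _ ≤ ∑ n ∈ range H, (Real.log (max 1 (y (n + 1))) - Real.log (max 1 (y n))) * T := by
          refine Finset.sum_le_sum fun n hn => ?_
          rw [abs_mul]
          apply mul_le_mul (Phi_lip _ _ (hy0 n) (hy n)) (hT n (Finset.mem_range.1 hn).le) (abs_nonneg _)
          have := Phi_lip _ _ (hy0 n) (hy n)
          exact (abs_nonneg _).trans this
      _ = (Real.log (max 1 (y H)) - Real.log (max 1 (y 0))) * T := by
          rw [← Finset.sum_mul, Finset.sum_range_sub (fun n => Real.log (max 1 (y n)))]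
      _ ≤ 3 * T := by
          apply mul_le_mul_of_nonneg_right _ hT0
          have h4 : 0 ≤ Real.log (max 1 (y 0)) := Real.log_nonneg (le_max_left _ _)
          have h5 : Real.log (max 1 (y H)) ≤ max 1 (y H) - 1 :=
            Real.log_le_sub_one_of_pos (lt_of_lt_of_le one_pos (le_max_left _ _))
          have h6 : max 1 (y H) ≤ 4 := max_le (by norm_num) hyH
          linarith
  calc _ ≤ |Phi (y H) * ∑ n ∈ Icc 1 H, s n| +
        |∑ n ∈ range H, (Phi (y (n + 1)) - Phi (y n)) * ∑ k ∈ Icc 1 n, s k| := abs_sub _ _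
    _ ≤ 4 * T := by linarith

/-- transformation of the sum over a class -/
theorem class_sum (X : ℝ) (hX : 0 < X) (α β W q b g : ℕ) (hα : 1 ≤ α) (hW : 1 ≤ W) (hq : 1 ≤ q)
    (hβ : (β : ℝ) ≤ X) (hgq : g ∣ q) (hgb : g ∣ α * b + β) :
    ∑ n ∈ Icc 1 ⌊3 * X⌋₊, (if n ≡ b [MOD W * q] then Phi (n / X) * lam ((α * n + β : ℕ) : ℤ) else 0) =
    lam g * ∑ m ∈ Icc 1 (⌊4 * (α * X)⌋₊ / g), Phi (((g * m - β : ℕ) : ℝ) / (α * X)) *
      (if m ≡ (α * b + β) / g [MOD α * W * (q / g)] then lam (m : ℤ) else 0) := by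
  classical
  have hg : 1 ≤ g := Nat.pos_of_dvd_of_pos hgq hq
  have hα0 : (0 : ℝ) < α := by exact_mod_cast hα
  obtain ⟨q', rfl⟩ := hgq
  have hq' : 1 ≤ q' := by
    rcases Nat.eq_zero_or_pos q' with h | h
    · subst h; omega
    · exact h
  obtain ⟨c, hc⟩ := hgb
  have e1 : g * q' / g = q' := Nat.mul_div_cancel_left _ hg
  have e2 : (α * b + β) / g = c := by rw [hc, Nat.mul_div_cancel_left _ hg]
  rw [e1, e2]
  -- the key equivalence
  have key : ∀ n m : ℕ, α * n + β = g * m → (n ≡ b [MOD W * (g * q')] ↔ m ≡ c [MOD α * W * q']) := by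
    intro n m hnm
    have h1 : (n ≡ b [MOD W * (g * q')]) ↔ (α * n + β ≡ α * b + β [MOD α * (W * (g * q'))]) := by
      rw [Nat.ModEq.add_iff_right (Nat.ModEq.refl β) ]
      exact (Nat.ModEq.mul_left_cancel_iff' (by omega)).symm
    rw [h1, hnm, hc]
    have h2 : α * (W * (g * q')) = g * (α * W * q') := by ring
    rw [h2]
    exact Nat.ModEq.mul_left_cancel_iff' (by omega)
  rw [Finset.mul_sum, ← Finset.sum_filter]
  have hdiv : ∀ n : ℕ, n ≡ b [MOD W * (g * q')] → g * ((α * n + β) / g) = α * n + β := by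
    intro n hn
    apply Nat.mul_div_cancel'
    have h1 : n ≡ b [MOD g] := hn.of_dvd ⟨W * q', by ring⟩
    have h2 : α * n + β ≡ α * b + β [MOD g] := (h1.mul_left α).add_right β
    exact (Nat.ModEq.dvd_iff h2 (dvd_refl g)).2 ⟨c, hc⟩
  have hinj : Set.InjOn (fun n : ℕ => (α * n + β) / g)
      ((Icc 1 ⌊3 * X⌋₊).filter (fun n => n ≡ b [MOD W * (g * q')]) : Finset ℕ) := by
    intro x hx y hy hxy
    rw [Finset.mem_coe, Finset.mem_filter] at hx hy
    simp only at hxy
    have h1 := hdiv x hx.2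
    have h2 := hdiv y hy.2
    rw [hxy, h2] at h1
    have h3 : α * y = α * x := by omega
    exact (Nat.eq_of_mul_eq_mul_left (by omega) h3).symm
  have h1 : ∑ n ∈ (Icc 1 ⌊3 * X⌋₊).filter (fun n => n ≡ b [MOD W * (g * q')]),
      Phi (n / X) * lam ((α * n + β : ℕ) : ℤ) =
      ∑ m ∈ ((Icc 1 ⌊3 * X⌋₊).filter (fun n => n ≡ b [MOD W * (g * q')])).image
        (fun n : ℕ => (α * n + β) / g),
        lam g * (Phi (((g * m - β : ℕ) : ℝ) / (α * X)) * (if m ≡ c [MOD α * W * q'] then lam (m : ℤ) else 0)) := by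
    rw [Finset.sum_image hinj]
    refine Finset.sum_congr rfl fun n hn => ?_
    rw [Finset.mem_filter] at hn
    have h2 := hdiv n hn.2
    have h3 : g * ((α * n + β) / g) - β = α * n := by omega
    rw [h3, if_pos ((key n _ h2.symm).1 hn.2)]
    have h4 : ((α * n : ℕ) : ℝ) / (α * X) = n / X := by
      push_cast
      exact mul_div_mul_left _ _ hα0.ne'
    rw [h4]
    have h5 : ((α * n + β : ℕ) : ℤ) = (g : ℤ) * (((α * n + β) / g : ℕ) : ℤ) := by
      rw [← Nat.cast_mul, h2]
    rw [h5, lam_mul]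
    ring
  rw [h1]
  apply Finset.sum_subset
  · intro m hm
    rw [Finset.mem_image] at hm
    obtain ⟨n, hn, rfl⟩ := hm
    rw [Finset.mem_filter, Finset.mem_Icc] at hn
    have h2 := hdiv n hn.2
    rw [Finset.mem_Icc]
    constructor
    · rcases Nat.eq_zero_or_pos ((α * n + β) / g) with h | h
      · rw [h, mul_zero] at h2
        have := Nat.mul_pos hα hn.1.1
        omega
      · exact h
    · apply Nat.div_le_div_right
      apply Nat.le_floor
      have h3 : (n : ℝ) ≤ 3 * X := (Nat.le_floor_iff (by linarith)).1 hn.1.2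
      push_cast
      have h4 : (1 : ℝ) ≤ α := by exact_mod_cast hα
      nlinarith
  · intro m hm hm'
    rw [Finset.mem_Icc] at hm
    by_cases hmc : m ≡ c [MOD α * W * q']
    · rw [if_pos hmc]
      by_cases hgm : g * m ≤ β
      · have h2 : g * m - β = 0 := by omega
        rw [h2]
        have : Phi (((0 : ℕ) : ℝ) / (α * X)) = 0 := by
          unfold Phi
          rw [Nat.cast_zero, zero_div, Real.log_zero]
          norm_num
        rw [this, zero_mul, mul_zero]
      · push Not at hgm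
        -- the preimage
        have h2 : g * m ≡ α * b + β [MOD α] := by
          rw [hc]
          exact (hmc.of_dvd ⟨W * q', by ring⟩).mul_left g
        have h3 : α ∣ g * m - β := by
          have h4 : g * m - β + β ≡ 0 + β [MOD α] := by
            have h5 : g * m - β + β = g * m := by omega
            rw [h5]
            refine h2.trans ?_
            have h6 : α * b + β ≡ 0 + β [MOD α] := by
              apply Nat.ModEq.add_right
              rw [Nat.modEq_zero_iff_dvd]
              exact Dvd.intro _ rfl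
            exact h6
          exact (Nat.modEq_zero_iff_dvd).1 (Nat.ModEq.add_right_cancel' β h4)
        obtain ⟨n, hn⟩ := h3
        have hn1 : 1 ≤ n := by
          rcases Nat.eq_zero_or_pos n with h | h
          · subst h; omega
          · exact h
        have hnm : α * n + β = g * m := by omega
        have hnb := (key n m hnm).2 hmc
        have h4 : ((g * m - β : ℕ) : ℝ) / (α * X) = n / X := by
          rw [hn]
          push_cast
          exact mul_div_mul_left _ _ hα0.ne'
        rw [h4]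
        have h5 : Phi (n / X) = 0 := by
          by_contra hne
          apply hm'
          rw [Finset.mem_image]
          refine ⟨n, ?_, ?_⟩
          · rw [Finset.mem_filter, Finset.mem_Icc]
            refine ⟨⟨hn1, Nat.le_floor ?_⟩, hnb⟩
            by_contra hlt
            push Not at hlt
            apply hne
            have h6 : Real.exp 1 ≤ n / X := by
              rw [le_div_iff₀ hX]
              have := Real.exp_one_lt_d9
              nlinarith
            have h7 : 1 ≤ Real.log (n / X) := by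
              rw [Real.le_log_iff_exp_le ((Real.exp_pos _).trans_le h6)]
              exact h6
            unfold Phi
            rw [abs_of_nonneg (by linarith)]
            exact max_eq_left (by linarith)
          · rw [hnm, Nat.mul_div_cancel_left _ hg]
        rw [h5, zero_mul, mul_zero]
    · rw [if_neg hmc, mul_zero, mul_zero]

end Pool.Agent.J4H29
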