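import Mathlib
import Pool.Agent.J4H29.S3b
import Pool.Agent.H398R2.BA1
import Pool.Agent.H398R2.BV1

/-! helper29: Bombieri-Vinogradov for the Liouville function with divisor weights and all residue classes. -/

set_option autoImplicit false

open Finset Filter

namespace Pool.Agent.J4H29

open Pool.Agent.H378R2
open Pool.Agent.N728.QG (lam S_BVL)

/-- the specification of the worst classes and heights -/
def Worst (hh cc : ℕ → ℕ → ℕ) : Prop := ∀ x M, hh x M ≤ x ∧ (1 ≤ M → (cc x M).Coprime M) ∧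
    ∀ h ≤ x, ∀ c : ℕ, c.Coprime M → 1 ≤ M → |LamS h M c| ≤ |LamS (hh x M) M (cc x M)|

/-- the worst sum -/
noncomputable def U3 (hh cc : ℕ → ℕ → ℕ) (N w g' g : ℕ) : ℝ :=
  |LamS (hh (N / g) (w * g')) (w * g') (cc (N / g) (w * g'))|

/-- the bound for one modulus -/
noncomputable def B3 (hh cc : ℕ → ℕ → ℕ) (N w q : ℕ) : ℝ :=
  4 * ∑ i ∈ q.divisorsAntidiagonal, U3 hh cc N w i.1 i.2

lemma U3_nonneg (hh cc : ℕ → ℕ → ℕ) (N w g' g : ℕ) : 0 ≤ U3 hh cc N w g' g := abs_nonneg _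

lemma B3_nonneg (hh cc : ℕ → ℕ → ℕ) (N w q : ℕ) : 0 ≤ B3 hh cc N w q :=
  mul_nonneg (by norm_num) (Finset.sum_nonneg fun _ _ => U3_nonneg _ _ _ _ _ _)

theorem class_bound (hh cc : ℕ → ℕ → ℕ) (hw : Worst hh cc) (X : ℝ) (hX : 0 < X) (α β q b : ℕ)
    (hα : 1 ≤ α) (hαβ : α.Coprime β) (hq : 1 ≤ q) (hsq : Squarefree q) (hβ : (β : ℝ) ≤ X) :
    |∑ n ∈ Icc 1 ⌊3 * X⌋₊, (if n ≡ b [MOD q] then Phi (n / X) * lam ((α * n + β : ℕ) : ℤ) else 0)| ≤
      B3 hh cc ⌊4 * (α * X)⌋₊ α q := by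
  have hα0 : (0 : ℝ) < α := by exact_mod_cast hα
  obtain ⟨g, hg⟩ : ∃ g : ℕ, g = Nat.gcd (α * b + β) q := ⟨_, rfl⟩
  have hgq : g ∣ q := by rw [hg]; exact Nat.gcd_dvd_right _ _
  have hgb : g ∣ α * b + β := by rw [hg]; exact Nat.gcd_dvd_left _ _
  have hg1 : 1 ≤ g := Nat.pos_of_dvd_of_pos hgq hq
  have hcs := class_sum X hX α β 1 q b g hα le_rfl hq hβ hgq hgb
  rw [one_mul, mul_one] at hcs
  rw [hcs, abs_mul]
  set N := ⌊4 * (α * X)⌋₊ with hN
  set M := α * (q / g) with hM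
  set c := (α * b + β) / g with hc
  have hqg : 1 ≤ q / g := Nat.div_pos (Nat.le_of_dvd hq hgq) hg1
  have hM1 : 1 ≤ M := Nat.mul_pos hα hqg
  have hcc : α * b + β = g * c := (Nat.mul_div_cancel' hgb).symm
  have hqq : q = g * (q / g) := (Nat.mul_div_cancel' hgq).symm
  -- coprimality
  have hcop' : c.Coprime M := by
    rw [Nat.coprime_iff_gcd_eq_one]
    by_contra h
    obtain ⟨p, hp, hpd⟩ := Nat.exists_prime_and_dvd h
    have h1 : p ∣ c := hpd.trans (Nat.gcd_dvd_left _ _)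
    have h2 : p ∣ M := hpd.trans (Nat.gcd_dvd_right _ _)
    have h3 : p ∣ α * b + β := by rw [hcc]; exact Dvd.dvd.mul_left h1 _
    rcases (Nat.Prime.dvd_mul hp).1 h2 with h4 | h4
    · have h5 : p ∣ β := (Nat.dvd_add_right (Dvd.dvd.mul_right h4 b)).1 h3
      have h8 := Nat.dvd_gcd h4 h5
      rw [hαβ] at h8
      exact hp.one_lt.ne' (Nat.dvd_one.1 h8)
    · have h5 : p ∣ q := h4.trans (Nat.div_dvd_of_dvd hgq)
      have h6 : p ∣ g := by rw [hg]; exact Nat.dvd_gcd h3 h5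
      have h7 : p * p ∣ q := by
        rw [hqq]; exact mul_dvd_mul h6 h4
      exact hp.one_lt.ne' (Nat.isUnit_iff.1 (hsq p h7))
  have hab := abel_Phi (N / g) (fun m => ((g * m - β : ℕ) : ℝ) / (α * X))
    (fun m => by positivity)
    (fun m => by
      apply div_le_div_of_nonneg_right _ (by positivity)
      have : g * m - β ≤ g * (m + 1) - β := Nat.sub_le_sub_right (Nat.mul_le_mul_left _ (by omega)) _
      exact_mod_cast this)
    (by
      rw [div_le_iff₀ (by positivity)]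
      have h1 : g * (N / g) - β ≤ N := (Nat.sub_le _ _).trans (Nat.mul_div_le _ _)
      calc ((g * (N / g) - β : ℕ) : ℝ) ≤ N := by exact_mod_cast h1
        _ ≤ 4 * (α * X) := Nat.floor_le (by positivity))
    (fun m => if m ≡ c [MOD M] then lam (m : ℤ) else 0)
    (U3 hh cc N α (q / g) g)
    (fun h hh' => by
      have h1 : ∑ n ∈ Icc 1 h, (if n ≡ c [MOD M] then lam (n : ℤ) else 0) = LamS h M c := by
        unfold LamS
        rw [Finset.sum_filter]
      rw [h1]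
      exact (hw (N / g) M).2.2 h hh' c hcop' hM1)
  calc _ ≤ 1 * (4 * U3 hh cc N α (q / g) g) :=
        mul_le_mul (lam_abs _) hab (abs_nonneg _) zero_le_one
    _ = 4 * U3 hh cc N α (q / g) g := one_mul _
    _ ≤ B3 hh cc N α q := by
        unfold B3
        apply mul_le_mul_of_nonneg_left _ (by norm_num)
        have hmem : ((q / g, g) : ℕ × ℕ) ∈ q.divisorsAntidiagonal := by
          rw [Nat.mem_divisorsAntidiagonal]
          exact ⟨Nat.div_mul_cancel hgq, by omega⟩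
        exact Finset.single_le_sum (f := fun i : ℕ × ℕ => U3 hh cc N α i.1 i.2)
          (fun _ _ => U3_nonneg _ _ _ _ _ _) hmem

/-- the trivial bound -/
lemma LamS_triv (h M c : ℕ) (hM : 1 ≤ M) : |LamS h M c| ≤ (h : ℝ) / M + 1 := by
  have hM0 : (0 : ℝ) < M := by exact_mod_cast hM
  have h1 : |LamS h M c| ≤ (((Ioc 0 h).filter (fun n => n ≡ c [MOD M])).card : ℝ) := by
    unfold LamS
    refine (Finset.abs_sum_le_sum_abs _ _).trans ?_
    have : Icc 1 h = Ioc 0 h := by ext; simp [Nat.succ_le_iff]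
    rw [this]
    calc _ ≤ ∑ n ∈ (Ioc 0 h).filter (fun n => n ≡ c [MOD M]), (1 : ℝ) :=
          Finset.sum_le_sum fun n _ => lam_abs _
      _ = _ := by rw [Finset.sum_const, nsmul_eq_mul, mul_one]
  refine h1.trans ?_
  have h2 := Nat.Ioc_filter_modEq_card 0 h (r := M) (by omega) c
  have h3 : ((((Ioc 0 h).filter (fun n => n ≡ c [MOD M])).card : ℤ) : ℝ) ≤ (h : ℝ) / M + 1 := by
    rw [h2, Int.cast_max, max_le_iff]
    constructor
    · have h3 := Int.floor_le (((h : ℚ) - c) / M)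
      have h4 := Int.lt_floor_add_one ((((0 : ℕ) : ℚ) - c) / M)
      have h5 : (((⌊((h : ℚ) - c) / M⌋ - ⌊(((0 : ℕ) : ℚ) - c) / M⌋ : ℤ)) : ℚ) ≤ (h : ℚ) / M + 1 := by
        push_cast
        have h6 : (h : ℚ) / M = ((h : ℚ) - c) / M - (((0 : ℕ) : ℚ) - c) / M := by push_cast; ring
        push_cast at h4
        rw [h6]
        push_cast
        linarith
      have h7 := (Rat.cast_le (K := ℝ)).2 h5
      push_cast at h7
      push_cast
      exact h7
    · push_cast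
      positivity
  exact_mod_cast h3

lemma U3_triv (hh cc : ℕ → ℕ → ℕ) (hw : Worst hh cc) (N w g' g : ℕ) (hw1 : 1 ≤ w) (hg' : 1 ≤ g') (hg : 1 ≤ g) :
    U3 hh cc N w g' g ≤ (N : ℝ) / (g' * g : ℕ) + 1 := by
  have hM : 1 ≤ w * g' := Nat.mul_pos hw1 hg'
  have hg0 : (0 : ℝ) < g := by exact_mod_cast hg
  have hg'0 : (0 : ℝ) < g' := by exact_mod_cast hg'
  have hw0 : (1 : ℝ) ≤ w := by exact_mod_cast hw1
  unfold U3
  refine (LamS_triv _ _ _ hM).trans ?_
  have h1 : ((hh (N / g) (w * g') : ℕ) : ℝ) ≤ (N : ℝ) / g := by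
    have h2 : ((hh (N / g) (w * g') : ℕ) : ℝ) ≤ ((N / g : ℕ) : ℝ) := by
      exact_mod_cast (hw (N / g) (w * g')).1
    exact h2.trans Nat.cast_div_le
  have h3 : ((hh (N / g) (w * g') : ℕ) : ℝ) / ((w * g' : ℕ) : ℝ) ≤ (N : ℝ) / (g' * g : ℕ) := by
    push_cast
    calc _ ≤ ((N : ℝ) / g) / (1 * g') := by
          apply div_le_div₀ (by positivity) h1 (by positivity)
          exact mul_le_mul_of_nonneg_right hw0 hg'0.le
      _ = (N : ℝ) / (g' * g) := by rw [one_mul, div_div, mul_comm (g : ℝ)]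
  linarith

lemma B3_triv (hh cc : ℕ → ℕ → ℕ) (hw : Worst hh cc) (X : ℝ) (hX : 1 ≤ X) (α w q : ℕ) (hα : 1 ≤ α)
    (hw1 : 1 ≤ w) (hq : 1 ≤ q) (hqX : (q : ℝ) ≤ X) :
    B3 hh cc ⌊4 * (α * X)⌋₊ w q ≤ (20 * α) * X * ((q.divisors.card : ℝ) / q) := by
  have hα0 : (1 : ℝ) ≤ α := by exact_mod_cast hα
  have hq0 : (0 : ℝ) < q := by exact_mod_cast hq
  unfold B3
  have h1 : ∑ i ∈ q.divisorsAntidiagonal, U3 hh cc ⌊4 * (α * X)⌋₊ w i.1 i.2 ≤
      ∑ i ∈ q.divisorsAntidiagonal, (5 * α * X / q : ℝ) := by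
    refine Finset.sum_le_sum fun i hi => ?_
    rw [Nat.mem_divisorsAntidiagonal] at hi
    have hi1 : 1 ≤ i.1 := by
      rcases Nat.eq_zero_or_pos i.1 with h | h
      · rw [h, zero_mul] at hi; omega
      · exact h
    have hi2 : 1 ≤ i.2 := by
      rcases Nat.eq_zero_or_pos i.2 with h | h
      · rw [h, mul_zero] at hi; omega
      · exact h
    refine (U3_triv hh cc hw _ w i.1 i.2 hw1 hi1 hi2).trans ?_
    rw [hi.1]
    have h2 : ((⌊4 * (α * X)⌋₊ : ℕ) : ℝ) ≤ 4 * (α * X) := Nat.floor_le (by positivity)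
    have h3 : (1 : ℝ) ≤ α * X / q := by
      rw [le_div_iff₀ hq0]
      nlinarith
    calc ((⌊4 * (α * X)⌋₊ : ℕ) : ℝ) / q + 1 ≤ 4 * (α * X) / q + α * X / q :=
          add_le_add (div_le_div_of_nonneg_right h2 hq0.le) h3
      _ = 5 * α * X / q := by ring
  have h2 : (q.divisorsAntidiagonal.card : ℝ) = q.divisors.card := by
    rw [← Nat.map_div_right_divisors, Finset.card_map]
  rw [Finset.sum_const, nsmul_eq_mul, h2] at h1
  calc _ ≤ 4 * ((q.divisors.card : ℝ) * (5 * α * X / q)) := by linarith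
    _ = _ := by ring

end Pool.Agent.J4H29
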