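import Mathlib
import Pool.Agent.J4H29.S3c

/-! helper29: Bombieri-Vinogradov for the Liouville function with divisor weights and all residue classes:
the sums over the moduli. -/

set_option autoImplicit false

open Finset Filter

namespace Pool.Agent.J4H29

open Pool.Agent.H378R2
open Pool.Agent.N728.QG (lam S_BVL)

/-- the sum for a fixed common divisor -/
theorem bb_g (A K X0 : ℕ) (hBV : ∀ x : ℕ, X0 ≤ x → ∀ D : ℕ, (D : ℝ) ^ 2 * Real.log x ^ K ≤ x →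
      ∀ r h : ℕ → ℕ, (∀ m ∈ Icc 1 D, Nat.Coprime (r m) m) → (∀ m, h m ≤ x) →
      ∑ m ∈ Icc 1 D, |∑ n ∈ (Icc 1 (h m)).filter (fun n => n ≡ r m [MOD m]), lam n| ≤ x / Real.log x ^ A)
    (hh cc : ℕ → ℕ → ℕ) (hw : Worst hh cc) (τ : ℝ) (hτ : 0 < τ) (hτ8 : τ < 1 / 8) (α w : ℕ) (hα : 1 ≤ α) (hw1 : 1 ≤ w)
    (X : ℝ) (hX : 4 ≤ X) (hXα : 4 * (α : ℝ) ≤ X) (hX0 : (X0 : ℝ) ≤ X ^ (1 / 2 : ℝ))
    (h1 : (w : ℝ) ^ 2 * (2 * Real.log X) ^ K ≤ X ^ (4 * τ)) (g : ℕ)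
    (hg : g ∈ Icc 1 ⌊X ^ (1 / 2 - 2 * τ)⌋₊) :
    ∑ g' ∈ Icc 1 (⌊X ^ (1 / 2 - 2 * τ)⌋₊ / g), U3 hh cc ⌊4 * (α * X)⌋₊ w g' g ≤
      (4 * α * 2 ^ A) * (X / Real.log X ^ A) * (1 / (g : ℝ)) := by
  have hα0 : (1 : ℝ) ≤ α := by exact_mod_cast hα
  have hw0 : (1 : ℝ) ≤ w := by exact_mod_cast hw1
  have hX1 : 1 ≤ X := by linarith
  have hXp : 0 < X := by linarith
  have hlog : 0 < Real.log X := Real.log_pos (by linarith)
  rw [Finset.mem_Icc] at hg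
  have hg1 : (1 : ℝ) ≤ g := by exact_mod_cast hg.1
  have hg0 : (0 : ℝ) < g := by linarith
  set Q := ⌊X ^ (1 / 2 - 2 * τ)⌋₊ with hQ
  have hQX : (Q : ℝ) ≤ X ^ (1 / 2 - 2 * τ) := Nat.floor_le (Real.rpow_nonneg hXp.le _)
  have hgQ : (g : ℝ) ≤ X ^ (1 / 2 - 2 * τ) := by
    have : (g : ℝ) ≤ Q := by exact_mod_cast hg.2
    linarith
  have hhalf : X ^ (1 / 2 - 2 * τ) ≤ X ^ (1 / 2 : ℝ) :=
    Real.rpow_le_rpow_of_exponent_le hX1 (by linarith)
  have hghalf : (g : ℝ) ≤ X ^ (1 / 2 : ℝ) := hgQ.trans hhalf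
  have hhh : X ^ (1 / 2 : ℝ) * X ^ (1 / 2 : ℝ) = X := by
    rw [← Real.rpow_add hXp]
    norm_num
  have hhpos : 0 < X ^ (1 / 2 : ℝ) := Real.rpow_pos_of_pos hXp _
  have hh1 : 1 ≤ X ^ (1 / 2 : ℝ) := Real.one_le_rpow hX1 (by norm_num)
  have hgX : (g : ℝ) ≤ X := by nlinarith
  set N := ⌊4 * (α * X)⌋₊ with hN
  have hNle : (N : ℝ) ≤ 4 * (α * X) := Nat.floor_le (by positivity)
  have hNge : 4 * (α * X) < N + 1 := Nat.lt_floor_add_one _
  obtain ⟨x, hx⟩ : ∃ x : ℕ, x = N / g := ⟨_, rfl⟩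
  have hxge : X / g ≤ x := by
    have h2 : N < g * (N / g + 1) := Nat.lt_mul_div_succ N (by omega)
    rw [← hx] at h2
    have h3 : (N : ℝ) < g * (x + 1) := by exact_mod_cast h2
    rw [div_le_iff₀ hg0]
    nlinarith
  have hxhalf : X ^ (1 / 2 : ℝ) ≤ X / g := by
    rw [le_div_iff₀ hg0]
    calc X ^ (1 / 2 : ℝ) * g ≤ X ^ (1 / 2 : ℝ) * X ^ (1 / 2 : ℝ) :=
          mul_le_mul_of_nonneg_left hghalf hhpos.le
      _ = X := hhh
  have hxle : (x : ℝ) ≤ 4 * α * X / g := by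
    rw [hx]
    calc ((N / g : ℕ) : ℝ) ≤ (N : ℝ) / g := Nat.cast_div_le
      _ ≤ 4 * α * X / g := div_le_div_of_nonneg_right (by linarith) hg0.le
  have hx0 : (0 : ℝ) < x := by linarith
  have hxX0 : X0 ≤ x := by
    have : (X0 : ℝ) ≤ x := by linarith
    exact_mod_cast this
  have hlogx1 : Real.log x ≤ 2 * Real.log X := by
    have h2 : (x : ℝ) ≤ X * X := by
      calc (x : ℝ) ≤ 4 * α * X / g := hxle
        _ ≤ 4 * α * X := div_le_self (by positivity) hg1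
        _ ≤ X * X := mul_le_mul_of_nonneg_right hXα hXp.le
    calc Real.log x ≤ Real.log (X * X) := Real.log_le_log hx0 h2
      _ = 2 * Real.log X := by rw [Real.log_mul hXp.ne' hXp.ne']; ring
  have hlogx2 : 1 / 2 * Real.log X ≤ Real.log x := by
    rw [← Real.log_rpow hXp]
    exact Real.log_le_log hhpos (hxhalf.trans hxge)
  have hlogx0 : 0 < Real.log x := by linarith
  obtain ⟨D, hD⟩ : ∃ D : ℕ, D = w * (Q / g) := ⟨_, rfl⟩
  have hDle : (D : ℝ) ≤ w * (X ^ (1 / 2 - 2 * τ) / g) := by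
    rw [hD]
    push_cast
    apply mul_le_mul_of_nonneg_left _ (by linarith)
    calc ((Q / g : ℕ) : ℝ) ≤ (Q : ℝ) / g := Nat.cast_div_le
      _ ≤ _ := div_le_div_of_nonneg_right hQX hg0.le
  have hpw : (X ^ (1 / 2 - 2 * τ)) ^ 2 * X ^ (4 * τ) = X := by
    rw [← Real.rpow_natCast, ← Real.rpow_mul hXp.le, ← Real.rpow_add hXp]
    have : (1 / 2 - 2 * τ) * ((2 : ℕ) : ℝ) + 4 * τ = 1 := by push_cast; ring
    rw [this, Real.rpow_one]
  have hcond : (D : ℝ) ^ 2 * Real.log x ^ K ≤ x := by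
    have h2 : (D : ℝ) ^ 2 ≤ (w * (X ^ (1 / 2 - 2 * τ) / g)) ^ 2 := by gcongr
    have h3 : Real.log x ^ K ≤ (2 * Real.log X) ^ K := pow_le_pow_left₀ hlogx0.le hlogx1 K
    calc (D : ℝ) ^ 2 * Real.log x ^ K ≤ (w * (X ^ (1 / 2 - 2 * τ) / g)) ^ 2 * (2 * Real.log X) ^ K :=
          mul_le_mul h2 h3 (by positivity) (by positivity)
      _ = (X ^ (1 / 2 - 2 * τ)) ^ 2 * ((w : ℝ) ^ 2 * (2 * Real.log X) ^ K) / g ^ 2 := by
          field_simp
      _ ≤ (X ^ (1 / 2 - 2 * τ)) ^ 2 * X ^ (4 * τ) / g ^ 2 := by gcongr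
      _ = X / g ^ 2 := by rw [hpw]
      _ ≤ X / g := by
          apply div_le_div_of_nonneg_left hXp.le hg0
          nlinarith
      _ ≤ x := hxge
  have hb := hBV x hxX0 D hcond (fun m => cc x m) (fun m => hh x m)
    (fun m hm => (hw x m).2.1 (Finset.mem_Icc.1 hm).1) (fun m => (hw x m).1)
  have hsub : ∑ g' ∈ Icc 1 (Q / g), U3 hh cc N w g' g ≤
      ∑ m ∈ Icc 1 D, |∑ n ∈ (Icc 1 (hh x m)).filter (fun n => n ≡ cc x m [MOD m]), lam n| := by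
    have hinj : Set.InjOn (fun g' : ℕ => w * g') (Icc 1 (Q / g) : Finset ℕ) := by
      intro a _ b _ h
      exact Nat.eq_of_mul_eq_mul_left (by omega) h
    have h2 : ∑ g' ∈ Icc 1 (Q / g), U3 hh cc N w g' g =
        ∑ m ∈ (Icc 1 (Q / g)).image (fun g' : ℕ => w * g'),
          |∑ n ∈ (Icc 1 (hh x m)).filter (fun n => n ≡ cc x m [MOD m]), lam n| := by
      rw [Finset.sum_image hinj]
      refine Finset.sum_congr rfl fun g' _ => ?_
      unfold U3 LamS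
      rw [← hx]
    rw [h2]
    apply Finset.sum_le_sum_of_subset_of_nonneg
    · intro m hm
      rw [Finset.mem_image] at hm
      obtain ⟨g', hg', rfl⟩ := hm
      rw [Finset.mem_Icc] at hg' ⊢
      refine ⟨Nat.mul_pos hw1 hg'.1, ?_⟩
      rw [hD]
      exact Nat.mul_le_mul_left _ hg'.2
    · intro _ _ _
      exact abs_nonneg _
  refine hsub.trans (hb.trans ?_)
  have h4 : (1 / 2 * Real.log X) ^ A ≤ Real.log x ^ A := pow_le_pow_left₀ (by positivity) hlogx2 A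
  calc (x : ℝ) / Real.log x ^ A ≤ (4 * α * X / g) / (1 / 2 * Real.log X) ^ A :=
        div_le_div₀ (by positivity) hxle (by positivity) h4
    _ = (4 * α * 2 ^ A) * (X / Real.log X ^ A) * (1 / (g : ℝ)) := by
        rw [mul_pow, one_div_pow]
        field_simp

/-- the sum over the moduli -/
theorem bb_l1 (hBV : S_BVL) (hh cc : ℕ → ℕ → ℕ) (hw : Worst hh cc) (τ : ℝ) (hτ : 0 < τ) (hτ8 : τ < 1 / 8)
    (α w : ℕ) (hα : 1 ≤ α) (hw1 : 1 ≤ w) (A : ℕ) :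
    ∀ᶠ X : ℝ in atTop, ∑ q ∈ Icc 1 ⌊X ^ (1 / 2 - 2 * τ)⌋₊, B3 hh cc ⌊4 * (α * X)⌋₊ w q ≤
      X / (Real.log X) ^ A := by
  obtain ⟨K, X0, hBV'⟩ := hBV (A + 2)
  have hα0 : (1 : ℝ) ≤ α := by exact_mod_cast hα
  have hw0 : (1 : ℝ) ≤ w := by exact_mod_cast hw1
  have e1 := (isLittleO_log_rpow_rpow_atTop (K : ℝ) (by linarith : 0 < 4 * τ)).bound
    (by positivity : (0 : ℝ) < 1 / ((w : ℝ) ^ 2 * 2 ^ K))
  have e2 : ∀ᶠ X : ℝ in atTop, (X0 : ℝ) ≤ X ^ (1 / 2 : ℝ) :=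
    (tendsto_rpow_atTop (by norm_num)).eventually_ge_atTop _
  filter_upwards [e1, e2, eventually_ge_atTop 4, eventually_ge_atTop (4 * (α : ℝ)),
    Real.tendsto_log_atTop.eventually_ge_atTop 1,
    Real.tendsto_log_atTop.eventually_ge_atTop (8 * (4 * α * 2 ^ (A + 2)))] with X h1 h2 h3 h4 h5 h6
  have hXp : 0 < X := by linarith
  have hlog : 0 < Real.log X := by linarith
  have h1' : (w : ℝ) ^ 2 * (2 * Real.log X) ^ K ≤ X ^ (4 * τ) := by
    rw [Real.norm_of_nonneg (by positivity), Real.norm_of_nonneg (by positivity),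
      Real.rpow_natCast] at h1
    rw [mul_pow]
    calc (w : ℝ) ^ 2 * (2 ^ K * Real.log X ^ K) = ((w : ℝ) ^ 2 * 2 ^ K) * Real.log X ^ K := by ring
      _ ≤ ((w : ℝ) ^ 2 * 2 ^ K) * (1 / ((w : ℝ) ^ 2 * 2 ^ K) * X ^ (4 * τ)) :=
          mul_le_mul_of_nonneg_left h1 (by positivity)
      _ = X ^ (4 * τ) := by field_simp
  set Q := ⌊X ^ (1 / 2 - 2 * τ)⌋₊ with hQ
  have hB : ∑ q ∈ Icc 1 Q, B3 hh cc ⌊4 * (α * X)⌋₊ w q =
      4 * ∑ g ∈ Icc 1 Q, ∑ g' ∈ Icc 1 (Q / g), U3 hh cc ⌊4 * (α * X)⌋₊ w g' g := by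
    unfold B3
    rw [← Finset.mul_sum, Pool.Agent.H398R2.BV.hyperC Q (fun b c => U3 hh cc ⌊4 * (α * X)⌋₊ w b c)]
  rw [hB]
  have h7 : ∑ g ∈ Icc 1 Q, ∑ g' ∈ Icc 1 (Q / g), U3 hh cc ⌊4 * (α * X)⌋₊ w g' g ≤
      ∑ g ∈ Icc 1 Q, (4 * α * 2 ^ (A + 2)) * (X / Real.log X ^ (A + 2)) * (1 / (g : ℝ)) :=
    Finset.sum_le_sum fun g hg => bb_g (A + 2) K X0 hBV' hh cc hw τ hτ hτ8 α w hα hw1 X h3 h4 h2 h1' g hg
  rw [← Finset.mul_sum] at h7
  have h8 : ∑ g ∈ Icc 1 Q, 1 / (g : ℝ) ≤ 1 + Real.log X := by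
    have h9 := Pool.Agent.H398R2.BV.sum_card_pow_div 0 Q
    simp only [pow_zero, pow_one] at h9
    refine h9.trans ?_
    have h10 : Real.log Q ≤ Real.log X := by
      rcases Nat.eq_zero_or_pos Q with h | h
      · rw [h, Nat.cast_zero, Real.log_zero]; exact hlog.le
      · apply Real.log_le_log (by exact_mod_cast h)
        calc (Q : ℝ) ≤ X ^ (1 / 2 - 2 * τ) := Nat.floor_le (Real.rpow_nonneg hXp.le _)
          _ ≤ X ^ (1 : ℝ) := Real.rpow_le_rpow_of_exponent_le (by linarith) (by linarith)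
          _ = X := Real.rpow_one X
    linarith
  have hC : 0 ≤ (4 * (α : ℝ) * 2 ^ (A + 2)) * (X / Real.log X ^ (A + 2)) := by positivity
  calc 4 * ∑ g ∈ Icc 1 Q, ∑ g' ∈ Icc 1 (Q / g), U3 hh cc ⌊4 * (α * X)⌋₊ w g' g
      ≤ 4 * ((4 * α * 2 ^ (A + 2)) * (X / Real.log X ^ (A + 2)) * (1 + Real.log X)) := by
        apply mul_le_mul_of_nonneg_left _ (by norm_num)
        exact h7.trans (mul_le_mul_of_nonneg_left h8 hC)
    _ ≤ 4 * ((4 * α * 2 ^ (A + 2)) * (X / Real.log X ^ (A + 2)) * (2 * Real.log X)) := by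
        apply mul_le_mul_of_nonneg_left _ (by norm_num)
        exact mul_le_mul_of_nonneg_left (by linarith) hC
    _ = (8 * (4 * α * 2 ^ (A + 2)) * Real.log X) * (X / Real.log X ^ (A + 2)) := by ring
    _ ≤ (Real.log X * Real.log X) * (X / Real.log X ^ (A + 2)) := by
        apply mul_le_mul_of_nonneg_right _ (by positivity)
        exact mul_le_mul_of_nonneg_right h6 hlog.le
    _ = X / (Real.log X) ^ A := by
        rw [pow_add]
        field_simp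

/-- the sum over the moduli with divisor weights -/
theorem bb_l2 (hBV : S_BVL) (hh cc : ℕ → ℕ → ℕ) (hw : Worst hh cc) (τ : ℝ) (hτ : 0 < τ) (hτ8 : τ < 1 / 8)
    (α w : ℕ) (hα : 1 ≤ α) (hw1 : 1 ≤ w) (k A : ℕ) :
    ∀ᶠ X : ℝ in atTop, ∑ q ∈ Icc 1 ⌊X ^ (1 / 2 - 2 * τ)⌋₊, (q.divisors.card : ℝ) ^ k * B3 hh cc ⌊4 * (α * X)⌋₊ w q ≤
      X / (Real.log X) ^ A := by
  have hα0 : (1 : ℝ) ≤ α := by exact_mod_cast hα
  set E : ℕ := 2 ^ (2 * k + 1) with hE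
  filter_upwards [bb_l1 hBV hh cc hw τ hτ hτ8 α w hα hw1 (E + 2 * A + 1), eventually_ge_atTop 4,
    Real.tendsto_log_atTop.eventually_ge_atTop 1,
    Real.tendsto_log_atTop.eventually_ge_atTop ((20 * α) * 2 ^ E)] with X h1 h3 h5 h6
  have hXp : 0 < X := by linarith
  have hlog : 0 < Real.log X := by linarith
  set Q := ⌊X ^ (1 / 2 - 2 * τ)⌋₊ with hQ
  have hQX : (Q : ℝ) ≤ X := by
    calc (Q : ℝ) ≤ X ^ (1 / 2 - 2 * τ) := Nat.floor_le (Real.rpow_nonneg hXp.le _)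
      _ ≤ X ^ (1 : ℝ) := Real.rpow_le_rpow_of_exponent_le (by linarith) (by linarith)
      _ = X := Real.rpow_one X
  set b : ℕ → ℝ := fun q => B3 hh cc ⌊4 * (α * X)⌋₊ w q with hb
  have hb0 : ∀ q, 0 ≤ b q := fun q => B3_nonneg _ _ _ _ _
  -- Cauchy-Schwarz
  have hCS := Finset.sum_mul_sq_le_sq_mul_sq (Icc 1 Q) (fun q => (q.divisors.card : ℝ) ^ k * Real.sqrt (b q))
    (fun q => Real.sqrt (b q))
  have e1 : ∀ q, (q.divisors.card : ℝ) ^ k * Real.sqrt (b q) * Real.sqrt (b q) =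
      (q.divisors.card : ℝ) ^ k * b q := by
    intro q
    rw [mul_assoc, Real.mul_self_sqrt (hb0 q)]
  have e2 : ∀ q, ((q.divisors.card : ℝ) ^ k * Real.sqrt (b q)) ^ 2 = (q.divisors.card : ℝ) ^ (2 * k) * b q := by
    intro q
    rw [mul_pow, Real.sq_sqrt (hb0 q), ← pow_mul, mul_comm k 2]
  have e3 : ∀ q, Real.sqrt (b q) ^ 2 = b q := fun q => Real.sq_sqrt (hb0 q)
  simp only [e1, e2, e3] at hCS
  have h7 : ∑ q ∈ Icc 1 Q, (q.divisors.card : ℝ) ^ (2 * k) * b q ≤ (20 * α) * X * (2 * Real.log X) ^ E := by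
    have h8 := Pool.Agent.H398R2.BV.sum_card_pow_div (2 * k + 1) Q
    calc ∑ q ∈ Icc 1 Q, (q.divisors.card : ℝ) ^ (2 * k) * b q
        ≤ ∑ q ∈ Icc 1 Q, (20 * α) * X * ((q.divisors.card : ℝ) ^ (2 * k + 1) / q) := by
          refine Finset.sum_le_sum fun q hq => ?_
          rw [Finset.mem_Icc] at hq
          have hqX : (q : ℝ) ≤ X := by
            have : (q : ℝ) ≤ Q := by exact_mod_cast hq.2
            linarith
          have h9 := B3_triv hh cc hw X (by linarith) α w q hα hw1 hq.1 hqX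
          calc (q.divisors.card : ℝ) ^ (2 * k) * b q ≤
              (q.divisors.card : ℝ) ^ (2 * k) * ((20 * α) * X * ((q.divisors.card : ℝ) / q)) :=
                mul_le_mul_of_nonneg_left h9 (by positivity)
            _ = _ := by rw [pow_succ]; ring
      _ = (20 * α) * X * ∑ q ∈ Icc 1 Q, ((q.divisors.card : ℝ) ^ (2 * k + 1) / q) := by
          rw [Finset.mul_sum]
      _ ≤ (20 * α) * X * (1 + Real.log Q) ^ E := by
          apply mul_le_mul_of_nonneg_left h8 (by positivity)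
      _ ≤ (20 * α) * X * (2 * Real.log X) ^ E := by
          apply mul_le_mul_of_nonneg_left _ (by positivity)
          have h10 : Real.log Q ≤ Real.log X := by
            rcases Nat.eq_zero_or_pos Q with h | h
            · rw [h, Nat.cast_zero, Real.log_zero]; exact hlog.le
            · exact Real.log_le_log (by exact_mod_cast h) hQX
          have h11 : 0 ≤ Real.log Q := Real.log_natCast_nonneg Q
          apply pow_le_pow_left₀ (by linarith) (by linarith)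
  have hs0 : 0 ≤ ∑ q ∈ Icc 1 Q, b q := Finset.sum_nonneg fun q _ => hb0 q
  have h8 : (∑ q ∈ Icc 1 Q, (q.divisors.card : ℝ) ^ k * b q) ^ 2 ≤ (X / (Real.log X) ^ A) ^ 2 := by
    calc _ ≤ (∑ q ∈ Icc 1 Q, (q.divisors.card : ℝ) ^ (2 * k) * b q) * ∑ q ∈ Icc 1 Q, b q := hCS
      _ ≤ ((20 * α) * X * (2 * Real.log X) ^ E) * (X / (Real.log X) ^ (E + 2 * A + 1)) :=
          mul_le_mul h7 h1 hs0 (by positivity)
      _ = ((20 * α) * 2 ^ E) * (X ^ 2 * (Real.log X) ^ E / (Real.log X) ^ (E + 2 * A + 1)) := by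
          rw [mul_pow]; ring
      _ ≤ Real.log X * (X ^ 2 * (Real.log X) ^ E / (Real.log X) ^ (E + 2 * A + 1)) :=
          mul_le_mul_of_nonneg_right h6 (by positivity)
      _ = (X / (Real.log X) ^ A) ^ 2 := by
          rw [pow_add, pow_add, pow_one, mul_comm 2 A, pow_mul]
          field_simp
  exact abs_le_of_sq_le_sq' h8 (by positivity) |>.2

end Pool.Agent.J4H29
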