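import Mathlib
import Pool.Agent.J4H29.S3a
import Pool.Agent.J4H29.S3d
import Pool.Agent.N403.QG.BVL
import Pool.Agent.H95R2.BG.LS2

/-! helper29: the Liouville function at one of the forms against the pair weights: it is negligible. -/

set_option autoImplicit false

open Finset Filter
open scoped ContDiff

namespace Pool.Agent.J4H29

open Pool.Agent.H378R2 Pool.Agent.H95R2.BG.LF
open Pool.Agent.H95R2.BG hiding ww zz qq prodv
open Pool.Agent.N728.QG (lam S_BVL)

/-- the main terms dominate `X / (log X)^(J+1)` -/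
theorem NN_dom {τ : ℝ} (hτ : 0 < τ) (hτ' : τ < 1 / 8) (D J : ℕ) (ε : ℝ) (hε : 0 < ε) :
    ∀ᶠ X : ℝ in atTop, X / (Real.log X) ^ (J + 1) ≤ ε * NN τ D X J := by
  have hW : (0 : ℝ) < WD D := by exact_mod_cast WD_pos D
  filter_upwards [eventually_ge_atTop 40,
    Real.tendsto_log_atTop.eventually_ge_atTop (20 * (WD D : ℝ) / ε)] with X hX h1
  have hX0 : 0 < X := by linarith
  have hX1 : 1 < X := by linarith
  have hlog : 0 < Real.log X := Real.log_pos hX1
  have hL := Lt_pos (by linarith : τ < 1 / 4) hX1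
  have hM := MPhi_ge X hX
  have hB := BE_PD_pos D
  have hB1 := BE_PD_le_one D
  have hLB : Lt τ X * BE (PD D) ≤ Real.log X := by
    unfold Lt at hL ⊢
    have : (1 / 4 - τ) * Real.log X ≤ Real.log X := by nlinarith
    nlinarith
  have hLBpos : 0 < Lt τ X * BE (PD D) := by positivity
  have hpow : (Lt τ X * BE (PD D)) ^ J ≤ Real.log X ^ J := pow_le_pow_left₀ hLBpos.le hLB J
  have hM0 : 0 ≤ MPhi X := by linarith
  unfold NN
  have h2 : ε * (X / 20 * (1 / (WD D : ℝ)) * (1 / Real.log X ^ J)) ≤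
      ε * (MPhi X * (1 / (WD D : ℝ)) * (1 / (Lt τ X * BE (PD D))) ^ J) := by
    rw [one_div_pow]
    gcongr
  refine le_trans ?_ h2
  have h3 : ε * (X / 20 * (1 / (WD D : ℝ)) * (1 / Real.log X ^ J)) =
      (ε * X * Real.log X) / (20 * (WD D : ℝ) * Real.log X ^ (J + 1)) := by
    rw [pow_succ]
    field_simp
  rw [h3, div_le_div_iff₀ (by positivity) (by positivity)]
  rw [div_le_iff₀ hε] at h1
  have h4 : 0 ≤ X * Real.log X ^ (J + 1) := by positivity
  nlinarith

/-- S3: the Liouville function at a linear form against the pair weights -/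
theorem S3pairL {J : ℕ} (τ : ℝ) (hτ : 0 < τ) (hτ' : τ < 1 / 8) (F G : Fin J → ℝ → ℝ) (cF cG : Fin J → ℝ)
    (hF : ∀ j, GF (F j) (cF j)) (hG : ∀ j, GF (G j) (cG j)) (hsum : ∑ j, cF j + ∑ j, cG j ≤ 2)
    (ε : ℝ) (hε : 0 < ε) (D : ℕ) (A B : Fin J → ℕ) (hsep : SepL D A B) (α β : ℕ) (hα : 1 ≤ α)
    (hαβ : α.Coprime β) (a : ℕ) : ∀ᶠ X : ℝ in atTop,
      |∑ n ∈ Icc 1 ⌊3 * X⌋₊, nu X (WD D) a n * lam ((α * n + β : ℕ) : ℤ) *
          ∏ j, (vv τ D X (F j) ((A j : ℤ) * n + B j) * vv τ D X (G j) ((A j : ℤ) * n + B j))| ≤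
      ε * NN τ D X J := by
  obtain ⟨hh, cc, hw⟩ := exists_worst
  have hw' : Worst hh cc := hw
  have hW1 : 1 ≤ WD D := WD_pos D
  have hWr : (1 : ℝ) ≤ WD D := by exact_mod_cast hW1
  have hτ4 : τ < 1 / 4 := by linarith
  filter_upwards [bb_l2 Pool.Agent.N403.QG.t_BVL hh cc hw' (τ / 2) (by linarith) (by linarith) α α hα
      hα (2 * J) (J + 1), NN_dom hτ hτ' D J ε hε, eventually_ge_atTop 40,
    eventually_ge_atTop (β : ℝ), (tendsto_rpow_atTop hτ).eventually_ge_atTop (WD D : ℝ)] with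
    X h1 h2 hX hXB hXW
  have hX0 : 0 < X := by linarith
  have hX1 : 1 < X := by linarith
  have hL : 0 < Lt τ X := Lt_pos hτ4 hX1
  have hnot : ∀ p : ℕ, p.Prime → p ∉ PD D → D < p := by
    intro p hp hpE
    by_contra hc
    push Not at hc
    exact hpE (mem_PD' hp hc)
  have hsqW : Squarefree (WD D) := by
    unfold WD
    refine Finset.squarefree_prod_of_pairwise_isCoprime ?_ ?_
    · intro p hp q hq hpq
      have h1 := (mem_PD.1 (Finset.mem_coe.1 hp)).2
      have h2 := (mem_PD.1 (Finset.mem_coe.1 hq)).2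
      simp only [Function.onFun]
      exact Nat.coprime_iff_isRelPrime.1 ((Nat.coprime_primes h1 h2).2 hpq)
    · intro p hp
      exact (mem_PD.1 hp).2.squarefree
  have s1 := sumGen ⌊3 * X⌋₊ (WD D) (WD D) a hW1 (fun n => Phi (n / X) * lam ((α * n + β : ℕ) : ℤ))
    F G (Lt τ X) 1 hL zero_le_one cF cG
    (fun j => (hF j).bdd) (fun j => (hG j).bdd) (fun j => (hF j).zero) (fun j => (hG j).zero)
    (fun _ => PD D) (Rt τ X) A (fun j => (B j : ℤ))
    (fun _ p hp hpD hdvd => hpD ((prime_dvd_WD hp).1 hdvd))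
    (fun _ p hp hpD hdvd => hpD ((prime_dvd_WD hp).1 hdvd))
    (fun j p hp hpE => hsep.2.2 j p hp (hnot p hp hpE))
    (by
      intro i j hij p hp hpE _ n hh
      have hpD : D < p := hnot p hp hpE
      apply hsep.1 i j hij p hp hpD
      have := dvd_sub (Dvd.dvd.mul_left hh.2 (A i : ℤ)) (Dvd.dvd.mul_left hh.1 (A j : ℤ))
      have h7 : (A i : ℤ) * ((A j : ℤ) * n + B j) - (A j : ℤ) * ((A i : ℤ) * n + B i) =
        (A i : ℤ) * B j - (A j : ℤ) * B i := by ring
      rwa [h7] at this)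
    (fun q => B3 hh cc ⌊4 * ((α : ℝ) * X)⌋₊ α (WD D * q)) (fun q => B3_nonneg _ _ _ _ _)
    (fun q hq hsq hcq b' _ => class_bound hh cc hw' X hX0 α β (WD D * q) b' hα hαβ
      (Nat.mul_pos hW1 hq) ((Nat.squarefree_mul hcq.symm).2 ⟨hsqW, hsq⟩) hXB)
  have s2 : ∑ n ∈ Icc 1 ⌊3 * X⌋₊, nu X (WD D) a n * lam ((α * n + β : ℕ) : ℤ) *
          ∏ j, (vv τ D X (F j) ((A j : ℤ) * n + B j) * vv τ D X (G j) ((A j : ℤ) * n + B j)) =
      ∑ n ∈ Icc 1 ⌊3 * X⌋₊, (if n ≡ a [MOD WD D] then Phi (n / X) * lam ((α * n + β : ℕ) : ℤ) else 0) *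
        ∏ j, (VVm (PD D) (Rt τ X) (Lt τ X) (F j) ((A j : ℕ) * n + (B j : ℤ)) *
          VVm (PD D) (Rt τ X) (Lt τ X) (G j) ((A j : ℕ) * n + (B j : ℤ))) := by
    refine Finset.sum_congr rfl fun n _ => ?_
    unfold nu vv
    split_ifs <;> simp
  rw [s2]
  refine s1.trans (le_trans ?_ h2)
  rw [one_pow, one_mul]
  refine le_trans ?_ h1
  obtain ⟨S, hS⟩ : ∃ S : Finset ℕ, S = (Icc 1 ⌊Real.exp (Lt τ X * (∑ j, cF j + ∑ j, cG j))⌋₊).filter
      (fun q => Squarefree q ∧ q.Coprime (WD D)) := ⟨_, rfl⟩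
  rw [← hS]
  have hinj : Set.InjOn (fun q : ℕ => WD D * q) (S : Finset ℕ) := by
    intro x _ y _ h
    exact Nat.eq_of_mul_eq_mul_left (by omega) h
  calc ∑ q ∈ S, (q.divisors.card : ℝ) ^ (2 * J) * B3 hh cc ⌊4 * ((α : ℝ) * X)⌋₊ α (WD D * q)
      ≤ ∑ q ∈ S, ((WD D * q).divisors.card : ℝ) ^ (2 * J) *
        B3 hh cc ⌊4 * ((α : ℝ) * X)⌋₊ α (WD D * q) := by
        refine Finset.sum_le_sum fun q hq => ?_
        rw [hS, Finset.mem_filter, Finset.mem_Icc] at hq
        apply mul_le_mul_of_nonneg_right _ (B3_nonneg _ _ _ _ _)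
        apply pow_le_pow_left₀ (by positivity)
        have : q.divisors.card ≤ (WD D * q).divisors.card :=
          Finset.card_le_card (Nat.divisors_subset_of_dvd (Nat.mul_pos hW1 (by omega)).ne' (Dvd.intro_left _ rfl))
        exact_mod_cast this
    _ = ∑ q' ∈ S.image (fun q => WD D * q), (q'.divisors.card : ℝ) ^ (2 * J) *
        B3 hh cc ⌊4 * ((α : ℝ) * X)⌋₊ α q' := by
        rw [Finset.sum_image hinj]
    _ ≤ _ := by
        apply Finset.sum_le_sum_of_subset_of_nonneg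
        · intro q' hq'
          rw [Finset.mem_image] at hq'
          obtain ⟨q, hq, rfl⟩ := hq'
          rw [hS, Finset.mem_filter, Finset.mem_Icc] at hq
          rw [Finset.mem_Icc]
          refine ⟨Nat.mul_pos hW1 hq.1.1, Nat.le_floor ?_⟩
          have h3 : (q : ℝ) ≤ Real.exp (Lt τ X * (∑ j, cF j + ∑ j, cG j)) :=
            (Nat.le_floor_iff (Real.exp_pos _).le).1 hq.1.2
          have h4 : Real.exp (Lt τ X * (∑ j, cF j + ∑ j, cG j)) ≤ X ^ (1 / 2 - 2 * τ) := by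
            rw [← S2.exp_two_Lt τ X hX0]
            apply Real.exp_le_exp.2
            nlinarith
          push_cast
          calc (WD D : ℝ) * q ≤ X ^ τ * X ^ (1 / 2 - 2 * τ) :=
                mul_le_mul hXW (h3.trans h4) (Nat.cast_nonneg _) (Real.rpow_nonneg hX0.le _)
            _ = X ^ (1 / 2 - 2 * (τ / 2)) := by
                rw [← Real.rpow_add hX0]
                congr 1
                ring
        · intro q _ _
          exact mul_nonneg (by positivity) (B3_nonneg _ _ _ _ _)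

end Pool.Agent.J4H29
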