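import Mathlib
import Pool.Agent.J4H29.S3e
import Pool.Agent.X34.E.E3

/-! helper29: the criterion for a prime and a number with an odd number of prime factors. -/

set_option autoImplicit false

open Finset Filter
open scoped ContDiff

namespace Pool.Agent.J4H29

open Pool.Agent.H378R2 Pool.Agent.H95R2.BG.LF
open Pool.Agent.H95R2.BG hiding ww zz qq prodv
open Pool.Agent.Y826.ZG
open Pool.Agent.X34.E
open Pool.Agent.N728.QG (lam S_BVL)

/-- the Liouville function at one of the forms against the sieve weight -/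
theorem lim_lam {K0 N1 M : ℕ} {f : ℕ → ℝ → ℝ} {β : ℝ} (hN1 : 0 < N1) (hf : Cells N1 M f β)
    (F : (Fin (K0 + 1) → ℕ) → ℝ) (hF : ∀ c, F c ≠ 0 → rad c ≤ N1)
    (τ : ℝ) (hτ : 0 < τ) (hτ' : τ < 1 / 8) (ε : ℝ) (hε : 0 < ε) (D : ℕ) (A B : Fin (K0 + 1) → ℕ)
    (hsep : SepL D A B) (α β' : ℕ) (hα : 1 ≤ α) (hαβ : α.Coprime β') (a : ℕ) :
    ∀ᶠ X : ℝ in atTop,
      |∑ n ∈ Icc 1 ⌊3 * X⌋₊, nu X (WD D) a n * (lam ((α * n + β' : ℕ) : ℤ) *
        ww τ D X f M F A B n ^ 2)| ≤ ε * NN τ D X (K0 + 1) := by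
  classical
  have hN : (0 : ℝ) < N1 := by exact_mod_cast hN1
  set T := (Box (K0 + 1) M ×ˢ Box (K0 + 1) M).filter (fun p => F p.1 ≠ 0 ∧ F p.2 ≠ 0) with hT
  set Sg : ℝ := ∑ p ∈ T, |F p.1 * F p.2| with hSg
  have hSg0 : 0 ≤ Sg := Finset.sum_nonneg fun _ _ => abs_nonneg _
  have hε' : 0 < ε / (Sg + 1) := by positivity
  have key : ∀ p ∈ T, ∀ᶠ X : ℝ in atTop,
      |∑ n ∈ Icc 1 ⌊3 * X⌋₊, nu X (WD D) a n * lam ((α * n + β' : ℕ) : ℤ) *
          ∏ j, (vv τ D X (f (p.1 j)) ((A j : ℤ) * n + B j) * vv τ D X (f (p.2 j)) ((A j : ℤ) * n + B j))| ≤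
      ε / (Sg + 1) * NN τ D X (K0 + 1) := by
    intro p hp
    rw [hT, Finset.mem_filter, Finset.mem_product] at hp
    refine S3pairL τ hτ hτ' (fun j => f (p.1 j)) (fun j => f (p.2 j)) (fun j => ((p.1 j : ℝ) + 1) / N1)
      (fun j => ((p.2 j : ℝ) + 1) / N1) (fun j => hf.good _ (Lim.mem_Box.1 hp.1.1 j))
      (fun j => hf.good _ (Lim.mem_Box.1 hp.1.2 j)) ?_ _ hε' D A B hsep α β' hα hαβ a
    rw [Lim.sum_len, Lim.sum_len, ← add_div, div_le_iff₀ hN]
    have h1 : (rad p.1 : ℝ) ≤ N1 := by exact_mod_cast hF _ hp.2.1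
    have h2 : (rad p.2 : ℝ) ≤ N1 := by exact_mod_cast hF _ hp.2.2
    linarith
  have hall : ∀ᶠ X : ℝ in atTop, ∀ p ∈ T,
      |∑ n ∈ Icc 1 ⌊3 * X⌋₊, nu X (WD D) a n * lam ((α * n + β' : ℕ) : ℤ) *
          ∏ j, (vv τ D X (f (p.1 j)) ((A j : ℤ) * n + B j) * vv τ D X (f (p.2 j)) ((A j : ℤ) * n + B j))| ≤
      ε / (Sg + 1) * NN τ D X (K0 + 1) := by
    rw [Filter.eventually_all_finset]
    exact key
  filter_upwards [hall, NN_pos τ (by linarith) D (K0 + 1)] with X hX hNN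
  have e1 : ∀ n : ℕ, ww τ D X f M F A B n ^ 2 = ∑ p ∈ T, (F p.1 * F p.2) *
      ∏ j, (vv τ D X (f (p.1 j)) ((A j : ℤ) * n + B j) * vv τ D X (f (p.2 j)) ((A j : ℤ) * n + B j)) := by
    intro n
    unfold ww
    rw [sq, Finset.sum_mul_sum, ← Finset.sum_product', hT, Finset.sum_filter]
    refine Finset.sum_congr rfl fun p _ => ?_
    split_ifs with h
    · unfold prodv
      rw [Finset.prod_mul_distrib]
      ring
    · by_cases h1 : F p.1 = 0
      · rw [h1]; ring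
      · have h2 : F p.2 = 0 := by
          by_contra h3
          exact h ⟨h1, h3⟩
        rw [h2]; ring
  have e2 : ∑ n ∈ Icc 1 ⌊3 * X⌋₊, nu X (WD D) a n * (lam ((α * n + β' : ℕ) : ℤ) *
        ww τ D X f M F A B n ^ 2) =
      ∑ p ∈ T, (F p.1 * F p.2) * ∑ n ∈ Icc 1 ⌊3 * X⌋₊, nu X (WD D) a n * lam ((α * n + β' : ℕ) : ℤ) *
          ∏ j, (vv τ D X (f (p.1 j)) ((A j : ℤ) * n + B j) * vv τ D X (f (p.2 j)) ((A j : ℤ) * n + B j)) := by
    simp only [e1, Finset.mul_sum]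
    rw [Finset.sum_comm]
    refine Finset.sum_congr rfl fun p _ => Finset.sum_congr rfl fun n _ => ?_
    ring
  rw [e2]
  calc _ ≤ ∑ p ∈ T, |(F p.1 * F p.2) * ∑ n ∈ Icc 1 ⌊3 * X⌋₊, nu X (WD D) a n *
          lam ((α * n + β' : ℕ) : ℤ) *
          ∏ j, (vv τ D X (f (p.1 j)) ((A j : ℤ) * n + B j) * vv τ D X (f (p.2 j)) ((A j : ℤ) * n + B j))| :=
        Finset.abs_sum_le_sum_abs _ _
    _ ≤ ∑ p ∈ T, |F p.1 * F p.2| * (ε / (Sg + 1) * NN τ D X (K0 + 1)) := by
        refine Finset.sum_le_sum fun p hp => ?_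
        rw [abs_mul]
        exact mul_le_mul_of_nonneg_left (hX p hp) (abs_nonneg _)
    _ = Sg * (ε / (Sg + 1) * NN τ D X (K0 + 1)) := by rw [← Finset.sum_mul]
    _ = ε * NN τ D X (K0 + 1) * (Sg / (Sg + 1)) := by field_simp
    _ ≤ ε * NN τ D X (K0 + 1) * 1 := by
        apply mul_le_mul_of_nonneg_left _ (by positivity)
        rw [div_le_one (by positivity)]
        linarith
    _ = _ := mul_one _

open Classical in
/-- the integers `n` in `(X, 3 X]` such that all forms are rough, one of the forms with index in `I` is prime,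
and either the Liouville function at `α n + β` is `σ` or another form with index in `I` is prime -/
noncomputable def goodS (κ σ : ℝ) {J : ℕ} (I : Finset (Fin J)) (A B : Fin J → ℕ) (α β : ℕ) (X : ℝ) : Finset ℕ :=
  (Icc 1 ⌊3 * X⌋₊).filter (fun n => X < n ∧ RoughL κ X A B n ∧
    ∃ i ∈ I, (A i * n + B i).Prime ∧ (lam ((α * n + β : ℕ) : ℤ) = σ ∨
      ∃ j ∈ I, j ≠ i ∧ (A j * n + B j).Prime))

lemma lam_or {m : ℕ} (hm : m ≠ 0) : lam (m : ℤ) = 1 ∨ lam (m : ℤ) = -1 := by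
  unfold lam
  rw [if_neg (by exact_mod_cast hm), Int.natAbs_natCast]
  exact neg_one_pow_eq_or ℝ _

lemma lam_eq_neg_one {m : ℕ} (hm : m ≠ 0) : lam (m : ℤ) = -1 ↔ Odd (ArithmeticFunction.cardFactors m) := by
  unfold lam
  rw [if_neg (by exact_mod_cast hm), Int.natAbs_natCast, neg_one_pow_eq_neg_one_iff_odd (by norm_num)]

lemma lam_eq_one {m : ℕ} (hm : m ≠ 0) (h : ¬ Odd (ArithmeticFunction.cardFactors m)) : lam (m : ℤ) = 1 := by
  unfold lam
  rw [if_neg (by exact_mod_cast hm), Int.natAbs_natCast]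
  exact (Nat.not_odd_iff_even.1 h).neg_one_pow

/-- the criterion -/
def S_CRITO : Prop := ∀ {K0 N1 M : ℕ}, 0 < N1 → M ≤ 2 * N1 →
    ∀ (F : (Fin (K0 + 1) → ℕ) → ℝ), (∀ c, F c ≠ 0 → rad c ≤ N1) → ∀ (I : Finset (Fin (K0 + 1))),
    (2 * N1 * ∑ c ∈ Box (K0 + 1) M, F c ^ 2 < ∑ i ∈ I, ∑ c ∈ Box K0 M, UU M F i c ^ 2) →
    ∃ k : ℝ, 0 < k ∧ ∀ (A B : Fin (K0 + 1) → ℕ), AdmissibleL A B →
    ∀ (α β : ℕ), 1 ≤ α → α.Coprime β → ∀ σ : ℝ, σ = 1 ∨ σ = -1 →
    ∃ c : ℝ, 0 < c ∧ ∀ᶠ X : ℝ in atTop,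
      c * X / Real.log X ^ (K0 + 1) ≤ ((goodS k σ I A B α β X).card : ℝ)

/-- the criterion: a prime and a number with an odd number of prime factors -/
theorem crito : S_CRITO := by
  classical
  intro K0 N1 M hN1 hM F hF I hcrit
  have hR : N1 - 1 < 2 * N1 := by omega
  have hFR : ∀ c, F c ≠ 0 → rad c ≤ (N1 - 1) + 1 := fun c hc => by have := hF c hc; omega
  -- notation
  set SF : ℝ := ∑ c ∈ Box (K0 + 1) M, F c ^ 2 with hSF
  have hSF0 : 0 ≤ SF := Finset.sum_nonneg fun c _ => sq_nonneg _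
  obtain ⟨Sq, hSq⟩ : ∃ Sq : Fin (K0 + 1) → ℝ, ∀ i, Sq i =
      ∑ c ∈ Box K0 M, (1 : ℝ) * UU M F i c ^ 2 := ⟨_, fun _ => rfl⟩
  have hcrit' : (1 / 2) * (N1 * SF) < (∑ i ∈ I, Sq i) / 4 := by
    have h1 : ∀ i, Sq i = ∑ c ∈ Box K0 M, UU M F i c ^ 2 := fun i => by
      rw [hSq]; simp only [one_mul]
    rw [Finset.sum_congr rfl fun i _ => h1 i]
    linarith
  -- choice of κ₀
  obtain ⟨κ₀, hκ0, hκ₀⟩ : ∃ κ₀ : ℝ, 0 < κ₀ ∧ (1 + κ₀) * ((1 / 2) * (N1 * SF)) <
      (∑ i ∈ I, Sq i) / 4 := by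
    have hc : Continuous fun x : ℝ => (1 + x) * ((1 / 2) * (N1 * SF)) := by fun_prop
    have h1 : ∀ᶠ x in nhds (0 : ℝ), (1 + x) * ((1 / 2) * (N1 * SF)) < (∑ i ∈ I, Sq i) / 4 := by
      have h2 := hc.tendsto 0
      simp only [add_zero, one_mul] at h2
      exact h2.eventually_lt_const hcrit'
    have h3 := h1.filter_mono (nhdsWithin_le_nhds (s := Set.Ioi (0 : ℝ)))
    obtain ⟨x, hx1, hx2⟩ := (h3.and self_mem_nhdsWithin).exists
    exact ⟨x, hx2, hx1⟩
  obtain ⟨f, β, hf, hβ⟩ := cells_exist N1 M hN1 hM κ₀ hκ0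
  obtain ⟨ψ, hψ⟩ := psis_exist N1 hN1 κ₀ hκ0
  have hβ0 : 0 < β := hf.pos
  have hB0 : 0 < β ^ K0 := pow_pos hβ0 _
  -- choice of δ
  obtain ⟨δ, hδ, hδ8, hδg⟩ : ∃ δ : ℝ, 0 < δ ∧ δ < 1 / 8 ∧
      (1 + δ) * ((1 / 2) * (β ^ (K0 + 1) * SF + δ) + (1 / 2) * δ) <
      ∑ i ∈ I, ((1 / 4 - δ) * (β ^ K0 * Sq i) - δ) := by
    have hc1 : Continuous fun x : ℝ => (1 + x) * ((1 / 2) * (β ^ (K0 + 1) * SF + x) + (1 / 2) * x) := by
      fun_prop
    have hc2 : Continuous fun x : ℝ => ∑ i ∈ I, ((1 / 4 - x) * (β ^ K0 * Sq i) - x) := by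
      fun_prop
    have h0 : (1 + (0 : ℝ)) * ((1 / 2) * (β ^ (K0 + 1) * SF + 0) + (1 / 2) * 0) <
        ∑ i ∈ I, ((1 / 4 - (0 : ℝ)) * (β ^ K0 * Sq i) - 0) := by
      have e2 : ∑ i ∈ I, ((1 / 4 - (0 : ℝ)) * (β ^ K0 * Sq i) - 0) =
          β ^ K0 * ((∑ i ∈ I, Sq i) / 4) := by
        rw [Finset.sum_div, Finset.mul_sum]
        refine Finset.sum_congr rfl fun i _ => ?_
        ring
      rw [e2, pow_succ]
      have h1 : β * SF ≤ (1 + κ₀) * N1 * SF := mul_le_mul_of_nonneg_right hβ hSF0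
      have h2 : (1 / 2) * (β * SF) < (∑ i ∈ I, Sq i) / 4 := by
        calc (1 / 2) * (β * SF) ≤ (1 / 2) * ((1 + κ₀) * N1 * SF) := by linarith
          _ = (1 + κ₀) * ((1 / 2) * (N1 * SF)) := by ring
          _ < _ := hκ₀
      have h3 := mul_lt_mul_of_pos_left h2 hB0
      calc (1 + (0 : ℝ)) * ((1 / 2) * (β ^ K0 * β * SF + 0) + (1 / 2) * 0)
          = β ^ K0 * ((1 / 2) * (β * SF)) := by ring
        _ < _ := h3
    have h1 := (hc1.tendsto 0).eventually_lt (hc2.tendsto 0) h0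
    have h3 := h1.filter_mono (nhdsWithin_le_nhds (s := Set.Ioi (0 : ℝ)))
    have h4 : ∀ᶠ x in nhdsWithin (0 : ℝ) (Set.Ioi 0), x < 1 / 8 :=
      (gt_mem_nhds (by norm_num : (0 : ℝ) < 1 / 8)).filter_mono nhdsWithin_le_nhds
    obtain ⟨x, ⟨hx1, hx2⟩, hx3⟩ := ((h3.and h4).and self_mem_nhdsWithin).exists
    exact ⟨x, hx3, hx2, hx1⟩
  obtain ⟨gap, hgap⟩ : ∃ gap : ℝ, gap = ∑ i ∈ I, ((1 / 4 - δ) * (β ^ K0 * Sq i) - δ) -
    ((1 + δ) * ((1 / 2) * (β ^ (K0 + 1) * SF + δ) + (1 / 2) * δ)) := ⟨_, rfl⟩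
  have hgap0 : 0 < gap := by rw [hgap]; linarith
  -- choice of the roughness
  obtain ⟨Cn, hCn0, hCn⟩ := nonroughL hN1 hR hf F hFR
  have hK1 : (0 : ℝ) < ((K0 + 1 : ℕ) : ℝ) := by positivity
  obtain ⟨k, hk0, hk4, hkg⟩ : ∃ k : ℝ, 0 < k ∧ k < 4 * δ ∧
      (((K0 + 1 : ℕ) : ℝ) * (1 + δ)) * (Cn * k ^ 2) ≤ gap / 2 := by
    have hc : Continuous fun x : ℝ => (((K0 + 1 : ℕ) : ℝ) * (1 + δ)) * (Cn * x ^ 2) := by fun_prop
    have h1 : ∀ᶠ x in nhds (0 : ℝ), (((K0 + 1 : ℕ) : ℝ) * (1 + δ)) * (Cn * x ^ 2) < gap / 2 := by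
      have h2 := hc.tendsto 0
      simp only [ne_eq, OfNat.ofNat_ne_zero, not_false_eq_true, zero_pow, mul_zero] at h2
      exact h2.eventually_lt_const (by linarith)
    have h3 := h1.filter_mono (nhdsWithin_le_nhds (s := Set.Ioi (0 : ℝ)))
    have h4 : ∀ᶠ x in nhdsWithin (0 : ℝ) (Set.Ioi 0), x < 4 * δ :=
      (gt_mem_nhds (by linarith : (0 : ℝ) < 4 * δ)).filter_mono nhdsWithin_le_nhds
    obtain ⟨x, ⟨hx1, hx2⟩, hx3⟩ := ((h3.and h4).and self_mem_nhdsWithin).exists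
    exact ⟨x, hx3, hx2, hx1.le⟩
  obtain ⟨CR, hCR0, hCR⟩ := wwR_le hf F k hk0
  refine ⟨k, hk0, ?_⟩
  intro A B hadm α β' hα hαβ σ hσ
  have hσ2 : σ * σ = 1 := by rcases hσ with h | h <;> rw [h] <;> norm_num
  have hσabs : |σ| = 1 := by rcases hσ with h | h <;> rw [h] <;> norm_num
  -- choice of D
  obtain ⟨D1, hD1⟩ := lim_wwL hN1 hM hR hf F hFR δ hδ hδ8 δ hδ
  obtain ⟨D2, hD2⟩ := lim_qqL hN1 hM hR hf F hFR (fun _ _ => (1 : ℝ))
    (fun s s' h1 h2 h3 => absurd h3 (by omega)) δ hδ hδ8 δ hδ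
  obtain ⟨D, hD⟩ : ∃ D, D = D1 + D2 + (∑ i, ∑ j, A i * B j + ∑ i, A i) +
    (32 * (K0 + 1) + 2) := ⟨_, rfl⟩
  have hsep : SepL D A B := critL_sep A B hadm.1 hadm.2.1 D (by omega)
  obtain ⟨a, ha⟩ := critL_class A B hadm.2.2 D
  obtain ⟨a0, ha0⟩ : ∃ a0 : ℕ, a0 = ∑ i, A i := ⟨_, rfl⟩
  have hAa0 : ∀ i, A i ≤ a0 := fun i => by
    rw [ha0]; exact Finset.single_le_sum (f := A) (fun _ _ => Nat.zero_le _) (mem_univ i)
  have ha01 : 1 ≤ a0 := (hadm.1 0).trans (hAa0 0)
  have ha01' : (1 : ℝ) ≤ a0 := by exact_mod_cast ha01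
  have hWD : (0 : ℝ) < WD D := by exact_mod_cast WD_pos D
  have hBD := BE_PD_pos D
  have hBD1 := BE_PD_le_one D
  obtain ⟨c3, hc3⟩ : ∃ c3 : ℝ, c3 = gap / 2 / (((K0 + 1 : ℕ) : ℝ) * (1 + δ) * CR) := ⟨_, rfl⟩
  have hc30 : 0 < c3 := by rw [hc3]; positivity
  refine ⟨c3 * (1 / (20 * WD D)), by positivity, ?_⟩
  have evP := pointwiseL hN1 hM hR hf hψ F hFR 0 (fun _ => 0) (fun _ => le_rfl) (fun _ _ => 0)
    (fun _ _ => (1 : ℝ)) (fun Y => by
      simp only [one_mul, Finset.univ_eq_empty, Finset.sum_empty, add_zero]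
      rw [sq, Finset.sum_mul_sum]) δ hδ hδ8 D A B hadm.1 a0 hAa0
  have evW := hD1 D (by omega) A B hsep a
  have evQ : ∀ᶠ X : ℝ in atTop, ∀ i, _ :=
    eventually_all.2 fun i => hD2 D (by omega) A B hsep i a (ha i)
  have evLam := lim_lam hN1 hf F hF δ hδ hδ8 δ hδ D A B hsep α β' hα hαβ a
  have evN := NN_pos δ (by linarith) D (K0 + 1)
  have evL := critL_log a0 ha01 δ hδ
  have evU := hCR δ D A B hadm.1
  have evR := hCn δ hδ hδ8 k hk0 hk4 D (by omega) A B hsep
  have evB : ∀ᶠ X : ℝ in atTop, ((∑ i, B i : ℕ) : ℝ) + 40 ≤ X := eventually_ge_atTop _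
  filter_upwards [evP, evW, evQ, evLam, evN, evL, evU, evR, evB] with X hP hW hQ hLam hN hL hU hRR hB
  have hB0' : (0 : ℝ) ≤ ((∑ i, B i : ℕ) : ℝ) := Nat.cast_nonneg _
  have hX3 : (40 : ℝ) ≤ X := by linarith
  have hX0 : 0 < X := by linarith
  have hlogX : 0 < Real.log X := Real.log_pos (by linarith)
  have h4X : (1 : ℝ) ≤ 4 * a0 * X := by nlinarith
  have hlog4 : 0 ≤ Real.log (4 * a0 * X) := Real.log_nonneg h4X
  obtain ⟨LG, hLG⟩ : ∃ LG : ℝ, LG = Real.log (4 * a0 * X) := ⟨_, rfl⟩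
  rw [← hLG] at hlog4 hL
  obtain ⟨CC, hCC⟩ : ∃ CC : ℝ, CC = ((K0 + 1 : ℕ) : ℝ) * LG * CR := ⟨_, rfl⟩
  have hCC0 : 0 ≤ CC := by rw [hCC]; positivity
  -- the pointwise inequality, summed over i and multiplied by ν
  have hpt : ∀ n ∈ Icc 1 ⌊3 * X⌋₊,
      ∑ i ∈ I, nu X (WD D) a n * (th (A i * n + B i) * qq δ D X f M F A B i (fun _ _ => (1 : ℝ)) n) ≤
      (LG / 2) * (nu X (WD D) a n * ww δ D X f M F A B n ^ 2) +
        (-σ * (LG / 2)) * (nu X (WD D) a n * (lam ((α * n + β' : ℕ) : ℤ) * ww δ D X f M F A B n ^ 2)) +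
        (if n ∈ goodS k σ I A B α β' X then CC else 0) +
        (((K0 + 1 : ℕ) : ℝ) * LG) * (nu X (WD D) a n * (if Bad k D X A B n then ww δ D X f M F A B n ^ 2 else 0)) := by
    intro n hn
    have hn1 : 1 ≤ n := (Finset.mem_Icc.1 hn).1
    have hn3 : (n : ℝ) ≤ 3 * X := by
      have := (Finset.mem_Icc.1 hn).2
      exact (Nat.le_floor_iff (by linarith)).1 this
    have hite : 0 ≤ (if n ∈ goodS k σ I A B α β' X then CC else 0) := by
      split_ifs
      · exact hCC0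
      · exact le_rfl
    have hnu := nu_nonneg X (WD D) a n
    have hbt : 0 ≤ (((K0 + 1 : ℕ) : ℝ) * LG) * (nu X (WD D) a n *
        (if Bad k D X A B n then ww δ D X f M F A B n ^ 2 else 0)) := by
      apply mul_nonneg (by positivity)
      apply mul_nonneg hnu
      split_ifs
      · exact sq_nonneg _
      · exact le_rfl
    by_cases hnX : (n : ℝ) ≤ X
    · have h0 : nu X (WD D) a n = 0 := by
        unfold nu
        split_ifs
        · apply Phi_eq_zero_of_le (by positivity)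
          rw [div_le_one hX0]; exact hnX
        · rfl
      simp only [h0, zero_mul, mul_zero, Finset.sum_const_zero, zero_add, add_zero]
      exact hite
    · push Not at hnX
      by_cases hna : n ≡ a [MOD WD D]
      swap
      · have h0 : nu X (WD D) a n = 0 := by
          unfold nu
          rw [if_neg hna]
        simp only [h0, zero_mul, mul_zero, Finset.sum_const_zero, zero_add, add_zero]
        exact hite
      have hnu1 : nu X (WD D) a n ≤ 1 := by
        unfold nu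
        rw [if_pos hna]
        exact Phi_le_one _
      have hthi : ∀ i, th (A i * n + B i) ≤ LG := by
        intro i
        unfold th
        split_ifs with hp
        · rw [hLG]
          apply Real.log_le_log
          · have := hp.pos
            exact_mod_cast this
          · have h1 : B i ≤ ∑ i, B i :=
              Finset.single_le_sum (f := B) (fun _ _ => Nat.zero_le _) (mem_univ i)
            have h2 : (B i : ℝ) ≤ ((∑ i, B i : ℕ) : ℝ) := by exact_mod_cast h1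
            have h3 : (A i : ℝ) ≤ a0 := by exact_mod_cast hAa0 i
            have h5 : (A i : ℝ) * n ≤ a0 * (3 * X) :=
              mul_le_mul h3 hn3 (Nat.cast_nonneg _) (Nat.cast_nonneg _)
            have h6 : 1 * X ≤ (a0 : ℝ) * X := mul_le_mul_of_nonneg_right ha01' hX0.le
            have h7 : ((A i * n + B i : ℕ) : ℝ) = (A i : ℝ) * n + B i := by push_cast; ring
            rw [h7]
            linarith
        · exact hlog4
      have hww0 : 0 ≤ nu X (WD D) a n * ww δ D X f M F A B n ^ 2 :=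
        mul_nonneg hnu (sq_nonneg _)
      have hneT : α * n + β' ≠ 0 := by
        have := Nat.mul_pos hα hn1
        omega
      have h1 : ∑ i ∈ I, th (A i * n + B i) ≤ ((K0 + 1 : ℕ) : ℝ) * LG := by
        calc _ ≤ ∑ i, th (A i * n + B i) :=
              Finset.sum_le_sum_of_subset_of_nonneg (Finset.subset_univ _) fun _ _ _ => th_nonneg _
          _ ≤ ∑ _i : Fin (K0 + 1), LG := Finset.sum_le_sum fun i _ => hthi i
          _ = _ := by rw [Finset.sum_const, Finset.card_univ, Fintype.card_fin, nsmul_eq_mul]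
      have hlampos : 0 ≤ 1 - σ * lam ((α * n + β' : ℕ) : ℤ) := by
        have h2 : |σ * lam ((α * n + β' : ℕ) : ℤ)| ≤ 1 := by
          rw [abs_mul, hσabs, one_mul]
          exact lam_abs _
        have := (abs_le.1 h2).2
        linarith
      have hcost : 0 ≤ (LG / 2) * (nu X (WD D) a n * ww δ D X f M F A B n ^ 2) +
          (-σ * (LG / 2)) * (nu X (WD D) a n * (lam ((α * n + β' : ℕ) : ℤ) * ww δ D X f M F A B n ^ 2)) := by
        have e : (LG / 2) * (nu X (WD D) a n * ww δ D X f M F A B n ^ 2) +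
          (-σ * (LG / 2)) * (nu X (WD D) a n * (lam ((α * n + β' : ℕ) : ℤ) * ww δ D X f M F A B n ^ 2)) =
          (LG / 2) * ((1 - σ * lam ((α * n + β' : ℕ) : ℤ)) * (nu X (WD D) a n * ww δ D X f M F A B n ^ 2)) := by
          ring
        rw [e]
        positivity
      have hth : (∑ i ∈ I, th (A i * n + B i)) * (nu X (WD D) a n * ww δ D X f M F A B n ^ 2) ≤
          (LG / 2) * (nu X (WD D) a n * ww δ D X f M F A B n ^ 2) +
          (-σ * (LG / 2)) * (nu X (WD D) a n * (lam ((α * n + β' : ℕ) : ℤ) * ww δ D X f M F A B n ^ 2)) +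
            (if n ∈ goodS k σ I A B α β' X then CC else 0) +
            (((K0 + 1 : ℕ) : ℝ) * LG) * (nu X (WD D) a n *
              (if Bad k D X A B n then ww δ D X f M F A B n ^ 2 else 0)) := by
        by_cases hbad : Bad k D X A B n
        · rw [if_pos hbad]
          have h5 := mul_le_mul_of_nonneg_right h1 hww0
          linarith
        · rw [if_neg hbad, mul_zero, mul_zero, add_zero]
          by_cases hg : ∃ i ∈ I, (A i * n + B i).Prime ∧ (lam ((α * n + β' : ℕ) : ℤ) = σ ∨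
              ∃ j ∈ I, j ≠ i ∧ (A j * n + B j).Prime)
          · have hrough : RoughL k X A B n := by
              intro i p hp hpX hpd
              by_cases hDp : D < p
              · exact hbad ⟨i, p, hp, hDp, hpX, hpd⟩
              · have hpW : p ∣ WD D := (prime_dvd_WD hp).2 (mem_PD' hp (by omega))
                have h2 : A i * n + B i ≡ A i * a + B i [MOD p] :=
                  ((hna.of_dvd hpW).mul_left (A i)).add_right (B i)
                have h3 : p ∣ A i * a + B i := (Nat.ModEq.dvd_iff h2 (dvd_refl p)).1 hpd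
                have h4 := Nat.dvd_gcd h3 hpW
                rw [(ha i)] at h4
                exact hp.one_lt.ne' (Nat.dvd_one.1 h4)
            have hgood : n ∈ goodS k σ I A B α β' X := by
              unfold goodS
              rw [Finset.mem_filter]
              exact ⟨hn, hnX, hrough, hg⟩
            rw [if_pos hgood]
            have h2 : nu X (WD D) a n * ww δ D X f M F A B n ^ 2 ≤ CR := by
              calc _ ≤ 1 * ww δ D X f M F A B n ^ 2 :=
                    mul_le_mul_of_nonneg_right hnu1 (sq_nonneg _)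
                _ = ww δ D X f M F A B n ^ 2 := one_mul _
                _ ≤ _ := hU n hn1 hn3 hrough
            have h3 : (∑ i ∈ I, th (A i * n + B i)) *
                (nu X (WD D) a n * ww δ D X f M F A B n ^ 2) ≤ CC := by
              rw [hCC]
              exact mul_le_mul h1 h2 hww0 (by positivity)
            linarith
          · have h5 : (∑ i ∈ I, th (A i * n + B i)) ≤
                (LG / 2) * (1 - σ * lam ((α * n + β' : ℕ) : ℤ)) := by
              by_cases hpr : ∃ i ∈ I, (A i * n + B i).Prime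
              · obtain ⟨i, hiI, hip⟩ := hpr
                have hl : lam ((α * n + β' : ℕ) : ℤ) = -σ := by
                  have hnot : ¬ lam ((α * n + β' : ℕ) : ℤ) = σ := fun h => hg ⟨i, hiI, hip, Or.inl h⟩
                  rcases lam_or hneT with h | h <;> rcases hσ with h' | h' <;> rw [h'] at hnot ⊢ <;>
                    rw [h] at hnot ⊢
                  · exact absurd rfl hnot
                  · norm_num
                  · exact absurd rfl hnot
                have h7 : (LG / 2) * (1 - σ * lam ((α * n + β' : ℕ) : ℤ)) = LG := by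
                  rw [hl]
                  have : 1 - σ * -σ = 2 := by linarith
                  rw [this]
                  ring
                rw [h7]
                have h6 : ∑ j ∈ I, th (A j * n + B j) = th (A i * n + B i) := by
                  apply Finset.sum_eq_single_of_mem i hiI
                  intro j hjI hji
                  unfold th
                  rw [if_neg]
                  intro hjp
                  exact hg ⟨i, hiI, hip, Or.inr ⟨j, hjI, hji, hjp⟩⟩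
                rw [h6]
                exact hthi i
              · have h6 : ∑ j ∈ I, th (A j * n + B j) = 0 := by
                  apply Finset.sum_eq_zero
                  intro j hj
                  unfold th
                  rw [if_neg]
                  intro hjp
                  exact hpr ⟨j, hj, hjp⟩
                rw [h6]
                positivity
            have h7 := mul_le_mul_of_nonneg_right h5 hww0
            have h8 : (LG / 2) * (1 - σ * lam ((α * n + β' : ℕ) : ℤ)) *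
                (nu X (WD D) a n * ww δ D X f M F A B n ^ 2) =
                (LG / 2) * (nu X (WD D) a n * ww δ D X f M F A B n ^ 2) +
                (-σ * (LG / 2)) * (nu X (WD D) a n * (lam ((α * n + β' : ℕ) : ℤ) *
                  ww δ D X f M F A B n ^ 2)) := by ring
            rw [h8] at h7
            linarith
      calc ∑ i ∈ I, nu X (WD D) a n * (th (A i * n + B i) *
            qq δ D X f M F A B i (fun _ _ => (1 : ℝ)) n)
          ≤ ∑ i ∈ I, nu X (WD D) a n * (th (A i * n + B i) * ww δ D X f M F A B n ^ 2) := by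
            refine Finset.sum_le_sum fun i _ => ?_
            apply mul_le_mul_of_nonneg_left _ hnu
            have := hP n hnX hn3 i
            simpa using this
        _ = (∑ i ∈ I, th (A i * n + B i)) * (nu X (WD D) a n * ww δ D X f M F A B n ^ 2) := by
            rw [Finset.sum_mul]
            refine Finset.sum_congr rfl fun i _ => ?_
            ring
        _ ≤ _ := hth
  have hsum := Finset.sum_le_sum hpt
  rw [Finset.sum_add_distrib, Finset.sum_add_distrib, Finset.sum_add_distrib, ← Finset.mul_sum,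
    ← Finset.mul_sum, ← Finset.mul_sum, Finset.sum_comm] at hsum
  have hcard : ∑ n ∈ Icc 1 ⌊3 * X⌋₊, (if n ∈ goodS k σ I A B α β' X then CC else 0) ≤
      CC * ((goodS k σ I A B α β' X).card : ℝ) := by
    rw [← Finset.sum_filter, Finset.sum_const, nsmul_eq_mul, mul_comm]
    refine mul_le_mul_of_nonneg_left ?_ hCC0
    have : ((Icc 1 ⌊3 * X⌋₊).filter (fun n => n ∈ goodS k σ I A B α β' X)).card ≤
        (goodS k σ I A B α β' X).card :=
      Finset.card_le_card fun n hn => (Finset.mem_filter.1 hn).2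
    exact_mod_cast this
  -- abbreviations
  obtain ⟨N, hNdef⟩ : ∃ N : ℝ, N = NN δ D X (K0 + 1) := ⟨_, rfl⟩
  obtain ⟨G, hG⟩ : ∃ G : ℝ, G = ((goodS k σ I A B α β' X).card : ℝ) := ⟨_, rfl⟩
  have hG0 : 0 ≤ G := by rw [hG]; exact Nat.cast_nonneg _
  obtain ⟨AA, hA⟩ : ∃ AA : ℝ, AA = ∑ n ∈ Icc 1 ⌊3 * X⌋₊,
      nu X (WD D) a n * ww δ D X f M F A B n ^ 2 := ⟨_, rfl⟩
  obtain ⟨AL, hAL⟩ : ∃ AL : ℝ, AL = ∑ n ∈ Icc 1 ⌊3 * X⌋₊,
      nu X (WD D) a n * (lam ((α * n + β' : ℕ) : ℤ) * ww δ D X f M F A B n ^ 2) := ⟨_, rfl⟩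
  obtain ⟨AB, hAB⟩ : ∃ AB : ℝ, AB = ∑ n ∈ Icc 1 ⌊3 * X⌋₊,
      nu X (WD D) a n * (if Bad k D X A B n then ww δ D X f M F A B n ^ 2 else 0) := ⟨_, rfl⟩
  obtain ⟨Q, hQd⟩ : ∃ Q : Fin (K0 + 1) → ℝ, ∀ i, Q i = ∑ n ∈ Icc 1 ⌊3 * X⌋₊,
      nu X (WD D) a n * (th (A i * n + B i) * qq δ D X f M F A B i (fun _ _ => (1 : ℝ)) n) :=
    ⟨_, fun _ => rfl⟩
  rw [← hA, ← hAB, ← hAL] at hsum
  rw [← hG] at hcard
  rw [← hAL] at hLam
  have hA0 : 0 ≤ AA := by
    rw [hA]
    exact Finset.sum_nonneg fun n _ => mul_nonneg (nu_nonneg _ _ _ _) (sq_nonneg _)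
  have hsum2 : ∑ i ∈ I, Q i ≤ (LG / 2) * AA + (-σ * (LG / 2)) * AL + CC * G +
      (((K0 + 1 : ℕ) : ℝ) * LG) * AB := by
    refine le_trans (le_of_eq ?_) (hsum.trans (by linarith))
    exact Finset.sum_congr rfl fun i _ => hQd i
  rw [← hNdef] at hN hLam
  have hW' : AA ≤ N * (β ^ (K0 + 1) * SF + δ) := by rw [hA, hNdef]; exact hW
  have hAB' : AB ≤ Cn * k ^ 2 * N := by rw [hAB, hNdef]; exact hRR a
  have hAL' : -σ * AL ≤ δ * N := by
    refine (le_abs_self _).trans ?_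
    rw [abs_mul, abs_neg, hσabs, one_mul]
    exact hLam
  have hQ' : ∀ i, N * Real.log X * ((1 / 4 - δ) * (β ^ K0 * Sq i) - δ) ≤ Q i := by
    intro i; rw [hNdef, hSq i, hQd i]; exact hQ i
  have hNL : 0 < N * Real.log X := mul_pos hN hlogX
  have hSpos : 0 ≤ (1 / 2) * (β ^ (K0 + 1) * SF + δ) + (1 / 2) * δ := by positivity
  have h1 : (LG / 2) * AA + (-σ * (LG / 2)) * AL ≤ N * Real.log X *
      ((1 + δ) * ((1 / 2) * (β ^ (K0 + 1) * SF + δ) + (1 / 2) * δ)) := by
    calc (LG / 2) * AA + (-σ * (LG / 2)) * AL = LG * ((1 / 2) * AA + (1 / 2) * (-σ * AL)) := by ring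
      _ ≤ LG * (N * ((1 / 2) * (β ^ (K0 + 1) * SF + δ) + (1 / 2) * δ)) := by
          apply mul_le_mul_of_nonneg_left _ hlog4
          linarith
      _ ≤ ((1 + δ) * Real.log X) * (N * ((1 / 2) * (β ^ (K0 + 1) * SF + δ) + (1 / 2) * δ)) :=
          mul_le_mul_of_nonneg_right hL (mul_nonneg hN.le hSpos)
      _ = _ := by ring
  have h3 : N * Real.log X * ∑ i ∈ I, ((1 / 4 - δ) * (β ^ K0 * Sq i) - δ) ≤
      ∑ i ∈ I, Q i := by
    rw [Finset.mul_sum]
    exact Finset.sum_le_sum fun i _ => hQ' i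
  have hBB : (((K0 + 1 : ℕ) : ℝ) * LG) * AB ≤ N * Real.log X * (gap / 2) := by
    have h5 : (((K0 + 1 : ℕ) : ℝ) * LG) * AB ≤ (((K0 + 1 : ℕ) : ℝ) * LG) * (Cn * k ^ 2 * N) :=
      mul_le_mul_of_nonneg_left hAB' (by positivity)
    have h6 : (((K0 + 1 : ℕ) : ℝ) * LG) * (Cn * k ^ 2 * N) ≤
        (((K0 + 1 : ℕ) : ℝ) * ((1 + δ) * Real.log X)) * (Cn * k ^ 2 * N) := by
      apply mul_le_mul_of_nonneg_right _ (by positivity)
      exact mul_le_mul_of_nonneg_left hL hK1.le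
    have h7 : (((K0 + 1 : ℕ) : ℝ) * ((1 + δ) * Real.log X)) * (Cn * k ^ 2 * N) =
        N * Real.log X * ((((K0 + 1 : ℕ) : ℝ) * (1 + δ)) * (Cn * k ^ 2)) := by ring
    have h8 := mul_le_mul_of_nonneg_left hkg hNL.le
    linarith
  have h5 : N * Real.log X * (gap / 2) ≤ CC * G := by
    have e : N * Real.log X * gap = N * Real.log X * (gap / 2) + N * Real.log X * (gap / 2) := by ring
    have e2 : N * Real.log X * gap ≤ CC * G + (((K0 + 1 : ℕ) : ℝ) * LG) * AB := by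
      rw [hgap, mul_sub]
      linarith
    linarith
  -- the lower bound for the number of good integers
  have h6 : CC ≤ (((K0 + 1 : ℕ) : ℝ) * (1 + δ)) * CR * Real.log X := by
    rw [hCC]
    calc ((K0 + 1 : ℕ) : ℝ) * LG * CR ≤ ((K0 + 1 : ℕ) : ℝ) * ((1 + δ) * Real.log X) * CR :=
          mul_le_mul_of_nonneg_right (mul_le_mul_of_nonneg_left hL hK1.le) hCR0.le
      _ = _ := by ring
  have h7 : N * (gap / 2) * Real.log X ≤ (((K0 + 1 : ℕ) : ℝ) * (1 + δ)) * CR * G * Real.log X := by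
    calc N * (gap / 2) * Real.log X = N * Real.log X * (gap / 2) := by ring
      _ ≤ CC * G := h5
      _ ≤ ((((K0 + 1 : ℕ) : ℝ) * (1 + δ)) * CR * Real.log X) * G :=
        mul_le_mul_of_nonneg_right h6 hG0
      _ = _ := by ring
  have h8 : N * (gap / 2) ≤ (((K0 + 1 : ℕ) : ℝ) * (1 + δ)) * CR * G :=
    le_of_mul_le_mul_right h7 hlogX
  have h9 : N * c3 ≤ G := by
    rw [hc3, ← mul_div_assoc, div_le_iff₀ (by positivity)]
    linarith
  have h10 : (1 / (20 * WD D)) * X / Real.log X ^ (K0 + 1) ≤ N := by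
    rw [hNdef]
    unfold NN
    have hM := MPhi_ge X hX3
    have hLt := Lt_pos (by linarith : δ < 1 / 4) (by linarith : 1 < X)
    have hLB : Lt δ X * BE (PD D) ≤ Real.log X := by
      have h11 : Lt δ X ≤ Real.log X := by unfold Lt; nlinarith
      nlinarith
    calc (1 / (20 * WD D)) * X / Real.log X ^ (K0 + 1) =
        X / 20 * (1 / (WD D : ℝ)) * (1 / Real.log X) ^ (K0 + 1) := by
          rw [one_div_pow]; field_simp
      _ ≤ MPhi X * (1 / (WD D : ℝ)) * (1 / (Lt δ X * BE (PD D))) ^ (K0 + 1) := by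
          have h12 : 1 / Real.log X ≤ 1 / (Lt δ X * BE (PD D)) :=
            one_div_le_one_div_of_le (by positivity) hLB
          have h13 : 0 < 1 / Real.log X := by positivity
          have h14 : 0 < MPhi X := by linarith
          apply mul_le_mul _ (pow_le_pow_left₀ h13.le h12 _) (by positivity) (by positivity)
          exact mul_le_mul_of_nonneg_right hM (by positivity)
  rw [← hG]
  calc c3 * (1 / (20 * WD D)) * X / Real.log X ^ (K0 + 1) =
      ((1 / (20 * WD D)) * X / Real.log X ^ (K0 + 1)) * c3 := by ring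
    _ ≤ N * c3 := mul_le_mul_of_nonneg_right h10 hc30.le
    _ ≤ G := h9

end Pool.Agent.J4H29
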