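import Mathlib
import Pool.Agent.J4H29.O1

/-! helper29: primes against parity conditions: the criterion. -/

set_option autoImplicit false

open Finset Filter
open scoped ContDiff

namespace Pool.Agent.J4H29

open Pool.Agent.H378R2 Pool.Agent.H95R2.BG.LF
open Pool.Agent.H95R2.BG hiding ww zz qq prodv
open Pool.Agent.Y826.ZG
open Pool.Agent.X34.E
open Pool.Agent.N728.QG (lam S_BVL)

open Classical in
/-- the integers `n` in `(X, 3 X]` such that all forms are rough, and the number of the indices `i ∈ I` for which the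
form is prime is at least `r` plus the number of the violated sign conditions -/
noncomputable def goodT (κ : ℝ) (r : ℕ) {J s : ℕ} (σ : Fin s → ℝ) (I : Finset (Fin J)) (A B : Fin J → ℕ)
    (α β : Fin s → ℕ) (X : ℝ) : Finset ℕ :=
  (Icc 1 ⌊3 * X⌋₊).filter (fun n => X < n ∧ RoughL κ X A B n ∧
    r + (univ.filter fun t => lam ((α t * n + β t : ℕ) : ℤ) ≠ σ t).card ≤
      (I.filter fun i => (A i * n + B i).Prime).card)

/-- the criterion -/
def S_CRITT : Prop := ∀ {K0 N1 M : ℕ}, 0 < N1 → M ≤ 2 * N1 →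
    ∀ (F : (Fin (K0 + 1) → ℕ) → ℝ), (∀ c, F c ≠ 0 → rad c ≤ N1) → ∀ (I : Finset (Fin (K0 + 1))),
    ∀ (r s : ℕ), 1 ≤ r →
    ((4 * ((r : ℝ) - 1) + 2 * s) * (N1 * ∑ c ∈ Box (K0 + 1) M, F c ^ 2) <
      ∑ i ∈ I, ∑ c ∈ Box K0 M, UU M F i c ^ 2) →
    ∃ k : ℝ, 0 < k ∧ ∀ (A B : Fin (K0 + 1) → ℕ), AdmissibleL A B →
    ∀ (α β : Fin s → ℕ), (∀ t, 1 ≤ α t) → (∀ t, (α t).Coprime (β t)) →
    ∀ σ : Fin s → ℝ, (∀ t, σ t = 1 ∨ σ t = -1) →
    ∃ c : ℝ, 0 < c ∧ ∀ᶠ X : ℝ in atTop,
      c * X / Real.log X ^ (K0 + 1) ≤ ((goodT k r σ I A B α β X).card : ℝ)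

/-- the criterion: primes against parity conditions -/
theorem critt : S_CRITT := by
  classical
  intro K0 N1 M hN1 hM F hF I r s hr hcrit
  obtain ⟨ρ, hρ⟩ : ∃ ρ : ℝ, ρ = (r : ℝ) - 1 + (s : ℝ) / 2 := ⟨_, rfl⟩
  have hr1 : (0 : ℝ) ≤ (r : ℝ) - 1 := by
    have : (1 : ℝ) ≤ r := by exact_mod_cast hr
    linarith
  have hs0 : (0 : ℝ) ≤ (s : ℝ) := Nat.cast_nonneg _
  have hρ0 : 0 ≤ ρ := by rw [hρ]; linarith
  have hR : N1 - 1 < 2 * N1 := by omega
  have hFR : ∀ c, F c ≠ 0 → rad c ≤ (N1 - 1) + 1 := fun c hc => by have := hF c hc; omega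
  -- notation
  set SF : ℝ := ∑ c ∈ Box (K0 + 1) M, F c ^ 2 with hSF
  have hSF0 : 0 ≤ SF := Finset.sum_nonneg fun c _ => sq_nonneg _
  obtain ⟨Sq, hSq⟩ : ∃ Sq : Fin (K0 + 1) → ℝ, ∀ i, Sq i =
      ∑ c ∈ Box K0 M, (1 : ℝ) * UU M F i c ^ 2 := ⟨_, fun _ => rfl⟩
  have hcrit' : ρ * (N1 * SF) < (∑ i ∈ I, Sq i) / 4 := by
    have h1 : ∀ i, Sq i = ∑ c ∈ Box K0 M, UU M F i c ^ 2 := fun i => by
      rw [hSq]; simp only [one_mul]
    rw [Finset.sum_congr rfl fun i _ => h1 i]
    have h2 : (4 * ((r : ℝ) - 1) + 2 * s) * (N1 * SF) = 4 * (ρ * (N1 * SF)) := by rw [hρ]; ring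
    rw [h2] at hcrit
    linarith
  -- choice of κ₀
  obtain ⟨κ₀, hκ0, hκ₀⟩ : ∃ κ₀ : ℝ, 0 < κ₀ ∧ (1 + κ₀) * (ρ * (N1 * SF)) <
      (∑ i ∈ I, Sq i) / 4 := by
    have hc : Continuous fun x : ℝ => (1 + x) * (ρ * (N1 * SF)) := by fun_prop
    have h1 : ∀ᶠ x in nhds (0 : ℝ), (1 + x) * (ρ * (N1 * SF)) < (∑ i ∈ I, Sq i) / 4 := by
      have h2 := hc.tendsto 0
      simp only [add_zero, one_mul] at h2
      exact h2.eventually_lt_const hcrit'
    have h3 := h1.filter_mono (nhdsWithin_le_nhds (s := Set.Ioi (0 : ℝ)))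
    obtain ⟨x, hx1, hx2⟩ := (h3.and self_mem_nhdsWithin).exists
    exact ⟨x, hx2, hx1⟩
  obtain ⟨f, β, hf, hβ⟩ := cells_exist N1 M hN1 hM κ₀ hκ0
  obtain ⟨ψ, hψ⟩ := psis_exist N1 hN1 κ₀ hκ0
  have hβ0 : 0 < β := hf.pos
  have hB0 : 0 < β ^ K0 := pow_pos hβ0 _
  -- choice of δ
  obtain ⟨δ, hδ, hδ8, hδg⟩ : ∃ δ : ℝ, 0 < δ ∧ δ < 1 / 8 ∧
      (1 + δ) * (ρ * (β ^ (K0 + 1) * SF + δ) + ((s : ℝ) / 2) * δ) <
      ∑ i ∈ I, ((1 / 4 - δ) * (β ^ K0 * Sq i) - δ) := by
    have hc1 : Continuous fun x : ℝ => (1 + x) * (ρ * (β ^ (K0 + 1) * SF + x) + ((s : ℝ) / 2) * x) := by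
      fun_prop
    have hc2 : Continuous fun x : ℝ => ∑ i ∈ I, ((1 / 4 - x) * (β ^ K0 * Sq i) - x) := by
      fun_prop
    have h0 : (1 + (0 : ℝ)) * (ρ * (β ^ (K0 + 1) * SF + 0) + ((s : ℝ) / 2) * 0) <
        ∑ i ∈ I, ((1 / 4 - (0 : ℝ)) * (β ^ K0 * Sq i) - 0) := by
      have e2 : ∑ i ∈ I, ((1 / 4 - (0 : ℝ)) * (β ^ K0 * Sq i) - 0) =
          β ^ K0 * ((∑ i ∈ I, Sq i) / 4) := by
        rw [Finset.sum_div, Finset.mul_sum]
        refine Finset.sum_congr rfl fun i _ => ?_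
        ring
      rw [e2, pow_succ]
      have h1 : β * SF ≤ (1 + κ₀) * N1 * SF := mul_le_mul_of_nonneg_right hβ hSF0
      have h2 : ρ * (β * SF) < (∑ i ∈ I, Sq i) / 4 := by
        calc ρ * (β * SF) ≤ ρ * ((1 + κ₀) * N1 * SF) := mul_le_mul_of_nonneg_left h1 hρ0
          _ = (1 + κ₀) * (ρ * (N1 * SF)) := by ring
          _ < _ := hκ₀
      have h3 := mul_lt_mul_of_pos_left h2 hB0
      calc (1 + (0 : ℝ)) * (ρ * (β ^ K0 * β * SF + 0) + ((s : ℝ) / 2) * 0)
          = β ^ K0 * (ρ * (β * SF)) := by ring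
        _ < _ := h3
    have h1 := (hc1.tendsto 0).eventually_lt (hc2.tendsto 0) h0
    have h3 := h1.filter_mono (nhdsWithin_le_nhds (s := Set.Ioi (0 : ℝ)))
    have h4 : ∀ᶠ x in nhdsWithin (0 : ℝ) (Set.Ioi 0), x < 1 / 8 :=
      (gt_mem_nhds (by norm_num : (0 : ℝ) < 1 / 8)).filter_mono nhdsWithin_le_nhds
    obtain ⟨x, ⟨hx1, hx2⟩, hx3⟩ := ((h3.and h4).and self_mem_nhdsWithin).exists
    exact ⟨x, hx3, hx2, hx1⟩
  obtain ⟨gap, hgap⟩ : ∃ gap : ℝ, gap = ∑ i ∈ I, ((1 / 4 - δ) * (β ^ K0 * Sq i) - δ) -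
    ((1 + δ) * (ρ * (β ^ (K0 + 1) * SF + δ) + ((s : ℝ) / 2) * δ)) := ⟨_, rfl⟩
  have hgap0 : 0 < gap := by rw [hgap]; linarith
  -- choice of the roughness
  obtain ⟨Cn, hCn0, hCn⟩ := nonroughL hN1 hR hf F hFR
  have hK1 : (0 : ℝ) < ((K0 + 1 : ℕ) : ℝ) := by positivity
  obtain ⟨k, hk0, hk4, hkg⟩ : ∃ k : ℝ, 0 < k ∧ k < 4 * δ ∧
      (((K0 + 1 : ℕ) : ℝ) * (1 + δ)) * (Cn * k ^ 2) ≤ gap / 2 := by
    have hc : Continuous fun x : ℝ => (((K0 + 1 : ℕ) : ℝ) * (1 + δ)) * (Cn * x ^ 2) := by fun_prop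
    have h1 : ∀ᶠ x in nhds (0 : ℝ), (((K0 + 1 : ℕ) : ℝ) * (1 + δ)) * (Cn * x ^ 2) < gap / 2 := by
      have h2 := hc.tendsto 0
      simp only [ne_eq, OfNat.ofNat_ne_zero, not_false_eq_true, zero_pow, mul_zero] at h2
      exact h2.eventually_lt_const (by linarith)
    have h3 := h1.filter_mono (nhdsWithin_le_nhds (s := Set.Ioi (0 : ℝ)))
    have h4 : ∀ᶠ x in nhdsWithin (0 : ℝ) (Set.Ioi 0), x < 4 * δ :=
      (gt_mem_nhds (by linarith : (0 : ℝ) < 4 * δ)).filter_mono nhdsWithin_le_nhds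
    obtain ⟨x, ⟨hx1, hx2⟩, hx3⟩ := ((h3.and h4).and self_mem_nhdsWithin).exists
    exact ⟨x, hx3, hx2, hx1.le⟩
  obtain ⟨CR, hCR0, hCR⟩ := wwR_le hf F k hk0
  refine ⟨k, hk0, ?_⟩
  intro A B hadm α β' hα hαβ σ hσ
  have hσ2 : ∀ t, σ t * σ t = 1 := fun t => by rcases hσ t with h | h <;> rw [h] <;> norm_num
  have hσabs : ∀ t, |σ t| = 1 := fun t => by rcases hσ t with h | h <;> rw [h] <;> norm_num
  -- choice of D
  obtain ⟨D1, hD1⟩ := lim_wwL hN1 hM hR hf F hFR δ hδ hδ8 δ hδ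
  obtain ⟨D2, hD2⟩ := lim_qqL hN1 hM hR hf F hFR (fun _ _ => (1 : ℝ))
    (fun s s' h1 h2 h3 => absurd h3 (by omega)) δ hδ hδ8 δ hδ
  obtain ⟨D, hD⟩ : ∃ D, D = D1 + D2 + (∑ i, ∑ j, A i * B j + ∑ i, A i) +
    (32 * (K0 + 1) + 2) := ⟨_, rfl⟩
  have hsep : SepL D A B := critL_sep A B hadm.1 hadm.2.1 D (by omega)
  obtain ⟨a, ha⟩ := critL_class A B hadm.2.2 D
  obtain ⟨a0, ha0⟩ : ∃ a0 : ℕ, a0 = ∑ i, A i := ⟨_, rfl⟩
  have hAa0 : ∀ i, A i ≤ a0 := fun i => by
    rw [ha0]; exact Finset.single_le_sum (f := A) (fun _ _ => Nat.zero_le _) (mem_univ i)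
  have ha01 : 1 ≤ a0 := (hadm.1 0).trans (hAa0 0)
  have ha01' : (1 : ℝ) ≤ a0 := by exact_mod_cast ha01
  have hWD : (0 : ℝ) < WD D := by exact_mod_cast WD_pos D
  have hBD := BE_PD_pos D
  have hBD1 := BE_PD_le_one D
  obtain ⟨c3, hc3⟩ : ∃ c3 : ℝ, c3 = gap / 2 / (((K0 + 1 : ℕ) : ℝ) * (1 + δ) * CR) := ⟨_, rfl⟩
  have hc30 : 0 < c3 := by rw [hc3]; positivity
  refine ⟨c3 * (1 / (20 * WD D)), by positivity, ?_⟩
  have evP := pointwiseL hN1 hM hR hf hψ F hFR 0 (fun _ => 0) (fun _ => le_rfl) (fun _ _ => 0)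
    (fun _ _ => (1 : ℝ)) (fun Y => by
      simp only [one_mul, Finset.univ_eq_empty, Finset.sum_empty, add_zero]
      rw [sq, Finset.sum_mul_sum]) δ hδ hδ8 D A B hadm.1 a0 hAa0
  have evW := hD1 D (by omega) A B hsep a
  have evQ : ∀ᶠ X : ℝ in atTop, ∀ i, _ :=
    eventually_all.2 fun i => hD2 D (by omega) A B hsep i a (ha i)
  have evLam : ∀ᶠ X : ℝ in atTop, ∀ t : Fin s, _ :=
    eventually_all.2 fun t => lim_lam hN1 hf F hF δ hδ hδ8 δ hδ D A B hsep (α t) (β' t) (hα t) (hαβ t) a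
  have evN := NN_pos δ (by linarith) D (K0 + 1)
  have evL := critL_log a0 ha01 δ hδ
  have evU := hCR δ D A B hadm.1
  have evR := hCn δ hδ hδ8 k hk0 hk4 D (by omega) A B hsep
  have evB : ∀ᶠ X : ℝ in atTop, ((∑ i, B i : ℕ) : ℝ) + 40 ≤ X := eventually_ge_atTop _
  filter_upwards [evP, evW, evQ, evLam, evN, evL, evU, evR, evB] with X hP hW hQ hLam hN hL hU hRR hB
  have hB0' : (0 : ℝ) ≤ ((∑ i, B i : ℕ) : ℝ) := Nat.cast_nonneg _
  have hX3 : (40 : ℝ) ≤ X := by linarith
  have hX0 : 0 < X := by linarith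
  have hlogX : 0 < Real.log X := Real.log_pos (by linarith)
  have h4X : (1 : ℝ) ≤ 4 * a0 * X := by nlinarith
  have hlog4 : 0 ≤ Real.log (4 * a0 * X) := Real.log_nonneg h4X
  obtain ⟨LG, hLG⟩ : ∃ LG : ℝ, LG = Real.log (4 * a0 * X) := ⟨_, rfl⟩
  rw [← hLG] at hlog4 hL
  obtain ⟨CC, hCC⟩ : ∃ CC : ℝ, CC = ((K0 + 1 : ℕ) : ℝ) * LG * CR := ⟨_, rfl⟩
  have hCC0 : 0 ≤ CC := by rw [hCC]; positivity
  -- the pointwise inequality, summed over i and multiplied by ν
  have hpt : ∀ n ∈ Icc 1 ⌊3 * X⌋₊,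
      ∑ i ∈ I, nu X (WD D) a n * (th (A i * n + B i) * qq δ D X f M F A B i (fun _ _ => (1 : ℝ)) n) ≤
      (LG * ρ) * (nu X (WD D) a n * ww δ D X f M F A B n ^ 2) +
        ∑ t, (-σ t * (LG / 2)) * (nu X (WD D) a n * (lam ((α t * n + β' t : ℕ) : ℤ) * ww δ D X f M F A B n ^ 2)) +
        (if n ∈ goodT k r σ I A B α β' X then CC else 0) +
        (((K0 + 1 : ℕ) : ℝ) * LG) * (nu X (WD D) a n * (if Bad k D X A B n then ww δ D X f M F A B n ^ 2 else 0)) := by
    intro n hn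
    have hn1 : 1 ≤ n := (Finset.mem_Icc.1 hn).1
    have hn3 : (n : ℝ) ≤ 3 * X := by
      have := (Finset.mem_Icc.1 hn).2
      exact (Nat.le_floor_iff (by linarith)).1 this
    have hite : 0 ≤ (if n ∈ goodT k r σ I A B α β' X then CC else 0) := by
      split_ifs
      · exact hCC0
      · exact le_rfl
    have hnu := nu_nonneg X (WD D) a n
    have hbt : 0 ≤ (((K0 + 1 : ℕ) : ℝ) * LG) * (nu X (WD D) a n *
        (if Bad k D X A B n then ww δ D X f M F A B n ^ 2 else 0)) := by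
      apply mul_nonneg (by positivity)
      apply mul_nonneg hnu
      split_ifs
      · exact sq_nonneg _
      · exact le_rfl
    by_cases hnX : (n : ℝ) ≤ X
    · have h0 : nu X (WD D) a n = 0 := by
        unfold nu
        split_ifs
        · apply Phi_eq_zero_of_le (by positivity)
          rw [div_le_one hX0]; exact hnX
        · rfl
      simp only [h0, zero_mul, mul_zero, Finset.sum_const_zero, zero_add, add_zero]
      exact hite
    · push Not at hnX
      by_cases hna : n ≡ a [MOD WD D]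
      swap
      · have h0 : nu X (WD D) a n = 0 := by
          unfold nu
          rw [if_neg hna]
        simp only [h0, zero_mul, mul_zero, Finset.sum_const_zero, zero_add, add_zero]
        exact hite
      have hnu1 : nu X (WD D) a n ≤ 1 := by
        unfold nu
        rw [if_pos hna]
        exact Phi_le_one _
      have hthi : ∀ i, th (A i * n + B i) ≤ LG := by
        intro i
        unfold th
        split_ifs with hp
        · rw [hLG]
          apply Real.log_le_log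
          · have := hp.pos
            exact_mod_cast this
          · have h1 : B i ≤ ∑ i, B i :=
              Finset.single_le_sum (f := B) (fun _ _ => Nat.zero_le _) (mem_univ i)
            have h2 : (B i : ℝ) ≤ ((∑ i, B i : ℕ) : ℝ) := by exact_mod_cast h1
            have h3 : (A i : ℝ) ≤ a0 := by exact_mod_cast hAa0 i
            have h5 : (A i : ℝ) * n ≤ a0 * (3 * X) :=
              mul_le_mul h3 hn3 (Nat.cast_nonneg _) (Nat.cast_nonneg _)
            have h6 : 1 * X ≤ (a0 : ℝ) * X := mul_le_mul_of_nonneg_right ha01' hX0.le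
            have h7 : ((A i * n + B i : ℕ) : ℝ) = (A i : ℝ) * n + B i := by push_cast; ring
            rw [h7]
            linarith
        · exact hlog4
      have hww0 : 0 ≤ nu X (WD D) a n * ww δ D X f M F A B n ^ 2 :=
        mul_nonneg hnu (sq_nonneg _)
      have hneT : ∀ t, α t * n + β' t ≠ 0 := fun t => by
        have := Nat.mul_pos (hα t) hn1
        omega
      have h1 : ∑ i ∈ I, th (A i * n + B i) ≤ ((K0 + 1 : ℕ) : ℝ) * LG := by
        calc _ ≤ ∑ i, th (A i * n + B i) :=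
              Finset.sum_le_sum_of_subset_of_nonneg (Finset.subset_univ _) fun _ _ _ => th_nonneg _
          _ ≤ ∑ _i : Fin (K0 + 1), LG := Finset.sum_le_sum fun i _ => hthi i
          _ = _ := by rw [Finset.sum_const, Finset.card_univ, Fintype.card_fin, nsmul_eq_mul]
      have hlampos : ∀ t, 0 ≤ 1 - σ t * lam ((α t * n + β' t : ℕ) : ℤ) := by
        intro t
        have h2 : |σ t * lam ((α t * n + β' t : ℕ) : ℤ)| ≤ 1 := by
          rw [abs_mul, hσabs, one_mul]
          exact lam_abs _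
        have := (abs_le.1 h2).2
        linarith
      have hexp : (LG * ((r : ℝ) - 1) + ∑ t, (LG / 2) * (1 - σ t * lam ((α t * n + β' t : ℕ) : ℤ))) *
          (nu X (WD D) a n * ww δ D X f M F A B n ^ 2) =
          (LG * ρ) * (nu X (WD D) a n * ww δ D X f M F A B n ^ 2) +
          ∑ t, (-σ t * (LG / 2)) * (nu X (WD D) a n * (lam ((α t * n + β' t : ℕ) : ℤ) *
            ww δ D X f M F A B n ^ 2)) := by
        have e1 : ∑ t, (LG / 2) * (1 - σ t * lam ((α t * n + β' t : ℕ) : ℤ)) =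
            LG * ((s : ℝ) / 2) + ∑ t, (-σ t * (LG / 2)) * lam ((α t * n + β' t : ℕ) : ℤ) := by
          have e2 : ∀ t : Fin s, (LG / 2) * (1 - σ t * lam ((α t * n + β' t : ℕ) : ℤ)) =
              LG / 2 + (-σ t * (LG / 2)) * lam ((α t * n + β' t : ℕ) : ℤ) := fun t => by ring
          rw [Finset.sum_congr rfl fun t _ => e2 t, Finset.sum_add_distrib, Finset.sum_const, Finset.card_univ,
            Fintype.card_fin, nsmul_eq_mul]
          ring
        rw [e1, hρ, add_mul, add_mul, Finset.sum_mul]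
        have e3 : ∀ t : Fin s, (-σ t * (LG / 2)) * lam ((α t * n + β' t : ℕ) : ℤ) *
            (nu X (WD D) a n * ww δ D X f M F A B n ^ 2) =
            (-σ t * (LG / 2)) * (nu X (WD D) a n * (lam ((α t * n + β' t : ℕ) : ℤ) *
              ww δ D X f M F A B n ^ 2)) := fun t => by ring
        rw [Finset.sum_congr rfl fun t _ => e3 t]
        ring
      have hcost : 0 ≤ (LG * ρ) * (nu X (WD D) a n * ww δ D X f M F A B n ^ 2) +
          ∑ t, (-σ t * (LG / 2)) * (nu X (WD D) a n * (lam ((α t * n + β' t : ℕ) : ℤ) *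
            ww δ D X f M F A B n ^ 2)) := by
        rw [← hexp]
        apply mul_nonneg _ hww0
        apply add_nonneg (mul_nonneg hlog4 hr1)
        exact Finset.sum_nonneg fun t _ => mul_nonneg (by linarith) (hlampos t)
      have hth : (∑ i ∈ I, th (A i * n + B i)) * (nu X (WD D) a n * ww δ D X f M F A B n ^ 2) ≤
          (LG * ρ) * (nu X (WD D) a n * ww δ D X f M F A B n ^ 2) +
          ∑ t, (-σ t * (LG / 2)) * (nu X (WD D) a n * (lam ((α t * n + β' t : ℕ) : ℤ) *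
            ww δ D X f M F A B n ^ 2)) +
            (if n ∈ goodT k r σ I A B α β' X then CC else 0) +
            (((K0 + 1 : ℕ) : ℝ) * LG) * (nu X (WD D) a n *
              (if Bad k D X A B n then ww δ D X f M F A B n ^ 2 else 0)) := by
        by_cases hbad : Bad k D X A B n
        · rw [if_pos hbad]
          have h5 := mul_le_mul_of_nonneg_right h1 hww0
          linarith
        · rw [if_neg hbad, mul_zero, mul_zero, add_zero]
          by_cases hg : r + (univ.filter fun t => lam ((α t * n + β' t : ℕ) : ℤ) ≠ σ t).card ≤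
              (I.filter fun i => (A i * n + B i).Prime).card
          · have hrough : RoughL k X A B n := by
              intro i p hp hpX hpd
              by_cases hDp : D < p
              · exact hbad ⟨i, p, hp, hDp, hpX, hpd⟩
              · have hpW : p ∣ WD D := (prime_dvd_WD hp).2 (mem_PD' hp (by omega))
                have h2 : A i * n + B i ≡ A i * a + B i [MOD p] :=
                  ((hna.of_dvd hpW).mul_left (A i)).add_right (B i)
                have h3 : p ∣ A i * a + B i := (Nat.ModEq.dvd_iff h2 (dvd_refl p)).1 hpd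
                have h4 := Nat.dvd_gcd h3 hpW
                rw [(ha i)] at h4
                exact hp.one_lt.ne' (Nat.dvd_one.1 h4)
            have hgood : n ∈ goodT k r σ I A B α β' X := by
              unfold goodT
              rw [Finset.mem_filter]
              exact ⟨hn, hnX, hrough, hg⟩
            rw [if_pos hgood]
            have h2 : nu X (WD D) a n * ww δ D X f M F A B n ^ 2 ≤ CR := by
              calc _ ≤ 1 * ww δ D X f M F A B n ^ 2 :=
                    mul_le_mul_of_nonneg_right hnu1 (sq_nonneg _)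
                _ = ww δ D X f M F A B n ^ 2 := one_mul _
                _ ≤ _ := hU n hn1 hn3 hrough
            have h3 : (∑ i ∈ I, th (A i * n + B i)) *
                (nu X (WD D) a n * ww δ D X f M F A B n ^ 2) ≤ CC := by
              rw [hCC]
              exact mul_le_mul h1 h2 hww0 (by positivity)
            linarith
          · push Not at hg
            have hcount : ∑ i ∈ I, th (A i * n + B i) ≤
                LG * ((I.filter fun i => (A i * n + B i).Prime).card : ℝ) := by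
              have h6 : ∀ i ∈ I, th (A i * n + B i) ≤ if (A i * n + B i).Prime then LG else 0 := by
                intro i _
                by_cases hp : (A i * n + B i).Prime
                · rw [if_pos hp]; exact hthi i
                · rw [if_neg hp]; unfold th; rw [if_neg hp]
              refine (Finset.sum_le_sum h6).trans (le_of_eq ?_)
              rw [← Finset.sum_filter, Finset.sum_const, nsmul_eq_mul, mul_comm]
            have hwrong : LG * ((univ.filter fun t => lam ((α t * n + β' t : ℕ) : ℤ) ≠ σ t).card : ℝ) =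
                ∑ t, (LG / 2) * (1 - σ t * lam ((α t * n + β' t : ℕ) : ℤ)) := by
              have h6 : ∀ t, (LG / 2) * (1 - σ t * lam ((α t * n + β' t : ℕ) : ℤ)) =
                  if lam ((α t * n + β' t : ℕ) : ℤ) ≠ σ t then LG else 0 := by
                intro t
                by_cases h : lam ((α t * n + β' t : ℕ) : ℤ) = σ t
                · rw [if_neg (not_not.2 h), h, hσ2 t]
                  ring
                · rw [if_pos h]
                  have hl : lam ((α t * n + β' t : ℕ) : ℤ) = -σ t := by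
                    rcases lam_or (hneT t) with h7 | h7 <;> rcases hσ t with h8 | h8 <;> rw [h8] at h ⊢ <;>
                      rw [h7] at h ⊢
                    · exact absurd rfl h
                    · norm_num
                    · exact absurd rfl h
                  rw [hl]
                  have : 1 - σ t * -σ t = 2 := by
                    have := hσ2 t
                    linarith
                  rw [this]
                  ring
              rw [Finset.sum_congr rfl fun t _ => h6 t, ← Finset.sum_filter, Finset.sum_const, nsmul_eq_mul, mul_comm]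
            have h5 : (∑ i ∈ I, th (A i * n + B i)) ≤
                LG * ((r : ℝ) - 1) + ∑ t, (LG / 2) * (1 - σ t * lam ((α t * n + β' t : ℕ) : ℤ)) := by
              rw [← hwrong, ← mul_add]
              refine hcount.trans (mul_le_mul_of_nonneg_left ?_ hlog4)
              have h7 : (I.filter fun i => (A i * n + B i).Prime).card + 1 ≤
                  r + (univ.filter fun t => lam ((α t * n + β' t : ℕ) : ℤ) ≠ σ t).card := hg
              have h8 : ((I.filter fun i => (A i * n + B i).Prime).card : ℝ) + 1 ≤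
                  r + ((univ.filter fun t => lam ((α t * n + β' t : ℕ) : ℤ) ≠ σ t).card : ℝ) := by
                exact_mod_cast h7
              linarith
            have h7 := mul_le_mul_of_nonneg_right h5 hww0
            rw [hexp] at h7
            linarith
      calc ∑ i ∈ I, nu X (WD D) a n * (th (A i * n + B i) *
            qq δ D X f M F A B i (fun _ _ => (1 : ℝ)) n)
          ≤ ∑ i ∈ I, nu X (WD D) a n * (th (A i * n + B i) * ww δ D X f M F A B n ^ 2) := by
            refine Finset.sum_le_sum fun i _ => ?_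
            apply mul_le_mul_of_nonneg_left _ hnu
            have := hP n hnX hn3 i
            simpa using this
        _ = (∑ i ∈ I, th (A i * n + B i)) * (nu X (WD D) a n * ww δ D X f M F A B n ^ 2) := by
            rw [Finset.sum_mul]
            refine Finset.sum_congr rfl fun i _ => ?_
            ring
        _ ≤ _ := hth
  have hsum := Finset.sum_le_sum hpt
  rw [Finset.sum_add_distrib, Finset.sum_add_distrib, Finset.sum_add_distrib, ← Finset.mul_sum,
    ← Finset.mul_sum, Finset.sum_comm, Finset.sum_comm (s := Icc 1 ⌊3 * X⌋₊) (t := univ)] at hsum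
  have hcard : ∑ n ∈ Icc 1 ⌊3 * X⌋₊, (if n ∈ goodT k r σ I A B α β' X then CC else 0) ≤
      CC * ((goodT k r σ I A B α β' X).card : ℝ) := by
    rw [← Finset.sum_filter, Finset.sum_const, nsmul_eq_mul, mul_comm]
    refine mul_le_mul_of_nonneg_left ?_ hCC0
    have : ((Icc 1 ⌊3 * X⌋₊).filter (fun n => n ∈ goodT k r σ I A B α β' X)).card ≤
        (goodT k r σ I A B α β' X).card :=
      Finset.card_le_card fun n hn => (Finset.mem_filter.1 hn).2
    exact_mod_cast this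
  -- abbreviations
  obtain ⟨N, hNdef⟩ : ∃ N : ℝ, N = NN δ D X (K0 + 1) := ⟨_, rfl⟩
  obtain ⟨G, hG⟩ : ∃ G : ℝ, G = ((goodT k r σ I A B α β' X).card : ℝ) := ⟨_, rfl⟩
  have hG0 : 0 ≤ G := by rw [hG]; exact Nat.cast_nonneg _
  obtain ⟨AA, hA⟩ : ∃ AA : ℝ, AA = ∑ n ∈ Icc 1 ⌊3 * X⌋₊,
      nu X (WD D) a n * ww δ D X f M F A B n ^ 2 := ⟨_, rfl⟩
  obtain ⟨AL, hAL⟩ : ∃ AL : Fin s → ℝ, ∀ t, AL t = ∑ n ∈ Icc 1 ⌊3 * X⌋₊,
      nu X (WD D) a n * (lam ((α t * n + β' t : ℕ) : ℤ) * ww δ D X f M F A B n ^ 2) := ⟨_, fun _ => rfl⟩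
  obtain ⟨AB, hAB⟩ : ∃ AB : ℝ, AB = ∑ n ∈ Icc 1 ⌊3 * X⌋₊,
      nu X (WD D) a n * (if Bad k D X A B n then ww δ D X f M F A B n ^ 2 else 0) := ⟨_, rfl⟩
  obtain ⟨Q, hQd⟩ : ∃ Q : Fin (K0 + 1) → ℝ, ∀ i, Q i = ∑ n ∈ Icc 1 ⌊3 * X⌋₊,
      nu X (WD D) a n * (th (A i * n + B i) * qq δ D X f M F A B i (fun _ _ => (1 : ℝ)) n) :=
    ⟨_, fun _ => rfl⟩
  have eAL : ∑ t : Fin s, ∑ n ∈ Icc 1 ⌊3 * X⌋₊, (-σ t * (LG / 2)) *
      (nu X (WD D) a n * (lam ((α t * n + β' t : ℕ) : ℤ) * ww δ D X f M F A B n ^ 2)) =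
      ∑ t : Fin s, (-σ t * (LG / 2)) * AL t := by
    refine Finset.sum_congr rfl fun t _ => ?_
    rw [hAL t, Finset.mul_sum]
  rw [← hA, ← hAB, eAL] at hsum
  rw [← hG] at hcard
  have hA0 : 0 ≤ AA := by
    rw [hA]
    exact Finset.sum_nonneg fun n _ => mul_nonneg (nu_nonneg _ _ _ _) (sq_nonneg _)
  have hsum2 : ∑ i ∈ I, Q i ≤ (LG * ρ) * AA + ∑ t : Fin s, (-σ t * (LG / 2)) * AL t + CC * G +
      (((K0 + 1 : ℕ) : ℝ) * LG) * AB := by
    refine le_trans (le_of_eq ?_) (hsum.trans (by linarith))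
    exact Finset.sum_congr rfl fun i _ => hQd i
  rw [← hNdef] at hN
  have hW' : AA ≤ N * (β ^ (K0 + 1) * SF + δ) := by rw [hA, hNdef]; exact hW
  have hAB' : AB ≤ Cn * k ^ 2 * N := by rw [hAB, hNdef]; exact hRR a
  have hAL' : ∀ t, -σ t * AL t ≤ δ * N := by
    intro t
    refine (le_abs_self _).trans ?_
    rw [abs_mul, abs_neg, hσabs, one_mul, hNdef, hAL t]
    exact hLam t
  have hALs : ∑ t : Fin s, (-σ t * (LG / 2)) * AL t ≤ LG * (((s : ℝ) / 2) * (δ * N)) := by
    calc ∑ t : Fin s, (-σ t * (LG / 2)) * AL t = ∑ t : Fin s, (LG / 2) * (-σ t * AL t) :=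
          Finset.sum_congr rfl fun t _ => by ring
      _ ≤ ∑ _t : Fin s, (LG / 2) * (δ * N) :=
          Finset.sum_le_sum fun t _ => mul_le_mul_of_nonneg_left (hAL' t) (by linarith)
      _ = _ := by
          rw [Finset.sum_const, Finset.card_univ, Fintype.card_fin, nsmul_eq_mul]
          ring
  have hQ' : ∀ i, N * Real.log X * ((1 / 4 - δ) * (β ^ K0 * Sq i) - δ) ≤ Q i := by
    intro i; rw [hNdef, hSq i, hQd i]; exact hQ i
  have hNL : 0 < N * Real.log X := mul_pos hN hlogX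
  have hβSF : 0 ≤ β ^ (K0 + 1) * SF + δ := by positivity
  have hSpos : 0 ≤ ρ * (β ^ (K0 + 1) * SF + δ) + ((s : ℝ) / 2) * δ := by positivity
  have h1 : (LG * ρ) * AA + ∑ t : Fin s, (-σ t * (LG / 2)) * AL t ≤ N * Real.log X *
      ((1 + δ) * (ρ * (β ^ (K0 + 1) * SF + δ) + ((s : ℝ) / 2) * δ)) := by
    calc (LG * ρ) * AA + ∑ t : Fin s, (-σ t * (LG / 2)) * AL t
        ≤ (LG * ρ) * AA + LG * (((s : ℝ) / 2) * (δ * N)) := by linarith
      _ = LG * (ρ * AA + ((s : ℝ) / 2) * (δ * N)) := by ring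
      _ ≤ LG * (N * (ρ * (β ^ (K0 + 1) * SF + δ) + ((s : ℝ) / 2) * δ)) := by
          apply mul_le_mul_of_nonneg_left _ hlog4
          have := mul_le_mul_of_nonneg_left hW' hρ0
          calc ρ * AA + ((s : ℝ) / 2) * (δ * N) ≤
              ρ * (N * (β ^ (K0 + 1) * SF + δ)) + ((s : ℝ) / 2) * (δ * N) := by linarith
            _ = _ := by ring
      _ ≤ ((1 + δ) * Real.log X) * (N * (ρ * (β ^ (K0 + 1) * SF + δ) + ((s : ℝ) / 2) * δ)) :=
          mul_le_mul_of_nonneg_right hL (mul_nonneg hN.le hSpos)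
      _ = _ := by ring
  have h3 : N * Real.log X * ∑ i ∈ I, ((1 / 4 - δ) * (β ^ K0 * Sq i) - δ) ≤
      ∑ i ∈ I, Q i := by
    rw [Finset.mul_sum]
    exact Finset.sum_le_sum fun i _ => hQ' i
  have hBB : (((K0 + 1 : ℕ) : ℝ) * LG) * AB ≤ N * Real.log X * (gap / 2) := by
    have h5 : (((K0 + 1 : ℕ) : ℝ) * LG) * AB ≤ (((K0 + 1 : ℕ) : ℝ) * LG) * (Cn * k ^ 2 * N) :=
      mul_le_mul_of_nonneg_left hAB' (by positivity)
    have h6 : (((K0 + 1 : ℕ) : ℝ) * LG) * (Cn * k ^ 2 * N) ≤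
        (((K0 + 1 : ℕ) : ℝ) * ((1 + δ) * Real.log X)) * (Cn * k ^ 2 * N) := by
      apply mul_le_mul_of_nonneg_right _ (by positivity)
      exact mul_le_mul_of_nonneg_left hL hK1.le
    have h7 : (((K0 + 1 : ℕ) : ℝ) * ((1 + δ) * Real.log X)) * (Cn * k ^ 2 * N) =
        N * Real.log X * ((((K0 + 1 : ℕ) : ℝ) * (1 + δ)) * (Cn * k ^ 2)) := by ring
    have h8 := mul_le_mul_of_nonneg_left hkg hNL.le
    linarith
  have h5 : N * Real.log X * (gap / 2) ≤ CC * G := by
    have e : N * Real.log X * gap = N * Real.log X * (gap / 2) + N * Real.log X * (gap / 2) := by ring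
    have e2 : N * Real.log X * gap ≤ CC * G + (((K0 + 1 : ℕ) : ℝ) * LG) * AB := by
      rw [hgap, mul_sub]
      linarith
    linarith
  -- the lower bound for the number of good integers
  have h6 : CC ≤ (((K0 + 1 : ℕ) : ℝ) * (1 + δ)) * CR * Real.log X := by
    rw [hCC]
    calc ((K0 + 1 : ℕ) : ℝ) * LG * CR ≤ ((K0 + 1 : ℕ) : ℝ) * ((1 + δ) * Real.log X) * CR :=
          mul_le_mul_of_nonneg_right (mul_le_mul_of_nonneg_left hL hK1.le) hCR0.le
      _ = _ := by ring
  have h7 : N * (gap / 2) * Real.log X ≤ (((K0 + 1 : ℕ) : ℝ) * (1 + δ)) * CR * G * Real.log X := by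
    calc N * (gap / 2) * Real.log X = N * Real.log X * (gap / 2) := by ring
      _ ≤ CC * G := h5
      _ ≤ ((((K0 + 1 : ℕ) : ℝ) * (1 + δ)) * CR * Real.log X) * G :=
        mul_le_mul_of_nonneg_right h6 hG0
      _ = _ := by ring
  have h8 : N * (gap / 2) ≤ (((K0 + 1 : ℕ) : ℝ) * (1 + δ)) * CR * G :=
    le_of_mul_le_mul_right h7 hlogX
  have h9 : N * c3 ≤ G := by
    rw [hc3, ← mul_div_assoc, div_le_iff₀ (by positivity)]
    linarith
  have h10 : (1 / (20 * WD D)) * X / Real.log X ^ (K0 + 1) ≤ N := by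
    rw [hNdef]
    unfold NN
    have hM := MPhi_ge X hX3
    have hLt := Lt_pos (by linarith : δ < 1 / 4) (by linarith : 1 < X)
    have hLB : Lt δ X * BE (PD D) ≤ Real.log X := by
      have h11 : Lt δ X ≤ Real.log X := by unfold Lt; nlinarith
      nlinarith
    calc (1 / (20 * WD D)) * X / Real.log X ^ (K0 + 1) =
        X / 20 * (1 / (WD D : ℝ)) * (1 / Real.log X) ^ (K0 + 1) := by
          rw [one_div_pow]; field_simp
      _ ≤ MPhi X * (1 / (WD D : ℝ)) * (1 / (Lt δ X * BE (PD D))) ^ (K0 + 1) := by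
          have h12 : 1 / Real.log X ≤ 1 / (Lt δ X * BE (PD D)) :=
            one_div_le_one_div_of_le (by positivity) hLB
          have h13 : 0 < 1 / Real.log X := by positivity
          have h14 : 0 < MPhi X := by linarith
          apply mul_le_mul _ (pow_le_pow_left₀ h13.le h12 _) (by positivity) (by positivity)
          exact mul_le_mul_of_nonneg_right hM (by positivity)
  rw [← hG]
  calc c3 * (1 / (20 * WD D)) * X / Real.log X ^ (K0 + 1) =
      ((1 / (20 * WD D)) * X / Real.log X ^ (K0 + 1)) * c3 := by ring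
    _ ≤ N * c3 := mul_le_mul_of_nonneg_right h10 hc30.le
    _ ≤ G := h9

end Pool.Agent.J4H29
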