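import Mathlib
import Pool.Agent.H95R2.BG.Defs
import Pool.Agent.H95R2.BG.Pointwise

/-! helper29: sums over discrete simplices through power series in `Y = 1 / (1 - X)`. -/

set_option autoImplicit false

open Finset

namespace Pool.Agent.J4H29.Cert

open Pool.Agent.H95R2.BG

/-- the series `1 + X + X ^ 2 + ...` -/
noncomputable def Y : PowerSeries ℝ := PowerSeries.mk 1

theorem coeff_Y_pow (a n : ℕ) : PowerSeries.coeff n (Y ^ (a + 1)) = ((n + a).choose a : ℝ) := by
  unfold Y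
  rw [PowerSeries.mk_one_pow_eq_mk_choose_add, PowerSeries.coeff_mk, add_comm a n]

theorem coeff_int_mul (z : ℤ) (n : ℕ) (φ : PowerSeries ℝ) :
    PowerSeries.coeff n ((z : PowerSeries ℝ) * φ) = (z : ℝ) * PowerSeries.coeff n φ := by
  have h : (z : PowerSeries ℝ) = PowerSeries.C (z : ℝ) := by
    rw [map_intCast]
  rw [h, PowerSeries.coeff_C_mul]

/-- the value of a polynomial of degree `≤ 2` in `u` with coefficients in the power series -/
noncomputable def ev (p : PowerSeries ℝ × PowerSeries ℝ × PowerSeries ℝ) (r : ℕ) (u : ℝ) : ℝ :=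
  PowerSeries.coeff r p.1 + PowerSeries.coeff r p.2.1 * u + PowerSeries.coeff r p.2.2 * u ^ 2

/-- the summation operator -/
noncomputable def TT (w : ℕ → ℝ) (G : ℕ → ℝ → ℝ) (r : ℕ) (u : ℝ) : ℝ :=
  ∑ t ∈ range (r + 1), G (r - t) (u + w t)

/-- the step on the coefficients -/
noncomputable def st (W W2 : PowerSeries ℝ) (p : PowerSeries ℝ × PowerSeries ℝ × PowerSeries ℝ) :
    PowerSeries ℝ × PowerSeries ℝ × PowerSeries ℝ :=
  (p.1 * Y + p.2.1 * W + p.2.2 * W2, p.2.1 * Y + 2 * p.2.2 * W, p.2.2 * Y)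

theorem coeff_conv (φ ψ : PowerSeries ℝ) (r : ℕ) : PowerSeries.coeff r (φ * ψ) =
    ∑ t ∈ range (r + 1), PowerSeries.coeff (r - t) φ * PowerSeries.coeff t ψ := by
  rw [mul_comm, PowerSeries.coeff_mul, Finset.Nat.sum_antidiagonal_eq_sum_range_succ_mk]
  refine Finset.sum_congr rfl fun t _ => ?_
  simp only
  ring

theorem coeff_Y (n : ℕ) : PowerSeries.coeff n Y = 1 := by
  unfold Y
  rw [PowerSeries.coeff_mk, Pi.one_apply]

theorem TT_ev (w : ℕ → ℝ) (W W2 : PowerSeries ℝ) (hW : ∀ n, PowerSeries.coeff n W = w n)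
    (hW2 : ∀ n, PowerSeries.coeff n W2 = w n ^ 2) (p : PowerSeries ℝ × PowerSeries ℝ × PowerSeries ℝ) :
    TT w (ev p) = ev (st W W2 p) := by
  funext r u
  unfold TT ev st
  simp only [map_add]
  have h2 : (2 : PowerSeries ℝ) = ((2 : ℤ) : PowerSeries ℝ) := by norm_num
  rw [h2, mul_assoc, coeff_int_mul, coeff_conv p.1 Y, coeff_conv p.2.1 W, coeff_conv p.2.2 W2,
    coeff_conv p.2.1 Y, coeff_conv p.2.2 W, coeff_conv p.2.2 Y]
  simp only [coeff_Y, hW, hW2, mul_one, Finset.mul_sum, Finset.sum_mul, ← Finset.sum_add_distrib]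
  refine Finset.sum_congr rfl fun t _ => ?_
  push_cast
  ring

theorem TT_iter (w : ℕ → ℝ) (W W2 : PowerSeries ℝ) (hW : ∀ n, PowerSeries.coeff n W = w n)
    (hW2 : ∀ n, PowerSeries.coeff n W2 = w n ^ 2) (k : ℕ)
    (p : PowerSeries ℝ × PowerSeries ℝ × PowerSeries ℝ) :
    (TT w)^[k] (ev p) = ev ((st W W2)^[k] p) := by
  induction k with
  | zero => rfl
  | succ k ih => rw [Function.iterate_succ_apply', ih, TT_ev w W W2 hW hW2, Function.iterate_succ_apply']

/-- truncation -/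
noncomputable def HH (m : ℕ) (G : ℕ → ℝ → ℝ) (s : ℕ) (u : ℝ) : ℝ := if s ≤ m then G (m - s) u else 0

/-- one summation -/
theorem HH_sum (w : ℕ → ℝ) (m M : ℕ) (hm : m < M) (G : ℕ → ℝ → ℝ) (s : ℕ) (u : ℝ) :
    ∑ t ∈ range M, HH m G (s + t) (u + w t) = HH m (TT w G) s u := by
  unfold HH TT
  split_ifs with h
  · have h1 : range (m - s + 1) ⊆ range M := by
      intro t ht
      rw [Finset.mem_range] at ht ⊢
      omega
    rw [← Finset.sum_subset h1]
    · refine Finset.sum_congr rfl fun t ht => ?_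
      rw [Finset.mem_range] at ht
      rw [if_pos (by omega)]
      congr 1
      omega
    · intro t _ ht
      rw [Finset.mem_range] at ht
      rw [if_neg (by omega)]
  · apply Finset.sum_eq_zero
    intro t _
    rw [if_neg (by omega)]

/-- sums over a box of a function of the two symmetric sums -/
theorem box_sum (w : ℕ → ℝ) (m M : ℕ) (hm : m < M) (G : ℕ → ℝ → ℝ) (k : ℕ) : ∀ (s : ℕ) (u : ℝ),
    ∑ c ∈ Box k M, HH m G (s + ∑ j, c j) (u + ∑ j, w (c j)) = HH m ((TT w)^[k] G) s u := by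
  induction k with
  | zero =>
    intro s u
    have : Box 0 M = {fun i => i.elim0} := by
      unfold Box
      ext c
      simp only [Fintype.mem_piFinset, Finset.mem_singleton]
      constructor
      · intro _
        funext i
        exact i.elim0
      · intro _ i
        exact i.elim0
    rw [this, Finset.sum_singleton]
    simp
  | succ k ih =>
    intro s u
    rw [C1_sum_box 0, Finset.sum_comm]
    have h1 : ∀ t ∈ range M, ∑ c ∈ Box k M, HH m G (s + ∑ j, Fin.insertNth (α := fun _ => ℕ) 0 t c j)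
        (u + ∑ j, w (Fin.insertNth (α := fun _ => ℕ) 0 t c j)) = HH m ((TT w)^[k] G) (s + t) (u + w t) := by
      intro t _
      rw [← ih (s + t) (u + w t)]
      refine Finset.sum_congr rfl fun c _ => ?_
      rw [Fin.sum_univ_succAbove _ 0, Fin.sum_univ_succAbove (fun j => w (Fin.insertNth (α := fun _ => ℕ) 0 t c j)) 0]
      simp only [Fin.insertNth_apply_same, Fin.insertNth_apply_succAbove]
      rw [add_assoc, add_assoc]
    rw [Finset.sum_congr rfl h1, HH_sum w m M hm, Function.iterate_succ_apply']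

/-- the cell function: supported on `c i0 = 0` -/
noncomputable def FF (m : ℕ) (w : ℕ → ℝ) (P : ℕ → ℝ → ℝ) {K0 : ℕ} (i0 : Fin (K0 + 1)) (c : Fin (K0 + 1) → ℕ) : ℝ :=
  if c i0 = 0 then HH m P (∑ j, c j) (∑ j, w (c j)) else 0

theorem FF_supp (m : ℕ) (w : ℕ → ℝ) (P : ℕ → ℝ → ℝ) {K0 : ℕ} (i0 : Fin (K0 + 1)) (c : Fin (K0 + 1) → ℕ)
    (h : FF m w P i0 c ≠ 0) : rad c ≤ m + (K0 + 1) := by
  unfold FF at h
  split_ifs at h with h1
  · unfold HH at h
    split_ifs at h with h2
    · unfold rad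
      rw [Finset.sum_add_distrib]
      simp only [Finset.sum_const, Finset.card_univ, Fintype.card_fin, smul_eq_mul, mul_one]
      omega
    · exact absurd rfl h
  · exact absurd rfl h

/-- insertion into a symmetric sum -/
lemma sum_insert {K0 : ℕ} (i : Fin (K0 + 1)) (t : ℕ) (c : Fin K0 → ℕ) {R : Type*} [AddCommMonoid R] (g : ℕ → R) :
    ∑ j, g (Fin.insertNth (α := fun _ => ℕ) i t c j) = g t + ∑ j, g (c j) := by
  rw [Fin.sum_univ_succAbove _ i]
  simp only [Fin.insertNth_apply_same, Fin.insertNth_apply_succAbove]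

/-- the sum of the squares -/
theorem FF_sq (m M : ℕ) (hm : m < M) (w : ℕ → ℝ) (hw0 : w 0 = 0) (P : ℕ → ℝ → ℝ) {K0 : ℕ} (i0 : Fin (K0 + 1)) :
    ∑ c ∈ Box (K0 + 1) M, FF m w P i0 c ^ 2 = ((TT w)^[K0] (fun r u => P r u ^ 2)) m 0 := by
  rw [C1_sum_box i0]
  have h1 : ∀ c ∈ Box K0 M, ∑ t ∈ range M, FF m w P i0 (Fin.insertNth (α := fun _ => ℕ) i0 t c) ^ 2 =
      HH m (fun r u => P r u ^ 2) (0 + ∑ j, c j) (0 + ∑ j, w (c j)) := by
    intro c _
    rw [Finset.sum_eq_single_of_mem 0 (Finset.mem_range.2 (by omega))]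
    · unfold FF
      rw [if_pos (by simp)]
      rw [sum_insert i0 0 c (fun x => x), sum_insert i0 0 c w, hw0]
      unfold HH
      split_ifs <;> simp
    · intro t _ ht
      unfold FF
      rw [if_neg (by simpa using ht)]
      norm_num
  rw [Finset.sum_congr rfl h1, box_sum w m M hm]
  unfold HH
  rw [if_pos (Nat.zero_le _), Nat.sub_zero]

/-- the sum of the squares of the marginals -/
theorem FF_UU (m M : ℕ) (hm : m < M) (w : ℕ → ℝ) (hw0 : w 0 = 0) (P : ℕ → ℝ → ℝ) {K1 : ℕ}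
    (i0 i : Fin (K1 + 1 + 1)) (hi : i ≠ i0) :
    ∑ c ∈ Box (K1 + 1) M, UU M (FF m w P i0) i c ^ 2 = ((TT w)^[K1] (fun r u => TT w P r u ^ 2)) m 0 := by
  obtain ⟨j0, hj0⟩ := Fin.exists_succAbove_eq hi.symm
  rw [C1_sum_box j0]
  have hval : ∀ (t s : ℕ) (c : Fin K1 → ℕ),
      FF m w P i0 (Fin.insertNth (α := fun _ => ℕ) i t (Fin.insertNth (α := fun _ => ℕ) j0 s c)) =
      if s = 0 then HH m P (t + (s + ∑ j, c j)) (w t + (w s + ∑ j, w (c j))) else 0 := by
    intro t s c
    unfold FF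
    have h1 : (Fin.insertNth (α := fun _ => ℕ) i t (Fin.insertNth (α := fun _ => ℕ) j0 s c)) i0 = s := by
      rw [← hj0]
      simp only [Fin.insertNth_apply_succAbove, Fin.insertNth_apply_same]
    rw [h1, sum_insert i t _ (fun x => x), sum_insert i t _ w, sum_insert j0 s c (fun x => x),
      sum_insert j0 s c w]
  have h1 : ∀ c ∈ Box K1 M, ∑ s ∈ range M, UU M (FF m w P i0) i (Fin.insertNth (α := fun _ => ℕ) j0 s c) ^ 2 =
      HH m (fun r u => TT w P r u ^ 2) (0 + ∑ j, c j) (0 + ∑ j, w (c j)) := by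
    intro c _
    rw [Finset.sum_eq_single_of_mem 0 (Finset.mem_range.2 (by omega))]
    · unfold UU
      simp only [hval, if_true]
      have h2 : ∑ t ∈ range M, HH m P (t + (0 + ∑ j, c j)) (w t + (w 0 + ∑ j, w (c j))) =
          HH m (TT w P) (0 + ∑ j, c j) (0 + ∑ j, w (c j)) := by
        rw [← HH_sum w m M hm P]
        refine Finset.sum_congr rfl fun t _ => ?_
        rw [hw0, add_comm t, add_comm (w t)]
      rw [h2]
      unfold HH
      split_ifs <;> simp
    · intro s _ hs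
      unfold UU
      simp only [hval, if_neg hs, Finset.sum_const_zero]
      norm_num
  rw [Finset.sum_congr rfl h1, box_sum w m M hm]
  unfold HH
  rw [if_pos (Nat.zero_le _), Nat.sub_zero]

end Pool.Agent.J4H29.Cert
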