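import Mathlib
import Pool.Agent.J4H29.O2

/-! helper29: the certificate for six forms, one of them without a prime condition. -/

set_option autoImplicit false
set_option linter.unusedSimpArgs false

open Finset

namespace Pool.Agent.J4H29.Cert

open Pool.Agent.H95R2.BG

theorem cY_succ (a n : ℕ) : PowerSeries.coeff n (Y ^ (a + 2)) =
    PowerSeries.coeff n (Y ^ (a + 1)) * ((n : ℝ) + a + 1) / (a + 1) := by
  rw [coeff_Y_pow (a + 1) n, coeff_Y_pow a n]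
  have h := Nat.add_one_mul_choose_eq (n + a) a
  have h1 : (((n + a : ℕ) : ℝ) + 1) * ((n + a).choose a : ℝ) = ((n + a + 1).choose (a + 1) : ℝ) * (a + 1) := by
    exact_mod_cast h
  have h2 : n + (a + 1) = n + a + 1 := by ring
  rw [h2, eq_div_iff (by positivity), ← h1]
  push_cast
  ring

theorem cY1 (n : ℕ) : PowerSeries.coeff n (Y ^ 1) = 1 := by rw [pow_one, coeff_Y]

theorem cY2 (n : ℕ) : PowerSeries.coeff n (Y ^ 2) = ((n : ℝ) + 1) / 1 := by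
  have h := cY_succ 0 n
  norm_num at h
  rw [h, coeff_Y]
  ring

theorem cY3 (n : ℕ) : PowerSeries.coeff n (Y ^ 3) = ((n : ℝ) + 1)*((n : ℝ) + 2) / 2 := by
  have h := cY_succ 1 n
  norm_num at h
  rw [h, cY2]
  ring

theorem cY4 (n : ℕ) : PowerSeries.coeff n (Y ^ 4) = ((n : ℝ) + 1)*((n : ℝ) + 2)*((n : ℝ) + 3) / 6 := by
  have h := cY_succ 2 n
  norm_num at h
  rw [h, cY3]
  ring

theorem cY5 (n : ℕ) : PowerSeries.coeff n (Y ^ 5) = ((n : ℝ) + 1)*((n : ℝ) + 2)*((n : ℝ) + 3)*((n : ℝ) + 4) / 24 := by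
  have h := cY_succ 3 n
  norm_num at h
  rw [h, cY4]
  ring

theorem cY6 (n : ℕ) : PowerSeries.coeff n (Y ^ 6) = ((n : ℝ) + 1)*((n : ℝ) + 2)*((n : ℝ) + 3)*((n : ℝ) + 4)*((n : ℝ) + 5) / 120 := by
  have h := cY_succ 4 n
  norm_num at h
  rw [h, cY5]
  ring

theorem cY7 (n : ℕ) : PowerSeries.coeff n (Y ^ 7) = ((n : ℝ) + 1)*((n : ℝ) + 2)*((n : ℝ) + 3)*((n : ℝ) + 4)*((n : ℝ) + 5)*((n : ℝ) + 6) / 720 := by
  have h := cY_succ 5 n
  norm_num at h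
  rw [h, cY6]
  ring

theorem cY8 (n : ℕ) : PowerSeries.coeff n (Y ^ 8) = ((n : ℝ) + 1)*((n : ℝ) + 2)*((n : ℝ) + 3)*((n : ℝ) + 4)*((n : ℝ) + 5)*((n : ℝ) + 6)*((n : ℝ) + 7) / 5040 := by
  have h := cY_succ 6 n
  norm_num at h
  rw [h, cY7]
  ring

theorem cY9 (n : ℕ) : PowerSeries.coeff n (Y ^ 9) = ((n : ℝ) + 1)*((n : ℝ) + 2)*((n : ℝ) + 3)*((n : ℝ) + 4)*((n : ℝ) + 5)*((n : ℝ) + 6)*((n : ℝ) + 7)*((n : ℝ) + 8) / 40320 := by
  have h := cY_succ 7 n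
  norm_num at h
  rw [h, cY8]
  ring

theorem cY10 (n : ℕ) : PowerSeries.coeff n (Y ^ 10) = ((n : ℝ) + 1)*((n : ℝ) + 2)*((n : ℝ) + 3)*((n : ℝ) + 4)*((n : ℝ) + 5)*((n : ℝ) + 6)*((n : ℝ) + 7)*((n : ℝ) + 8)*((n : ℝ) + 9) / 362880 := by
  have h := cY_succ 8 n
  norm_num at h
  rw [h, cY9]
  ring

theorem cY11 (n : ℕ) : PowerSeries.coeff n (Y ^ 11) = ((n : ℝ) + 1)*((n : ℝ) + 2)*((n : ℝ) + 3)*((n : ℝ) + 4)*((n : ℝ) + 5)*((n : ℝ) + 6)*((n : ℝ) + 7)*((n : ℝ) + 8)*((n : ℝ) + 9)*((n : ℝ) + 10) / 3628800 := by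
  have h := cY_succ 9 n
  norm_num at h
  rw [h, cY10]
  ring

theorem cY12 (n : ℕ) : PowerSeries.coeff n (Y ^ 12) = ((n : ℝ) + 1)*((n : ℝ) + 2)*((n : ℝ) + 3)*((n : ℝ) + 4)*((n : ℝ) + 5)*((n : ℝ) + 6)*((n : ℝ) + 7)*((n : ℝ) + 8)*((n : ℝ) + 9)*((n : ℝ) + 10)*((n : ℝ) + 11) / 39916800 := by
  have h := cY_succ 10 n
  norm_num at h
  rw [h, cY11]
  ring

theorem cY13 (n : ℕ) : PowerSeries.coeff n (Y ^ 13) = ((n : ℝ) + 1)*((n : ℝ) + 2)*((n : ℝ) + 3)*((n : ℝ) + 4)*((n : ℝ) + 5)*((n : ℝ) + 6)*((n : ℝ) + 7)*((n : ℝ) + 8)*((n : ℝ) + 9)*((n : ℝ) + 10)*((n : ℝ) + 11)*((n : ℝ) + 12) / 479001600 := by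
  have h := cY_succ 11 n
  norm_num at h
  rw [h, cY12]
  ring


/-- the weight -/
noncomputable def wt (t : ℕ) : ℝ := (t : ℝ) * (t + 1) / 2

noncomputable def Wp : PowerSeries ℝ := ((-1 : ℤ) : PowerSeries ℝ) * Y ^ 2 + ((1 : ℤ) : PowerSeries ℝ) * Y ^ 3
noncomputable def W2p : PowerSeries ℝ := ((-1 : ℤ) : PowerSeries ℝ) * Y ^ 2 + ((7 : ℤ) : PowerSeries ℝ) * Y ^ 3 + ((-12 : ℤ) : PowerSeries ℝ) * Y ^ 4 + ((6 : ℤ) : PowerSeries ℝ) * Y ^ 5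
noncomputable def alp : PowerSeries ℝ := ((-10500000 : ℤ) : PowerSeries ℝ) * Y ^ 2 + ((6900 : ℤ) : PowerSeries ℝ) * Y ^ 3
noncomputable def bep : PowerSeries ℝ := ((700 : ℤ) : PowerSeries ℝ) * Y ^ 1 + ((1 : ℤ) : PowerSeries ℝ) * Y ^ 2
noncomputable def al1 : PowerSeries ℝ := ((-10500700 : ℤ) : PowerSeries ℝ) * Y ^ 3 + ((7599 : ℤ) : PowerSeries ℝ) * Y ^ 4 + ((1 : ℤ) : PowerSeries ℝ) * Y ^ 5
noncomputable def be1 : PowerSeries ℝ := ((700 : ℤ) : PowerSeries ℝ) * Y ^ 2 + ((1 : ℤ) : PowerSeries ℝ) * Y ^ 3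
noncomputable def A0 : PowerSeries ℝ := ((-110250000000000 : ℤ) : PowerSeries ℝ) * Y ^ 2 + ((220789847610000 : ℤ) : PowerSeries ℝ) * Y ^ 3 + ((-434985660000 : ℤ) : PowerSeries ℝ) * Y ^ 4 + ((285660000 : ℤ) : PowerSeries ℝ) * Y ^ 5
noncomputable def B0 : PowerSeries ℝ := ((-14679000000 : ℤ) : PowerSeries ℝ) * Y ^ 2 + ((-32367600 : ℤ) : PowerSeries ℝ) * Y ^ 3 + ((41400 : ℤ) : PowerSeries ℝ) * Y ^ 4
noncomputable def C0 : PowerSeries ℝ := ((490000 : ℤ) : PowerSeries ℝ) * Y ^ 1 + ((1399 : ℤ) : PowerSeries ℝ) * Y ^ 2 + ((2 : ℤ) : PowerSeries ℝ) * Y ^ 3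
noncomputable def A1 : PowerSeries ℝ := ((110264700490000 : ℤ) : PowerSeries ℝ) * Y ^ 3 + ((-662067029600601 : ℤ) : PowerSeries ℝ) * Y ^ 4 + ((663503845471621 : ℤ) : PowerSeries ℝ) * Y ^ 5 + ((-1597208246110 : ℤ) : PowerSeries ℝ) * Y ^ 6 + ((838963230 : ℤ) : PowerSeries ℝ) * Y ^ 7 + ((531790 : ℤ) : PowerSeries ℝ) * Y ^ 8 + ((70 : ℤ) : PowerSeries ℝ) * Y ^ 9
noncomputable def B1 : PowerSeries ℝ := ((29380958600 : ℤ) : PowerSeries ℝ) * Y ^ 3 + ((-44008801806 : ℤ) : PowerSeries ℝ) * Y ^ 4 + ((-83641964 : ℤ) : PowerSeries ℝ) * Y ^ 5 + ((158940 : ℤ) : PowerSeries ℝ) * Y ^ 6 + ((30 : ℤ) : PowerSeries ℝ) * Y ^ 7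
noncomputable def C1 : PowerSeries ℝ := ((-490000 : ℤ) : PowerSeries ℝ) * Y ^ 2 + ((977201 : ℤ) : PowerSeries ℝ) * Y ^ 3 + ((4194 : ℤ) : PowerSeries ℝ) * Y ^ 4 + ((6 : ℤ) : PowerSeries ℝ) * Y ^ 5
noncomputable def A5 : PowerSeries ℝ := ((-110250002450000 : ℤ) : PowerSeries ℝ) * Y ^ 7 + ((220863269553005 : ℤ) : PowerSeries ℝ) * Y ^ 8 + ((-508267745065 : ℤ) : PowerSeries ℝ) * Y ^ 9 + ((147975210 : ℤ) : PowerSeries ℝ) * Y ^ 10 + ((276750 : ℤ) : PowerSeries ℝ) * Y ^ 11 + ((100 : ℤ) : PowerSeries ℝ) * Y ^ 12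
noncomputable def A4 : PowerSeries ℝ := ((110264702450000 : ℤ) : PowerSeries ℝ) * Y ^ 7 + ((-662184576943805 : ℤ) : PowerSeries ℝ) * Y ^ 8 + ((663797478864509 : ℤ) : PowerSeries ℝ) * Y ^ 9 + ((-1772996716214 : ℤ) : PowerSeries ℝ) * Y ^ 10 + ((538637122 : ℤ) : PowerSeries ℝ) * Y ^ 11 + ((1317982 : ℤ) : PowerSeries ℝ) * Y ^ 12 + ((406 : ℤ) : PowerSeries ℝ) * Y ^ 13


theorem Wp_coeff (n : ℕ) : PowerSeries.coeff n Wp = wt n := by
  unfold Wp wt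
  simp only [map_add, coeff_int_mul, cY1, cY2, cY3, cY4, cY5, cY6, cY7, cY8, cY9, cY10, cY11, cY12, cY13]
  push_cast
  ring

theorem W2p_coeff (n : ℕ) : PowerSeries.coeff n W2p = wt n ^ 2 := by
  unfold W2p wt
  simp only [map_add, coeff_int_mul, cY1, cY2, cY3, cY4, cY5, cY6, cY7, cY8, cY9, cY10, cY11, cY12, cY13]
  push_cast
  ring

theorem cA0 (n : ℕ) : PowerSeries.coeff n A0 = PowerSeries.coeff n alp ^ 2 := by
  unfold A0 alp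
  simp only [map_add, coeff_int_mul, cY1, cY2, cY3, cY4, cY5, cY6, cY7, cY8, cY9, cY10, cY11, cY12, cY13]
  push_cast
  ring

theorem cB0 (n : ℕ) : PowerSeries.coeff n B0 = 2 * (PowerSeries.coeff n alp * PowerSeries.coeff n bep) := by
  unfold B0 alp bep
  simp only [map_add, coeff_int_mul, cY1, cY2, cY3, cY4, cY5, cY6, cY7, cY8, cY9, cY10, cY11, cY12, cY13]
  push_cast
  ring

theorem cC0 (n : ℕ) : PowerSeries.coeff n C0 = PowerSeries.coeff n bep ^ 2 := by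
  unfold C0 bep
  simp only [map_add, coeff_int_mul, cY1, cY2, cY3, cY4, cY5, cY6, cY7, cY8, cY9, cY10, cY11, cY12, cY13]
  push_cast
  ring

theorem cA1 (n : ℕ) : PowerSeries.coeff n A1 = PowerSeries.coeff n al1 ^ 2 := by
  unfold A1 al1
  simp only [map_add, coeff_int_mul, cY1, cY2, cY3, cY4, cY5, cY6, cY7, cY8, cY9, cY10, cY11, cY12, cY13]
  push_cast
  ring

theorem cB1 (n : ℕ) : PowerSeries.coeff n B1 = 2 * (PowerSeries.coeff n al1 * PowerSeries.coeff n be1) := by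
  unfold B1 al1 be1
  simp only [map_add, coeff_int_mul, cY1, cY2, cY3, cY4, cY5, cY6, cY7, cY8, cY9, cY10, cY11, cY12, cY13]
  push_cast
  ring

theorem cC1 (n : ℕ) : PowerSeries.coeff n C1 = PowerSeries.coeff n be1 ^ 2 := by
  unfold C1 be1
  simp only [map_add, coeff_int_mul, cY1, cY2, cY3, cY4, cY5, cY6, cY7, cY8, cY9, cY10, cY11, cY12, cY13]
  push_cast
  ring

/-- the polynomial -/
noncomputable def Pf : ℕ → ℝ → ℝ := ev (alp, bep, 0)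

theorem Pf_sq : (fun r u => Pf r u ^ 2) = ev (A0, B0, C0) := by
  funext r u
  unfold Pf ev
  simp only [map_zero, cA0, cB0, cC0]
  ring

theorem st_P : st Wp W2p (alp, bep, 0) = (al1, be1, 0) := by
  unfold st
  simp only [zero_mul, mul_zero, add_zero, Prod.mk.injEq, and_true]
  constructor
  · unfold alp bep al1 Wp
    push_cast
    ring
  · unfold bep be1
    push_cast
    ring

theorem TP_sq : (fun r u => TT wt Pf r u ^ 2) = ev (A1, B1, C1) := by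
  funext r u
  unfold Pf
  rw [TT_ev wt Wp W2p Wp_coeff W2p_coeff, st_P]
  unfold ev
  simp only [map_zero, cA1, cB1, cC1]
  ring

theorem st5 : ((st Wp W2p)^[5] (A0, B0, C0)).1 = A5 := by
  simp only [Function.iterate_succ, Function.iterate_zero, Function.comp_apply, id_eq, st]
  unfold A0 B0 C0 A5 Wp W2p
  push_cast
  ring

theorem st4 : ((st Wp W2p)^[4] (A1, B1, C1)).1 = A4 := by
  simp only [Function.iterate_succ, Function.iterate_zero, Function.comp_apply, id_eq, st]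
  unfold A1 B1 C1 A4 Wp W2p
  push_cast
  ring

theorem I_val : ((TT wt)^[5] (fun r u => Pf r u ^ 2)) 9994 0 = PowerSeries.coeff 9994 A5 := by
  rw [Pf_sq, TT_iter wt Wp W2p Wp_coeff W2p_coeff, ← st5]
  unfold ev
  simp

theorem J_val : ((TT wt)^[4] (fun r u => TT wt Pf r u ^ 2)) 9994 0 = PowerSeries.coeff 9994 A4 := by
  rw [TP_sq, TT_iter wt Wp W2p Wp_coeff W2p_coeff, ← st4]
  unfold ev
  simp

theorem num : 2 * (10000 : ℝ) * PowerSeries.coeff 9994 A5 < 5 * PowerSeries.coeff 9994 A4 := by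
  unfold A5 A4
  simp only [map_add, coeff_int_mul, cY1, cY2, cY3, cY4, cY5, cY6, cY7, cY8, cY9, cY10, cY11, cY12, cY13]
  norm_num

end Pool.Agent.J4H29.Cert
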