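import Mathlib
import Pool.Agent.J4H29.O1
import Pool.Agent.J4H29.O3

/-! helper29: the two main theorems: six forms; five forms and an arbitrary sixth one. -/

set_option autoImplicit false

open Finset Filter

namespace Pool.Agent.J4H29

open Pool.Agent.H95R2.BG.LF (AdmissibleL)
open Pool.Agent.H95R2.BG (Box rad UU C1_sum_box)
open Pool.Agent.X34.E (RoughL)
open Pool.Agent.N728.QG (lam)
open Cert

/-- the cell function for five forms -/
theorem HH_supp (m : ℕ) (w : ℕ → ℝ) (P : ℕ → ℝ → ℝ) {K0 : ℕ} (c : Fin (K0 + 1) → ℕ)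
    (h : HH m P (∑ j, c j) (∑ j, w (c j)) ≠ 0) : rad c ≤ m + (K0 + 1) := by
  unfold HH at h
  split_ifs at h with h2
  · unfold rad
    rw [Finset.sum_add_distrib]
    simp only [Finset.sum_const, Finset.card_univ, Fintype.card_fin, smul_eq_mul, mul_one]
    omega
  · exact absurd rfl h

theorem HH_sq (m M : ℕ) (hm : m < M) (w : ℕ → ℝ) (P : ℕ → ℝ → ℝ) (K0 : ℕ) :
    ∑ c ∈ Box (K0 + 1) M, HH m P (∑ j, c j) (∑ j, w (c j)) ^ 2 =
      ((TT w)^[K0 + 1] (fun r u => P r u ^ 2)) m 0 := by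
  have h1 : ∀ c ∈ Box (K0 + 1) M, HH m P (∑ j, c j) (∑ j, w (c j)) ^ 2 =
      HH m (fun r u => P r u ^ 2) (0 + ∑ j, c j) (0 + ∑ j, w (c j)) := by
    intro c _
    unfold HH
    rw [zero_add, zero_add]
    split_ifs <;> simp
  rw [Finset.sum_congr rfl h1, box_sum w m M hm]
  unfold HH
  rw [if_pos (Nat.zero_le _), Nat.sub_zero]

theorem HH_UU (m M : ℕ) (hm : m < M) (w : ℕ → ℝ) (P : ℕ → ℝ → ℝ) (K0 : ℕ) (i : Fin (K0 + 1)) :
    ∑ c ∈ Box K0 M, UU M (fun c : Fin (K0 + 1) → ℕ => HH m P (∑ j, c j) (∑ j, w (c j))) i c ^ 2 =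
      ((TT w)^[K0] (fun r u => TT w P r u ^ 2)) m 0 := by
  have h1 : ∀ c ∈ Box K0 M, UU M (fun c : Fin (K0 + 1) → ℕ => HH m P (∑ j, c j) (∑ j, w (c j))) i c ^ 2 =
      HH m (fun r u => TT w P r u ^ 2) (0 + ∑ j, c j) (0 + ∑ j, w (c j)) := by
    intro c _
    unfold UU
    have h2 : ∑ t ∈ range M, HH m P (∑ j, Fin.insertNth (α := fun _ => ℕ) i t c j)
        (∑ j, w (Fin.insertNth (α := fun _ => ℕ) i t c j)) =
          HH m (TT w P) (0 + ∑ j, c j) (0 + ∑ j, w (c j)) := by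
      rw [← HH_sum w m M hm P]
      refine Finset.sum_congr rfl fun t _ => ?_
      rw [sum_insert i t c (fun x => x), sum_insert i t c w, zero_add, zero_add, add_comm t, add_comm (w t)]
    rw [h2]
    unfold HH
    split_ifs <;> simp
  rw [Finset.sum_congr rfl h1, box_sum w m M hm]
  unfold HH
  rw [if_pos (Nat.zero_le _), Nat.sub_zero]

/-- six forms, one of them without a prime condition -/
theorem six (i0 : Fin 6) : ∃ k : ℝ, 0 < k ∧ ∀ (A B : Fin 6 → ℕ), AdmissibleL A B →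
    ∀ (α β : ℕ), 1 ≤ α → α.Coprime β → ∀ σ : ℝ, σ = 1 ∨ σ = -1 →
    ∃ c : ℝ, 0 < c ∧ ∀ᶠ X : ℝ in atTop,
      c * X / Real.log X ^ 6 ≤ ((goodS k σ (univ.erase i0) A B α β X).card : ℝ) := by
  refine crito (K0 := 5) (N1 := 10000) (M := 10000) (by norm_num) (by norm_num) (FF 9994 wt Pf i0) ?_
    (univ.erase i0) ?_
  · intro c hc
    exact FF_supp 9994 wt Pf i0 c hc
  · have h1 := FF_sq 9994 10000 (by norm_num) wt (by unfold wt; norm_num) Pf i0
    have h2 : ∀ i ∈ univ.erase i0, ∑ c ∈ Box 5 10000, UU 10000 (FF 9994 wt Pf i0) i c ^ 2 =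
        PowerSeries.coeff 9994 A4 := by
      intro i hi
      rw [FF_UU (K1 := 4) 9994 10000 (by norm_num) wt (by unfold wt; norm_num) Pf i0 i (Finset.mem_erase.1 hi).1]
      exact J_val
    rw [Finset.sum_congr rfl h2, Finset.sum_const, Finset.card_erase_of_mem (Finset.mem_univ _),
      Finset.card_univ, Fintype.card_fin, nsmul_eq_mul]
    rw [h1, I_val]
    have := num
    push_cast
    norm_num at this ⊢
    exact this

/-- five forms -/
theorem five : ∃ k : ℝ, 0 < k ∧ ∀ (A B : Fin 5 → ℕ), AdmissibleL A B →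
    ∀ (α β : ℕ), 1 ≤ α → α.Coprime β → ∀ σ : ℝ, σ = 1 ∨ σ = -1 →
    ∃ c : ℝ, 0 < c ∧ ∀ᶠ X : ℝ in atTop,
      c * X / Real.log X ^ 5 ≤ ((goodS k σ univ A B α β X).card : ℝ) := by
  refine crito (K0 := 4) (N1 := 10000) (M := 10000) (by norm_num) (by norm_num)
    (fun c : Fin 5 → ℕ => HH 9994 Pf (∑ j, c j) (∑ j, wt (c j))) ?_ univ ?_
  · intro c hc
    have := HH_supp (K0 := 4) 9994 wt Pf c hc
    omega
  · have h1 := HH_sq 9994 10000 (by norm_num) wt Pf 4
    have h2 : ∀ i ∈ (univ : Finset (Fin 5)), ∑ c ∈ Box 4 10000,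
        UU 10000 (fun c : Fin 5 → ℕ => HH 9994 Pf (∑ j, c j) (∑ j, wt (c j))) i c ^ 2 =
        PowerSeries.coeff 9994 A4 := by
      intro i _
      rw [HH_UU 9994 10000 (by norm_num) wt Pf 4 i]
      exact J_val
    rw [Finset.sum_congr rfl h2, Finset.sum_const, Finset.card_univ, Fintype.card_fin, nsmul_eq_mul]
    rw [h1, I_val]
    have := num
    push_cast
    norm_num at this ⊢
    exact this

end Pool.Agent.J4H29
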