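import Mathlib
import Pool.Agent.J4H29.G1
import Pool.Agent.J4H29.G2
import Pool.Agent.J4H29.O4
import Pool.Agent.H358R5.FSQ
import Pool.Agent.H358R5.FUU
import Pool.Agent.H358R5.BOX

/-! helper29: refinement and extension of the cell functions. -/

set_option autoImplicit false

open Finset Filter

namespace Pool.Agent.J4H29

open Pool.Agent.H95R2.BG (Box rad UU C1_sum_box)
open Pool.Agent.H358R5 (Fw D A B g FSQ_proof FUU_proof BOX_proof)
open Cert

/-- the indices below `k` -/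
def firstK (J k : ℕ) : Finset (Fin J) := univ.filter fun i => i.val < k

/-- the quadratic forms of the sieve satisfy the criterion with the constant `C`, with an arbitrary margin -/
def Crt (J k : ℕ) (C : ℝ) : Prop := ∀ s0 : ℕ, ∃ (N1 M : ℕ) (F : (Fin (J + 1) → ℕ) → ℝ), 0 < N1 ∧ 0 < M ∧ M ≤ N1 ∧
  (∀ c, F c ≠ 0 → rad c ≤ N1) ∧
  C * (((N1 + s0 : ℕ) : ℝ) * ∑ c ∈ Box (J + 1) M, F c ^ 2) <
    ∑ i ∈ firstK (J + 1) k, ∑ c ∈ Box J M, UU M F i c ^ 2

lemma sum_range_div (q M : ℕ) (hq : 0 < q) (f : ℕ → ℝ) :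
    ∑ t ∈ range (q * M), f (t / q) = q * ∑ t ∈ range M, f t := by
  induction M with
  | zero => simp
  | succ M ih =>
    rw [Nat.mul_succ, Finset.sum_range_add, ih, Finset.sum_range_succ, mul_add]
    congr 1
    have h1 : ∀ x ∈ range q, f ((q * M + x) / q) = f M := by
      intro x hx
      rw [Finset.mem_range] at hx
      rw [Nat.mul_add_div hq, Nat.div_eq_of_lt hx, add_zero]
    rw [Finset.sum_congr rfl h1, Finset.sum_const, Finset.card_range, nsmul_eq_mul]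

lemma insertNth_div {n : ℕ} (i : Fin (n + 1)) (t : ℕ) (c : Fin n → ℕ) (q : ℕ) :
    (fun j => Fin.insertNth (α := fun _ => ℕ) i t c j / q) =
      Fin.insertNth (α := fun _ => ℕ) i (t / q) (fun j => c j / q) := by
  funext j
  refine Fin.succAboveCases i ?_ ?_ j
  · simp only [Fin.insertNth_apply_same]
  · intro l
    simp only [Fin.insertNth_apply_succAbove]

lemma box_refine (q M : ℕ) (hq : 0 < q) : ∀ (n : ℕ) (f : (Fin n → ℕ) → ℝ),
    ∑ c ∈ Box n (q * M), f (fun j => c j / q) = (q : ℝ) ^ n * ∑ c ∈ Box n M, f c := by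
  intro n
  induction n with
  | zero =>
    intro f
    unfold Box
    rw [Fintype.piFinset_of_isEmpty, Fintype.piFinset_of_isEmpty]
    rw [pow_zero, one_mul]
    refine Finset.sum_congr rfl fun c _ => ?_
    congr 1
    funext j
    exact j.elim0
  | succ n ih =>
    intro f
    rw [C1_sum_box 0, C1_sum_box 0]
    have h1 : ∀ c ∈ Box n (q * M), ∑ t ∈ range (q * M), f (fun j => Fin.insertNth (α := fun _ => ℕ) 0 t c j / q) =
        (fun c' : Fin n → ℕ => (q : ℝ) * ∑ t ∈ range M, f (Fin.insertNth (α := fun _ => ℕ) 0 t c'))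
          (fun j => c j / q) := by
      intro c _
      simp only [insertNth_div]
      rw [sum_range_div q M hq (fun t => f (Fin.insertNth (α := fun _ => ℕ) 0 t (fun j => c j / q)))]
    rw [Finset.sum_congr rfl h1,
      ih (fun c' : Fin n → ℕ => (q : ℝ) * ∑ t ∈ range M, f (Fin.insertNth (α := fun _ => ℕ) 0 t c')),
      ← Finset.mul_sum, pow_succ]
    ring

lemma UU_refine {K0 : ℕ} (q M : ℕ) (hq : 0 < q) (F : (Fin (K0 + 1) → ℕ) → ℝ) (i : Fin (K0 + 1)) (c : Fin K0 → ℕ) :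
    UU (q * M) (fun c => F (fun j => c j / q)) i c = q * UU M F i (fun j => c j / q) := by
  unfold UU
  simp only [insertNth_div]
  exact sum_range_div q M hq (fun t => F (Fin.insertNth (α := fun _ => ℕ) i t (fun j => c j / q)))

lemma rad_refine {K : ℕ} (q : ℕ) (hq : 0 < q) (c : Fin K → ℕ) : rad c ≤ q * rad (fun j => c j / q) := by
  unfold rad
  rw [Finset.mul_sum]
  refine Finset.sum_le_sum fun j _ => ?_
  have := Nat.lt_mul_div_succ (c j) hq
  exact this

/-- an arbitrary margin by refinement -/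
lemma crt_of {J k : ℕ} {C : ℝ} (hC : 0 ≤ C) {N1 M : ℕ} {F : (Fin (J + 1) → ℕ) → ℝ} (hN1 : 0 < N1) (hM : 0 < M)
    (hMN : M ≤ N1) (hF : ∀ c, F c ≠ 0 → rad c ≤ N1)
    (h : C * ((N1 : ℝ) * ∑ c ∈ Box (J + 1) M, F c ^ 2) <
      ∑ i ∈ firstK (J + 1) k, ∑ c ∈ Box J M, UU M F i c ^ 2) : Crt J k C := by
  intro s0
  set SF : ℝ := ∑ c ∈ Box (J + 1) M, F c ^ 2 with hSF
  set SU : ℝ := ∑ i ∈ firstK (J + 1) k, ∑ c ∈ Box J M, UU M F i c ^ 2 with hSU
  have hSF0 : 0 ≤ SF := Finset.sum_nonneg fun c _ => sq_nonneg _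
  obtain ⟨q, hq⟩ := exists_nat_gt (C * s0 * SF / (SU - C * (N1 * SF)))
  have hd : 0 < SU - C * (N1 * SF) := by linarith
  have hq0 : (0 : ℝ) < q := lt_of_le_of_lt (by positivity) hq
  have hq1 : 0 < q := by exact_mod_cast hq0
  rw [div_lt_iff₀ hd] at hq
  refine ⟨q * N1, q * M, fun c => F (fun j => c j / q), by positivity, by positivity,
    Nat.mul_le_mul_left q hMN, ?_, ?_⟩
  · intro c hc
    exact (rad_refine q hq1 c).trans (Nat.mul_le_mul_left q (hF _ hc))
  · have e1 : ∑ c ∈ Box (J + 1) (q * M), F (fun j => c j / q) ^ 2 = (q : ℝ) ^ (J + 1) * SF := by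
      rw [hSF]
      exact box_refine q M hq1 (J + 1) (fun c => F c ^ 2)
    have e2 : ∑ i ∈ firstK (J + 1) k, ∑ c ∈ Box J (q * M), UU (q * M) (fun c => F (fun j => c j / q)) i c ^ 2 =
        (q : ℝ) ^ (J + 2) * SU := by
      rw [hSU, Finset.mul_sum]
      refine Finset.sum_congr rfl fun i _ => ?_
      have h2 : ∀ c ∈ Box J (q * M), UU (q * M) (fun c => F (fun j => c j / q)) i c ^ 2 =
          (fun c' : Fin J → ℕ => ((q : ℝ) * UU M F i c') ^ 2) (fun j => c j / q) := by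
        intro c _
        rw [UU_refine q M hq1]
      rw [Finset.sum_congr rfl h2, box_refine q M hq1 J (fun c' : Fin J → ℕ => ((q : ℝ) * UU M F i c') ^ 2),
        Finset.mul_sum, Finset.mul_sum]
      refine Finset.sum_congr rfl fun c _ => ?_
      ring
    rw [e1, e2]
    have h3 : C * (((q * N1 + s0 : ℕ) : ℝ) * ((q : ℝ) ^ (J + 1) * SF)) =
        (q : ℝ) ^ (J + 1) * (q * (C * (N1 * SF)) + C * s0 * SF) := by
      push_cast
      ring
    have h4 : (q : ℝ) ^ (J + 2) * SU = (q : ℝ) ^ (J + 1) * (q * SU) := by ring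
    rw [h3, h4]
    apply mul_lt_mul_of_pos_left _ (by positivity)
    nlinarith

lemma crt_mono {J k k' : ℕ} {C C' : ℝ} (hk : k ≤ k') (hC : C' ≤ C) (h : Crt J k C) : Crt J k' C' := by
  intro s0
  obtain ⟨N1, M, F, h1, h2, h3, h4, h5⟩ := h s0
  refine ⟨N1, M, F, h1, h2, h3, h4, ?_⟩
  have h6 : 0 ≤ (((N1 + s0 : ℕ) : ℝ) * ∑ c ∈ Box (J + 1) M, F c ^ 2) := by
    have : 0 ≤ ∑ c ∈ Box (J + 1) M, F c ^ 2 := Finset.sum_nonneg fun c _ => sq_nonneg _
    positivity
  refine (mul_le_mul_of_nonneg_right hC h6).trans_lt (h5.trans_le ?_)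
  apply Finset.sum_le_sum_of_subset_of_nonneg
  · intro i hi
    unfold firstK at hi ⊢
    rw [Finset.mem_filter] at hi ⊢
    exact ⟨hi.1, lt_of_lt_of_le hi.2 hk⟩
  · intro i _ _
    exact Finset.sum_nonneg fun c _ => sq_nonneg _

lemma insertNth_castSucc_last {J : ℕ} (i : Fin (J + 1)) (t : ℕ) (c : Fin (J + 1) → ℕ) :
    Fin.insertNth (α := fun _ => ℕ) i.castSucc t c (Fin.last (J + 1)) = c (Fin.last J) := by
  have h1 : Fin.last (J + 1) = i.castSucc.succAbove (Fin.last J) := by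
    rw [Fin.succAbove_of_le_castSucc _ _ (Fin.castSucc_le_castSucc_iff.2 (Fin.le_last i)), Fin.succ_last]
  rw [h1, Fin.insertNth_apply_succAbove]

lemma init_insertNth_castSucc {J : ℕ} (i : Fin (J + 1)) (t : ℕ) (c : Fin (J + 1) → ℕ) :
    (Fin.init (α := fun _ => ℕ) (Fin.insertNth (α := fun _ => ℕ) i.castSucc t c)) =
      Fin.insertNth (α := fun _ => ℕ) i t (Fin.init (α := fun _ => ℕ) c) := by
  funext j
  unfold Fin.init
  refine Fin.succAboveCases i ?_ ?_ j
  · simp only [Fin.insertNth_apply_same]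
  · intro l
    rw [Fin.insertNth_apply_succAbove, ← Fin.castSucc_succAbove_castSucc, Fin.insertNth_apply_succAbove]

lemma init_insertNth_last {J : ℕ} (t : ℕ) (c : Fin J → ℕ) :
    (Fin.init (α := fun _ => ℕ) (Fin.insertNth (α := fun _ => ℕ) (Fin.last J) t c)) = c := by
  funext j
  unfold Fin.init
  have h1 : j.castSucc = (Fin.last J).succAbove j := (Fin.succAbove_last_apply j).symm
  rw [h1, Fin.insertNth_apply_succAbove]

/-- one further form -/
lemma crt_succ {J k : ℕ} {C : ℝ} (hk : k ≤ J + 1) (h : Crt J k C) : Crt (J + 1) k C := by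
  intro s0
  obtain ⟨N1, M, F, h1, h2, h3, h4, h5⟩ := h (s0 + 1)
  obtain ⟨F', hF'⟩ : ∃ F' : (Fin (J + 1 + 1) → ℕ) → ℝ, F' = fun c => if c (Fin.last (J + 1)) = 0 then
    F (Fin.init (α := fun _ => ℕ) c) else 0 := ⟨_, rfl⟩
  have e1 : ∑ c ∈ Box (J + 1 + 1) M, F' c ^ 2 = ∑ c ∈ Box (J + 1) M, F c ^ 2 := by
    rw [C1_sum_box (Fin.last (J + 1))]
    refine Finset.sum_congr rfl fun c _ => ?_
    rw [Finset.sum_eq_single_of_mem 0 (Finset.mem_range.2 h2)]
    · rw [hF']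
      simp only [Fin.insertNth_apply_same, if_true, init_insertNth_last]
    · intro t _ ht
      rw [hF']
      simp only [Fin.insertNth_apply_same, if_neg ht]
      norm_num
  have e2 : ∀ i : Fin (J + 1), ∑ c ∈ Box (J + 1) M, UU M F' i.castSucc c ^ 2 = ∑ c ∈ Box J M, UU M F i c ^ 2 := by
    intro i
    rw [C1_sum_box (Fin.last J)]
    refine Finset.sum_congr rfl fun c _ => ?_
    rw [Finset.sum_eq_single_of_mem 0 (Finset.mem_range.2 h2)]
    · congr 1
      unfold UU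
      refine Finset.sum_congr rfl fun t _ => ?_
      rw [hF']
      simp only [insertNth_castSucc_last, init_insertNth_castSucc, Fin.insertNth_apply_same, if_true,
        init_insertNth_last]
    · intro s _ hs
      have : UU M F' i.castSucc (Fin.insertNth (α := fun _ => ℕ) (Fin.last J) s c) = 0 := by
        unfold UU
        refine Finset.sum_eq_zero fun t _ => ?_
        rw [hF']
        simp only [insertNth_castSucc_last, Fin.insertNth_apply_same, if_neg hs]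
      rw [this]
      norm_num
  have e3 : ∑ i ∈ firstK (J + 1 + 1) k, ∑ c ∈ Box (J + 1) M, UU M F' i c ^ 2 =
      ∑ i ∈ firstK (J + 1) k, ∑ c ∈ Box J M, UU M F i c ^ 2 := by
    symm
    refine Finset.sum_bij (fun i _ => i.castSucc) ?_ ?_ ?_ ?_
    · intro i hi
      unfold firstK at hi ⊢
      rw [Finset.mem_filter] at hi ⊢
      exact ⟨mem_univ _, hi.2⟩
    · intro i _ j _ hij
      exact Fin.castSucc_injective _ hij
    · intro i hi
      unfold firstK at hi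
      rw [Finset.mem_filter] at hi
      refine ⟨⟨i.val, by omega⟩, ?_, ?_⟩
      · unfold firstK
        rw [Finset.mem_filter]
        exact ⟨mem_univ _, hi.2⟩
      · ext
        rfl
    · intro i _
      exact (e2 i).symm
  refine ⟨N1 + 1, M, F', by omega, h2, by omega, ?_, ?_⟩
  · intro c hc
    rw [hF'] at hc
    simp only [ne_eq, ite_eq_right_iff, Classical.not_imp] at hc
    have h6 := h4 _ hc.2
    have h7 : rad c = rad (Fin.init (α := fun _ => ℕ) c) + 1 := by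
      unfold rad
      rw [Fin.sum_univ_castSucc, hc.1]
      rfl
    omega
  · rw [e1, e3]
    have h6 : N1 + 1 + s0 = N1 + (s0 + 1) := by ring
    rw [h6]
    exact h5

lemma crt_add {J k : ℕ} {C : ℝ} (hk : k ≤ J + 1) (h : Crt J k C) : ∀ m : ℕ, Crt (J + m) k C := by
  intro m
  induction m with
  | zero => exact h
  | succ m ih =>
    have h1 : k ≤ J + m + 1 := by omega
    exact crt_succ h1 ih

/-- `M_k > 4 μ` for `log k > 4 μ + 29 / 50` -/
theorem crt_log (K0 : ℕ) (μ : ℝ) (hμ : 2 ≤ μ) (h : 4 * μ + 29 / 50 < Real.log ((K0 : ℝ) + 1)) :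
    Crt K0 (K0 + 1) (4 * μ) := by
  obtain ⟨m, hm⟩ : ∃ m : ℝ, m = (Real.log ((K0 : ℝ) + 1) - 29 / 50) / 4 := ⟨_, rfl⟩
  have hμm : μ < m := by rw [hm]; linarith
  have hm2 : 2 ≤ m := by linarith
  have hK' : 4 * m + 29 / 50 ≤ Real.log ((K0 : ℝ) + 1) := by rw [hm]; linarith
  obtain ⟨L, hL⟩ : ∃ L : ℕ, L = 100 * (K0 + 1) := ⟨_, rfl⟩
  have hL1 : 1 ≤ L := by omega
  have hbm : 8 ≤ MK.bmr m := by
    unfold MK.bmr
    have : 0 ≤ 32 * (m : ℝ) ^ 2 * Real.exp (-(4 * m)) := by positivity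
    linarith
  have hLK : (1 : ℝ) ≤ (L : ℝ) * ((K0 : ℝ) + 1) := by
    have h1 : (1 : ℝ) ≤ L := by exact_mod_cast hL1
    have h2 : (1 : ℝ) ≤ (K0 : ℝ) + 1 := by
      have : (0 : ℝ) ≤ K0 := Nat.cast_nonneg _
      linarith
    nlinarith
  obtain ⟨N, hN⟩ : ∃ N : ℕ, N = ⌈MK.bmr m * ((L : ℝ) * ((K0 : ℝ) + 1))⌉₊ := ⟨_, rfl⟩
  have hpos : 0 ≤ MK.bmr m * ((L : ℝ) * ((K0 : ℝ) + 1)) := by nlinarith
  have hN1 : MK.bmr m * ((L : ℝ) * ((K0 : ℝ) + 1)) ≤ N := by rw [hN]; exact Nat.le_ceil _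
  have hN2 : (N : ℝ) ≤ MK.bmr m * ((L : ℝ) * ((K0 : ℝ) + 1)) + 1 := by
    rw [hN]; exact (Nat.ceil_lt_add_one hpos).le
  have key := MK.ASM_real m L K0 N hm2 hK' (by rw [hL]) hN1 hN2
  have hN8 : (8 : ℝ) ≤ N := by nlinarith
  have hN8' : 8 ≤ N := by exact_mod_cast hN8
  have hKN : K0 + 1 ≤ N := by
    have h1 : ((K0 : ℝ) + 1) ≤ N := by
      have h2 : (1 : ℝ) ≤ L := by exact_mod_cast hL1
      have h3 : (0 : ℝ) ≤ K0 := Nat.cast_nonneg _
      have h4 : ((K0 : ℝ) + 1) ≤ (L : ℝ) * ((K0 : ℝ) + 1) := by nlinarith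
      nlinarith
    exact_mod_cast h1
  have hDpos : 0 < D L (K0 + 1) N := (MK.LCD_full' L (K0 + 1) hL1).2.2.2.1 N hKN
  have hBox : ∀ k M : ℕ, Box k M = Fintype.piFinset (fun _ : Fin k => range M) := fun _ _ => rfl
  refine crt_of (by linarith) (N1 := N) (M := N) (F := Fw L N) (by omega) (by omega) le_rfl ?_ ?_
  · intro c hc
    unfold Fw at hc
    have h1 : ∑ j, (c j + 1) ≤ N := by
      by_contra hcon
      rw [if_neg hcon] at hc
      exact hc rfl
    unfold rad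
    exact h1
  · have e1 : ∑ c ∈ Box (K0 + 1) N, Fw L N c ^ 2 = D L (K0 + 1) N := by
      rw [hBox]; exact FSQ_proof BOX_proof L N (K0 + 1)
    have e2 : ∀ i : Fin (K0 + 1), ∑ c ∈ Box K0 N, UU N (Fw L N) i c ^ 2 =
        ∑ s ∈ range (N + 1), A L K0 s * B L (N - s) ^ 2 := by
      intro i
      rw [← FUU_proof BOX_proof L N K0 i, hBox]
      refine Finset.sum_congr rfl fun c _ => ?_
      simp [UU]
    have e0 : firstK (K0 + 1) (K0 + 1) = univ := by
      unfold firstK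
      rw [Finset.filter_true_of_mem fun i _ => i.isLt]
    rw [e0, e1, Finset.sum_congr rfl fun i _ => e2 i, Finset.sum_const, Finset.card_univ, Fintype.card_fin,
      nsmul_eq_mul]
    push_cast
    have h2 : 0 < (N : ℝ) * D L (K0 + 1) N := by positivity
    nlinarith [key]

/-- `M_5 > 2` -/
theorem crt_five : Crt 4 5 2 := by
  refine crt_of (by norm_num) (N1 := 10000) (M := 10000)
    (F := fun c : Fin 5 → ℕ => HH 9994 Pf (∑ j, c j) (∑ j, wt (c j))) (by norm_num) (by norm_num) le_rfl ?_ ?_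
  · intro c hc
    have := HH_supp (K0 := 4) 9994 wt Pf c hc
    omega
  · have h1 := HH_sq 9994 10000 (by norm_num) wt Pf 4
    have h2 : ∀ i ∈ (univ : Finset (Fin 5)), ∑ c ∈ Box 4 10000,
        UU 10000 (fun c : Fin 5 → ℕ => HH 9994 Pf (∑ j, c j) (∑ j, wt (c j))) i c ^ 2 =
        PowerSeries.coeff 9994 A4 := by
      intro i _
      rw [HH_UU 9994 10000 (by norm_num) wt Pf 4 i]
      exact J_val
    have e0 : firstK (4 + 1) 5 = univ := by
      unfold firstK
      rw [Finset.filter_true_of_mem fun i _ => i.isLt]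
    rw [e0, Finset.sum_congr rfl h2, Finset.sum_const, Finset.card_univ, Fintype.card_fin, nsmul_eq_mul]
    rw [h1, I_val]
    have := num
    push_cast
    norm_num at this ⊢
    linarith

/-- the numbers `k` of forms, `r` of primes and `s` of sign conditions for which the method works -/
def Enough (k r s : ℕ) : Prop := (5 ≤ k ∧ r = 1 ∧ s ≤ 1) ∨
  (1 ≤ r ∧ 8 + 29 / 50 < Real.log k ∧ 4 * ((r : ℝ) - 1) + 2 * s + 29 / 50 < Real.log k)

theorem crt_enough {k r s : ℕ} (h : Enough k r s) :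
    1 ≤ k ∧ 1 ≤ r ∧ ∀ J : ℕ, k ≤ J + 1 → Crt J k (4 * ((r : ℝ) - 1) + 2 * s) := by
  rcases h with ⟨hk, rfl, hs⟩ | ⟨hr, h8, hk⟩
  · refine ⟨by omega, le_rfl, fun J hJ => ?_⟩
    obtain ⟨m, rfl⟩ : ∃ m, J = 4 + m := ⟨J - 4, by omega⟩
    refine crt_mono (k := 5) hk ?_ (crt_add (by norm_num) crt_five m)
    have : (s : ℝ) ≤ 1 := by exact_mod_cast hs
    norm_num
    linarith
  · obtain _ | K0 := k
    · exfalso
      simp at h8
      linarith
    refine ⟨by omega, hr, fun J hJ => ?_⟩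
    obtain ⟨m, rfl⟩ : ∃ m, J = K0 + m := ⟨J - K0, by omega⟩
    obtain ⟨μ, hμ⟩ : ∃ μ : ℝ, μ = max 2 ((r : ℝ) - 1 + s / 2) := ⟨_, rfl⟩
    have h1 : 4 * ((r : ℝ) - 1) + 2 * s ≤ 4 * μ := by
      have := le_max_right (2 : ℝ) ((r : ℝ) - 1 + s / 2)
      rw [← hμ] at this
      linarith
    refine crt_mono le_rfl h1 (crt_add le_rfl (crt_log K0 μ ?_ ?_) m)
    · rw [hμ]
      exact le_max_left _ _
    · push_cast at hk h8
      rw [hμ]
      rcases max_cases (2 : ℝ) ((r : ℝ) - 1 + s / 2) with ⟨h2, _⟩ | ⟨h2, _⟩ <;> rw [h2] <;> linarith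

end Pool.Agent.J4H29
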