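import Mathlib
import Pool.Agent.J4H29.O4

/-! helper29: the final forms of the theorems. -/

set_option autoImplicit false

open Finset Filter

namespace Pool.Agent.J4H29

open Pool.Agent.H95R2.BG.LF (AdmissibleL)
open Pool.Agent.X34.E (RoughL)
open Pool.Agent.N728.QG (lam)

/-- The linear forms `A i * n + B i` have positive slopes, no two of them are proportional, and no prime
divides the product of their values for every `n`. -/
def Adm {k : ℕ} (A B : Fin k → ℕ) : Prop :=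
  (∀ i, 1 ≤ A i) ∧ (∀ i j, i ≠ j → A i * B j ≠ A j * B i) ∧
    ∀ p : ℕ, p.Prime → ∃ a : ℕ, ∀ i, ¬ p ∣ A i * a + B i

/-- All prime factors of `m` are larger than `y`. -/
def Rough (y : ℝ) (m : ℕ) : Prop := ∀ p : ℕ, p.Prime → p ∣ m → y < p

/-- the number of prime factors, with multiplicity -/
def Om (m : ℕ) : ℕ := ArithmeticFunction.cardFactors m

lemma lam_parity {m : ℕ} (hm : m ≠ 0) (e : ℕ) : lam (m : ℤ) = (-1) ^ e ↔ Even (Om m + e) := by
  unfold lam Om
  rw [if_neg (by exact_mod_cast hm), Int.natAbs_natCast]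
  constructor
  · intro h
    have h1 : ((-1 : ℝ)) ^ (ArithmeticFunction.cardFactors m + e) = 1 := by
      rw [pow_add, h, ← pow_add, ← two_mul, pow_mul]
      norm_num
    by_contra h2
    rw [Nat.not_even_iff_odd] at h2
    rw [h2.neg_one_pow] at h1
    norm_num at h1
  · intro h
    have h1 : ((-1 : ℝ)) ^ (ArithmeticFunction.cardFactors m + e) = 1 := h.neg_one_pow
    rw [pow_add] at h1
    rcases neg_one_pow_eq_or ℝ e with h2 | h2 <;> rw [h2] at h1 ⊢ <;> linarith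

/-- the roughness -/
lemma rough_of {κ X : ℝ} (hκ : 0 < κ) (hX : 9 ≤ X) {J : ℕ} {A B : Fin J → ℕ} {n : ℕ}
    (h : RoughL κ (X / 3) A B n) (i : Fin J) : Rough (X ^ (κ / 2)) (A i * n + B i) := by
  intro p hp hpd
  by_contra hc
  push Not at hc
  refine h i p hp (hc.trans ?_) hpd
  have h1 : X ^ (1 / 2 : ℝ) ≤ X / 3 := by
    have h2 : X ^ (1 / 2 : ℝ) = Real.sqrt X := (Real.sqrt_eq_rpow X).symm
    rw [h2, Real.sqrt_le_left (by linarith)]
    nlinarith
  calc X ^ (κ / 2) = (X ^ (1 / 2 : ℝ)) ^ κ := by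
        rw [← Real.rpow_mul (by linarith)]
        congr 1
        ring
    _ ≤ (X / 3) ^ κ := Real.rpow_le_rpow (Real.rpow_nonneg (by linarith) _) h1 hκ.le

/-- comparison of the counting functions -/
lemma count_scale {c : ℝ} (hc : 0 < c) (k : ℕ) (f : ℝ → ℝ) (hf : ∀ᶠ X : ℝ in atTop, c * X / Real.log X ^ k ≤ f X) :
    ∀ᶠ X : ℝ in atTop, (c / 3) * X / Real.log X ^ k ≤ f (X / 3) := by
  have h3 : Tendsto (fun X : ℝ => X / 3) atTop atTop := tendsto_id.atTop_div_const (by norm_num)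
  filter_upwards [h3.eventually hf, eventually_ge_atTop 9] with X hX hX9
  refine le_trans ?_ hX
  have hl : 0 < Real.log (X / 3) := Real.log_pos (by linarith)
  have hl2 : Real.log (X / 3) ≤ Real.log X := Real.log_le_log (by linarith) (by linarith)
  have h1 : c / 3 * X = c * (X / 3) := by ring
  rw [h1]
  exact div_le_div_of_nonneg_left (by positivity) (by positivity) (pow_le_pow_left₀ hl.le hl2 k)

open Classical in
/-- (1) six forms -/
theorem main6 : ∃ κ : ℝ, 0 < κ ∧ ∀ A B : Fin 6 → ℕ, Adm A B → ∀ (t : Fin 6) (e : ℕ),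
    ∃ c : ℝ, 0 < c ∧ ∀ᶠ X : ℝ in atTop, c * X / Real.log X ^ 6 ≤
      (((Icc 1 ⌊X⌋₊).filter (fun n : ℕ => (∀ i, Rough (X ^ κ) (A i * n + B i)) ∧
        ∃ i, i ≠ t ∧ (A i * n + B i).Prime ∧
          (Even (Om (A t * n + B t) + e) ∨ ∃ j, j ≠ t ∧ j ≠ i ∧ (A j * n + B j).Prime))).card : ℝ) := by
  choose k hk hk2 using six
  obtain ⟨k0, hk0, hkk⟩ : ∃ k0 : ℝ, 0 < k0 ∧ ∀ t, k0 ≤ k t := by
    obtain ⟨t0, _, ht0⟩ := Finset.exists_min_image univ k ⟨0, mem_univ _⟩
    exact ⟨k t0, hk t0, fun t => ht0 t (mem_univ t)⟩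
  refine ⟨k0 / 2, by positivity, ?_⟩
  intro A B hadm t e
  have hcop : (A t).Coprime (B t) := by
    rw [Nat.coprime_iff_gcd_eq_one]
    by_contra h
    obtain ⟨p, hp, hpd⟩ := Nat.exists_prime_and_dvd h
    obtain ⟨a, ha⟩ := hadm.2.2 p hp
    exact ha t (dvd_add (Dvd.dvd.mul_right (hpd.trans (Nat.gcd_dvd_left _ _)) a)
      (hpd.trans (Nat.gcd_dvd_right _ _)))
  obtain ⟨c, hc, hcX⟩ := hk2 t A B hadm (A t) (B t) (hadm.1 t) hcop ((-1) ^ e) (neg_one_pow_eq_or ℝ e)
  refine ⟨c / 3, by positivity, ?_⟩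
  filter_upwards [count_scale hc 6 _ hcX, eventually_ge_atTop 9] with X hX hX9
  refine hX.trans ?_
  have hsub : goodS (k t) ((-1) ^ e) (univ.erase t) A B (A t) (B t) (X / 3) ⊆
      (Icc 1 ⌊X⌋₊).filter (fun n : ℕ => (∀ i, Rough (X ^ (k0 / 2)) (A i * n + B i)) ∧
        ∃ i, i ≠ t ∧ (A i * n + B i).Prime ∧
          (Even (Om (A t * n + B t) + e) ∨ ∃ j, j ≠ t ∧ j ≠ i ∧ (A j * n + B j).Prime)) := by
    intro n hn
    unfold goodS at hn
    rw [Finset.mem_filter, Finset.mem_Icc] at hn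
    have h3 : 3 * (X / 3) = X := by ring
    rw [h3] at hn
    rw [Finset.mem_filter, Finset.mem_Icc]
    refine ⟨hn.1, ?_, ?_⟩
    · intro i p hp hpd
      have h1 := rough_of (hk t) hX9 hn.2.2.1 i p hp hpd
      refine lt_of_le_of_lt ?_ h1
      apply Real.rpow_le_rpow_of_exponent_le (by linarith)
      have := hkk t
      linarith
    · obtain ⟨i, hi, hip, hor⟩ := hn.2.2.2
      refine ⟨i, (Finset.mem_erase.1 hi).1, hip, ?_⟩
      rcases hor with h | ⟨j, hj, hji, hjp⟩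
      · left
        have hne : A t * n + B t ≠ 0 := by
          have := Nat.mul_pos (hadm.1 t) hn.1.1
          omega
        exact (lam_parity hne e).1 h
      · right
        exact ⟨j, (Finset.mem_erase.1 hj).1, hji, hjp⟩
  exact_mod_cast Finset.card_le_card hsub

open Classical in
/-- (2) five forms and an arbitrary sixth one -/
theorem main5 : ∃ κ : ℝ, 0 < κ ∧ ∀ A B : Fin 5 → ℕ, Adm A B → ∀ (α β e : ℕ), 1 ≤ α →
    ∃ c : ℝ, 0 < c ∧ ∀ᶠ X : ℝ in atTop, c * X / Real.log X ^ 5 ≤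
      (((Icc 1 ⌊X⌋₊).filter (fun n : ℕ => (∀ i, Rough (X ^ κ) (A i * n + B i)) ∧
        ∃ i, (A i * n + B i).Prime ∧
          (Even (Om (α * n + β) + e) ∨ ∃ j, j ≠ i ∧ (A j * n + B j).Prime))).card : ℝ) := by
  obtain ⟨k, hk, hk2⟩ := five
  refine ⟨k / 2, by positivity, ?_⟩
  intro A B hadm α β e hα
  -- the common factor of the sixth form
  obtain ⟨g, hg⟩ : ∃ g : ℕ, g = Nat.gcd α β := ⟨_, rfl⟩
  have hg1 : 1 ≤ g := by rw [hg]; exact Nat.gcd_pos_of_pos_left _ hα
  obtain ⟨α', hα'⟩ : g ∣ α := by rw [hg]; exact Nat.gcd_dvd_left _ _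
  obtain ⟨β', hβ'⟩ : g ∣ β := by rw [hg]; exact Nat.gcd_dvd_right _ _
  have hα1 : 1 ≤ α' := by
    rcases Nat.eq_zero_or_pos α' with h | h
    · rw [h, mul_zero] at hα'; omega
    · exact h
  have hcop : α'.Coprime β' := by
    have h1 : g * Nat.gcd α' β' = g := by
      rw [← Nat.gcd_mul_left, ← hα', ← hβ', ← hg]
    exact Nat.eq_of_mul_eq_mul_left hg1 (by rw [h1, mul_one])
  obtain ⟨c, hc, hcX⟩ := hk2 A B hadm α' β' hα1 hcop ((-1) ^ (e + Om g)) (neg_one_pow_eq_or ℝ _)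
  refine ⟨c / 3, by positivity, ?_⟩
  filter_upwards [count_scale hc 5 _ hcX, eventually_ge_atTop 9] with X hX hX9
  refine hX.trans ?_
  have hsub : goodS k ((-1) ^ (e + Om g)) univ A B α' β' (X / 3) ⊆
      (Icc 1 ⌊X⌋₊).filter (fun n : ℕ => (∀ i, Rough (X ^ (k / 2)) (A i * n + B i)) ∧
        ∃ i, (A i * n + B i).Prime ∧
          (Even (Om (α * n + β) + e) ∨ ∃ j, j ≠ i ∧ (A j * n + B j).Prime)) := by
    intro n hn
    unfold goodS at hn
    rw [Finset.mem_filter, Finset.mem_Icc] at hn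
    have h3 : 3 * (X / 3) = X := by ring
    rw [h3] at hn
    rw [Finset.mem_filter, Finset.mem_Icc]
    refine ⟨hn.1, fun i => rough_of hk hX9 hn.2.2.1 i, ?_⟩
    obtain ⟨i, _, hip, hor⟩ := hn.2.2.2
    refine ⟨i, hip, ?_⟩
    rcases hor with h | ⟨j, _, hji, hjp⟩
    · left
      have hne : α' * n + β' ≠ 0 := by
        have := Nat.mul_pos hα1 hn.1.1
        omega
      have h4 := (lam_parity hne (e + Om g)).1 h
      have h5 : α * n + β = g * (α' * n + β') := by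
        rw [hα', hβ']; ring
      have h6 : Om (α * n + β) = Om g + Om (α' * n + β') := by
        rw [h5]
        unfold Om
        exact ArithmeticFunction.cardFactors_mul (by omega) hne
      rw [h6]
      have h7 : Om g + Om (α' * n + β') + e = Om (α' * n + β') + (e + Om g) := by ring
      rw [h7]
      exact h4
    · right
      exact ⟨j, hji, hjp⟩
  exact_mod_cast Finset.card_le_card hsub

/-- a set with many elements is infinite -/
lemma infinite_of_count {c : ℝ} (hc : 0 < c) (k : ℕ) (S : Set ℕ) (T : ℝ → Finset ℕ)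
    (hT : ∀ X, (T X : Set ℕ) ⊆ S) (h : ∀ᶠ X : ℝ in atTop, c * X / Real.log X ^ k ≤ ((T X).card : ℝ)) :
    S.Infinite := by
  intro hfin
  have h1 : ∀ X, ((T X).card : ℝ) ≤ hfin.toFinset.card := by
    intro X
    have : T X ⊆ hfin.toFinset := by
      intro n hn
      rw [Set.Finite.mem_toFinset]
      exact hT X hn
    exact_mod_cast Finset.card_le_card this
  have h2 : Tendsto (fun X : ℝ => c * X / Real.log X ^ k) atTop atTop := by
    have h3 := (isLittleO_log_rpow_rpow_atTop (k : ℝ) (one_half_pos (α := ℝ))).bound (one_pos)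
    have h4 : ∀ᶠ X : ℝ in atTop, c * X ^ (1 / 2 : ℝ) ≤ c * X / Real.log X ^ k := by
      filter_upwards [h3, eventually_gt_atTop 3] with X h5 hX
      have hX0 : 0 < X := by linarith
      have hl : 0 < Real.log X := Real.log_pos (by linarith)
      rw [Real.norm_of_nonneg (by positivity), Real.norm_of_nonneg (by positivity), one_mul,
        Real.rpow_natCast] at h5
      rw [le_div_iff₀ (by positivity), mul_assoc]
      apply mul_le_mul_of_nonneg_left _ hc.le
      calc X ^ (1 / 2 : ℝ) * Real.log X ^ k ≤ X ^ (1 / 2 : ℝ) * X ^ (1 / 2 : ℝ) :=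
            mul_le_mul_of_nonneg_left h5 (by positivity)
        _ = X := by rw [← Real.rpow_add hX0]; norm_num
    exact tendsto_atTop_mono' _ h4 ((tendsto_rpow_atTop (by norm_num)).const_mul_atTop hc)
  obtain ⟨X, hX1, hX2⟩ := ((h2.eventually_gt_atTop (hfin.toFinset.card : ℝ)).and h).exists
  linarith [h1 X]

/-- infinitely many `n` for six forms -/
theorem inf6 : ∃ κ : ℝ, 0 < κ ∧ ∀ A B : Fin 6 → ℕ, Adm A B → ∀ (t : Fin 6) (e : ℕ),
    {n : ℕ | (∀ i, Rough ((n : ℝ) ^ κ) (A i * n + B i)) ∧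
        ∃ i, i ≠ t ∧ (A i * n + B i).Prime ∧
          (Even (Om (A t * n + B t) + e) ∨ ∃ j, j ≠ t ∧ j ≠ i ∧ (A j * n + B j).Prime)}.Infinite := by
  classical
  obtain ⟨κ, hκ, h⟩ := main6
  refine ⟨κ, hκ, fun A B hadm t e => ?_⟩
  obtain ⟨c, hc, hcX⟩ := h A B hadm t e
  refine infinite_of_count hc 6 _ _ ?_ hcX
  intro X n hn
  rw [Finset.mem_coe, Finset.mem_filter, Finset.mem_Icc] at hn
  refine ⟨fun i p hp hpd => ?_, hn.2.2⟩
  refine lt_of_le_of_lt ?_ (hn.2.1 i p hp hpd)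
  have hnX : (n : ℝ) ≤ X := by
    have h0 : 0 < ⌊X⌋₊ := lt_of_lt_of_le hn.1.1 hn.1.2
    exact (Nat.le_floor_iff (Nat.pos_of_floor_pos h0).le).1 hn.1.2
  exact Real.rpow_le_rpow (Nat.cast_nonneg _) hnX hκ.le

end Pool.Agent.J4H29
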