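import Mathlib
import Pool.Agent.J4H29.O5

/-! helper29: squarefree values. -/

set_option autoImplicit false

open Finset Filter

namespace Pool.Agent.J4H29

/-- rough values are squarefree up to a negligible number of exceptions -/
lemma nonsq_count (κ : ℝ) (α β : ℕ) (hα : 1 ≤ α) (X : ℝ) (hX : 1 ≤ X) (hY : 1 ≤ ⌊X ^ κ⌋₊)
    (S : Finset ℕ) (hS : ∀ n ∈ S, 1 ≤ n ∧ (n : ℝ) ≤ X ∧ Rough (X ^ κ) (α * n + β) ∧ ¬ Squarefree (α * n + β)) :
    (S.card : ℝ) ≤ (α + β) * X * (1 / (⌊X ^ κ⌋₊ : ℝ)) := by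
  classical
  obtain ⟨Y, hYd⟩ : ∃ Y : ℕ, Y = ⌊X ^ κ⌋₊ := ⟨_, rfl⟩
  rw [← hYd] at hY ⊢
  obtain ⟨M, hM⟩ : ∃ M : ℕ, M = ⌊((α : ℝ) + β) * X⌋₊ := ⟨_, rfl⟩
  have hX0 : 0 < X := by linarith
  have hval : ∀ n ∈ S, α * n + β ≤ M := by
    intro n hn
    rw [hM]
    apply Nat.le_floor
    push_cast
    have h1 := (hS n hn).2.1
    have h2 : (α : ℝ) * n ≤ α * X := mul_le_mul_of_nonneg_left h1 (Nat.cast_nonneg _)
    have h3 : (β : ℝ) * 1 ≤ β * X := mul_le_mul_of_nonneg_left hX (Nat.cast_nonneg _)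
    linarith
  -- the square divisor
  have hq : ∀ n ∈ S, ∃ q ∈ Ioc Y M, q ^ 2 ∣ α * n + β := by
    intro n hn
    obtain ⟨hn1, hnX, hr, hns⟩ := hS n hn
    have h0 : α * n + β ≠ 0 := by
      have := Nat.mul_pos hα hn1
      omega
    obtain ⟨q, hqp, hqd⟩ : ∃ q : ℕ, q.Prime ∧ q * q ∣ α * n + β := by
      by_contra hc
      push Not at hc
      exact hns (Nat.squarefree_iff_prime_squarefree.2 hc)
    refine ⟨q, ?_, by rwa [sq]⟩
    rw [Finset.mem_Ioc]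
    constructor
    · have h1 := hr q hqp (dvd_trans (dvd_mul_right q q) hqd)
      rw [hYd]
      exact (Nat.floor_lt (Real.rpow_nonneg hX0.le _)).2 h1
    · have h1 := Nat.le_of_dvd (by omega) (dvd_trans (dvd_mul_right q q) hqd)
      exact h1.trans (hval n hn)
  have hsub : S ⊆ (Ioc Y M).biUnion (fun q => S.filter (fun n => q ^ 2 ∣ α * n + β)) := by
    intro n hn
    obtain ⟨q, hq1, hq2⟩ := hq n hn
    exact Finset.mem_biUnion.2 ⟨q, hq1, Finset.mem_filter.2 ⟨hn, hq2⟩⟩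
  have h1 : (S.card : ℝ) ≤ ∑ q ∈ Ioc Y M, (((S.filter (fun n => q ^ 2 ∣ α * n + β)).card : ℕ) : ℝ) := by
    have := (Finset.card_le_card hsub).trans Finset.card_biUnion_le
    exact_mod_cast this
  have h2 : ∀ q ∈ Ioc Y M, (((S.filter (fun n => q ^ 2 ∣ α * n + β)).card : ℕ) : ℝ) ≤
      ((α + β) * X) * ((q : ℝ) ^ 2)⁻¹ := by
    intro q hq
    rw [Finset.mem_Ioc] at hq
    have hq0 : 0 < q := by omega
    have h3 : (S.filter (fun n => q ^ 2 ∣ α * n + β)).card ≤ M / q ^ 2 := by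
      have h4 : (S.filter (fun n => q ^ 2 ∣ α * n + β)).card ≤ (Icc 1 (M / q ^ 2)).card := by
        apply Finset.card_le_card_of_injOn (fun n => (α * n + β) / q ^ 2)
        · intro n hn
          rw [Finset.mem_coe, Finset.mem_filter] at hn
          rw [Finset.mem_coe, Finset.mem_Icc]
          refine ⟨?_, Nat.div_le_div_right (hval n hn.1)⟩
          apply Nat.div_pos _ (by positivity)
          apply Nat.le_of_dvd _ hn.2
          have := Nat.mul_pos hα (hS n hn.1).1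
          omega
        · intro x hx y hy hxy
          rw [Finset.mem_coe, Finset.mem_filter] at hx hy
          simp only at hxy
          have e1 := Nat.div_mul_cancel hx.2
          have e2 := Nat.div_mul_cancel hy.2
          rw [hxy, e2] at e1
          have e3 : α * x = α * y := by omega
          exact Nat.eq_of_mul_eq_mul_left (by omega) e3
      simpa using h4
    calc (((S.filter (fun n => q ^ 2 ∣ α * n + β)).card : ℕ) : ℝ) ≤ ((M / q ^ 2 : ℕ) : ℝ) := by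
          exact_mod_cast h3
      _ ≤ (M : ℝ) / ((q ^ 2 : ℕ) : ℝ) := Nat.cast_div_le
      _ ≤ ((α + β) * X) * ((q : ℝ) ^ 2)⁻¹ := by
          rw [Nat.cast_pow, div_eq_mul_inv]
          apply mul_le_mul_of_nonneg_right _ (by positivity)
          rw [hM]
          exact Nat.floor_le (by positivity)
  calc (S.card : ℝ) ≤ ∑ q ∈ Ioc Y M, (((S.filter (fun n => q ^ 2 ∣ α * n + β)).card : ℕ) : ℝ) := h1
    _ ≤ ∑ q ∈ Ioc Y M, ((α + β) * X) * ((q : ℝ) ^ 2)⁻¹ := Finset.sum_le_sum h2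
    _ = ((α + β) * X) * ∑ q ∈ Ioc Y M, ((q : ℝ) ^ 2)⁻¹ := by rw [Finset.mul_sum]
    _ ≤ ((α + β) * X) * (1 / (Y : ℝ)) := by
        apply mul_le_mul_of_nonneg_left _ (by positivity)
        by_cases hYM : Y ≤ M
        · have h5 := sum_Ioc_inv_sq_le_sub (α := ℝ) (k := Y) (n := M) (by omega) hYM
          refine h5.trans ?_
          rw [one_div]
          have : (0 : ℝ) ≤ ((M : ℝ))⁻¹ := by positivity
          linarith
        · rw [Finset.Ioc_eq_empty (by omega), Finset.sum_empty]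
          positivity

open Classical in
/-- the version with squarefree values of a counting statement -/
theorem sq_version {J : ℕ} (κ : ℝ) (hκ : 0 < κ) (A B : Fin J → ℕ) (hA : ∀ i, 1 ≤ A i) (P : ℕ → Prop) (k : ℕ)
    (h : ∃ c : ℝ, 0 < c ∧ ∀ᶠ X : ℝ in atTop, c * X / Real.log X ^ k ≤
      (((Icc 1 ⌊X⌋₊).filter (fun n : ℕ => (∀ i, Rough (X ^ κ) (A i * n + B i)) ∧ P n)).card : ℝ)) :
    ∃ c : ℝ, 0 < c ∧ ∀ᶠ X : ℝ in atTop, c * X / Real.log X ^ k ≤
      (((Icc 1 ⌊X⌋₊).filter (fun n : ℕ => (∀ i, Rough (X ^ κ) (A i * n + B i) ∧ Squarefree (A i * n + B i)) ∧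
        P n)).card : ℝ) := by
  obtain ⟨c, hc, hcX⟩ := h
  refine ⟨c / 2, by positivity, ?_⟩
  set Ct : ℝ := ∑ i, ((A i : ℝ) + B i) with hCt
  have hCt0 : 0 ≤ Ct := Finset.sum_nonneg fun i _ => by positivity
  have e1 := (isLittleO_log_rpow_rpow_atTop (k : ℝ) hκ).bound
    (by positivity : (0 : ℝ) < c / (4 * (Ct + 1)))
  filter_upwards [hcX, e1, (tendsto_rpow_atTop hκ).eventually_ge_atTop 2, eventually_ge_atTop 3] with X h1 h2 h3 hX
  have hX0 : 0 < X := by linarith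
  have hl : 0 < Real.log X := Real.log_pos (by linarith)
  rw [Real.norm_of_nonneg (by positivity), Real.norm_of_nonneg (by positivity), Real.rpow_natCast] at h2
  have hY : 1 ≤ ⌊X ^ κ⌋₊ := Nat.le_floor (by push_cast; linarith)
  have hY2 : X ^ κ / 2 ≤ (⌊X ^ κ⌋₊ : ℝ) := by
    have := Nat.lt_floor_add_one (X ^ κ)
    linarith
  set G := (Icc 1 ⌊X⌋₊).filter (fun n : ℕ => (∀ i, Rough (X ^ κ) (A i * n + B i)) ∧ P n) with hG
  set G' := (Icc 1 ⌊X⌋₊).filter (fun n : ℕ => (∀ i, Rough (X ^ κ) (A i * n + B i) ∧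
    Squarefree (A i * n + B i)) ∧ P n) with hG'
  have hsub : G ⊆ G' ∪ (univ : Finset (Fin J)).biUnion (fun i => G.filter (fun n => ¬ Squarefree (A i * n + B i))) := by
    intro n hn
    by_cases hs : ∀ i, Squarefree (A i * n + B i)
    · apply Finset.mem_union_left
      rw [hG, Finset.mem_filter] at hn
      rw [hG', Finset.mem_filter]
      exact ⟨hn.1, fun i => ⟨hn.2.1 i, hs i⟩, hn.2.2⟩
    · push Not at hs
      obtain ⟨i, hi⟩ := hs
      apply Finset.mem_union_right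
      exact Finset.mem_biUnion.2 ⟨i, mem_univ _, Finset.mem_filter.2 ⟨hn, hi⟩⟩
  have h4 : (G.card : ℝ) ≤ G'.card + ∑ i, ((G.filter (fun n => ¬ Squarefree (A i * n + B i))).card : ℝ) := by
    have := (Finset.card_le_card hsub).trans ((Finset.card_union_le _ _).trans
      (Nat.add_le_add_left Finset.card_biUnion_le _))
    exact_mod_cast this
  have h5 : ∀ i, ((G.filter (fun n => ¬ Squarefree (A i * n + B i))).card : ℝ) ≤
      (A i + B i) * X * (1 / (⌊X ^ κ⌋₊ : ℝ)) := by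
    intro i
    apply nonsq_count κ (A i) (B i) (hA i) X (by linarith) hY
    intro n hn
    rw [Finset.mem_filter, hG, Finset.mem_filter, Finset.mem_Icc] at hn
    exact ⟨hn.1.1.1, (Nat.le_floor_iff hX0.le).1 hn.1.1.2, hn.1.2.1 i, hn.2⟩
  have h6 : ∑ i, ((G.filter (fun n => ¬ Squarefree (A i * n + B i))).card : ℝ) ≤ c / 2 * X / Real.log X ^ k := by
    calc _ ≤ ∑ i, ((A i : ℝ) + B i) * X * (1 / (⌊X ^ κ⌋₊ : ℝ)) := Finset.sum_le_sum fun i _ => h5 i
      _ = Ct * X * (1 / (⌊X ^ κ⌋₊ : ℝ)) := by rw [← Finset.sum_mul, ← Finset.sum_mul]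
      _ ≤ Ct * X * (1 / (X ^ κ / 2)) := by
          apply mul_le_mul_of_nonneg_left _ (by positivity)
          exact one_div_le_one_div_of_le (by positivity) hY2
      _ = 2 * Ct * X / X ^ κ := by field_simp
      _ ≤ c / 2 * X / Real.log X ^ k := by
          rw [div_le_div_iff₀ (by positivity) (by positivity)]
          have h7 : 4 * (Ct + 1) * Real.log X ^ k ≤ c * X ^ κ := by
            have h8 := mul_le_mul_of_nonneg_left h2 (show 0 ≤ 4 * (Ct + 1) by positivity)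
            have h9 : 4 * (Ct + 1) * (c / (4 * (Ct + 1)) * X ^ κ) = c * X ^ κ := by field_simp
            linarith
          have h10 : 0 < Real.log X ^ k := by positivity
          nlinarith
  have h11 : c * X / Real.log X ^ k = c / 2 * X / Real.log X ^ k + c / 2 * X / Real.log X ^ k := by ring
  linarith

/-- `m` is a product of distinct primes, all larger than `y` -/
def SF (y : ℝ) (m : ℕ) : Prop := Squarefree m ∧ ∀ p : ℕ, p.Prime → p ∣ m → y < p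

lemma SF.mono {y z : ℝ} {m : ℕ} (h : SF z m) (hyz : y ≤ z) : SF y m :=
  ⟨h.1, fun p hp hpm => hyz.trans_lt (h.2 p hp hpm)⟩

/-- (1) six forms -/
theorem thm6 : ∃ κ : ℝ, 0 < κ ∧ ∀ A B : Fin 6 → ℕ, Adm A B → ∀ (t : Fin 6) (e : ℕ),
    ∃ c : ℝ, 0 < c ∧ ∀ᶠ X : ℝ in atTop, c * X / Real.log X ^ 6 ≤
      ({n : ℕ | 1 ≤ n ∧ (n : ℝ) ≤ X ∧ (∀ i, SF (X ^ κ) (A i * n + B i)) ∧
        ∃ i, i ≠ t ∧ (A i * n + B i).Prime ∧
          (Even (Om (A t * n + B t) + e) ∨ ∃ j, j ≠ t ∧ j ≠ i ∧ (A j * n + B j).Prime)}.ncard : ℝ) := by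
  classical
  obtain ⟨κ, hκ, h⟩ := main6
  refine ⟨κ, hκ, fun A B hadm t e => ?_⟩
  obtain ⟨c, hc, hcX⟩ := sq_version κ hκ A B hadm.1 (fun n => ∃ i, i ≠ t ∧ (A i * n + B i).Prime ∧
          (Even (Om (A t * n + B t) + e) ∨ ∃ j, j ≠ t ∧ j ≠ i ∧ (A j * n + B j).Prime)) 6
    (by convert h A B hadm t e)
  refine ⟨c, hc, ?_⟩
  filter_upwards [hcX, eventually_ge_atTop 1] with X hX hX1
  refine hX.trans ?_
  rw [Nat.cast_le, ← Set.ncard_coe_finset]
  apply Set.ncard_le_ncard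
  · intro n hn
    simp only [Finset.coe_filter, Finset.mem_Icc, Set.mem_setOf_eq] at hn
    exact ⟨hn.1.1, (Nat.le_floor_iff (by linarith)).1 hn.1.2, fun i => ⟨(hn.2.1 i).2, (hn.2.1 i).1⟩, hn.2.2⟩
  · apply (Set.finite_Icc 1 ⌊X⌋₊).subset
    intro n hn
    exact ⟨hn.1, Nat.le_floor hn.2.1⟩

/-- (2) five forms and an arbitrary sixth one -/
theorem thm5 : ∃ κ : ℝ, 0 < κ ∧ ∀ A B : Fin 5 → ℕ, Adm A B → ∀ (α β e : ℕ), 1 ≤ α →
    ∃ c : ℝ, 0 < c ∧ ∀ᶠ X : ℝ in atTop, c * X / Real.log X ^ 5 ≤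
      ({n : ℕ | 1 ≤ n ∧ (n : ℝ) ≤ X ∧ (∀ i, SF (X ^ κ) (A i * n + B i)) ∧
        ∃ i, (A i * n + B i).Prime ∧
          (Even (Om (α * n + β) + e) ∨ ∃ j, j ≠ i ∧ (A j * n + B j).Prime)}.ncard : ℝ) := by
  classical
  obtain ⟨κ, hκ, h⟩ := main5
  refine ⟨κ, hκ, fun A B hadm α β e hα => ?_⟩
  obtain ⟨c, hc, hcX⟩ := sq_version κ hκ A B hadm.1 (fun n => ∃ i, (A i * n + B i).Prime ∧
          (Even (Om (α * n + β) + e) ∨ ∃ j, j ≠ i ∧ (A j * n + B j).Prime)) 5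
    (by convert h A B hadm α β e hα)
  refine ⟨c, hc, ?_⟩
  filter_upwards [hcX, eventually_ge_atTop 1] with X hX hX1
  refine hX.trans ?_
  rw [Nat.cast_le, ← Set.ncard_coe_finset]
  apply Set.ncard_le_ncard
  · intro n hn
    simp only [Finset.coe_filter, Finset.mem_Icc, Set.mem_setOf_eq] at hn
    exact ⟨hn.1.1, (Nat.le_floor_iff (by linarith)).1 hn.1.2, fun i => ⟨(hn.2.1 i).2, (hn.2.1 i).1⟩, hn.2.2⟩
  · apply (Set.finite_Icc 1 ⌊X⌋₊).subset
    intro n hn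
    exact ⟨hn.1, Nat.le_floor hn.2.1⟩

/-- infinitely many `n` for six forms -/
theorem inf6s : ∃ κ : ℝ, 0 < κ ∧ ∀ A B : Fin 6 → ℕ, Adm A B → ∀ (t : Fin 6) (e : ℕ),
    {n : ℕ | (∀ i, SF ((n : ℝ) ^ κ) (A i * n + B i)) ∧
        ∃ i, i ≠ t ∧ (A i * n + B i).Prime ∧
          (Even (Om (A t * n + B t) + e) ∨ ∃ j, j ≠ t ∧ j ≠ i ∧ (A j * n + B j).Prime)}.Infinite := by
  classical
  obtain ⟨κ, hκ, h⟩ := thm6
  refine ⟨κ, hκ, fun A B hadm t e => ?_⟩
  obtain ⟨c, hc, hcX⟩ := h A B hadm t e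
  have hfin : ∀ X : ℝ, ({n : ℕ | 1 ≤ n ∧ (n : ℝ) ≤ X ∧ (∀ i, SF (X ^ κ) (A i * n + B i)) ∧
        ∃ i, i ≠ t ∧ (A i * n + B i).Prime ∧
          (Even (Om (A t * n + B t) + e) ∨ ∃ j, j ≠ t ∧ j ≠ i ∧ (A j * n + B j).Prime)}).Finite := by
    intro X
    apply (Set.finite_Icc 1 ⌊X⌋₊).subset
    intro n hn
    exact ⟨hn.1, Nat.le_floor hn.2.1⟩
  refine infinite_of_count hc 6 _ (fun X => (hfin X).toFinset) ?_ ?_
  · intro X n hn
    rw [Finset.mem_coe, Set.Finite.mem_toFinset] at hn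
    refine ⟨fun i => (hn.2.2.1 i).mono ?_, hn.2.2.2⟩
    exact Real.rpow_le_rpow (Nat.cast_nonneg _) hn.2.1 hκ.le
  · filter_upwards [hcX] with X hX
    rwa [← Set.ncard_eq_toFinset_card _ (hfin X)]

end Pool.Agent.J4H29
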