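import Mathlib
import Pool.Agent.J4H29.O5s
import Pool.Agent.Y677.RSZ.Fin
import Pool.Agent.TH977.PW.Inst

/-! helper29: narrow arithmetic progressions in large sets of `n` with rough values of linear forms. -/

set_option autoImplicit false

open Finset Filter Polynomial

namespace Pool.Agent.J4H29

open Pool.Agent.W123.RP Pool.Agent.H373R2.T7 Pool.Agent.W123.RU Pool.Agent.W123.RU.Poly
open Pool.Agent.W182.PW
open Pool.Agent.TH977.PW (sys_lin)
open Pool.Agent.Y677.RSZ (poly_all eng_all prod_dvd_iff V_eq)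

open Classical in
/-- narrow progressions in large sets of `n ≤ X` for which all the forms have rough values -/
theorem ap_lem {k : ℕ} (A B : Fin k → ℕ) (h : Adm A B) (κ c : ℝ) (hκ : 0 < κ)
    (hc : 0 < c) (l : ℕ) : ∃ Bd : ℕ, ∀ᶠ X : ℕ in atTop, ∀ S : Finset ℕ, S ⊆ Ioc 0 X →
      (∀ n ∈ S, ∀ i, ∀ p : ℕ, p.Prime → p ∣ A i * n + B i → (X : ℝ) ^ κ < p) →
      c * X / Real.log X ^ k ≤ S.card →
      ∃ u d : ℕ, 1 ≤ d ∧ (d : ℝ) ≤ Real.log X ^ Bd ∧ ∀ i < l, u + i * d ∈ S := by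
  obtain ⟨hA1, hne, hadm⟩ := h
  have hsys : Sys (fun i => lin (A i) (B i : ℤ)) := by
    apply sys_lin A (fun i => (B i : ℤ)) (fun i => hA1 i)
    · intro i
      rw [Nat.isCoprime_iff_coprime]
      apply Nat.coprime_of_dvd
      intro p hp h1 h2
      obtain ⟨n, hn⟩ := hadm p hp
      exact hn i (Dvd.dvd.add (Dvd.dvd.mul_right h1 n) h2)
    · intro i j h1 h2
      by_contra hij
      have h2' : B i = B j := by exact_mod_cast h2
      exact hne i j hij (by rw [h1, h2'])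
    · intro p hp
      obtain ⟨n, hn⟩ := hadm p hp
      refine ⟨n, fun i hd => hn i ?_⟩
      have : ((A i : ℤ) * n + B i) = ((A i * n + B i : ℕ) : ℤ) := by push_cast; ring
      rw [this, Int.natCast_dvd_natCast] at hd
      exact hd
  obtain ⟨f, hf⟩ : ∃ f : Fin k → ℤ[X], f = fun i => lin (A i) (B i : ℤ) := ⟨_, rfl⟩
  rw [← hf] at hsys
  have hfe : ∀ (i : Fin k) (n : ℕ), (f i).eval (n : ℤ) = ((A i * n + B i : ℕ) : ℤ) := by
    intro i n
    rw [hf]
    simp only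
    rw [lin_eval]
    push_cast
    ring
  obtain ⟨v, Cv, hv, hCv, hV⟩ := V_bounds f hsys
  rw [Fintype.card_fin] at hV
  obtain ⟨P, hPdef⟩ : ∃ P : ℤ[X], P = ∏ i, f i := ⟨_, rfl⟩
  have hP0 : P ≠ 0 := by
    rw [hPdef]
    exact Finset.prod_ne_zero_iff.2 (fun i _ => (hsys.irr i).ne_zero)
  obtain ⟨g₀, hg₀⟩ := poly_all P hP0 (by
    intro p hp
    obtain ⟨m, hm⟩ := hsys.adm p hp
    refine ⟨m, fun hd => ?_⟩
    rw [hPdef] at hd
    obtain ⟨i, hi⟩ := (prod_dvd_iff f p hp m).1 hd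
    exact hm i hi)
  obtain ⟨K, D, hKD⟩ := eval_bound P
  obtain ⟨Bd, H₀, hB⟩ := eng_all (max l 2) (g₀ + D + 2) κ (c / Cv) (le_max_right _ _) hκ (by positivity)
  refine ⟨Bd, ?_⟩
  filter_upwards [eventually_ge_atTop (H₀ + 3), eventually_ge_atTop (K * 2 ^ D + 1)] with X h1 h2 S hS
    hrough hcard
  have hX0 : 1 ≤ X := by omega
  have hX1 : (1 : ℝ) ≤ X := by exact_mod_cast hX0
  obtain ⟨u, d, hd1, hd2, hud⟩ := hB (fun n => P.eval n) 0 X S (hg₀.mono (by omega)) (by omega)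
    (by
      intro n hn
      rw [mem_Ioc] at hn
      refine ⟨?_, ?_⟩
      · rw [hPdef, eval_prod]
        apply Finset.prod_ne_zero_iff.2
        intro i _
        rw [hfe]
        have h3 : 1 ≤ A i * n + B i := by
          have := Nat.mul_pos (hA1 i) hn.1
          omega
        exact_mod_cast (by omega : A i * n + B i ≠ 0)
      · have e1 := hKD (n : ℤ)
        have e2 : |((n : ℤ) : ℝ)| = (n : ℝ) := by
          rw [Int.cast_natCast, abs_of_nonneg (Nat.cast_nonneg n)]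
        rw [e2] at e1
        have e3 : (n : ℝ) ≤ X := by
          have : n ≤ X := by omega
          exact_mod_cast this
        have e4 : (K : ℝ) * (1 + (n : ℝ)) ^ D ≤ (X : ℝ) ^ (D + 1) := by
          calc (K : ℝ) * (1 + (n : ℝ)) ^ D ≤ K * (2 * X) ^ D := by
                gcongr
                linarith
            _ = K * 2 ^ D * (X : ℝ) ^ D := by rw [mul_pow]; ring
            _ ≤ X * (X : ℝ) ^ D := by
                gcongr
                have : K * 2 ^ D ≤ X := by omega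
                exact_mod_cast this
            _ = _ := by rw [pow_succ]; ring
        have e5 : (X : ℝ) ^ (D + 1) ≤ (X : ℝ) ^ (g₀ + D + 2) := pow_le_pow_right₀ hX1 (by omega)
        have e6 : |((P.eval (n : ℤ) : ℤ) : ℝ)| ≤ (X : ℝ) ^ (g₀ + D + 2) := e1.trans (e4.trans e5)
        exact_mod_cast e6)
    (by simpa using hS)
    (by
      intro n hn p hp hpX hd
      rw [hPdef] at hd
      obtain ⟨i, hi⟩ := (prod_dvd_iff f p hp n).1 hd
      rw [hfe, Int.natCast_dvd_natCast] at hi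
      have := hrough n hn i p hp hi
      linarith)
    (by
      rw [hPdef, V_eq]
      refine le_trans ?_ hcard
      have e1 := (hV X (by omega)).2
      calc c / Cv * (X * Vq (Q f) X) ≤ c / Cv * (X * (Cv / Real.log X ^ k)) := by gcongr
        _ = c * X / Real.log X ^ k := by field_simp)
  exact ⟨u, d, hd1, hd2, fun i hi => hud i (lt_of_lt_of_le hi (le_max_left _ _))⟩

/-- arithmetic progressions of every length, arbitrarily far out, whose differences are at most a power of the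
logarithm -/
def Narrow (S : Set ℕ) : Prop := ∀ l : ℕ, ∃ Bd : ℕ, ∀ x₀ : ℕ, ∃ a d : ℕ, x₀ ≤ a ∧ 1 ≤ d ∧
  (d : ℝ) ≤ Real.log a ^ Bd ∧ ∀ i < l, a + i * d ∈ S

lemma Narrow.infinite {S : Set ℕ} (h : Narrow S) : S.Infinite := by
  obtain ⟨Bd, h1⟩ := h 1
  rw [Set.infinite_iff_exists_gt]
  intro a
  obtain ⟨b, d, hb, _, _, hbd⟩ := h1 (a + 1)
  exact ⟨b, by simpa using hbd 0 (by omega), by omega⟩

lemma Narrow.mono {S T : Set ℕ} (h : Narrow S) (hST : S ⊆ T) : Narrow T := by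
  intro l
  obtain ⟨Bd, h1⟩ := h l
  refine ⟨Bd, fun x₀ => ?_⟩
  obtain ⟨a, d, h2, h3, h4, h5⟩ := h1 x₀
  exact ⟨a, d, h2, h3, h4, fun i hi => hST (h5 i hi)⟩

/-- the selection of one colour -/
lemma narrow_select {ι : Type*} [Finite ι] (T : ι → Set ℕ)
    (h : ∀ l : ℕ, ∃ Bd : ℕ, ∀ x₀ : ℕ, ∃ q, ∃ a d : ℕ, x₀ ≤ a ∧ 1 ≤ d ∧
      (d : ℝ) ≤ Real.log a ^ Bd ∧ ∀ i < l, a + i * d ∈ T q) : ∃ q, Narrow (T q) := by
  have := Fintype.ofFinite ι
  have h1 : ∀ l : ℕ, ∃ Bd : ℕ, ∃ q, ∀ x₀ : ℕ, ∃ a d : ℕ, x₀ ≤ a ∧ 1 ≤ d ∧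
      (d : ℝ) ≤ Real.log a ^ Bd ∧ ∀ i < l, a + i * d ∈ T q := by
    intro l
    obtain ⟨Bd, hBd⟩ := h l
    refine ⟨Bd, ?_⟩
    by_contra hc
    simp only [not_exists, not_forall] at hc
    choose x hx using hc
    obtain ⟨q, a, d, h2, h3, h4, h5⟩ := hBd (univ.sup x)
    exact hx q a d ⟨(Finset.le_sup (f := x) (mem_univ q)).trans h2, h3, h4, h5⟩
  by_contra hc
  simp only [Narrow, not_exists, not_forall] at hc
  choose L hL using hc
  obtain ⟨Bd, q, hq⟩ := h1 (univ.sup L)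
  obtain ⟨x₀, hx₀⟩ := hL q Bd
  obtain ⟨a, d, h2, h3, h4, h5⟩ := hq x₀
  exact hx₀ a d ⟨h2, h3, h4, fun i hi => h5 i (lt_of_lt_of_le hi (Finset.le_sup (f := L) (mem_univ q)))⟩

/-- from the lower bound for the number to narrow progressions in one part of a finite cover -/
theorem narrow_cover {k : ℕ} (hk : 0 < k) (A B : Fin k → ℕ) (h : Adm A B) {κ c : ℝ} (hκ : 0 < κ)
    (hc : 0 < c) (P : ℕ → Prop)
    (hcount : ∀ᶠ X : ℝ in atTop, c * X / Real.log X ^ k ≤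
      ({n : ℕ | 1 ≤ n ∧ (n : ℝ) ≤ X ∧ (∀ i, SF (X ^ κ) (A i * n + B i)) ∧ P n}.ncard : ℝ))
    {ι : Type*} [Finite ι] (T : ι → Set ℕ)
    (hT : ∀ n : ℕ, 1 ≤ n → (∀ i, SF ((n : ℝ) ^ κ) (A i * n + B i)) → P n → ∃ q, n ∈ T q) :
    ∃ q, Narrow (T q) := by
  classical
  have := Fintype.ofFinite ι
  obtain ⟨Qc, hQc⟩ : ∃ Qc : ℕ, Qc = Fintype.card ι := ⟨_, rfl⟩
  apply narrow_select
  intro l
  obtain ⟨Bd, hBd⟩ := ap_lem A B h κ (c / (Qc + 1)) hκ (by positivity) (l + 2)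
  refine ⟨Bd + 1, fun x₀ => ?_⟩
  have hXr : Tendsto (fun X : ℕ => (X : ℝ)) atTop atTop := tendsto_natCast_atTop_atTop
  have hpow : Tendsto (fun X : ℕ => (X : ℝ) ^ (κ / 2)) atTop atTop :=
    (tendsto_rpow_atTop (by positivity)).comp hXr
  have hlogX : Tendsto (fun X : ℕ => Real.log (X : ℝ)) atTop atTop := Real.tendsto_log_atTop.comp hXr
  obtain ⟨X, hX1, hX2, hX3, hX4, hX5, hX6⟩ := (hBd.and ((hXr.eventually hcount).and
    ((hpow.eventually_ge_atTop ((x₀ : ℝ) + A ⟨0, hk⟩ + B ⟨0, hk⟩)).and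
    ((hlogX.eventually_ge_atTop (2 / κ * (2 / κ) ^ Bd)).and
    ((hlogX.eventually_ge_atTop 1).and (eventually_ge_atTop 2)))))).exists
  have hXpos : (0 : ℝ) < X := by
    have : 0 < X := by omega
    exact_mod_cast this
  have hX1' : (1 : ℝ) ≤ X := by
    have : 1 ≤ X := by omega
    exact_mod_cast this
  set G : Finset ℕ := (Ioc 0 X).filter (fun n => (∀ i, SF ((X : ℝ) ^ κ) (A i * n + B i)) ∧ P n) with hG
  have hGn : ({n : ℕ | 1 ≤ n ∧ (n : ℝ) ≤ X ∧ (∀ i, SF ((X : ℝ) ^ κ) (A i * n + B i)) ∧ P n}.ncard : ℝ) =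
      G.card := by
    rw [← Set.ncard_coe_finset]
    congr 2
    ext n
    simp only [hG, Finset.coe_filter, mem_Ioc, Set.mem_ofPred_eq, Nat.cast_le]
    constructor
    · rintro ⟨h1, h2, h3, h4⟩
      exact ⟨⟨by omega, h2⟩, h3, h4⟩
    · rintro ⟨⟨h1, h2⟩, h3, h4⟩
      exact ⟨by omega, h2, h3, h4⟩
  rw [hGn] at hX2
  have hl0 : 0 < Real.log X := by linarith
  -- a popular colour
  obtain ⟨q, hq⟩ : ∃ q, c / (Qc + 1) * X / Real.log X ^ k ≤ ((G.filter (fun n => n ∈ T q)).card : ℝ) := by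
    by_contra hcon
    push Not at hcon
    have h1 : G ⊆ (univ : Finset ι).biUnion (fun q => G.filter (fun n => n ∈ T q)) := by
      intro n hn
      have hn' := hn
      rw [hG, mem_filter, mem_Ioc] at hn'
      obtain ⟨q, hq⟩ := hT n (by omega) (fun i => (hn'.2.1 i).mono (by
        apply Real.rpow_le_rpow (Nat.cast_nonneg _) _ hκ.le
        exact_mod_cast hn'.1.2)) hn'.2.2
      rw [mem_biUnion]
      exact ⟨q, mem_univ _, by rw [mem_filter]; exact ⟨hn, hq⟩⟩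
    have h2 : (G.card : ℝ) ≤ ∑ q : ι, ((G.filter (fun n => n ∈ T q)).card : ℝ) := by
      have := (Finset.card_le_card h1).trans Finset.card_biUnion_le
      exact_mod_cast this
    have h3 : ∑ q : ι, ((G.filter (fun n => n ∈ T q)).card : ℝ) ≤
        ∑ q : ι, c / (Qc + 1) * X / Real.log X ^ k := Finset.sum_le_sum fun q _ => (hcon q).le
    rw [Finset.sum_const, card_univ, ← hQc, nsmul_eq_mul] at h3
    have h4 : (Qc : ℝ) * (c / (Qc + 1) * X / Real.log X ^ k) < c * X / Real.log X ^ k := by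
      have e : (Qc : ℝ) * (c / (Qc + 1) * X / Real.log X ^ k) =
          (Qc / (Qc + 1)) * (c * X / Real.log X ^ k) := by field_simp
      rw [e]
      have h5 : (Qc : ℝ) / (Qc + 1) < 1 := by
        rw [div_lt_one (by positivity)]
        linarith
      have h6 : 0 < c * X / Real.log X ^ k := by positivity
      nlinarith
    linarith
  obtain ⟨u, d, hd1, hd2, hud⟩ := hX1 (G.filter (fun n => n ∈ T q)) (by
      intro n hn
      rw [mem_filter, hG, mem_filter] at hn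
      exact hn.1.1) (by
      intro n hn i p hp hpd
      rw [mem_filter, hG, mem_filter] at hn
      exact (hn.1.2.1 i).2 p hp hpd) hq
  have h0 := hud 0 (by omega)
  have h1 := hud 1 (by omega)
  rw [mem_filter, hG, mem_filter, mem_Ioc] at h0 h1
  rw [zero_mul, add_zero] at h0
  rw [one_mul] at h1
  have hu1 : 1 ≤ u := by omega
  -- the second term is large
  have hbig : (X : ℝ) ^ κ < (A ⟨0, hk⟩ * (u + d) + B ⟨0, hk⟩ : ℕ) := by
    have hA0 := h.1 ⟨0, hk⟩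
    have h2 : A ⟨0, hk⟩ * (u + d) + B ⟨0, hk⟩ ≠ 1 := by
      have : 1 * 2 ≤ A ⟨0, hk⟩ * (u + d) := Nat.mul_le_mul hA0 (by omega)
      omega
    obtain ⟨p, hp, hpd⟩ := Nat.exists_prime_and_dvd h2
    have h3 := (h1.1.2.1 ⟨0, hk⟩).2 p hp hpd
    have h4 : p ≤ A ⟨0, hk⟩ * (u + d) + B ⟨0, hk⟩ := Nat.le_of_dvd (by
      have : 1 * 2 ≤ A ⟨0, hk⟩ * (u + d) := Nat.mul_le_mul hA0 (by omega)
      omega) hpd
    exact h3.trans_le (by exact_mod_cast h4)
  have hu2 : (X : ℝ) ^ (κ / 2) ≤ (u + d : ℕ) := by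
    have e1 : (X : ℝ) ^ κ = (X : ℝ) ^ (κ / 2) * (X : ℝ) ^ (κ / 2) := by
      rw [← Real.rpow_add hXpos]
      congr 1
      ring
    have e2 : ((A ⟨0, hk⟩ * (u + d) + B ⟨0, hk⟩ : ℕ) : ℝ) ≤
        ((A ⟨0, hk⟩ : ℝ) + B ⟨0, hk⟩) * ((u + d : ℕ) : ℝ) := by
      have : A ⟨0, hk⟩ * (u + d) + B ⟨0, hk⟩ ≤ (A ⟨0, hk⟩ + B ⟨0, hk⟩) * (u + d) := by
        have : B ⟨0, hk⟩ * 1 ≤ B ⟨0, hk⟩ * (u + d) := Nat.mul_le_mul_left _ (by omega)
        nlinarith
      exact_mod_cast this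
    have e3 : (0 : ℝ) ≤ x₀ := Nat.cast_nonneg _
    have e4 : ((A ⟨0, hk⟩ : ℝ) + B ⟨0, hk⟩) * ((u + d : ℕ) : ℝ) ≤
        (X : ℝ) ^ (κ / 2) * ((u + d : ℕ) : ℝ) := by
      apply mul_le_mul_of_nonneg_right _ (Nat.cast_nonneg _)
      linarith
    have e5 : 0 < (X : ℝ) ^ (κ / 2) := by positivity
    have e6 : (X : ℝ) ^ (κ / 2) * (X : ℝ) ^ (κ / 2) < (X : ℝ) ^ (κ / 2) * ((u + d : ℕ) : ℝ) := by
      rw [← e1]
      linarith
    exact (lt_of_mul_lt_mul_left e6 e5.le).le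
  have hlog : κ / 2 * Real.log X ≤ Real.log (u + d : ℕ) := by
    rw [← Real.log_rpow hXpos]
    exact Real.log_le_log (by positivity) hu2
  refine ⟨q, u + d, d, ?_, hd1, ?_, ?_⟩
  · have e1 : (x₀ : ℝ) ≤ ((u + d : ℕ) : ℝ) := by
      have e2 : (0 : ℝ) ≤ A ⟨0, hk⟩ := Nat.cast_nonneg _
      have e3 : (0 : ℝ) ≤ B ⟨0, hk⟩ := Nat.cast_nonneg _
      linarith
    exact_mod_cast e1
  · have e1 : Real.log X ≤ 2 / κ * Real.log (u + d : ℕ) := by
      have : 2 / κ * (κ / 2 * Real.log X) ≤ 2 / κ * Real.log (u + d : ℕ) := by gcongr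
      have e : 2 / κ * (κ / 2 * Real.log X) = Real.log X := by field_simp
      linarith
    have e2 : (2 / κ) ^ Bd ≤ Real.log (u + d : ℕ) := by
      have e3 : κ / 2 * (2 / κ * (2 / κ) ^ Bd) ≤ κ / 2 * Real.log X := by gcongr
      have e : κ / 2 * (2 / κ * (2 / κ) ^ Bd) = (2 / κ) ^ Bd := by field_simp
      linarith
    calc (d : ℝ) ≤ Real.log X ^ Bd := hd2
      _ ≤ (2 / κ * Real.log (u + d : ℕ)) ^ Bd := pow_le_pow_left₀ hl0.le e1 _
      _ = (2 / κ) ^ Bd * Real.log (u + d : ℕ) ^ Bd := mul_pow _ _ _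
      _ ≤ Real.log (u + d : ℕ) * Real.log (u + d : ℕ) ^ Bd := by
          apply mul_le_mul_of_nonneg_right e2
          apply pow_nonneg
          have : 0 < κ / 2 * Real.log X := by positivity
          linarith
      _ = Real.log (u + d : ℕ) ^ (Bd + 1) := by rw [pow_succ]; ring
  · intro i hi
    have h2 := hud (i + 1) (by omega)
    rw [mem_filter] at h2
    have e : u + (i + 1) * d = u + d + i * d := by ring
    rw [e] at h2
    exact h2.2

end Pool.Agent.J4H29
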