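import Mathlib
import Pool.Agent.J4H29.O9

/-! helper29: five forms and an arbitrary sixth one; the parity of the number of prime factors of `p + k`. -/

set_option autoImplicit false

open Finset Filter

namespace Pool.Agent.J4H29

/-- five forms and an arbitrary sixth one: the number of the `n` and narrow progressions -/
theorem five_full : ∃ κ : ℝ, 0 < κ ∧ ∀ A B : Fin 5 → ℕ, Adm A B → ∀ (α β e : ℕ), 1 ≤ α →
    (∃ c : ℝ, 0 < c ∧ ∀ᶠ X : ℝ in atTop, c * X / Real.log X ^ 5 ≤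
      ({n : ℕ | 1 ≤ n ∧ (n : ℝ) ≤ X ∧ (∀ i, SF (X ^ κ) (A i * n + B i)) ∧
        ∃ i, (A i * n + B i).Prime ∧
          (Even (Om (α * n + β) + e) ∨ ∃ j, j ≠ i ∧ (A j * n + B j).Prime)}.ncard : ℝ)) ∧
    ((∃ i, Narrow {n : ℕ | (∀ l, SF ((n : ℝ) ^ κ) (A l * n + B l)) ∧ (A i * n + B i).Prime ∧
      Even (Om (α * n + β) + e)}) ∨
    (∃ i j, i ≠ j ∧ Narrow {n : ℕ | (∀ l, SF ((n : ℝ) ^ κ) (A l * n + B l)) ∧ (A i * n + B i).Prime ∧
      (A j * n + B j).Prime})) := by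
  classical
  obtain ⟨κ, hκ, h⟩ := thm5
  refine ⟨κ, hκ, fun A B hadm α β e hα => ?_⟩
  obtain ⟨c, hc, hcX⟩ := h A B hadm α β e hα
  refine ⟨⟨c, hc, hcX⟩, ?_⟩
  obtain ⟨q, hq⟩ := narrow_cover (by norm_num) A B hadm hκ hc _ hcX
    (fun q : Fin 5 ⊕ {q : Fin 5 × Fin 5 // q.1 ≠ q.2} => match q with
      | Sum.inl i => {n : ℕ | (∀ l, SF ((n : ℝ) ^ κ) (A l * n + B l)) ∧ (A i * n + B i).Prime ∧
          Even (Om (α * n + β) + e)}
      | Sum.inr ij => {n : ℕ | (∀ l, SF ((n : ℝ) ^ κ) (A l * n + B l)) ∧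
          (A ij.1.1 * n + B ij.1.1).Prime ∧ (A ij.1.2 * n + B ij.1.2).Prime})
    (by
      rintro n hn1 hr ⟨i, hip, hor⟩
      rcases hor with h1 | ⟨j, hji, hjp⟩
      · exact ⟨Sum.inl i, hr, hip, h1⟩
      · exact ⟨Sum.inr ⟨(i, j), hji.symm⟩, hr, hip, hjp⟩)
  rcases q with i | ⟨⟨i, j⟩, hij⟩
  · exact Or.inl ⟨i, hq⟩
  · exact Or.inr ⟨i, j, hij, hq⟩

/-- five forms and an arbitrary sixth one: narrow progressions -/
theorem five_gen : ∃ κ : ℝ, 0 < κ ∧ ∀ A B : Fin 5 → ℕ, Adm A B → ∀ (α β e : ℕ), 1 ≤ α →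
    (∃ i, Narrow {n : ℕ | (∀ l, SF ((n : ℝ) ^ κ) (A l * n + B l)) ∧ (A i * n + B i).Prime ∧
      Even (Om (α * n + β) + e)}) ∨
    (∃ i j, i ≠ j ∧ Narrow {n : ℕ | (∀ l, SF ((n : ℝ) ^ κ) (A l * n + B l)) ∧ (A i * n + B i).Prime ∧
      (A j * n + B j).Prime}) := by
  obtain ⟨κ, hκ, h⟩ := five_full
  exact ⟨κ, hκ, fun A B hadm α β e hα => (h A B hadm α β e hα).2⟩

/-- images of narrow progressions under `n ↦ a n + b` -/
lemma Narrow.image {S T : Set ℕ} (h : Narrow S) (a b : ℕ) (ha : 1 ≤ a)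
    (hST : ∀ n ∈ S, a * n + b ∈ T) : Narrow T := by
  intro l
  obtain ⟨Bd, hBd⟩ := h l
  refine ⟨Bd + 1, fun x₀ => ?_⟩
  obtain ⟨N, hN⟩ := (Filter.eventually_atTop.1 ((Real.tendsto_log_atTop.comp
    (tendsto_natCast_atTop_atTop (R := ℝ))).eventually_ge_atTop (a : ℝ)))
  obtain ⟨u, d, hu, hd1, hd2, hud⟩ := hBd (x₀ + N + 3)
  have h3 : (a : ℝ) ≤ Real.log u := hN u (by omega)
  have hau : u ≤ a * u + b := by
    have : 1 * u ≤ a * u := Nat.mul_le_mul_right _ ha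
    omega
  refine ⟨a * u + b, a * d, by omega, Nat.mul_pos ha hd1, ?_, ?_⟩
  · have h1 : (3 : ℝ) ≤ u := by exact_mod_cast (by omega : 3 ≤ u)
    have h2 : Real.log u ≤ Real.log ((a * u + b : ℕ) : ℝ) := by
      apply Real.log_le_log (by linarith)
      exact_mod_cast hau
    have h4 : 0 ≤ Real.log u := Real.log_nonneg (by linarith)
    push_cast
    calc (a : ℝ) * d ≤ Real.log u * Real.log u ^ Bd := by
          apply mul_le_mul h3 hd2 (Nat.cast_nonneg _) h4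
      _ = Real.log u ^ (Bd + 1) := by rw [pow_succ]; ring
      _ ≤ Real.log (a * u + b) ^ (Bd + 1) := by
          apply pow_le_pow_left₀ h4
          push_cast at h2
          exact h2
  · intro i hi
    have h1 := hST _ (hud i hi)
    have e : a * u + b + i * (a * d) = a * (u + i * d) + b := by ring
    rw [e]
    exact h1

/-- the shift `k`: either there are narrow progressions of primes `p` for which `p + k` has a number of
prime factors of the given parity, or two of the numbers `a n - k` are simultaneously prime -/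
theorem exact_shift (k : ℤ) (hk : k ≠ 0) (e : ℕ) (S : Finset ℕ) (hS : 5 ≤ S.card)
    (h1 : ∀ a ∈ S, 1 ≤ a) (hcop : ∀ a ∈ S, IsCoprime (a : ℤ) k)
    (hpar : ∀ a ∈ S, ∀ b ∈ S, Om a ≡ Om b [MOD 2]) :
    Narrow {p : ℕ | p.Prime ∧ Om ((p : ℤ) + k).natAbs ≡ e [MOD 2]} ∨
    ∃ a ∈ S, ∃ b ∈ S, a < b ∧ Narrow {n : ℕ | ∃ p q : ℕ, p.Prime ∧ q.Prime ∧
      (p : ℤ) + k = a * n ∧ (q : ℤ) + k = b * n} := by
  obtain ⟨κ, hκ, h5⟩ := five_gen
  obtain ⟨T, hTS, hT⟩ := Finset.exists_subset_card_eq hS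
  obtain ⟨A, hA⟩ : ∃ A : Fin 5 → ℕ, A = fun i => T.orderEmbOfFin hT i := ⟨_, rfl⟩
  have hAT : ∀ i, A i ∈ S := fun i => by rw [hA]; exact hTS (Finset.orderEmbOfFin_mem T hT i)
  have hAin : Function.Injective A := by
    rw [hA]
    exact (T.orderEmbOfFin hT).injective
  obtain ⟨K, hK⟩ : ∃ K : ℕ, K = k.natAbs := ⟨_, rfl⟩
  have hK0 : 0 < K := by rw [hK]; exact Int.natAbs_pos.2 hk
  have hKk : k ≤ K ∧ -(K : ℤ) ≤ k := by rw [hK]; omega
  obtain ⟨B, hB⟩ : ∃ B : Fin 5 → ℕ, B = fun i => ((A i : ℤ) * K - k).toNat := ⟨_, rfl⟩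
  have hBe : ∀ i, (B i : ℤ) = A i * K - k := by
    intro i
    rw [hB]
    apply Int.toNat_of_nonneg
    have h2 : (1 : ℤ) ≤ A i := by exact_mod_cast h1 _ (hAT i)
    nlinarith [hKk.1, hKk.2]
  have hval : ∀ (i : Fin 5) (n : ℕ), ((A i * n + B i : ℕ) : ℤ) + k = A i * (n + K : ℕ) := by
    intro i n
    push_cast
    rw [hBe]
    ring
  have hadm : Adm A B := by
    refine ⟨fun i => h1 _ (hAT i), ?_, ?_⟩
    · intro i j hij he
      have h2 : (A i : ℤ) * B j = A j * B i := by exact_mod_cast he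
      rw [hBe, hBe] at h2
      have h3 : k * ((A i : ℤ) - A j) = 0 := by linear_combination -h2
      rcases mul_eq_zero.1 h3 with h4 | h4
      · exact hk h4
      · exact hij (hAin (by exact_mod_cast sub_eq_zero.1 h4))
    · intro p hp
      have hp' : Prime (p : ℤ) := Nat.prime_iff_prime_int.1 hp
      by_cases hpk : (p : ℤ) ∣ k
      · have hpK : p ∣ K := by
          rw [hK]
          exact Int.natCast_dvd.1 hpk
        refine ⟨1, fun i hd => ?_⟩
        have h2 : (p : ℤ) ∣ ((A i * 1 + B i : ℕ) : ℤ) := by exact_mod_cast hd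
        have h3 := dvd_add h2 hpk
        rw [hval] at h3
        have h4 : ¬ (p : ℤ) ∣ A i := by
          intro h5
          obtain ⟨u, v, huv⟩ := hcop _ (hAT i)
          have h6 : (p : ℤ) ∣ 1 := by
            rw [← huv]
            exact dvd_add (Dvd.dvd.mul_left h5 u) (Dvd.dvd.mul_left hpk v)
          exact hp'.not_isUnit (isUnit_of_dvd_one h6)
        rcases hp'.dvd_or_dvd h3 with h5 | h5
        · exact h4 h5
        · rw [Int.natCast_dvd_natCast] at h5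
          have h6 := (Nat.dvd_add_left hpK).1 h5
          exact hp.one_lt.ne' (Nat.dvd_one.1 h6)
      · refine ⟨K * (p - 1), fun i hd => hpk ?_⟩
        have h2 : (p : ℤ) ∣ ((A i * (K * (p - 1)) + B i : ℕ) : ℤ) := by exact_mod_cast hd
        have h3 := hval i (K * (p - 1))
        have h4 : K * (p - 1) + K = K * p := by
          have : p - 1 + 1 = p := by have := hp.one_lt; omega
          calc K * (p - 1) + K = K * (p - 1 + 1) := by ring
            _ = K * p := by rw [this]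
        rw [h4] at h3
        have h5 : (p : ℤ) ∣ A i * (K * p : ℕ) := by
          push_cast
          exact Dvd.intro_left _ (by ring : (A i : ℤ) * K * p = _)
        rw [← h3] at h5
        exact (dvd_add_right h2).1 h5
  obtain ⟨s, hs⟩ : ∃ s : ℕ, s = Om (A 0) := ⟨_, rfl⟩
  rcases h5 A B hadm 1 K (e + s) le_rfl with ⟨i, hN⟩ | ⟨i, j, hij, hN⟩
  · left
    apply hN.image (A i) (B i) (h1 _ (hAT i))
    rintro n ⟨_, hp, hev⟩
    refine ⟨hp, ?_⟩
    rw [hval]
    rw [one_mul] at hev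
    have e1 : ((A i : ℤ) * (n + K : ℕ)).natAbs = A i * (n + K) := by
      rw [← Nat.cast_mul, Int.natAbs_natCast]
    rw [e1]
    have h2 : Om (A i * (n + K)) = Om (A i) + Om (n + K) := by
      unfold Om
      apply ArithmeticFunction.cardFactors_mul
      · have := h1 _ (hAT i); omega
      · omega
    rw [h2]
    have h3 := hpar _ (hAT i) _ (hAT 0)
    rw [← hs] at h3
    rw [Nat.even_iff] at hev
    unfold Nat.ModEq at h3 ⊢
    omega
  · right
    have key : ∀ i j : Fin 5, A i < A j → Narrow {n : ℕ | (∀ l, SF ((n : ℝ) ^ κ) (A l * n + B l)) ∧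
        (A i * n + B i).Prime ∧ (A j * n + B j).Prime} → ∃ a ∈ S, ∃ b ∈ S, a < b ∧
        Narrow {n : ℕ | ∃ p q : ℕ, p.Prime ∧ q.Prime ∧ (p : ℤ) + k = a * n ∧ (q : ℤ) + k = b * n} := by
      intro i j hlt hN
      refine ⟨A i, hAT i, A j, hAT j, hlt, hN.image 1 K le_rfl ?_⟩
      rintro n ⟨_, hp, hq⟩
      refine ⟨_, _, hp, hq, ?_, ?_⟩
      · rw [hval, one_mul]
      · rw [hval, one_mul]
    rcases lt_or_gt_of_ne (fun he => hij (hAin he)) with hlt | hlt
    · exact key i j hlt hN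
    · exact key j i hlt (hN.mono fun n hn => ⟨hn.1, hn.2.2, hn.2.1⟩)

end Pool.Agent.J4H29
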