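import Mathlib
import Pool.Agent.J4H29.O5s

/-! helper29: consequences for shifts of primes. -/

set_option autoImplicit false

open Finset Filter

namespace Pool.Agent.J4H29

/-- a number all of whose prime factors are `≥ y` has few prime factors -/
lemma pow_Om_le {y : ℝ} (hy : 0 ≤ y) {m : ℕ} (hm : m ≠ 0) (h : SF y m) : y ^ Om m ≤ (m : ℝ) := by
  unfold Om
  rw [ArithmeticFunction.cardFactors_apply]
  have h1 : ∀ l : List ℕ, (∀ p ∈ l, y ≤ (p : ℝ)) → y ^ l.length ≤ ((l.prod : ℕ) : ℝ) := by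
    intro l
    induction l with
    | nil => intro _; simp
    | cons a l ih =>
      intro hl
      rw [List.length_cons, List.prod_cons, pow_succ, Nat.cast_mul, mul_comm]
      apply mul_le_mul (hl a (by simp)) (ih fun p hp => hl p (by simp [hp])) (by positivity)
        (Nat.cast_nonneg _)
  have h2 := h1 m.primeFactorsList (fun p hp =>
    (h.2 p (Nat.prime_of_mem_primeFactorsList hp) (Nat.dvd_of_mem_primeFactorsList hp)).le)
  rwa [Nat.prod_primeFactorsList hm] at h2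

/-- the number of prime factors of a rough number -/
lemma Om_le {κ x : ℝ} (hκ : 0 < κ) (hx : 1 < x) {m : ℕ} (hm : m ≠ 0) (hmx : (m : ℝ) ≤ x ^ 2)
    (h : SF (x ^ κ) m) : Om m ≤ ⌊2 / κ⌋₊ := by
  apply Nat.le_floor
  rw [le_div_iff₀ hκ]
  have hx0 : 0 < x := by linarith
  have h1 := pow_Om_le (Real.rpow_nonneg hx0.le κ) hm h
  have h2 : x ^ (κ * Om m) ≤ x ^ (2 : ℝ) := by
    rw [Real.rpow_mul hx0.le, Real.rpow_natCast]
    refine h1.trans (hmx.trans (le_of_eq ?_))
    norm_cast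
  have h3 := (Real.rpow_le_rpow_left_iff hx).1 h2
  linarith

/-- pigeonhole -/
lemma exists_infinite {ι : Type*} [Finite ι] (S : Set ℕ) (hS : S.Infinite) (T : ι → Set ℕ)
    (h : S ⊆ ⋃ i, T i) : ∃ i, (T i).Infinite := by
  by_contra hc
  push Not at hc
  exact hS ((Set.finite_iUnion fun i => hc i).subset h)

/-- six shifts -/
theorem pair_shift : ∃ κ : ℝ, 0 < κ ∧ ∀ x : Fin 6 → ℕ, Function.Injective x →
    (∀ p : ℕ, p.Prime → ∃ a : ℕ, ∀ i, ¬ p ∣ a + x i) →
    ∃ i j, i ≠ j ∧ {n : ℕ | (n + x i).Prime ∧ SF ((n : ℝ) ^ κ) (n + x j) ∧ Odd (Om (n + x j))}.Infinite := by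
  obtain ⟨κ, hκ, h⟩ := inf6s
  refine ⟨κ, hκ, fun x hx hadm => ?_⟩
  have hA : Adm (fun _ => 1) x := by
    refine ⟨fun _ => le_rfl, fun i j hij => ?_, fun p hp => ?_⟩
    · simp only [one_mul]
      exact fun he => hij (hx he.symm)
    · obtain ⟨a, ha⟩ := hadm p hp
      exact ⟨a, fun i => by rw [one_mul]; exact ha i⟩
  have hinf := h (fun _ => 1) x hA 0 1
  obtain ⟨⟨i, j⟩, hij⟩ := exists_infinite _ hinf (fun q : Fin 6 × Fin 6 =>
    {n : ℕ | q.1 ≠ q.2 ∧ (n + x q.1).Prime ∧ SF ((n : ℝ) ^ κ) (n + x q.2) ∧ Odd (Om (n + x q.2))}) (by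
      intro n hn
      rw [Set.mem_iUnion]
      obtain ⟨hr, i, hi0, hip, hor⟩ := hn
      simp only [one_mul] at hr hip hor
      rcases hor with h1 | ⟨j, hj0, hji, hjp⟩
      · refine ⟨(i, 0), hi0, hip, hr 0, ?_⟩
        rw [← Nat.not_even_iff_odd]
        intro h2
        rw [Nat.even_add_one] at h1
        exact h1 h2
      · refine ⟨(i, j), hji.symm, hip, hr j, ?_⟩
        unfold Om
        rw [ArithmeticFunction.cardFactors_apply_prime hjp]
        exact odd_one)
  have hne : i ≠ j := by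
    obtain ⟨n, hn⟩ := hij.nonempty
    exact hn.1
  exact ⟨i, j, hne, hij.mono fun n hn => hn.2⟩

/-- the primes `p` such that `p + h` is a product of an odd number, at most `R`, of distinct large primes -/
def NearOdd (κ : ℝ) (R : ℕ) (h : ℤ) : Set ℕ :=
  {p : ℕ | p.Prime ∧ ∃ m : ℕ, (p : ℤ) + h = m ∧ SF ((p : ℝ) ^ κ) m ∧ Odd (Om m) ∧ Om m ≤ R}

/-- comparison of the powers -/
lemma pow_shift {κ : ℝ} (hκ : 0 < κ) {n p : ℕ} (hnp : p ≤ n ^ 2) : (p : ℝ) ^ (κ / 2) ≤ (n : ℝ) ^ κ := by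
  have h1 : (p : ℝ) ≤ (n : ℝ) ^ 2 := by exact_mod_cast hnp
  calc (p : ℝ) ^ (κ / 2) ≤ ((n : ℝ) ^ 2) ^ (κ / 2) := Real.rpow_le_rpow (Nat.cast_nonneg _) h1 (by linarith)
    _ = (n : ℝ) ^ κ := by
        rw [← Real.rpow_natCast, ← Real.rpow_mul (Nat.cast_nonneg _)]
        congr 1
        push_cast
        ring

/-- from infinitely many `n` to infinitely many primes -/
lemma to_primes {κ : ℝ} (hκ : 0 < κ) (a b : ℕ)
    (h : {n : ℕ | (n + a).Prime ∧ SF ((n : ℝ) ^ κ) (n + b) ∧ Odd (Om (n + b))}.Infinite) :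
    (NearOdd (κ / 2) ⌊2 / (κ / 2)⌋₊ ((b : ℤ) - a)).Infinite := by
  have h1 : ({n : ℕ | (n + a).Prime ∧ SF ((n : ℝ) ^ κ) (n + b) ∧ Odd (Om (n + b))} \
      (Set.Iic (a + b + 4))).Infinite := h.sdiff (Set.finite_Iic _)
  refine (h1.image (f := fun n => n + a) (fun x _ y _ hxy => by simpa using hxy)).mono ?_
  rintro p ⟨n, ⟨⟨hp, hr, ho⟩, hn⟩, rfl⟩
  rw [Set.mem_Iic, not_le] at hn
  have hk : ((n + a : ℕ) : ℝ) ^ (κ / 2) ≤ (n : ℝ) ^ κ := pow_shift hκ (by nlinarith)
  have hrough : SF (((n + a : ℕ) : ℝ) ^ (κ / 2)) (n + b) := hr.mono hk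
  refine ⟨hp, n + b, ?_, hrough, ho, ?_⟩
  · push_cast; ring
  · apply Om_le (by linarith) (x := ((n + a : ℕ) : ℝ)) _ (by omega) _ hrough
    · have : 1 < n + a := by omega
      exact_mod_cast this
    · have : n + b ≤ (n + a) ^ 2 := by nlinarith
      exact_mod_cast this

/-- fewer than `p` classes do not cover -/
lemma miss_class {ι : Type*} [Fintype ι] (x : ι → ℕ) (p : ℕ) (h : Fintype.card ι < p) :
    ∃ a : ℕ, a < p ∧ ∀ i, ¬ p ∣ a + x i := by
  have hcard : ((univ : Finset ι).image (fun i => (p - x i % p) % p)).card < (range p).card := by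
    rw [card_range]
    exact lt_of_le_of_lt (Finset.card_image_le) (by rw [card_univ]; omega)
  obtain ⟨a, ha, hna⟩ := Finset.exists_mem_notMem_of_card_lt_card hcard
  rw [Finset.mem_range] at ha
  refine ⟨a, ha, fun i hdvd => hna ?_⟩
  rw [Finset.mem_image]
  refine ⟨i, mem_univ _, ?_⟩
  have hpos : 0 < p := by omega
  have h1 : (a + x i % p) % p = 0 := by
    rw [Nat.add_mod_mod]
    exact Nat.mod_eq_zero_of_dvd hdvd
  have h2 : x i % p < p := Nat.mod_lt _ hpos
  rcases Nat.eq_zero_or_pos (x i % p) with h3 | h3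
  · rw [h3, Nat.sub_zero, Nat.mod_self]
    rw [h3, Nat.add_zero, Nat.mod_eq_of_lt ha] at h1
    exact h1.symm
  · have h4 : a + x i % p = p := by
      obtain ⟨c, hc⟩ := Nat.dvd_of_mod_eq_zero h1
      have : c = 1 := by
        have h6 : c < 2 := by
          by_contra h7'
          push Not at h7'
          have : p * 2 ≤ p * c := Nat.mul_le_mul_left _ h7'
          omega
        have h8 : 0 < c := by
          rcases Nat.eq_zero_or_pos c with h9 | h9
          · rw [h9, mul_zero] at hc; omega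
          · exact h9
        omega
      rw [this, mul_one] at hc
      exact hc
    rw [Nat.mod_eq_of_lt (by omega)]
    omega

/-- (3) the shift is at most `16` in absolute value -/
theorem gap16 : ∃ (κ : ℝ) (R : ℕ) (h : ℤ), 0 < κ ∧ Even h ∧ h ≠ 0 ∧ |h| ≤ 16 ∧ (NearOdd κ R h).Infinite := by
  obtain ⟨κ, hκ, h⟩ := pair_shift
  obtain ⟨i, j, hij, hinf⟩ := h ![0, 4, 6, 10, 12, 16] (by decide) (by
    intro p hp
    by_cases h7 : p < 7
    · have h2 := hp.two_le
      interval_cases p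
      · exact ⟨1, by decide⟩
      · exact ⟨1, by decide⟩
      · exact absurd hp (by norm_num)
      · exact ⟨2, by decide⟩
      · exact absurd hp (by norm_num)
    · obtain ⟨a, _, ha⟩ := miss_class (![0, 4, 6, 10, 12, 16] : Fin 6 → ℕ) p (by
        rw [Fintype.card_fin]; omega)
      exact ⟨a, ha⟩)
  refine ⟨κ / 2, ⌊2 / (κ / 2)⌋₊, _, by linarith, ?_, ?_, ?_, to_primes hκ _ _ hinf⟩
  · fin_cases i <;> fin_cases j <;> simp <;> decide
  · fin_cases i <;> fin_cases j <;> simp at hij ⊢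
  · fin_cases i <;> fin_cases j <;> simp

/-- the primes `p` such that `p + h` is `m` or `15 m` with `m` a product of an odd number, at most `R`, of
distinct large primes -/
def NearOdd15 (κ : ℝ) (R : ℕ) (h : ℤ) : Set ℕ :=
  {p : ℕ | p.Prime ∧ ∃ g m : ℕ, (g = 1 ∨ g = 15) ∧ (p : ℤ) + h = g * m ∧ SF ((p : ℝ) ^ κ) m ∧
    Odd (Om m) ∧ Om m ≤ R}

/-- (4) the shift is at most `12` in absolute value -/
theorem gap12 : ∃ (κ : ℝ) (R : ℕ) (h : ℤ), 0 < κ ∧ Even h ∧ h ≠ 0 ∧ |h| ≤ 12 ∧ (NearOdd15 κ R h).Infinite := by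
  obtain ⟨κ, hκ, hinf6⟩ := inf6s
  set A : Fin 6 → ℕ := ![15, 15, 15, 15, 15, 1] with hA
  set B : Fin 6 → ℕ := ![11, 13, 17, 19, 23, 1] with hB
  have hadm : Adm A B := by
    refine ⟨by decide, by decide, fun p hp => ?_⟩
    by_cases h7 : p < 7
    · have h2 := hp.two_le
      interval_cases p
      · exact ⟨0, by decide⟩
      · exact ⟨0, by decide⟩
      · exact absurd hp (by norm_num)
      · exact ⟨0, by decide⟩
      · exact absurd hp (by norm_num)
    · push Not at h7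
      -- multiply by the inverse of `15`
      have h15 : Nat.Coprime 15 p := by
        have h3 : ¬ p ∣ 15 := by
          intro hd
          have h4 := Nat.le_of_dvd (by norm_num) hd
          have h5 := hp.two_le
          interval_cases p <;> revert hp hd <;> norm_num
        exact ((Nat.Prime.coprime_iff_not_dvd hp).2 h3).symm
      obtain ⟨a, _, ha⟩ := miss_class (![11, 13, 17, 19, 23, 15] : Fin 6 → ℕ) p (by
        rw [Fintype.card_fin]; omega)
      -- a = 15 n mod p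
      obtain ⟨n, hn⟩ : ∃ n : ℕ, 15 * n ≡ a [MOD p] := by
        obtain ⟨b, hb⟩ := Nat.exists_mul_mod_eq_one_of_coprime h15 hp.one_lt
        refine ⟨b * a, ?_⟩
        have h3 : 15 * b ≡ 1 [MOD p] := by
          unfold Nat.ModEq
          rw [hb.2, Nat.mod_eq_of_lt hp.one_lt]
        have h4 := h3.mul_right a
        rw [one_mul, mul_assoc] at h4
        exact h4
      refine ⟨n, fun i hd => ?_⟩
      have key : ∀ c : ℕ, p ∣ 15 * n + c → p ∣ a + c := fun c hc =>
        (Nat.ModEq.dvd_iff (hn.add_right c) (dvd_refl p)).1 hc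
      fin_cases i
      · exact ha 0 (key 11 (by simpa [hA, hB] using hd))
      · exact ha 1 (key 13 (by simpa [hA, hB] using hd))
      · exact ha 2 (key 17 (by simpa [hA, hB] using hd))
      · exact ha 3 (key 19 (by simpa [hA, hB] using hd))
      · exact ha 4 (key 23 (by simpa [hA, hB] using hd))
      · refine ha 5 (key 15 ?_)
        have h3 : p ∣ n + 1 := by simpa [hA, hB] using hd
        have h4 : 15 * n + 15 = 15 * (n + 1) := by ring
        rw [h4]
        exact Dvd.dvd.mul_left h3 15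
  have hinf := hinf6 A B hadm 5 1
  -- the value at the index `j`
  set C : Fin 6 → ℤ := ![11, 13, 17, 19, 23, 15] with hC
  set G : Fin 6 → ℕ := ![1, 1, 1, 1, 1, 15] with hG
  have hval : ∀ (j : Fin 6) (n : ℕ), 15 * (n : ℤ) + C j = (G j : ℤ) * ((A j * n + B j : ℕ) : ℤ) := by
    intro j n
    fin_cases j <;> simp [hA, hB, hC, hG] <;> ring
  obtain ⟨⟨i, j⟩, hij⟩ := exists_infinite _ hinf (fun q : Fin 6 × Fin 6 =>
    {n : ℕ | q.1 ≠ q.2 ∧ q.1 ≠ 5 ∧ (A q.1 * n + B q.1).Prime ∧ SF ((n : ℝ) ^ κ) (A q.2 * n + B q.2) ∧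
      Odd (Om (A q.2 * n + B q.2))}) (by
      intro n hn
      rw [Set.mem_iUnion]
      obtain ⟨hr, i, hi0, hip, hor⟩ := hn
      rcases hor with h1 | ⟨j, hj0, hji, hjp⟩
      · refine ⟨(i, 5), hi0, hi0, hip, hr 5, ?_⟩
        rw [← Nat.not_even_iff_odd]
        intro h2
        rw [Nat.even_add_one] at h1
        exact h1 h2
      · refine ⟨(i, j), hji.symm, hi0, hip, hr j, ?_⟩
        unfold Om
        rw [ArithmeticFunction.cardFactors_apply_prime hjp]
        exact odd_one)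
  obtain ⟨hne, hi5⟩ : i ≠ j ∧ i ≠ 5 := by
    obtain ⟨n, hn⟩ := hij.nonempty
    exact ⟨hn.1, hn.2.1⟩
  refine ⟨κ / 2, ⌊2 / (κ / 2)⌋₊, C j - C i, by linarith, ?_, ?_, ?_, ?_⟩
  · fin_cases i <;> fin_cases j <;> simp [hC] <;> decide
  · fin_cases i <;> fin_cases j <;> simp [hC] at hne hi5 ⊢
  · fin_cases i <;> fin_cases j <;> simp [hC] at hi5 ⊢
  · have hAi : A i = 15 := by
      fin_cases i <;> simp [hA] at hi5 ⊢
    have hGi : G i = 1 := by
      fin_cases i <;> simp [hG] at hi5 ⊢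
    have hBi : B i ≤ 23 := by
      fin_cases i <;> simp [hB]
    have hAj : A j ≤ 15 := by
      fin_cases j <;> simp [hA]
    have hAj1 : 1 ≤ A j := by
      fin_cases j <;> simp [hA]
    have hBj : B j ≤ 23 := by
      fin_cases j <;> simp [hB]
    have hGj : G j = 1 ∨ G j = 15 := by
      fin_cases j <;> simp [hG]
    have h1 := hij.sdiff (Set.finite_Iic 50)
    refine (h1.image (f := fun n => 15 * n + B i) (fun x _ y _ hxy => by simpa using hxy)).mono ?_
    rintro p ⟨n, ⟨⟨_, _, hp, hr, ho⟩, hn⟩, rfl⟩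
    rw [Set.mem_Iic, not_le] at hn
    rw [hAi] at hp
    have hk : ((15 * n + B i : ℕ) : ℝ) ^ (κ / 2) ≤ (n : ℝ) ^ κ := pow_shift hκ (by nlinarith)
    have hrough : SF (((15 * n + B i : ℕ) : ℝ) ^ (κ / 2)) (A j * n + B j) := hr.mono hk
    refine ⟨hp, G j, A j * n + B j, hGj, ?_, hrough, ho, ?_⟩
    · have h2 := hval j n
      have h3 := hval i n
      rw [hGi, hAi] at h3
      push_cast at h2 h3 ⊢
      linarith
    · apply Om_le (by linarith) (x := ((15 * n + B i : ℕ) : ℝ)) _ (by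
        have := Nat.mul_pos hAj1 (show 0 < n by omega)
        omega) _ hrough
      · have : 1 < 15 * n + B i := by omega
        exact_mod_cast this
      · have h2 : A j * n ≤ 15 * n := Nat.mul_le_mul_right _ hAj
        have : A j * n + B j ≤ (15 * n + B i) ^ 2 := by nlinarith
        exact_mod_cast this

end Pool.Agent.J4H29
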