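import Mathlib
import Pool.Agent.J4H29.O6
import Pool.Agent.J4H29.O12
set_option autoImplicit false

open Finset Filter

namespace Pool.Agent.J4H29

/-- the forms `a n - k` (shifted) and the form `n` -/
lemma shift_adm (k : ℤ) (hk : k ≠ 0) (A : Fin 5 → ℕ) (hA1 : ∀ i, 1 ≤ A i) (hAin : Function.Injective A)
    (hcop : ∀ i, IsCoprime (A i : ℤ) k)
    (hloc : ∀ p : ℕ, p.Prime → ¬ (p : ℤ) ∣ k → ∃ c : ℕ, ¬ p ∣ c ∧ ∀ i, ¬ A i ≡ c [MOD p]) :
    ∃ B : Fin 5 → ℕ, (∀ i (n : ℕ), ((A i * n + B i : ℕ) : ℤ) + k = A i * (n + k.natAbs : ℕ)) ∧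
      Adm (Fin.snoc A 1 : Fin 6 → ℕ) (Fin.snoc B k.natAbs : Fin 6 → ℕ) := by
  obtain ⟨K, hK⟩ : ∃ K : ℕ, K = k.natAbs := ⟨_, rfl⟩
  have hK0 : 0 < K := by rw [hK]; exact Int.natAbs_pos.2 hk
  have hKk : k ≤ K ∧ -(K : ℤ) ≤ k := by rw [hK]; omega
  rw [← hK]
  obtain ⟨B, hB⟩ : ∃ B : Fin 5 → ℕ, B = fun i => ((A i : ℤ) * K - k).toNat := ⟨_, rfl⟩
  have hBe : ∀ i, (B i : ℤ) = A i * K - k := by
    intro i
    rw [hB]
    apply Int.toNat_of_nonneg
    have h2 : (1 : ℤ) ≤ A i := by exact_mod_cast hA1 i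
    nlinarith [hKk.1, hKk.2]
  have hval : ∀ (i : Fin 5) (n : ℕ), ((A i * n + B i : ℕ) : ℤ) + k = A i * (n + K : ℕ) := by
    intro i n
    push_cast
    rw [hBe]
    ring
  refine ⟨B, hval, ?_, ?_, ?_⟩
  · intro i
    refine Fin.lastCases ?_ (fun i => ?_) i
    · rw [Fin.snoc_last]
    · rw [Fin.snoc_castSucc]
      exact hA1 i
  · -- not proportional
    have h56 : ∀ i : Fin 5, A i * K ≠ 1 * B i := by
      intro i he
      have h2 : (A i : ℤ) * K = B i := by
        have : A i * K = B i := by rw [he, one_mul]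
        exact_mod_cast this
      rw [hBe] at h2
      exact hk (by linarith)
    have h55 : ∀ i j : Fin 5, i ≠ j → A i * B j ≠ A j * B i := by
      intro i j hij he
      have h2 : (A i : ℤ) * B j = A j * B i := by exact_mod_cast he
      rw [hBe, hBe] at h2
      have h3 : k * ((A i : ℤ) - A j) = 0 := by linear_combination -h2
      rcases mul_eq_zero.1 h3 with h4 | h4
      · exact hk h4
      · exact hij (hAin (by exact_mod_cast sub_eq_zero.1 h4))
    intro i j
    refine Fin.lastCases ?_ (fun i => ?_) i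
    · refine Fin.lastCases ?_ (fun j => ?_) j
      · intro h; exact absurd rfl h
      · intro _ he
        simp only [Fin.snoc_last, Fin.snoc_castSucc] at he
        exact h56 j he.symm
    · refine Fin.lastCases ?_ (fun j => ?_) j
      · intro _ he
        simp only [Fin.snoc_last, Fin.snoc_castSucc] at he
        exact h56 i he
      · intro hij he
        simp only [Fin.snoc_castSucc] at he
        exact h55 i j (fun h => hij (by rw [h])) he
  · -- local conditions
    intro p hp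
    have hp' : Prime (p : ℤ) := Nat.prime_iff_prime_int.1 hp
    -- reduce to a residue `m` of `n + K`
    suffices h : ∃ m : ℕ, ¬ p ∣ m ∧ ∀ i, ¬ (p : ℤ) ∣ A i * m - k by
      obtain ⟨m, hm1, hm2⟩ := h
      refine ⟨m + K * (p - 1), fun i => ?_⟩
      have h4 : m + K * (p - 1) + K = m + K * p := by
        have : p - 1 + 1 = p := by have := hp.one_lt; omega
        calc m + K * (p - 1) + K = m + K * (p - 1 + 1) := by ring
          _ = m + K * p := by rw [this]
      refine Fin.lastCases ?_ (fun i => ?_) i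
      · simp only [Fin.snoc_last, one_mul]
        rw [h4]
        intro hd
        exact hm1 ((Nat.dvd_add_left (Dvd.intro_left K rfl)).1 hd)
      · simp only [Fin.snoc_castSucc]
        intro hd
        apply hm2 i
        have h2 : (p : ℤ) ∣ ((A i * (m + K * (p - 1)) + B i : ℕ) : ℤ) := by exact_mod_cast hd
        have h3 := hval i (m + K * (p - 1))
        rw [h4] at h3
        have h5 : ((A i * (m + K * (p - 1)) + B i : ℕ) : ℤ) = (A i * m - k) + p * (A i * K) := by
          have : ((A i * (m + K * (p - 1)) + B i : ℕ) : ℤ) = A i * (m + K * p : ℕ) - k := by linarith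
          rw [this]
          push_cast
          ring
        rw [h5] at h2
        exact (dvd_add_left (Dvd.intro _ rfl)).1 h2
    by_cases hpk : (p : ℤ) ∣ k
    · refine ⟨1, fun h => hp.one_lt.ne' (Nat.dvd_one.1 h), fun i hd => ?_⟩
      rw [Nat.cast_one, mul_one] at hd
      have h5 : (p : ℤ) ∣ A i := by
        have := dvd_add hd hpk
        rwa [sub_add_cancel] at this
      obtain ⟨u, v, huv⟩ := hcop i
      have h6 : (p : ℤ) ∣ 1 := by
        rw [← huv]
        exact dvd_add (Dvd.dvd.mul_left h5 u) (Dvd.dvd.mul_left hpk v)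
      exact hp'.not_isUnit (isUnit_of_dvd_one h6)
    · obtain ⟨c, hc0, hc⟩ := hloc p hp hpk
      -- `m = k / c`
      have hcp : Nat.Coprime c p := ((Nat.Prime.coprime_iff_not_dvd hp).2 hc0).symm
      obtain ⟨d, hd⟩ := Nat.exists_mul_mod_eq_one_of_coprime hcp hp.one_lt
      have hcd : (p : ℤ) ∣ (c : ℤ) * d - 1 := by
        have h1 : c * d ≡ 1 [MOD p] := by
          unfold Nat.ModEq
          rw [hd.2, Nat.mod_eq_of_lt hp.one_lt]
        have h2 := (Nat.modEq_iff_dvd.1 h1.symm)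
        push_cast at h2
        exact h2
      have hp0 : (0 : ℤ) < p := by exact_mod_cast hp.pos
      refine ⟨(k * d % p).toNat, ?_, ?_⟩
      all_goals have e1 : (((k * d % p).toNat : ℕ) : ℤ) = k * d % p :=
        Int.toNat_of_nonneg (Int.emod_nonneg _ hp0.ne')
      all_goals have e2 : (p : ℤ) ∣ k * d - k * d % p := Int.dvd_self_sub_emod
      · intro h
        have h1 : (p : ℤ) ∣ (((k * d % p).toNat : ℕ) : ℤ) := by exact_mod_cast h
        rw [e1] at h1
        have h2 := dvd_add e2 h1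
        rw [sub_add_cancel] at h2
        rcases hp'.dvd_or_dvd h2 with h3 | h3
        · exact hpk h3
        · have h4 := dvd_sub (Dvd.dvd.mul_left h3 (c : ℤ)) hcd
          have e3 : (c : ℤ) * d - (c * d - 1) = 1 := by ring
          rw [e3] at h4
          exact hp'.not_isUnit (isUnit_of_dvd_one h4)
      · intro i h
        rw [e1] at h
        -- `A_i k d ≡ k`, so `A_i ≡ c`
        have h2 : (p : ℤ) ∣ A i * (k * d) - k := by
          have := dvd_add h (Dvd.dvd.mul_left e2 (A i : ℤ))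
          have e3 : (A i : ℤ) * (k * d % p) - k + A i * (k * d - k * d % p) = A i * (k * d) - k := by ring
          rwa [e3] at this
        have h3 : (p : ℤ) ∣ k * ((A i : ℤ) * d - 1) := by
          have e3 : (A i : ℤ) * (k * d) - k = k * (A i * d - 1) := by ring
          rwa [e3] at h2
        rcases hp'.dvd_or_dvd h3 with h4 | h4
        · exact hpk h4
        · have h5 : (p : ℤ) ∣ (c : ℤ) - A i := by
            have h6 := dvd_sub (Dvd.dvd.mul_left h4 (c : ℤ)) (Dvd.dvd.mul_left hcd (A i : ℤ))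
            have e3 : (c : ℤ) * (A i * d - 1) - A i * (c * d - 1) = A i - c := by ring
            rw [e3] at h6
            exact (dvd_sub_comm).1 h6
          exact hc i (Nat.modEq_iff_dvd.2 h5)

/-- images of narrow progressions under `n ↦ a n + b`, for large `n` -/
lemma Narrow.image' {S T : Set ℕ} (h : Narrow S) (a b N₀ : ℕ) (ha : 1 ≤ a)
    (hST : ∀ n ∈ S, N₀ ≤ n → a * n + b ∈ T) : Narrow T := by
  have h1 : Narrow (S ∩ {n | N₀ ≤ n}) := by
    intro l
    obtain ⟨Bd, hBd⟩ := h l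
    refine ⟨Bd, fun x₀ => ?_⟩
    obtain ⟨u, d, h2, h3, h4, h5⟩ := hBd (x₀ + N₀)
    exact ⟨u, d, by omega, h3, h4, fun i hi => ⟨h5 i hi, by
      have := Nat.le_add_right u (i * d)
      show N₀ ≤ u + i * d
      omega⟩⟩
  exact h1.image a b ha fun n hn => hST n hn.1 hn.2

/-- the Möbius function of `a n`, where `n` is a product of distinct large primes -/
lemma mu_mul {y : ℝ} {a n : ℕ} (ha1 : 1 ≤ a) (hay : (a : ℝ) ≤ y) (_hn0 : n ≠ 0) (hn : SF y n) {s : ℤ} {e : ℕ}
    (he : s = ArithmeticFunction.moebius a * (-1) ^ e) (hev : Even (Om n + e)) :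
    ArithmeticFunction.moebius (a * n) = s := by
  have hcop : Nat.Coprime a n := by
    apply Nat.coprime_of_dvd
    intro p hp h1 h2
    have h3 := hn.2 p hp h2
    have h4 : p ≤ a := Nat.le_of_dvd ha1 h1
    have h5 : (p : ℝ) ≤ a := by exact_mod_cast h4
    linarith
  rw [ArithmeticFunction.isMultiplicative_moebius.map_mul_of_coprime hcop, he,
    ArithmeticFunction.moebius_apply_of_squarefree hn.1]
  congr 1
  unfold Om at hev
  rcases Nat.even_or_odd e with h1 | h1
  · rw [h1.neg_one_pow]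
    have : Even (ArithmeticFunction.cardFactors n) := (Nat.even_add.1 hev).2 h1
    exact this.neg_one_pow
  · rw [h1.neg_one_pow]
    have : ¬ Even (ArithmeticFunction.cardFactors n) := fun h2 =>
      (Nat.not_even_iff_odd.2 h1) ((Nat.even_add.1 hev).1 h2)
    exact (Nat.not_even_iff_odd.1 this).neg_one_pow

/-- the Möbius function at `p + k` -/
theorem mu_shift : ∃ κ : ℝ, 0 < κ ∧ ∀ (k s : ℤ) (S : Finset ℕ), k ≠ 0 → (s = 1 ∨ s = -1) → 5 ≤ S.card →
    (∀ a ∈ S, 1 ≤ a ∧ Squarefree a ∧ IsCoprime (a : ℤ) k) →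
    (∀ a ∈ S, ∀ b ∈ S, ArithmeticFunction.moebius a = ArithmeticFunction.moebius b) →
    (∀ p : ℕ, p.Prime → ¬ (p : ℤ) ∣ k → ∃ c : ℕ, ¬ p ∣ c ∧ ∀ a ∈ S, ¬ a ≡ c [MOD p]) →
    (∃ c : ℝ, 0 < c ∧ ∀ᶠ X : ℝ in atTop, c * X / Real.log X ^ 6 ≤
      ({n : ℕ | (n : ℝ) ≤ X ∧ SF (X ^ κ) n ∧ ∃ a ∈ S, ∃ p : ℕ, p.Prime ∧ (p : ℤ) + k = a * n ∧
        (ArithmeticFunction.moebius (a * n) = s ∨
          ∃ b ∈ S, b ≠ a ∧ ∃ q : ℕ, q.Prime ∧ (q : ℤ) + k = b * n)}.ncard : ℝ)) ∧
    ((∃ a ∈ S, Narrow {p : ℕ | p.Prime ∧ ∃ n : ℕ, (p : ℤ) + k = a * n ∧ SF ((p : ℝ) ^ κ) n ∧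
        ArithmeticFunction.moebius (a * n) = s}) ∨
      ∃ a ∈ S, ∃ b ∈ S, a < b ∧ Narrow {n : ℕ | SF ((n : ℝ) ^ κ) n ∧ ∃ p q : ℕ, p.Prime ∧ q.Prime ∧
        (p : ℤ) + k = a * n ∧ (q : ℤ) + k = b * n}) := by
  classical
  obtain ⟨κ, hκ, h6⟩ := thm6
  refine ⟨κ / 2, by linarith, fun k s S hk hs hS hA hμ hloc => ?_⟩
  obtain ⟨T, hTS, hT⟩ := Finset.exists_subset_card_eq hS
  obtain ⟨A, hAd⟩ : ∃ A : Fin 5 → ℕ, A = fun i => T.orderEmbOfFin hT i := ⟨_, rfl⟩
  have hAT : ∀ i, A i ∈ S := fun i => by rw [hAd]; exact hTS (Finset.orderEmbOfFin_mem T hT i)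
  have hAin : Function.Injective A := by
    rw [hAd]
    exact (T.orderEmbOfFin hT).injective
  have hA1 : ∀ i, 1 ≤ A i := fun i => (hA _ (hAT i)).1
  obtain ⟨B, hval, hadm⟩ := shift_adm k hk A hA1 hAin
    (fun i => (hA _ (hAT i)).2.2) (fun p hp hpk => by
      obtain ⟨c, h1, h2⟩ := hloc p hp hpk
      exact ⟨c, h1, fun i => h2 _ (hAT i)⟩)
  obtain ⟨K, hK⟩ : ∃ K : ℕ, K = k.natAbs := ⟨_, rfl⟩
  rw [← hK] at hval hadm
  -- the sign
  obtain ⟨e, he⟩ : ∃ e : ℕ, ∀ i, s = ArithmeticFunction.moebius (A i) * (-1) ^ e := by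
    have h0 : ArithmeticFunction.moebius (A 0) = 1 ∨ ArithmeticFunction.moebius (A 0) = -1 := by
      rcases ArithmeticFunction.moebius_ne_zero_iff_eq_or.1
        (ArithmeticFunction.moebius_ne_zero_iff_squarefree.2 (hA _ (hAT 0)).2.1) with h | h
      · exact Or.inl h
      · exact Or.inr h
    have hall : ∀ i, ArithmeticFunction.moebius (A i) = ArithmeticFunction.moebius (A 0) := fun i =>
      hμ _ (hAT i) _ (hAT 0)
    rcases h0 with h0 | h0 <;> rcases hs with rfl | rfl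
    · exact ⟨0, fun i => by rw [hall, h0]; norm_num⟩
    · exact ⟨1, fun i => by rw [hall, h0]; norm_num⟩
    · exact ⟨1, fun i => by rw [hall, h0]; norm_num⟩
    · exact ⟨0, fun i => by rw [hall, h0]; norm_num⟩
  -- a bound for all the coefficients
  obtain ⟨Q, hQ⟩ : ∃ Q : ℕ, (∀ i, A i ≤ Q) ∧ ∀ i, B i ≤ Q :=
    ⟨univ.sup A + univ.sup B, fun i => (Finset.le_sup (f := A) (mem_univ i)).trans (Nat.le_add_right _ _),
      fun i => (Finset.le_sup (f := B) (mem_univ i)).trans (Nat.le_add_left _ _)⟩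
  obtain ⟨c, hc, hcX⟩ := h6 (Fin.snoc A 1) (Fin.snoc B K) hadm (Fin.last 5) e
  -- the forms at an index
  have hcast : ∀ (i : Fin 6), i ≠ Fin.last 5 → ∃ j : Fin 5, i = j.castSucc := by
    intro i hi
    exact ⟨i.castPred hi, by simp⟩
  have hform : ∀ (j : Fin 5) (n : ℕ), (Fin.snoc A 1 : Fin 6 → ℕ) j.castSucc * n +
      (Fin.snoc B K : Fin 6 → ℕ) j.castSucc = A j * n + B j := by
    intro j n
    rw [Fin.snoc_castSucc, Fin.snoc_castSucc]
  have hlast : ∀ n : ℕ, (Fin.snoc A 1 : Fin 6 → ℕ) (Fin.last 5) * n +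
      (Fin.snoc B K : Fin 6 → ℕ) (Fin.last 5) = n + K := by
    intro n
    rw [Fin.snoc_last, Fin.snoc_last, one_mul]
  refine ⟨?_, ?_⟩
  · refine ⟨c / 2, by linarith, ?_⟩
    have ht : Tendsto (fun X : ℝ => X - K) atTop atTop := tendsto_atTop_add_const_right _ _ tendsto_id
    have hp : Tendsto (fun X : ℝ => (X - K) ^ κ) atTop atTop := (tendsto_rpow_atTop hκ).comp ht
    filter_upwards [ht.eventually hcX, eventually_ge_atTop (4 * (K : ℝ) + 16),
      hp.eventually_ge_atTop (Q : ℝ)] with X hX hX1 hX2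
    have hK0 : (0 : ℝ) ≤ K := Nat.cast_nonneg _
    have hXK : (3 / 4) * X ≤ X - K := by linarith
    have hXp : 16 ≤ X := by linarith
    have hpw : X ^ (κ / 2) ≤ (X - K) ^ κ := by
      have h1 : X ≤ (X - K) ^ 2 := by nlinarith
      calc X ^ (κ / 2) ≤ ((X - K) ^ 2) ^ (κ / 2) := Real.rpow_le_rpow (by linarith) h1 (by linarith)
        _ = (X - K) ^ κ := by
            rw [← Real.rpow_natCast, ← Real.rpow_mul (by linarith)]
            congr 1
            push_cast
            ring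
    have hlog1 : 1 ≤ Real.log (X - K) := by
      rw [Real.le_log_iff_exp_le (by linarith)]
      have := Real.exp_one_lt_d9
      linarith
    have hlog2 : Real.log (X - K) ≤ Real.log X := Real.log_le_log (by linarith) (by linarith)
    have hlow : c / 2 * X / Real.log X ^ 6 ≤ c * (X - K) / Real.log (X - K) ^ 6 := by
      have h1 : c / 2 * X ≤ c * (X - K) := by nlinarith
      calc c / 2 * X / Real.log X ^ 6 ≤ c * (X - K) / Real.log X ^ 6 := by
            apply div_le_div_of_nonneg_right h1 (by positivity)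
        _ ≤ c * (X - K) / Real.log (X - K) ^ 6 := by
            apply div_le_div_of_nonneg_left
            · apply mul_nonneg hc.le; linarith
            · positivity
            · exact pow_le_pow_left₀ (by linarith) hlog2 _
    refine hlow.trans (hX.trans ?_)
    rw [Nat.cast_le]
    refine Set.ncard_le_ncard_of_injOn (fun n => n + K) ?_ ?_ ?_
    · rintro n ⟨hn1, hn2, hr, i, hi0, hip, hor⟩
      obtain ⟨j, rfl⟩ := hcast i hi0
      rw [hform] at hip
      have hrl := hr (Fin.last 5)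
      rw [hlast] at hrl hor
      refine ⟨?_, hrl.mono hpw, A j, hAT j, A j * n + B j, hip, hval j n, ?_⟩
      · push_cast
        linarith
      · rcases hor with hev | ⟨i', hi'0, hi'j, hi'p⟩
        · left
          refine mu_mul (hA1 j) (le_trans ?_ hX2) (by omega) hrl (he j) hev
          exact_mod_cast hQ.1 j
        · right
          obtain ⟨j', rfl⟩ := hcast i' hi'0
          rw [hform] at hi'p
          exact ⟨A j', hAT j', fun h => hi'j (by rw [hAin h]), _, hi'p, hval j' n⟩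
    · intro n _ n' _ h
      simpa using h
    · apply (Set.finite_Iic ⌊X⌋₊).subset
      rintro n ⟨hn, _⟩
      exact Nat.le_floor hn
  · -- narrow progressions
    have hlarge : ∃ N₀ : ℕ, ∀ n : ℕ, N₀ ≤ n → (Q : ℝ) ≤ (n : ℝ) ^ κ ∧ Q * n + Q ≤ n ^ 2 ∧
        n + K ≤ n ^ 2 ∧ 1 ≤ n := by
      have hp : Tendsto (fun n : ℕ => (n : ℝ) ^ κ) atTop atTop :=
        (tendsto_rpow_atTop hκ).comp tendsto_natCast_atTop_atTop
      obtain ⟨N, hN⟩ := Filter.eventually_atTop.1 (hp.eventually_ge_atTop (Q : ℝ))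
      refine ⟨N + Q + K + 2, fun n hn => ⟨hN n (by omega), ?_, ?_, by omega⟩⟩
      · nlinarith
      · nlinarith
    obtain ⟨N₀, hN₀⟩ := hlarge
    obtain ⟨q, hq⟩ := narrow_cover (by norm_num) (Fin.snoc A 1) (Fin.snoc B K) hadm hκ hc _ hcX
      (fun q : Fin 5 ⊕ {q : Fin 5 × Fin 5 // q.1 ≠ q.2} => match q with
        | Sum.inl j => {n : ℕ | SF ((n : ℝ) ^ κ) (n + K) ∧ (A j * n + B j).Prime ∧
            Even (Om (n + K) + e)}
        | Sum.inr ij => {n : ℕ | SF ((n : ℝ) ^ κ) (n + K) ∧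
            (A ij.1.1 * n + B ij.1.1).Prime ∧ (A ij.1.2 * n + B ij.1.2).Prime})
      (by
        rintro n hn1 hr ⟨i, hi0, hip, hor⟩
        have hrl := hr (Fin.last 5)
        rw [hlast] at hrl hor
        obtain ⟨j, rfl⟩ := hcast i hi0
        rw [hform] at hip
        rcases hor with hev | ⟨i', hi'0, hi'j, hi'p⟩
        · exact ⟨Sum.inl j, hrl, hip, hev⟩
        · obtain ⟨j', rfl⟩ := hcast i' hi'0
          rw [hform] at hi'p
          exact ⟨Sum.inr ⟨(j, j'), fun h => hi'j (congrArg Fin.castSucc (show j' = j from h.symm))⟩, hrl, hip, hi'p⟩)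
    rcases q with j | ⟨⟨i, j⟩, hij⟩
    · left
      refine ⟨A j, hAT j, hq.image' (A j) (B j) N₀ (hA1 j) ?_⟩
      rintro n ⟨hr, hp, hev⟩ hn
      obtain ⟨h1, h2, h3, h4⟩ := hN₀ n hn
      have hpk : ((A j * n + B j : ℕ) : ℝ) ^ (κ / 2) ≤ (n : ℝ) ^ κ := by
        apply pow_shift hκ
        refine le_trans ?_ h2
        exact Nat.add_le_add (Nat.mul_le_mul_right _ (hQ.1 j)) (hQ.2 j)
      refine ⟨hp, n + K, hval j n, hr.mono hpk, ?_⟩
      refine mu_mul (hA1 j) (le_trans ?_ h1) (by omega) hr (he j) hev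
      exact_mod_cast hQ.1 j
    · right
      have key : ∀ i j : Fin 5, A i < A j → Narrow {n : ℕ | SF ((n : ℝ) ^ κ) (n + K) ∧
          (A i * n + B i).Prime ∧ (A j * n + B j).Prime} → ∃ a ∈ S, ∃ b ∈ S, a < b ∧
          Narrow {n : ℕ | SF ((n : ℝ) ^ (κ / 2)) n ∧ ∃ p q : ℕ, p.Prime ∧ q.Prime ∧
            (p : ℤ) + k = a * n ∧ (q : ℤ) + k = b * n} := by
        intro i j hlt hN
        refine ⟨A i, hAT i, A j, hAT j, hlt, hN.image' 1 K N₀ le_rfl ?_⟩
        rintro n ⟨hr, hp, hq⟩ hn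
        obtain ⟨h1, h2, h3, h4⟩ := hN₀ n hn
        rw [one_mul]
        exact ⟨hr.mono (pow_shift hκ h3), _, _, hp, hq, hval i n, hval j n⟩
      rcases lt_or_gt_of_ne (fun he' => hij (hAin he')) with hlt | hlt
      · exact key i j hlt hq
      · exact key j i hlt (hq.mono fun n hn => ⟨hn.1, hn.2.2, hn.2.1⟩)

end Pool.Agent.J4H29
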