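import Mathlib
import Pool.Agent.J4H29.O14

set_option autoImplicit false

open Finset Filter

namespace Pool.Agent.J4H29

/-- `m` is a product of at most `R` distinct primes, all larger than `y` -/
def APr (y : ℝ) (R m : ℕ) : Prop := SF y m ∧ Om m ≤ R

/-- six linear forms, one prime value and another one with an odd number of prime factors -/
theorem sextuple : ∃ (κ : ℝ) (R : ℕ), 0 < κ ∧ ∀ A B : Fin 6 → ℕ, Adm A B →
    ∀ (t : Fin 6) (Q : Fin 6 → Fin 6 → Prop), (∀ i, i ≠ t → Q i t) → (∀ i j, i ≠ j → Q i j ∨ Q j i) →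
    (∃ c : ℝ, 0 < c ∧ ∀ᶠ X : ℝ in atTop, c * X / Real.log X ^ 6 ≤
      ({n : ℕ | 1 ≤ n ∧ (n : ℝ) ≤ X ∧ (∀ l, APr (X ^ κ) R (A l * n + B l)) ∧
        ∃ i j, Q i j ∧ (A i * n + B i).Prime ∧ Odd (Om (A j * n + B j))}.ncard : ℝ)) ∧
    ∃ i j, Q i j ∧ Narrow {n : ℕ | (∀ l, APr ((n : ℝ) ^ κ) R (A l * n + B l)) ∧
      (A i * n + B i).Prime ∧ Odd (Om (A j * n + B j))} := by
  classical
  obtain ⟨κ, hκ, h⟩ := thm6
  refine ⟨κ, ⌊2 / κ⌋₊, hκ, fun A B hadm t Q hQ1 hQ2 => ?_⟩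
  obtain ⟨c, hc, hcX⟩ := h A B hadm t 1
  have hodd : ∀ m : ℕ, m.Prime → Odd (Om m) := by
    intro m hm
    unfold Om
    rw [ArithmeticFunction.cardFactors_apply_prime hm]
    exact odd_one
  have key : ∀ n : ℕ, (∃ i, i ≠ t ∧ (A i * n + B i).Prime ∧
          (Even (Om (A t * n + B t) + 1) ∨ ∃ j, j ≠ t ∧ j ≠ i ∧ (A j * n + B j).Prime)) →
      ∃ i j, Q i j ∧ (A i * n + B i).Prime ∧ Odd (Om (A j * n + B j)) := by
    rintro n ⟨i, hi0, hip, hor⟩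
    rcases hor with h1 | ⟨j, hj0, hji, hjp⟩
    · refine ⟨i, t, hQ1 i hi0, hip, ?_⟩
      rw [← Nat.not_even_iff_odd]
      intro h2
      rw [Nat.even_add_one] at h1
      exact h1 h2
    · rcases hQ2 i j hji.symm with hq | hq
      · exact ⟨i, j, hq, hip, hodd _ hjp⟩
      · exact ⟨j, i, hq, hjp, hodd _ hip⟩
  -- a common bound of the coefficients
  obtain ⟨C, hC⟩ : ∃ C : ℕ, ∀ l, A l + B l ≤ C :=
    ⟨∑ l, (A l + B l), fun l => Finset.single_le_sum (f := fun l => A l + B l) (fun _ _ => Nat.zero_le _)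
      (Finset.mem_univ l)⟩
  have hval : ∀ l, ∀ n : ℕ, 1 ≤ n → A l * n + B l ≤ C * n := by
    intro l n hn
    have := hC l
    nlinarith
  refine ⟨⟨c, hc, ?_⟩, ?_⟩
  · filter_upwards [hcX, eventually_ge_atTop ((C : ℝ) + 2)] with X hX hX2
    refine hX.trans ?_
    rw [Nat.cast_le]
    apply Set.ncard_le_ncard
    · rintro n ⟨hn1, hn2, hr, hP⟩
      refine ⟨hn1, hn2, fun l => ⟨hr l, ?_⟩, key n hP⟩
      have hC0 : (0 : ℝ) ≤ C := Nat.cast_nonneg _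
      have h1 : ((A l * n + B l : ℕ) : ℝ) ≤ C * n := by exact_mod_cast hval l n hn1
      refine Om_le hκ (by linarith) (by have := hadm.1 l; positivity) ?_ (hr l)
      nlinarith
    · apply (Set.finite_Icc 1 ⌊X⌋₊).subset
      intro n hn
      exact ⟨hn.1, Nat.le_floor hn.2.1⟩
  · obtain ⟨⟨⟨i, j⟩, hij⟩, hN⟩ := narrow_cover (by norm_num) A B hadm hκ hc _ hcX
      (fun q : {q : Fin 6 × Fin 6 // Q q.1 q.2} =>
        {n : ℕ | (∀ l, SF ((n : ℝ) ^ κ) (A l * n + B l)) ∧ (A q.1.1 * n + B q.1.1).Prime ∧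
          Odd (Om (A q.1.2 * n + B q.1.2))})
      (by
        rintro n hn1 hr hP
        obtain ⟨i, j, hq, h1, h2⟩ := key n hP
        exact ⟨⟨(i, j), hq⟩, hr, h1, h2⟩)
    refine ⟨i, j, hij, hN.image' 1 0 (C + 2) le_rfl ?_⟩
    rintro n ⟨hr, h1, h2⟩ hn
    rw [one_mul, add_zero]
    refine ⟨fun l => ⟨hr l, ?_⟩, h1, h2⟩
    have hn1 : 1 ≤ n := by omega
    refine Om_le hκ (x := (n : ℝ)) ?_ (by have := hadm.1 l; positivity) ?_ (hr l)
    · have : 1 < n := by omega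
      exact_mod_cast this
    · have h3 : A l * n + B l ≤ n ^ 2 := (hval l n hn1).trans (by nlinarith)
      exact_mod_cast h3

end Pool.Agent.J4H29
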