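import Mathlib
import Pool.Agent.J4H29.G3
import Pool.Agent.J4H29.O16

/-! helper29: primes against parity conditions: the theorem. -/

set_option autoImplicit false

open Finset Filter

namespace Pool.Agent.J4H29

open Pool.Agent.H95R2.BG.LF (AdmissibleL)
open Pool.Agent.X34.E (RoughL)
open Pool.Agent.N728.QG (lam)

open Classical in
/-- the violated parity conditions -/
noncomputable def viol {s : ℕ} (α β e : Fin s → ℕ) (n : ℕ) : Finset (Fin s) :=
  univ.filter fun t => ¬ Even (Om (α t * n + β t) + e t)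

open Classical in
/-- the indices below `k` of the prime values -/
noncomputable def prim {J : ℕ} (k : ℕ) (A B : Fin J → ℕ) (n : ℕ) : Finset (Fin J) :=
  univ.filter fun i => i.val < k ∧ (A i * n + B i).Prime

open Classical in
/-- the counting theorem with rough values -/
theorem trade_rough {k r s : ℕ} (h : Enough k r s) (J : ℕ) (hJ : k ≤ J) : ∃ κ : ℝ, 0 < κ ∧ ∀ A B : Fin J → ℕ,
    Adm A B → ∀ α β e : Fin s → ℕ, (∀ t, 1 ≤ α t) →
    ∃ c : ℝ, 0 < c ∧ ∀ᶠ X : ℝ in atTop, c * X / Real.log X ^ J ≤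
      (((Icc 1 ⌊X⌋₊).filter (fun n : ℕ => (∀ i, Rough (X ^ κ) (A i * n + B i)) ∧
        r + (viol α β e n).card ≤ (prim k A B n).card)).card : ℝ) := by
  obtain ⟨hk1, hr, hcrt⟩ := crt_enough h
  obtain _ | J0 := J
  · omega
  obtain ⟨N1, M, F, h1, h2, h3, h4, h5⟩ := hcrt J0 hJ 0
  rw [add_zero] at h5
  obtain ⟨κ, hκ, hκ2⟩ := critt (K0 := J0) h1 (by omega) F h4 (firstK (J0 + 1) k) r s hr h5
  refine ⟨κ / 2, by positivity, ?_⟩
  intro A B hadm α β e hα
  -- the common factors of the further forms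
  have hg1 : ∀ t, 1 ≤ Nat.gcd (α t) (β t) := fun t => Nat.gcd_pos_of_pos_left _ (hα t)
  choose α' hα' using fun t => Nat.gcd_dvd_left (α t) (β t)
  choose β' hβ' using fun t => Nat.gcd_dvd_right (α t) (β t)
  have hα1 : ∀ t, 1 ≤ α' t := by
    intro t
    rcases Nat.eq_zero_or_pos (α' t) with h | h
    · have h6 := hα' t
      rw [h, mul_zero] at h6
      have := hα t
      omega
    · exact h
  have hcop : ∀ t, (α' t).Coprime (β' t) := by
    intro t
    have h6 : Nat.gcd (α t) (β t) * Nat.gcd (α' t) (β' t) = Nat.gcd (α t) (β t) := by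
      rw [← Nat.gcd_mul_left, ← hα' t, ← hβ' t]
    exact Nat.eq_of_mul_eq_mul_left (hg1 t) (by rw [h6, mul_one])
  obtain ⟨c, hc, hcX⟩ := hκ2 A B hadm α' β' hα1 hcop (fun t => (-1) ^ (e t + Om (Nat.gcd (α t) (β t))))
    (fun t => neg_one_pow_eq_or ℝ _)
  refine ⟨c / 3, by positivity, ?_⟩
  filter_upwards [count_scale hc (J0 + 1) _ hcX, eventually_ge_atTop 9] with X hX hX9
  refine hX.trans ?_
  have hsub : goodT κ r (fun t => (-1 : ℝ) ^ (e t + Om (Nat.gcd (α t) (β t)))) (firstK (J0 + 1) k) A B α' β' (X / 3) ⊆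
      (Icc 1 ⌊X⌋₊).filter (fun n : ℕ => (∀ i, Rough (X ^ (κ / 2)) (A i * n + B i)) ∧
        r + (viol α β e n).card ≤ (prim k A B n).card) := by
    intro n hn
    unfold goodT at hn
    rw [Finset.mem_filter, Finset.mem_Icc] at hn
    have h6 : 3 * (X / 3) = X := by ring
    rw [h6] at hn
    rw [Finset.mem_filter, Finset.mem_Icc]
    refine ⟨hn.1, fun i => rough_of hκ hX9 hn.2.2.1 i, ?_⟩
    have h7 : (firstK (J0 + 1) k).filter (fun i => (A i * n + B i).Prime) = prim k A B n := by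
      unfold firstK prim
      rw [Finset.filter_filter]
    have h8 : (univ.filter fun t => lam ((α' t * n + β' t : ℕ) : ℤ) ≠
        (-1 : ℝ) ^ (e t + Om (Nat.gcd (α t) (β t)))) = viol α β e n := by
      unfold viol
      refine Finset.filter_congr fun t _ => ?_
      rw [ne_eq, not_iff_not]
      have hne : α' t * n + β' t ≠ 0 := by
        have := Nat.mul_pos (hα1 t) hn.1.1
        omega
      rw [lam_parity hne]
      have h9 : α t * n + β t = Nat.gcd (α t) (β t) * (α' t * n + β' t) := by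
        rw [mul_add, ← mul_assoc, ← hα' t, ← hβ' t]
      have h10 : Om (α t * n + β t) = Om (Nat.gcd (α t) (β t)) + Om (α' t * n + β' t) := by
        rw [h9]
        unfold Om
        exact ArithmeticFunction.cardFactors_mul (by have := hg1 t; omega) hne
      rw [h10]
      have h11 : Om (Nat.gcd (α t) (β t)) + Om (α' t * n + β' t) + e t =
          Om (α' t * n + β' t) + (e t + Om (Nat.gcd (α t) (β t))) := by ring
      rw [h11]
    have h12 := hn.2.2.2
    rw [h7] at h12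
    have h13 : (univ.filter fun t => lam ((α' t * n + β' t : ℕ) : ℤ) ≠
        (-1 : ℝ) ^ (e t + Om (Nat.gcd (α t) (β t)))).card = (viol α β e n).card := by rw [h8]
    calc r + (viol α β e n).card = r + (univ.filter fun t => lam ((α' t * n + β' t : ℕ) : ℤ) ≠
        (-1 : ℝ) ^ (e t + Om (Nat.gcd (α t) (β t)))).card := by rw [h13]
      _ ≤ _ := by convert h12
  exact_mod_cast Finset.card_le_card hsub

/-- **Primes against parity conditions.** -/
theorem trade {k r s : ℕ} (h : Enough k r s) (J : ℕ) (hJ : k ≤ J) : ∃ (κ : ℝ) (R : ℕ), 0 < κ ∧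
    ∀ A B : Fin J → ℕ, Adm A B → ∀ α β e : Fin s → ℕ, (∀ t, 1 ≤ α t) →
    (∃ c : ℝ, 0 < c ∧ ∀ᶠ X : ℝ in atTop, c * X / Real.log X ^ J ≤
      ({n : ℕ | 1 ≤ n ∧ (n : ℝ) ≤ X ∧ (∀ l, APr (X ^ κ) R (A l * n + B l)) ∧
        r + (viol α β e n).card ≤ (prim k A B n).card}.ncard : ℝ)) ∧
    ∃ (P : Finset (Fin J)) (V : Finset (Fin s)), r + V.card ≤ P.card ∧
      Narrow {n : ℕ | (∀ l, APr ((n : ℝ) ^ κ) R (A l * n + B l)) ∧ viol α β e n = V ∧ prim k A B n = P} := by
  classical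
  obtain ⟨κ, hκ, ht⟩ := trade_rough h J hJ
  have hJ0 : 0 < J := by
    have := (crt_enough h).1
    omega
  refine ⟨κ, ⌊2 / κ⌋₊, hκ, fun A B hadm α β e hα => ?_⟩
  obtain ⟨c, hc, hcX⟩ := sq_version κ hκ A B hadm.1 (fun n => r + (viol α β e n).card ≤ (prim k A B n).card) J
    (by convert ht A B hadm α β e hα)
  -- a common bound of the coefficients
  obtain ⟨C, hC⟩ : ∃ C : ℕ, ∀ l, A l + B l ≤ C :=
    ⟨∑ l, (A l + B l), fun l => Finset.single_le_sum (f := fun l => A l + B l) (fun _ _ => Nat.zero_le _)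
      (Finset.mem_univ l)⟩
  have hval : ∀ l, ∀ n : ℕ, 1 ≤ n → A l * n + B l ≤ C * n := by
    intro l n hn
    have := hC l
    nlinarith
  have hcX' : ∀ᶠ X : ℝ in atTop, c * X / Real.log X ^ J ≤
      ({n : ℕ | 1 ≤ n ∧ (n : ℝ) ≤ X ∧ (∀ l, SF (X ^ κ) (A l * n + B l)) ∧
        r + (viol α β e n).card ≤ (prim k A B n).card}.ncard : ℝ) := by
    filter_upwards [hcX, eventually_ge_atTop 1] with X hX hX1
    refine hX.trans ?_
    rw [Nat.cast_le, ← Set.ncard_coe_finset]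
    apply Set.ncard_le_ncard
    · intro n hn
      simp only [Finset.coe_filter, Finset.mem_Icc, Set.mem_setOf_eq] at hn
      exact ⟨hn.1.1, (Nat.le_floor_iff (by linarith)).1 hn.1.2, fun i => ⟨(hn.2.1 i).2, (hn.2.1 i).1⟩, hn.2.2⟩
    · apply (Set.finite_Icc 1 ⌊X⌋₊).subset
      intro n hn
      exact ⟨hn.1, Nat.le_floor hn.2.1⟩
  refine ⟨⟨c, hc, ?_⟩, ?_⟩
  · filter_upwards [hcX', eventually_ge_atTop ((C : ℝ) + 2)] with X hX hX2
    refine hX.trans ?_
    rw [Nat.cast_le]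
    apply Set.ncard_le_ncard
    · rintro n ⟨hn1, hn2, hr, hP⟩
      refine ⟨hn1, hn2, fun l => ⟨hr l, ?_⟩, hP⟩
      have hC0 : (0 : ℝ) ≤ C := Nat.cast_nonneg _
      have h1 : ((A l * n + B l : ℕ) : ℝ) ≤ C * n := by exact_mod_cast hval l n hn1
      refine Om_le hκ (by linarith) (by have := hadm.1 l; positivity) ?_ (hr l)
      nlinarith
    · apply (Set.finite_Icc 1 ⌊X⌋₊).subset
      intro n hn
      exact ⟨hn.1, Nat.le_floor hn.2.1⟩
  · obtain ⟨⟨⟨P, V⟩, hPV⟩, hN⟩ := narrow_cover hJ0 A B hadm hκ hc _ hcX'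
      (fun q : {q : Finset (Fin J) × Finset (Fin s) // r + q.2.card ≤ q.1.card} =>
        {n : ℕ | (∀ l, SF ((n : ℝ) ^ κ) (A l * n + B l)) ∧ viol α β e n = q.1.2 ∧ prim k A B n = q.1.1})
      (by
        rintro n hn1 hr hP
        exact ⟨⟨(prim k A B n, viol α β e n), hP⟩, hr, rfl, rfl⟩)
    refine ⟨P, V, hPV, hN.image' 1 0 (C + 2) le_rfl ?_⟩
    rintro n ⟨hr, h1, h2⟩ hn
    rw [one_mul, add_zero]
    refine ⟨fun l => ⟨hr l, ?_⟩, h1, h2⟩
    have hn1 : 1 ≤ n := by omega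
    refine Om_le hκ (x := (n : ℝ)) ?_ (by have := hadm.1 l; positivity) ?_ (hr l)
    · have : 1 < n := by omega
      exact_mod_cast this
    · have h3 : A l * n + B l ≤ n ^ 2 := (hval l n hn1).trans (by nlinarith)
      exact_mod_cast h3

end Pool.Agent.J4H29
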