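import Mathlib
import Pool.Agent.J4H29.G4

/-! helper29: six forms, windows `(N, 3N]`. -/

set_option autoImplicit false

open Finset Filter

namespace Pool.Agent.J4H29

open Pool.Agent.H95R2.BG.LF (AdmissibleL)
open Pool.Agent.X34.E (RoughL)
open Pool.Agent.N728.QG (lam)

open Classical in
/-- six forms: in every window `(N, 3N]` a prime value and a later value with an odd number of prime factors -/
theorem window_rough : ∃ κ : ℝ, 0 < κ ∧ ∀ A B : Fin 6 → ℕ, Adm A B →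
    ∃ c : ℝ, 0 < c ∧ ∀ᶠ N : ℝ in atTop, c * N / Real.log N ^ 6 ≤
      (((Icc 1 ⌊3 * N⌋₊).filter (fun n : ℕ => N < n ∧ (∀ l, Rough (N ^ κ) (A l * n + B l)) ∧
        ∃ i j, i < j ∧ (A i * n + B i).Prime ∧ Odd (Om (A j * n + B j)))).card : ℝ) := by
  have hE : Enough 5 1 1 := Or.inl ⟨le_rfl, rfl, le_rfl⟩
  obtain ⟨hk1, hr, hcrt⟩ := crt_enough hE
  obtain ⟨N1, M, F, h1, h2, h3, h4, h5⟩ := hcrt 5 (by norm_num) 0
  rw [add_zero] at h5
  obtain ⟨κ, hκ, hκ2⟩ := critt (K0 := 5) h1 (by omega) F h4 (firstK (5 + 1) 5) 1 1 le_rfl h5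
  refine ⟨κ, hκ, ?_⟩
  intro A B hadm
  obtain ⟨g, hg⟩ : ∃ g : ℕ, g = Nat.gcd (A 5) (B 5) := ⟨_, rfl⟩
  have hA5 : 1 ≤ A 5 := hadm.1 5
  have hg1 : 1 ≤ g := by rw [hg]; exact Nat.gcd_pos_of_pos_left _ hA5
  obtain ⟨α', hα'⟩ : g ∣ A 5 := by rw [hg]; exact Nat.gcd_dvd_left _ _
  obtain ⟨β', hβ'⟩ : g ∣ B 5 := by rw [hg]; exact Nat.gcd_dvd_right _ _
  have hα1 : 1 ≤ α' := by
    rcases Nat.eq_zero_or_pos α' with h | h
    · rw [h, mul_zero] at hα'
      omega
    · exact h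
  have hcop : α'.Coprime β' := by
    have h6 : g * Nat.gcd α' β' = g := by
      rw [← Nat.gcd_mul_left, ← hα', ← hβ', hg]
    have h7 : g * Nat.gcd α' β' = g * 1 := by rw [h6, mul_one]
    exact Nat.eq_of_mul_eq_mul_left hg1 h7
  obtain ⟨c, hc, hcX⟩ := hκ2 A B hadm (fun _ => α') (fun _ => β') (fun _ => hα1) (fun _ => hcop)
    (fun _ => (-1) ^ (1 + Om g)) (fun t => neg_one_pow_eq_or ℝ _)
  refine ⟨c, hc, ?_⟩
  filter_upwards [hcX] with N hN
  refine hN.trans ?_
  have hsub : goodT κ 1 (fun _ : Fin 1 => (-1 : ℝ) ^ (1 + Om g)) (firstK (5 + 1) 5) A B (fun _ => α')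
      (fun _ => β') N ⊆ (Icc 1 ⌊3 * N⌋₊).filter (fun n : ℕ => N < n ∧ (∀ l, Rough (N ^ κ) (A l * n + B l)) ∧
        ∃ i j, i < j ∧ (A i * n + B i).Prime ∧ Odd (Om (A j * n + B j))) := by
    intro n hn
    unfold goodT at hn
    rw [Finset.mem_filter] at hn
    rw [Finset.mem_filter]
    obtain ⟨hn1, hn2, hn3, hn4⟩ := hn
    refine ⟨hn1, hn2, ?_, ?_⟩
    · intro i p hp hpd
      by_contra hcon
      push Not at hcon
      exact hn3 i p hp hcon hpd
    · have hn0 : 1 ≤ n := (Finset.mem_Icc.1 hn1).1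
      have hne : α' * n + β' ≠ 0 := by
        have := Nat.mul_pos hα1 hn0
        omega
      have h9 : A 5 * n + B 5 = g * (α' * n + β') := by
        rw [mul_add, ← mul_assoc, ← hα', ← hβ']
      have h10 : Om (A 5 * n + B 5) = Om g + Om (α' * n + β') := by
        rw [h9]
        unfold Om
        exact ArithmeticFunction.cardFactors_mul (by omega) hne
      by_cases hodd : Odd (Om (A 5 * n + B 5))
      · have h11 := le_trans (Nat.le_add_right 1 _) hn4
        obtain ⟨i, hi⟩ := Finset.card_pos.1 (Nat.lt_of_lt_of_le Nat.zero_lt_one h11)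
        rw [Finset.mem_filter] at hi
        refine ⟨i, 5, ?_, hi.2, hodd⟩
        have h12 := hi.1
        unfold firstK at h12
        rw [Finset.mem_filter] at h12
        exact h12.2
      · have h11 : (univ.filter fun t : Fin 1 => lam (((fun _ : Fin 1 => α') t * n + (fun _ : Fin 1 => β') t : ℕ) : ℤ) ≠
            (fun _ : Fin 1 => (-1 : ℝ) ^ (1 + Om g)) t).card = 1 := by
          rw [Finset.card_eq_one]
          refine ⟨0, ?_⟩
          ext t
          simp only [Finset.mem_filter, Finset.mem_univ, true_and, Finset.mem_singleton]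
          constructor
          · intro _
            exact Subsingleton.elim _ _
          · intro _ hlam
            rw [lam_parity hne] at hlam
            rw [Nat.not_odd_iff_even] at hodd
            rw [h10] at hodd
            have h13 : Om (α' * n + β') + (1 + Om g) = (Om g + Om (α' * n + β')) + 1 := by ring
            rw [h13, Nat.even_add_one] at hlam
            exact hlam hodd
        have h15 := hn4
        rw [show (univ.filter fun t : Fin 1 => lam (((fun _ : Fin 1 => α') t * n + (fun _ : Fin 1 => β') t : ℕ) : ℤ) ≠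
            (fun _ : Fin 1 => (-1 : ℝ) ^ (1 + Om g)) t).card = 1 from h11] at h15
        obtain ⟨i, hi, j, hj, hij⟩ := Finset.one_lt_card.1 (show 1 < _ from h15)
        rw [Finset.mem_filter] at hi hj
        have hodd' : ∀ m : ℕ, m.Prime → Odd (Om m) := by
          intro m hm
          unfold Om
          rw [ArithmeticFunction.cardFactors_apply_prime hm]
          exact odd_one
        rcases lt_or_gt_of_ne hij with h | h
        · exact ⟨i, j, h, hi.2, hodd' _ hj.2⟩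
        · exact ⟨j, i, h, hj.2, hodd' _ hi.2⟩
  exact_mod_cast Finset.card_le_card hsub

open Classical in
/-- the version with squarefree values, for the windows -/
theorem sq_window {J : ℕ} (κ : ℝ) (hκ : 0 < κ) (A B : Fin J → ℕ) (hA : ∀ i, 1 ≤ A i) (P : ℕ → Prop) (k : ℕ)
    (h : ∃ c : ℝ, 0 < c ∧ ∀ᶠ X : ℝ in atTop, c * X / Real.log X ^ k ≤
      (((Icc 1 ⌊3 * X⌋₊).filter (fun n : ℕ => X < n ∧ (∀ i, Rough (X ^ κ) (A i * n + B i)) ∧ P n)).card : ℝ)) :
    ∃ c : ℝ, 0 < c ∧ ∀ᶠ X : ℝ in atTop, c * X / Real.log X ^ k ≤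
      (((Icc 1 ⌊3 * X⌋₊).filter (fun n : ℕ => X < n ∧ (∀ i, SF (X ^ κ) (A i * n + B i)) ∧
        P n)).card : ℝ) := by
  obtain ⟨c, hc, hcX⟩ := h
  refine ⟨c / 2, by positivity, ?_⟩
  set Ct : ℝ := ∑ i, ((A i : ℝ) + B i) with hCt
  have hCt0 : 0 ≤ Ct := Finset.sum_nonneg fun i _ => by positivity
  have hκ2 : 0 < κ / 2 := by positivity
  have e1 := (isLittleO_log_rpow_rpow_atTop (k : ℝ) hκ2).bound
    (by positivity : (0 : ℝ) < c / (12 * (Ct + 1)))
  filter_upwards [hcX, e1, (tendsto_rpow_atTop hκ2).eventually_ge_atTop 2, eventually_ge_atTop 3] with X h1 h2 h3 hX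
  have hX0 : 0 < X := by linarith
  have hX3 : 1 ≤ 3 * X := by linarith
  have hl : 0 < Real.log X := Real.log_pos (by linarith)
  rw [Real.norm_of_nonneg (by positivity), Real.norm_of_nonneg (by positivity), Real.rpow_natCast] at h2
  have h3X : (3 * X) ^ (κ / 2) ≤ X ^ κ := by
    have h4 : 3 * X ≤ X ^ (2 : ℝ) := by
      rw [show (2 : ℝ) = ((2 : ℕ) : ℝ) by norm_num, Real.rpow_natCast]
      nlinarith
    calc (3 * X) ^ (κ / 2) ≤ (X ^ (2 : ℝ)) ^ (κ / 2) := Real.rpow_le_rpow (by positivity) h4 hκ2.le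
      _ = X ^ κ := by
        rw [← Real.rpow_mul hX0.le]
        congr 1
        ring
  have h33 : X ^ (κ / 2) ≤ (3 * X) ^ (κ / 2) := Real.rpow_le_rpow hX0.le (by linarith) hκ2.le
  have hY : 1 ≤ ⌊(3 * X) ^ (κ / 2)⌋₊ := Nat.le_floor (by push_cast; linarith)
  have hY2 : X ^ (κ / 2) / 2 ≤ (⌊(3 * X) ^ (κ / 2)⌋₊ : ℝ) := by
    have := Nat.lt_floor_add_one ((3 * X) ^ (κ / 2))
    linarith
  set G := (Icc 1 ⌊3 * X⌋₊).filter (fun n : ℕ => X < n ∧ (∀ i, Rough (X ^ κ) (A i * n + B i)) ∧ P n) with hG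
  set G' := (Icc 1 ⌊3 * X⌋₊).filter (fun n : ℕ => X < n ∧ (∀ i, SF (X ^ κ) (A i * n + B i)) ∧ P n) with hG'
  have hsub : G ⊆ G' ∪ (univ : Finset (Fin J)).biUnion (fun i => G.filter (fun n => ¬ Squarefree (A i * n + B i))) := by
    intro n hn
    by_cases hs : ∀ i, Squarefree (A i * n + B i)
    · apply Finset.mem_union_left
      rw [hG, Finset.mem_filter] at hn
      rw [hG', Finset.mem_filter]
      exact ⟨hn.1, hn.2.1, fun i => ⟨hs i, hn.2.2.1 i⟩, hn.2.2.2⟩
    · push Not at hs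
      obtain ⟨i, hi⟩ := hs
      apply Finset.mem_union_right
      exact Finset.mem_biUnion.2 ⟨i, mem_univ _, Finset.mem_filter.2 ⟨hn, hi⟩⟩
  have h4 : (G.card : ℝ) ≤ G'.card + ∑ i, ((G.filter (fun n => ¬ Squarefree (A i * n + B i))).card : ℝ) := by
    have := (Finset.card_le_card hsub).trans ((Finset.card_union_le _ _).trans
      (Nat.add_le_add_left Finset.card_biUnion_le _))
    exact_mod_cast this
  have h5 : ∀ i, ((G.filter (fun n => ¬ Squarefree (A i * n + B i))).card : ℝ) ≤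
      (A i + B i) * (3 * X) * (1 / (⌊(3 * X) ^ (κ / 2)⌋₊ : ℝ)) := by
    intro i
    apply nonsq_count (κ / 2) (A i) (B i) (hA i) (3 * X) hX3 hY
    intro n hn
    rw [Finset.mem_filter, hG, Finset.mem_filter, Finset.mem_Icc] at hn
    refine ⟨hn.1.1.1, (Nat.le_floor_iff (by linarith)).1 hn.1.1.2, ?_, hn.2⟩
    intro p hp hpd
    exact h3X.trans_lt (hn.1.2.2.1 i p hp hpd)
  have h6 : ∑ i, ((G.filter (fun n => ¬ Squarefree (A i * n + B i))).card : ℝ) ≤ c / 2 * X / Real.log X ^ k := by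
    calc _ ≤ ∑ i, ((A i : ℝ) + B i) * (3 * X) * (1 / (⌊(3 * X) ^ (κ / 2)⌋₊ : ℝ)) :=
          Finset.sum_le_sum fun i _ => h5 i
      _ = Ct * (3 * X) * (1 / (⌊(3 * X) ^ (κ / 2)⌋₊ : ℝ)) := by rw [← Finset.sum_mul, ← Finset.sum_mul]
      _ ≤ Ct * (3 * X) * (1 / (X ^ (κ / 2) / 2)) := by
          apply mul_le_mul_of_nonneg_left _ (by positivity)
          exact one_div_le_one_div_of_le (by positivity) hY2
      _ = 6 * Ct * X / X ^ (κ / 2) := by field_simp; ring
      _ ≤ c / 2 * X / Real.log X ^ k := by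
          rw [div_le_div_iff₀ (by positivity) (by positivity)]
          have h7 : 12 * (Ct + 1) * Real.log X ^ k ≤ c * X ^ (κ / 2) := by
            have h8 := mul_le_mul_of_nonneg_left h2 (show 0 ≤ 12 * (Ct + 1) by positivity)
            have h9 : 12 * (Ct + 1) * (c / (12 * (Ct + 1)) * X ^ (κ / 2)) = c * X ^ (κ / 2) := by field_simp
            linarith
          have h10 : 0 < Real.log X ^ k := by positivity
          nlinarith
  have h11 : c * X / Real.log X ^ k = c / 2 * X / Real.log X ^ k + c / 2 * X / Real.log X ^ k := by ring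
  linarith

/-- six forms: in every window `(N, 3N]` a prime value and a later value which is a product of an odd number
of distinct large primes; the indices may depend on the window -/
theorem window6 : ∃ (κ : ℝ) (R : ℕ), 0 < κ ∧ ∀ A B : Fin 6 → ℕ, Adm A B →
    ∃ c : ℝ, 0 < c ∧ ∀ᶠ N : ℝ in atTop, ∃ i j : Fin 6, i < j ∧ c * N / Real.log N ^ 6 ≤
      ({n : ℕ | N < n ∧ (n : ℝ) ≤ 3 * N ∧ (A i * n + B i).Prime ∧ APr (N ^ κ) R (A j * n + B j) ∧
        Odd (Om (A j * n + B j))}.ncard : ℝ) := by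
  classical
  obtain ⟨κ, hκ, h⟩ := window_rough
  refine ⟨κ, ⌊2 / κ⌋₊, hκ, fun A B hadm => ?_⟩
  obtain ⟨c, hc, hcX⟩ := sq_window κ hκ A B hadm.1
    (fun n => ∃ i j, i < j ∧ (A i * n + B i).Prime ∧ Odd (Om (A j * n + B j))) 6 (by convert h A B hadm)
  refine ⟨c / 36, by positivity, ?_⟩
  obtain ⟨C, hC⟩ : ∃ C : ℕ, ∀ l, A l + B l ≤ C :=
    ⟨∑ l, (A l + B l), fun l => Finset.single_le_sum (f := fun l => A l + B l) (fun _ _ => Nat.zero_le _)
      (Finset.mem_univ l)⟩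
  filter_upwards [hcX, eventually_ge_atTop ((3 * C : ℝ) + 3)] with N hN hN2
  have hC0 : (0 : ℝ) ≤ C := Nat.cast_nonneg _
  have hN0 : 0 < N := by linarith
  -- the sets
  set T : Fin 6 × Fin 6 → Finset ℕ := fun q => (Icc 1 ⌊3 * N⌋₊).filter (fun n : ℕ => N < n ∧
    (A q.1 * n + B q.1).Prime ∧ APr (N ^ κ) (⌊2 / κ⌋₊) (A q.2 * n + B q.2) ∧ Odd (Om (A q.2 * n + B q.2))) with hT
  have hsub : (Icc 1 ⌊3 * N⌋₊).filter (fun n : ℕ => N < n ∧ (∀ i, SF (N ^ κ) (A i * n + B i)) ∧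
        ∃ i j, i < j ∧ (A i * n + B i).Prime ∧ Odd (Om (A j * n + B j))) ⊆
      ((univ : Finset (Fin 6 × Fin 6)).filter fun q => q.1 < q.2).biUnion T := by
    intro n hn
    rw [Finset.mem_filter] at hn
    obtain ⟨hn1, hn2, hn3, i, j, hij, hp, ho⟩ := hn
    rw [Finset.mem_biUnion]
    refine ⟨(i, j), by simp [hij], ?_⟩
    rw [hT, Finset.mem_filter]
    refine ⟨hn1, hn2, hp, ⟨hn3 j, ?_⟩, ho⟩
    have hn0 : 1 ≤ n := (Finset.mem_Icc.1 hn1).1
    have hn4 : (n : ℝ) ≤ 3 * N := (Nat.le_floor_iff (by linarith)).1 (Finset.mem_Icc.1 hn1).2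
    have h1 : A j * n + B j ≤ C * n := by
      have := hC j
      nlinarith
    have h2 : ((A j * n + B j : ℕ) : ℝ) ≤ C * n := by exact_mod_cast h1
    refine Om_le hκ (by linarith) (by have := hadm.1 j; positivity) ?_ (hn3 j)
    nlinarith
  have hcard : ∑ q ∈ (univ : Finset (Fin 6 × Fin 6)).filter (fun q => q.1 < q.2), ((T q).card : ℝ) ≥
      c * N / Real.log N ^ 6 := by
    have h1 := (Finset.card_le_card hsub).trans Finset.card_biUnion_le
    have h2 : (((Icc 1 ⌊3 * N⌋₊).filter (fun n : ℕ => N < n ∧ (∀ i, SF (N ^ κ) (A i * n + B i)) ∧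
        ∃ i j, i < j ∧ (A i * n + B i).Prime ∧ Odd (Om (A j * n + B j)))).card : ℝ) ≤
        ∑ q ∈ (univ : Finset (Fin 6 × Fin 6)).filter (fun q => q.1 < q.2), ((T q).card : ℝ) := by
      exact_mod_cast h1
    refine hN.trans (le_trans (le_of_eq ?_) h2)
    congr!
  have hex : ∃ q ∈ (univ : Finset (Fin 6 × Fin 6)).filter (fun q => q.1 < q.2),
      c / 36 * N / Real.log N ^ 6 ≤ ((T q).card : ℝ) := by
    by_contra hcon
    push Not at hcon
    have h1 : ∑ q ∈ (univ : Finset (Fin 6 × Fin 6)).filter (fun q => q.1 < q.2), ((T q).card : ℝ) <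
        ∑ q ∈ (univ : Finset (Fin 6 × Fin 6)).filter (fun q => q.1 < q.2), c / 36 * N / Real.log N ^ 6 := by
      apply Finset.sum_lt_sum_of_nonempty
      · exact ⟨((0 : Fin 6), (1 : Fin 6)), by simp⟩
      · exact hcon
    rw [Finset.sum_const, nsmul_eq_mul] at h1
    have h2 : (((univ : Finset (Fin 6 × Fin 6)).filter (fun q => q.1 < q.2)).card : ℝ) ≤ 36 := by
      have h3 : ((univ : Finset (Fin 6 × Fin 6)).filter (fun q => q.1 < q.2)).card ≤ 36 := by
        refine (Finset.card_filter_le _ _).trans ?_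
        simp
      exact_mod_cast h3
    have h4 : 0 ≤ c / 36 * N / Real.log N ^ 6 := by
      have : (0 : ℝ) ≤ Real.log N ^ 6 := by positivity
      positivity
    have h5 := mul_le_mul_of_nonneg_right h2 h4
    have h6 : 36 * (c / 36 * N / Real.log N ^ 6) = c * N / Real.log N ^ 6 := by ring
    linarith
  obtain ⟨q, hq, hq2⟩ := hex
  rw [Finset.mem_filter] at hq
  refine ⟨q.1, q.2, hq.2, hq2.trans ?_⟩
  rw [Nat.cast_le, ← Set.ncard_coe_finset]
  apply Set.ncard_le_ncard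
  · intro n hn
    rw [hT, Finset.mem_coe, Finset.mem_filter] at hn
    exact ⟨hn.2.1, (Nat.le_floor_iff (by linarith)).1 (Finset.mem_Icc.1 hn.1).2, hn.2.2.1, hn.2.2.2.1, hn.2.2.2.2⟩
  · apply (Set.finite_Icc 1 ⌊3 * N⌋₊).subset
    intro n hn
    have h1 : (0 : ℝ) < n := lt_trans hN0 hn.1
    have h2 : 0 < n := by exact_mod_cast h1
    exact ⟨h2, Nat.le_floor hn.2.1⟩

end Pool.Agent.J4H29
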