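import Mathlib
import Pool.Agent.J4H29.I1

/-! helper29: the iterates of `q ↦ 2 q - 1` in windows. -/

set_option autoImplicit false

open Finset Filter

namespace Pool.Agent.J4H29

/-- the map `q ↦ 2 q - 1` -/
def Sd (x : ℕ) : ℕ := 2 * x - 1

lemma Sd_iter (n k b : ℕ) : Sd^[k] (2 ^ b * n + 1) = 2 ^ (b + k) * n + 1 := by
  induction k generalizing b with
  | zero => simp
  | succ k ih =>
    rw [Function.iterate_succ_apply]
    have h : Sd (2 ^ b * n + 1) = 2 ^ (b + 1) * n + 1 := by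
      unfold Sd
      rw [pow_succ]
      have : 2 * (2 ^ b * n + 1) = 2 ^ b * 2 * n + 2 := by ring
      omega
    rw [h, ih]
    congr 3
    omega

/-- an odd number, at most `R`, of distinct primes larger than `y` -/
def OAP (y : ℝ) (R m : ℕ) : Prop :=
  (Squarefree m ∧ ∀ p : ℕ, p.Prime → p ∣ m → y < p) ∧ Odd (ArithmeticFunction.cardFactors m) ∧
    ArithmeticFunction.cardFactors m ≤ R

lemma OAP.mono {y z : ℝ} {R m : ℕ} (h : OAP z R m) (hyz : y ≤ z) : OAP y R m :=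
  ⟨⟨h.1.1, fun p hp hpm => hyz.trans_lt (h.1.2 p hp hpm)⟩, h.2⟩

/-- a prime and an odd almost prime, in the order `o` -/
def PO (y : ℝ) (R : ℕ) (o : Bool) (p q : ℕ) : Prop :=
  match o with
  | true => p.Prime ∧ OAP y R q
  | false => OAP y R p ∧ q.Prime

lemma PO.mono {y z : ℝ} {R : ℕ} {o : Bool} {p q : ℕ} (h : PO z R o p q) (hyz : y ≤ z) : PO y R o p q := by
  cases o with
  | true => exact ⟨h.1, h.2.mono hyz⟩
  | false => exact ⟨h.1.mono hyz, h.2⟩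

/-- six multipliers -/
theorem mult6 : ∃ (κ : ℝ) (R : ℕ), 0 < κ ∧ ∀ o : Bool, ∀ a : Fin 6 → ℕ, StrictMono a → 0 < a 0 →
    ∃ c : ℝ, 0 < c ∧ ∀ᶠ N : ℝ in atTop, ∃ i j : Fin 6, i < j ∧ c * N / Real.log N ^ 6 ≤
      ({n : ℕ | N < n ∧ (n : ℝ) ≤ 3 * N ∧ PO (N ^ κ) R o (a i * n + 1) (a j * n + 1)}.ncard : ℝ) := by
  obtain ⟨κ, R, hκ, h⟩ := window6
  refine ⟨κ, R, hκ, fun o a ha ha0 => ?_⟩
  have hpos : ∀ i, 1 ≤ a i := fun i => lt_of_lt_of_le ha0 (ha.monotone (Fin.zero_le i))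
  cases o with
  | true =>
    obtain ⟨c, hc, hcN⟩ := h a (fun _ => 1) ⟨hpos, fun i j hij => by
      simpa using (ha.injective.ne hij), fun p hp => ⟨0, fun i => by simpa using hp.one_lt.ne'⟩⟩
    refine ⟨c, hc, ?_⟩
    filter_upwards [hcN] with N hN
    obtain ⟨i, j, hij, h1⟩ := hN
    refine ⟨i, j, hij, h1.trans (le_of_eq ?_)⟩
    congr 2
    ext n
    simp only [Set.mem_ofPred_eq, PO, OAP, APr, SF, Om]
    tauto
  | false =>
    obtain ⟨c, hc, hcN⟩ := h (fun i => a (Fin.rev i)) (fun _ => 1) ⟨fun i => hpos _, fun i j hij => by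
      have h1 : Fin.rev i ≠ Fin.rev j := fun h => hij (Fin.rev_injective h)
      simpa using (ha.injective.ne h1), fun p hp => ⟨0, fun i => by simpa using hp.one_lt.ne'⟩⟩
    refine ⟨c, hc, ?_⟩
    filter_upwards [hcN] with N hN
    obtain ⟨i, j, hij, h1⟩ := hN
    refine ⟨Fin.rev j, Fin.rev i, Fin.rev_lt_rev.2 hij, h1.trans (le_of_eq ?_)⟩
    congr 2
    ext n
    simp only [Set.mem_ofPred_eq, PO, OAP, APr, SF, Om]
    tauto

open Classical in
/-- the exponents `k ≤ T` which occur -/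
noncomputable def KS (κ c : ℝ) (R T : ℕ) (N : ℝ) (o : Bool) : Finset ℕ := (Icc 1 T).filter fun k =>
  c * N / Real.log N ^ 6 ≤ ({q : ℕ | N < q ∧ (q : ℝ) ≤ 2 ^ (T + 2) * N ∧
    PO (N ^ κ) R o q (Sd^[k] q)}.ncard : ℝ)

/-- greedy choice -/
lemma greedy (K : Finset ℕ) (T : ℕ) : ∃ B ⊆ range (T + 1), (∀ x ∈ B, ∀ y ∈ B, x < y → y - x ∉ K) ∧
    ∀ x ∈ range (T + 1), x ∉ B → ∃ b ∈ B, ∃ k ∈ K, x = b + k := by
  induction T with
  | zero =>
    refine ⟨{0}, by simp, ?_, ?_⟩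
    · intro x hx y hy hxy
      rw [mem_singleton] at hx hy
      omega
    · intro x hx hxB
      rw [mem_range] at hx
      rw [mem_singleton] at hxB
      omega
  | succ T ih =>
    obtain ⟨B, hB1, hB2, hB3⟩ := ih
    by_cases h : ∃ b ∈ B, ∃ k ∈ K, T + 1 = b + k
    · refine ⟨B, hB1.trans (range_subset_range.2 (by omega)), hB2, ?_⟩
      intro x hx hxB
      rw [mem_range] at hx
      rcases Nat.lt_or_ge x (T + 1) with h1 | h1
      · exact hB3 x (mem_range.2 h1) hxB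
      · have : x = T + 1 := by omega
        rw [this]
        exact h
    · refine ⟨insert (T + 1) B, ?_, ?_, ?_⟩
      · intro x hx
        rw [mem_insert] at hx
        rcases hx with rfl | hx
        · exact mem_range.2 (by omega)
        · have := mem_range.1 (hB1 hx)
          exact mem_range.2 (by omega)
      · intro x hx y hy hxy hK
        rw [mem_insert] at hx hy
        rcases hx with hx | hx
        · rcases hy with hy | hy
          · omega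
          · have := mem_range.1 (hB1 hy)
            omega
        · rcases hy with hy | hy
          · exact h ⟨x, hx, y - x, hK, by omega⟩
          · exact hB2 x hx y hy hxy hK
      · intro x hx hxB
        rw [mem_range] at hx
        rw [mem_insert, not_or] at hxB
        obtain ⟨b, hb, k, hk, hbk⟩ := hB3 x (mem_range.2 (by omega)) hxB.2
        exact ⟨b, mem_insert_of_mem hb, k, hk, hbk⟩

/-- a set of differences of all six-element sets is large -/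
lemma many_diff (K : Finset ℕ) (T : ℕ)
    (h : ∀ b : Fin 6 → ℕ, StrictMono b → (∀ i, b i ≤ T) → ∃ i j, i < j ∧ b j - b i ∈ K) :
    T ≤ 5 * K.card + 4 := by
  obtain ⟨B, hB1, hB2, hB3⟩ := greedy K T
  have hcard : B.card ≤ 5 := by
    by_contra hcon
    obtain ⟨C, hC1, hC2⟩ := Finset.exists_subset_card_eq (show 6 ≤ B.card by omega)
    obtain ⟨i, j, hij, hK⟩ := h (fun i => C.orderEmbOfFin hC2 i)
      (fun i j hij => (C.orderEmbOfFin hC2).strictMono hij) (fun i => by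
        have := mem_range.1 (hB1 (hC1 (C.orderEmbOfFin_mem hC2 i)))
        omega)
    exact hB2 _ (hC1 (C.orderEmbOfFin_mem hC2 i)) _ (hC1 (C.orderEmbOfFin_mem hC2 j))
      ((C.orderEmbOfFin hC2).strictMono hij) hK
  have hsub : range (T + 1) ⊆ B ∪ (B ×ˢ K).image (fun q => q.1 + q.2) := by
    intro x hx
    by_cases hxB : x ∈ B
    · exact mem_union_left _ hxB
    · obtain ⟨b, hb, k, hk, hbk⟩ := hB3 x hx hxB
      exact mem_union_right _ (mem_image.2 ⟨(b, k), mem_product.2 ⟨hb, hk⟩, hbk.symm⟩)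
  have h1 := (card_le_card hsub).trans (card_union_le _ _)
  have h2 : ((B ×ˢ K).image (fun q => q.1 + q.2)).card ≤ B.card * K.card := by
    refine card_image_le.trans ?_
    rw [card_product]
  rw [card_range] at h1
  have h3 : B.card * K.card ≤ 5 * K.card := Nat.mul_le_mul_right _ hcard
  omega

/-- the iterates -/
theorem iterates {κ : ℝ} {R : ℕ} {o : Bool} (hm : ∀ a : Fin 6 → ℕ, StrictMono a → 0 < a 0 →
    ∃ c : ℝ, 0 < c ∧ ∀ᶠ N : ℝ in atTop, ∃ i j : Fin 6, i < j ∧ c * N / Real.log N ^ 6 ≤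
      ({n : ℕ | N < n ∧ (n : ℝ) ≤ 3 * N ∧ PO (N ^ κ) R o (a i * n + 1) (a j * n + 1)}.ncard : ℝ)) (T : ℕ) :
    ∃ c : ℝ, 0 < c ∧ ∀ᶠ N : ℝ in atTop,
      ∀ b : Fin 6 → ℕ, StrictMono b → (∀ i, b i ≤ T) → ∃ i j, i < j ∧ b j - b i ∈ KS κ c R T N o := by
  classical
  have h1 : ∀ b : Fin 6 → Fin (T + 1), ∃ c : ℝ, 0 < c ∧ (StrictMono b → ∀ᶠ N : ℝ in atTop,
      ∃ i j : Fin 6, i < j ∧ c * N / Real.log N ^ 6 ≤
      ({n : ℕ | N < n ∧ (n : ℝ) ≤ 3 * N ∧ PO (N ^ κ) R o (2 ^ (b i : ℕ) * n + 1)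
        (2 ^ (b j : ℕ) * n + 1)}.ncard : ℝ)) := by
    intro b
    by_cases hb : StrictMono b
    · obtain ⟨c, hc, h⟩ := hm (fun i => 2 ^ (b i : ℕ)) (fun i j hij => Nat.pow_lt_pow_right (by norm_num) (hb hij))
        (by positivity)
      exact ⟨c, hc, fun _ => h⟩
    · exact ⟨1, one_pos, fun h => absurd h hb⟩
  choose f hf0 hf using h1
  obtain ⟨b0, -, hb0⟩ := Finset.exists_min_image (univ : Finset (Fin 6 → Fin (T + 1))) f ⟨fun _ => 0, mem_univ _⟩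
  refine ⟨f b0, hf0 b0, ?_⟩
  have hall : ∀ᶠ N : ℝ in atTop, ∀ b : Fin 6 → Fin (T + 1), StrictMono b →
      ∃ i j : Fin 6, i < j ∧ f b * N / Real.log N ^ 6 ≤
      ({n : ℕ | N < n ∧ (n : ℝ) ≤ 3 * N ∧ PO (N ^ κ) R o (2 ^ (b i : ℕ) * n + 1)
        (2 ^ (b j : ℕ) * n + 1)}.ncard : ℝ) := by
    rw [Filter.eventually_all]
    intro b
    by_cases hb : StrictMono b
    · filter_upwards [hf b hb] with N hN _ using hN
    · exact Eventually.of_forall fun N h => absurd h hb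
  filter_upwards [hall, eventually_ge_atTop (1 : ℝ)] with N hN hN1
  intro b hb hbT
  obtain ⟨i, j, hij, h2⟩ := hN (fun i => ⟨b i, Nat.lt_succ_of_le (hbT i)⟩) (fun i j hij => hb hij)
  refine ⟨i, j, hij, ?_⟩
  have hlt : b i < b j := hb hij
  unfold KS
  rw [mem_filter, mem_Icc]
  refine ⟨⟨by omega, by have := hbT j; omega⟩, ?_⟩
  have h3 : f b0 * N / Real.log N ^ 6 ≤ f (fun i => ⟨b i, Nat.lt_succ_of_le (hbT i)⟩) * N / Real.log N ^ 6 := by
    have h4 := hb0 (fun i => ⟨b i, Nat.lt_succ_of_le (hbT i)⟩) (mem_univ _)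
    have h5 : (0 : ℝ) ≤ Real.log N ^ 6 := by positivity
    gcongr
  refine h3.trans (h2.trans ?_)
  rw [Nat.cast_le]
  refine Set.ncard_le_ncard_of_injOn (fun n => 2 ^ b i * n + 1) ?_ ?_ ?_
  · intro n hn
    obtain ⟨hn1, hn2, hn3⟩ := hn
    have hpow : (1 : ℝ) ≤ 2 ^ b i := one_le_pow₀ (by norm_num)
    have hpow2 : (2 : ℝ) ^ b i ≤ 2 ^ T := pow_le_pow_right₀ (by norm_num) (hbT i)
    have hn0 : (0 : ℝ) ≤ n := Nat.cast_nonneg _
    refine ⟨?_, ?_, ?_⟩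
    · push_cast
      nlinarith
    · push_cast
      have h6 : (2 : ℝ) ^ (T + 2) = 4 * 2 ^ T := by ring
      rw [h6]
      have h7 : (2 : ℝ) ^ b i * n ≤ 2 ^ T * (3 * N) := mul_le_mul hpow2 hn2 hn0 (by positivity)
      nlinarith
    · rw [Sd_iter, show b i + (b j - b i) = b j by omega]
      exact hn3
  · intro x _ y _ hxy
    have : 2 ^ b i * x = 2 ^ b i * y := by
      simpa using hxy
    exact Nat.eq_of_mul_eq_mul_left (by positivity) this
  · apply (Set.finite_Icc 0 ⌊2 ^ (T + 2) * N⌋₊).subset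
    intro q hq
    exact ⟨Nat.zero_le _, Nat.le_floor hq.2.1⟩

/-- superparticular ratios -/
theorem superp {κ : ℝ} {R : ℕ} {o : Bool} (hκ : 0 < κ) (hm : ∀ a : Fin 6 → ℕ, StrictMono a → 0 < a 0 →
    ∃ c : ℝ, 0 < c ∧ ∀ᶠ N : ℝ in atTop, ∃ i j : Fin 6, i < j ∧ c * N / Real.log N ^ 6 ≤
      ({n : ℕ | N < n ∧ (n : ℝ) ≤ 3 * N ∧ PO (N ^ κ) R o (a i * n + 1) (a j * n + 1)}.ncard : ℝ)) :
    ∃ c : ℝ, 0 < c ∧ ∀ᶠ N : ℝ in atTop, ∃ e : ℕ, 1 ≤ e ∧ e ≤ 80 ∧ c * N / Real.log N ^ 6 ≤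
      ({p : ℕ | N < p ∧ ∃ q : ℕ, p < q ∧ (q : ℝ) ≤ 4 * N ∧ (e + 1) * p = e * q + 1 ∧
        PO (N ^ (κ / 2)) R o p q}.ncard : ℝ) := by
  obtain ⟨c, hc, h⟩ := hm ![315, 320, 324, 330, 336, 360] (by decide) (by norm_num)
  refine ⟨c / 315, by positivity, ?_⟩
  have ht : Tendsto (fun N : ℝ => N / 315) atTop atTop := tendsto_id.atTop_div_const (by norm_num)
  filter_upwards [ht.eventually h, eventually_ge_atTop (1000000 : ℝ)] with N hN hN1
  obtain ⟨i, j, hij, h2⟩ := hN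
  have hr : ∀ i j : Fin 6, i < j → ∃ e ∈ Finset.Icc 1 80,
      (e + 1) * (![315, 320, 324, 330, 336, 360] : Fin 6 → ℕ) i = e * (![315, 320, 324, 330, 336, 360] : Fin 6 → ℕ) j := by
    decide +kernel
  obtain ⟨e, he, he3⟩ := hr i j hij
  obtain ⟨he1, he2⟩ := Finset.mem_Icc.1 he
  refine ⟨e, he1, he2, ?_⟩
  have h315 : ∀ i : Fin 6, 315 ≤ (![315, 320, 324, 330, 336, 360] : Fin 6 → ℕ) i ∧
      (![315, 320, 324, 330, 336, 360] : Fin 6 → ℕ) i ≤ 360 := by decide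
  have hlt : ∀ i j : Fin 6, i < j → (![315, 320, 324, 330, 336, 360] : Fin 6 → ℕ) i <
      (![315, 320, 324, 330, 336, 360] : Fin 6 → ℕ) j := by decide
  generalize (![315, 320, 324, 330, 336, 360] : Fin 6 → ℕ) = a at *
  have hN0 : 0 < N := by linarith
  have hlog : 0 < Real.log (N / 315) := Real.log_pos (by linarith)
  have h3 : c / 315 * N / Real.log N ^ 6 ≤ c * (N / 315) / Real.log (N / 315) ^ 6 := by
    have h4 : Real.log (N / 315) ≤ Real.log N := Real.log_le_log (by positivity) (by linarith)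
    have h5 : c / 315 * N = c * (N / 315) := by ring
    rw [h5]
    gcongr
  refine h3.trans (h2.trans ?_)
  have hκN : N ^ (κ / 2) ≤ (N / 315) ^ κ := by
    have h4 : N ^ (1 / 2 : ℝ) ≤ N / 315 := by
      rw [← Real.sqrt_eq_rpow, Real.sqrt_le_left (by positivity)]
      nlinarith
    calc N ^ (κ / 2) = (N ^ (1 / 2 : ℝ)) ^ κ := by
          rw [← Real.rpow_mul hN0.le]
          congr 1
          ring
      _ ≤ (N / 315) ^ κ := Real.rpow_le_rpow (by positivity) h4 hκ.le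
  rw [Nat.cast_le]
  refine Set.ncard_le_ncard_of_injOn (fun n => a i * n + 1) ?_ ?_ ?_
  · intro n hn
    obtain ⟨hn1, hn2, hn3⟩ := hn
    have ha1 : (315 : ℝ) ≤ a i := by exact_mod_cast (h315 i).1
    have ha2 : (a j : ℝ) ≤ 360 := by exact_mod_cast (h315 j).2
    have hn0 : (0 : ℝ) < n := lt_trans (by positivity) hn1
    have hn0' : 0 < n := by exact_mod_cast hn0
    refine ⟨?_, a j * n + 1, ?_, ?_, ?_, hn3.mono hκN⟩
    · push_cast
      have : N / 315 * 315 = N := by field_simp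
      nlinarith
    · have := Nat.mul_lt_mul_of_pos_right (hlt i j hij) hn0'
      omega
    · push_cast
      have : N / 315 * 315 = N := by field_simp
      nlinarith
    · have : (e + 1) * (a i * n + 1) = ((e + 1) * a i) * n + (e + 1) := by ring
      rw [this, he3]
      ring
  · intro x _ y _ hxy
    have : a i * x = a i * y := by
      simpa using hxy
    exact Nat.eq_of_mul_eq_mul_left (by have := (h315 i).1; omega) this
  · apply (Set.finite_Icc 0 ⌊4 * N⌋₊).subset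
    intro p hp
    obtain ⟨q, hpq, hq, -⟩ := hp.2
    refine ⟨Nat.zero_le _, Nat.le_floor ?_⟩
    have : (p : ℝ) < q := by exact_mod_cast hpq
    linarith

/-- the result -/
theorem odd_iterates : ∃ (κ : ℝ) (R : ℕ), 0 < κ ∧ ∀ o : Bool,
    (∀ a : Fin 6 → ℕ, StrictMono a → 0 < a 0 →
      ∃ c : ℝ, 0 < c ∧ ∀ᶠ N : ℝ in atTop, ∃ i j : Fin 6, i < j ∧ c * N / Real.log N ^ 6 ≤
        ({n : ℕ | N < n ∧ (n : ℝ) ≤ 3 * N ∧ PO (N ^ κ) R o (a i * n + 1) (a j * n + 1)}.ncard : ℝ)) ∧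
    (∀ T : ℕ, ∃ c : ℝ, 0 < c ∧ ∀ᶠ N : ℝ in atTop, T ≤ 5 * (KS κ c R T N o).card + 4 ∧
      ∀ d : ℕ, 1 ≤ d → 5 * d ≤ T → ∃ k ∈ KS κ c R T N o, d ∣ k ∧ k ≤ 5 * d) ∧
    ∃ c : ℝ, 0 < c ∧ ∀ᶠ N : ℝ in atTop, ∃ e : ℕ, 1 ≤ e ∧ e ≤ 80 ∧ c * N / Real.log N ^ 6 ≤
      ({p : ℕ | N < p ∧ ∃ q : ℕ, p < q ∧ (q : ℝ) ≤ 4 * N ∧ (e + 1) * p = e * q + 1 ∧
        PO (N ^ κ) R o p q}.ncard : ℝ) := by
  obtain ⟨κ, R, hκ, h⟩ := mult6
  refine ⟨κ / 2, R, by positivity, fun o => ?_⟩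
  have hm : ∀ a : Fin 6 → ℕ, StrictMono a → 0 < a 0 →
      ∃ c : ℝ, 0 < c ∧ ∀ᶠ N : ℝ in atTop, ∃ i j : Fin 6, i < j ∧ c * N / Real.log N ^ 6 ≤
        ({n : ℕ | N < n ∧ (n : ℝ) ≤ 3 * N ∧ PO (N ^ (κ / 2)) R o (a i * n + 1) (a j * n + 1)}.ncard : ℝ) := by
    intro a ha ha0
    obtain ⟨c, hc, hcN⟩ := h o a ha ha0
    refine ⟨c, hc, ?_⟩
    filter_upwards [hcN, eventually_ge_atTop (1 : ℝ)] with N hN hN1
    obtain ⟨i, j, hij, h1⟩ := hN
    refine ⟨i, j, hij, h1.trans ?_⟩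
    rw [Nat.cast_le]
    apply Set.ncard_le_ncard
    · intro n hn
      exact ⟨hn.1, hn.2.1, hn.2.2.mono (Real.rpow_le_rpow_of_exponent_le hN1 (by linarith))⟩
    · apply (Set.finite_Icc 0 ⌊3 * N⌋₊).subset
      intro n hn
      exact ⟨Nat.zero_le _, Nat.le_floor hn.2.1⟩
  refine ⟨hm, fun T => ?_, superp hκ (h o)⟩
  obtain ⟨c, hc, hcN⟩ := iterates hm T
  refine ⟨c, hc, ?_⟩
  filter_upwards [hcN] with N hN
  refine ⟨many_diff _ T hN, ?_⟩
  intro d hd hdT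
  obtain ⟨i, j, hij, hk⟩ := hN (fun i => (i : ℕ) * d)
    (fun i j hij => Nat.mul_lt_mul_of_pos_right hij hd)
    (fun i => by
      have h1 : (i : ℕ) ≤ 5 := by omega
      exact (Nat.mul_le_mul_right d h1).trans hdT)
  refine ⟨_, hk, ⟨(j : ℕ) - i, by rw [Nat.mul_sub, mul_comm d, mul_comm d]⟩, ?_⟩
  have h1 : (j : ℕ) ≤ 5 := by omega
  have h2 := Nat.mul_le_mul_right d h1
  exact (Nat.sub_le _ _).trans h2

end Pool.Agent.J4H29
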